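import Mathlib
import Pool.Agent.H69.Q1.Dobr

set_option autoImplicit false
open Finset

/-! # The two sides of an exploration path

* `met L c i j` : labels met by the iterates of `pv L` from `c` between the times `i` and `j`.
* `side_open`, `side_dual` : the vertices (faces) of the path are joined by the open (closed) labels
  met in between.
* `DEnv.visited_iff` : the corners visited by the exploration path of an abstract Dobrushin
  environment; `DEnv.visited_iff_co` in terms of connections.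
* `DEnv.open_arm`, `DEnv.dual_arm` : arms from a visited corner. -/

namespace Pool.Agent.H39.Q1

open Pool.Agent.H75.Perc Pool.Agent.H75.TwoArm Pool.Agent.H99.NC Pool.Agent.H69.Q1
open Pool.Agent.H75.TwoArm.StrandAux hiding vx_nxC

/-- Labels met by the iterates of `pv L` from `c` between the times `i` and `j`. -/
noncomputable def met (L : Finset (ℤ × ℤ)) (c : ℤ × ℤ) (i j : ℕ) : Finset (ℤ × ℤ) :=
  (Ico i j).image (fun k => plab ((pv L)^[k] c))

lemma mem_met {L : Finset (ℤ × ℤ)} {c : ℤ × ℤ} {i j : ℕ} {e : ℤ × ℤ} :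
    e ∈ met L c i j ↔ ∃ k, (i ≤ k ∧ k < j) ∧ plab ((pv L)^[k] c) = e := by
  unfold met
  simp only [mem_image, mem_Ico]

lemma met_mono {L : Finset (ℤ × ℤ)} {c : ℤ × ℤ} {i j i' j' : ℕ} (h1 : i' ≤ i) (h2 : j ≤ j') :
    met L c i j ⊆ met L c i' j' := by
  intro e he
  obtain ⟨k, hk, h⟩ := mem_met.1 he
  exact mem_met.2 ⟨k, ⟨by omega, by omega⟩, h⟩

lemma odd_plab (z : ℤ × ℤ) : ((plab z).1 + (plab z).2) % 2 = 1 := by
  rw [← lab_pv ∅ z]
  exact odd_lab _

lemma odd_met {L : Finset (ℤ × ℤ)} {c : ℤ × ℤ} {i j : ℕ} {e : ℤ × ℤ} (h : e ∈ met L c i j) :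
    (e.1 + e.2) % 2 = 1 := by
  obtain ⟨k, -, rfl⟩ := mem_met.1 h
  exact odd_plab _

/-- one step of `pv` -/
lemma step_pv {L M : Finset (ℤ × ℤ)} {z : ℤ × ℤ} (h : plab z ∈ M) :
    Co (L ∩ M) (vx z) (vx (pv L z)) ∧ Co (du M L) (fi z) (fi (pv L z)) := by
  have h0 : lab (pv L z) = plab z := lab_pv L z
  have h1 : nx L (pv L z) = z := nx_pv L z
  by_cases hl : plab z ∈ L
  · have h2 : nxO (pv L z) = z := (nx_pv_aux L z).1 hl
    have h3 := vx_nxO (pv L z)
    rw [h2, h0] at h3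
    have h4 := fi_nxO (pv L z)
    rw [h2] at h4
    refine ⟨?_, by rw [h4]; exact Co.refl _ _⟩
    exact Co.symm (Relation.ReflTransGen.single ⟨h3.1, by rw [h3.2]; exact mem_inter.2 ⟨hl, h⟩⟩)
  · have h2 : nxC (pv L z) = z := (nx_pv_aux L z).2 hl
    have h3 := fi_nxC (pv L z)
    rw [h2, h0] at h3
    have h4 := Pool.Agent.H75.TwoArm.StrandAux.vx_nxC (pv L z)
    rw [h2] at h4
    refine ⟨by rw [h4]; exact Co.refl _ _, ?_⟩
    exact Co.symm (Relation.ReflTransGen.single ⟨h3.1, by rw [h3.2]; exact mem_du h hl⟩)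

/-- **The open side**: the vertices of the path between the times `i` and `j` are joined by open
labels met between these times. -/
theorem side_open (L : Finset (ℤ × ℤ)) (c : ℤ × ℤ) {i j : ℕ} (h : i ≤ j) :
    Co (L ∩ met L c i j) (vx ((pv L)^[i] c)) (vx ((pv L)^[j] c)) := by
  induction j, h using Nat.le_induction with
  | base => exact Co.refl _ _
  | succ j hj ih =>
    rw [Function.iterate_succ_apply']
    refine (ih.mono (inter_subset_inter_left (met_mono le_rfl (Nat.le_succ j)))).trans ?_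
    exact (step_pv (mem_met.2 ⟨j, ⟨hj, Nat.lt_succ_self j⟩, rfl⟩)).1

/-- **The dual side**. -/
theorem side_dual (L : Finset (ℤ × ℤ)) (c : ℤ × ℤ) {i j : ℕ} (h : i ≤ j) :
    Co (du (met L c i j) L) (fi ((pv L)^[i] c)) (fi ((pv L)^[j] c)) := by
  induction j, h using Nat.le_induction with
  | base => exact Co.refl _ _
  | succ j hj ih =>
    rw [Function.iterate_succ_apply']
    refine (ih.mono (du_mono_left (met_mono le_rfl (Nat.le_succ j)))).trans ?_
    exact (step_pv (mem_met.2 ⟨j, ⟨hj, Nat.lt_succ_self j⟩, rfl⟩)).2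

/-! ### The corners visited by the exploration path of an abstract environment -/

lemma pv_iterate_inj {L : Finset (ℤ × ℤ)} {n : ℕ} {a b : ℤ × ℤ} (h : (pv L)^[n] a = (pv L)^[n] b) :
    a = b := (pv_inj L).iterate n h

/-- The corners of the orbit strictly after `β` and before the return to `α`. -/
def Back (L : Finset (ℤ × ℤ)) (α β c : ℤ × ℤ) : Prop :=
  ∃ j, 0 < j ∧ (pv L)^[j] β = c ∧ ∀ k, 0 < k → k ≤ j → (pv L)^[k] β ≠ α

namespace VisAux

/-- the orbit of a corner is periodic -/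
lemma exists_period (L : Finset (ℤ × ℤ)) (c : ℤ × ℤ) : ∃ p, 0 < p ∧ (pv L)^[p] c = c := by
  have h : InOrb (nx L) c (nx L c) := inOrb_nx L c
  have h1 : InOrb (nx L) (nx L c) c := inOrb_symm h
  rw [← inOrb_pv_iff] at h1
  have h2 : InOrb (pv L) c (nx L c) := inOrb_pv_iff.2 h
  obtain ⟨i, hi⟩ := h1
  obtain ⟨j, hj⟩ := h2
  by_cases hij : i + j = 0
  · refine ⟨1, one_pos, ?_⟩
    have hi0 : i = 0 := by omega
    subst hi0
    have h3 : nx L c = c := hi
    rw [Function.iterate_one]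
    nth_rewrite 1 [← h3]
    exact pv_nx L c
  · refine ⟨i + j, by omega, ?_⟩
    rw [Function.iterate_add_apply, hj, hi]

end VisAux

end Pool.Agent.H39.Q1

namespace Pool.Agent.H69.Q1.DEnv

open Pool.Agent.H75.Perc Pool.Agent.H75.TwoArm Pool.Agent.H99.NC Pool.Agent.H39.Q1
open Pool.Agent.H39.Q1.VisAux

variable (X : Pool.Agent.H69.Q1.DEnv)

/-- Labels met by the exploration path between the times `i` and `j`. -/
noncomputable def metE (ω : Finset (ℤ × ℤ)) (i j : ℕ) : Finset (ℤ × ℤ) := met (ω ∪ X.W) X.α i j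

lemma mem_metE {ω : Finset (ℤ × ℤ)} {i j : ℕ} {e : ℤ × ℤ} :
    e ∈ X.metE ω i j ↔ ∃ k, (i ≤ k ∧ k < j) ∧ plab (X.cor ω k) = e := mem_met

theorem side_open (ω : Finset (ℤ × ℤ)) {i j : ℕ} (h : i ≤ j) :
    Co ((ω ∪ X.W) ∩ X.metE ω i j) (vx (X.cor ω i)) (vx (X.cor ω j)) :=
  Pool.Agent.H39.Q1.side_open _ _ h

theorem side_dual (ω : Finset (ℤ × ℤ)) {i j : ℕ} (h : i ≤ j) :
    Co (du (X.metE ω i j) (ω ∪ X.W)) (fi (X.cor ω i)) (fi (X.cor ω j)) :=
  Pool.Agent.H39.Q1.side_dual _ _ h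

/-- The corner `c` is visited by the exploration path. -/
def Visited (ω : Finset (ℤ × ℤ)) (c : ℤ × ℤ) : Prop := ∃ i ≤ X.len ω, X.cor ω i = c

/-- **The visited corners**: the orbit of `α` without the part strictly between `β` and `α`. -/
theorem visited_iff {ω : Finset (ℤ × ℤ)} (hω : ω ⊆ X.E) (hne : X.α ≠ X.β) {c : ℤ × ℤ} :
    X.Visited ω c ↔ InOrb (pv (ω ∪ X.W)) X.α c ∧ ¬ Back (ω ∪ X.W) X.α X.β c := by
  constructor
  · rintro ⟨i, hi, rfl⟩
    refine ⟨⟨i, rfl⟩, ?_⟩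
    rintro ⟨j, hj, hjc, hk⟩
    -- `cor (j + len) = cor i`
    have h1 : X.cor ω (j + X.len ω) = X.cor ω i := by
      rw [X.cor_add, X.cor_len hω]; exact hjc
    have h2 : X.cor ω (j + X.len ω - i) = X.α := by
      have h3 : (pv (ω ∪ X.W))^[i] (X.cor ω (j + X.len ω - i)) = (pv (ω ∪ X.W))^[i] X.α := by
        rw [← X.cor_add, Nat.add_sub_cancel' (by omega), h1]; rfl
      exact pv_iterate_inj h3
    by_cases h4 : X.len ω ≤ j + X.len ω - i
    · have h5 : (pv (ω ∪ X.W))^[j - i] X.β = X.α := by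
        rw [← X.cor_len hω, ← X.cor_add]
        rw [← h2]
        congr 1
        omega
      rcases Nat.eq_zero_or_pos (j - i) with h6 | h6
      · rw [h6] at h5
        exact hne h5.symm
      · exact hk (j - i) h6 (by omega) h5
    · have h5 : j + X.len ω - i = 0 := X.cor_inj hω (by omega) (by omega) h2
      omega
  · rintro ⟨⟨m, hm⟩, hb⟩
    classical
    have hex := exists_period (ω ∪ X.W) X.α
    set T := Nat.find hex with hT
    obtain ⟨hT0, hTp⟩ := Nat.find_spec hex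
    have hTmin : ∀ t, 0 < t → t < T → (pv (ω ∪ X.W))^[t] X.α ≠ X.α := fun t h1 h2 h3 =>
      Nat.find_min hex h2 ⟨h1, h3⟩
    have hlen : X.len ω < T := by
      by_contra hcon
      push Not at hcon
      have h1 : X.cor ω T = X.cor ω 0 := hTp
      have := X.cor_inj hω hcon (Nat.zero_le _) h1
      omega
    have hper : ∀ q i, (pv (ω ∪ X.W))^[i + T * q] X.α = (pv (ω ∪ X.W))^[i] X.α := by
      intro q
      induction q with
      | zero => intro i; simp
      | succ q ih =>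
        intro i
        have h1 : i + T * (q + 1) = (i + T * q) + T := by ring
        rw [h1, Function.iterate_add_apply, hTp, ih]
    have hmod : (pv (ω ∪ X.W))^[m % T] X.α = c := by
      rw [← hm, ← hper (m / T) (m % T), Nat.mod_add_div]
    by_cases hi : m % T ≤ X.len ω
    · exact ⟨m % T, hi, hmod⟩
    · exfalso
      push Not at hi
      apply hb
      refine ⟨m % T - X.len ω, by omega, ?_, ?_⟩
      · rw [← X.cor_len hω, ← X.cor_add, Nat.sub_add_cancel hi.le]
        exact hmod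
      · intro k hk1 hk2 hk3
        rw [← X.cor_len hω, ← X.cor_add] at hk3
        exact hTmin _ (by omega) (lt_of_le_of_lt (by omega) (Nat.mod_lt m hT0)) hk3

/-- **The visited corners in terms of connections** (`F` = any finite set of labels which contains
the labels met by the orbit of `α`). -/
theorem visited_iff_co {ω F : Finset (ℤ × ℤ)} (hω : ω ⊆ X.E) (hne : X.α ≠ X.β)
    (hF : ∀ i, lab ((nx (ω ∪ X.W))^[i] X.α) ∈ F) {c : ℤ × ℤ} :
    X.Visited ω c ↔ Co (ω ∪ X.W) (vx X.α) (vx c) ∧ Co (du F (ω ∪ X.W)) (fi X.α) (fi c) ∧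
      ¬ Back (ω ∪ X.W) X.α X.β c := by
  rw [X.visited_iff hω hne, inOrb_pv_iff, inOrb_iff hF, and_assoc]

/-! ### Arms from a visited corner -/

/-- The box of radius `r` around `u`. -/
def inR (r : ℤ) (u v : ℤ × ℤ) : Prop := inB (u.1 - r) (u.1 + r) (u.2 - r) (u.2 + r) v

/-- The labels of the box of radius `r` around `u`. -/
noncomputable def BR (r : ℤ) (u : ℤ × ℤ) : Finset (ℤ × ℤ) :=
  Bx (u.1 - r) (u.1 + r) (u.2 - r) (u.2 + r)

/-- A connection which leaves the box of radius `r` around its starting point contains an arm. -/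
lemma arm_of_co {η : Finset (ℤ × ℤ)} {u v : ℤ × ℤ} {r : ℤ} (hr : 0 ≤ r) (h : Co η u v)
    (hv : ¬ inR r u v) : ∃ z, (|z.1 - u.1| = r ∨ |z.2 - u.2| = r) ∧ inR r u z ∧
      Co (η ∩ BR r u) u z := by
  have hu : inR r u u := by unfold inR inB; omega
  obtain ⟨z, z', h1, h2, h3, h4, -⟩ := exit_co (X := inR r u) h hu hv
  refine ⟨z, ?_, h1, CoX.box (fun y hy => hy) h4 hu⟩
  have h5 := unit_cases h3.1
  unfold inR inB at h1 h2
  have h6 : z.1 - u.1 = r ∨ z.1 - u.1 = -r ∨ z.2 - u.2 = r ∨ z.2 - u.2 = -r := by omega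
  rcases h6 with h6 | h6 | h6 | h6
  · left; rw [h6, abs_of_nonneg hr]
  · left; rw [h6, abs_neg, abs_of_nonneg hr]
  · right; rw [h6, abs_of_nonneg hr]
  · right; rw [h6, abs_neg, abs_of_nonneg hr]

/-- **Open arm**: if the path visits `c`, the starting vertex is not in the box of radius `r` around
the vertex of `c` and there are no wired labels in this box, then there is an open arm of free edges
from the vertex of `c` to distance `r`. -/
theorem open_arm {ω : Finset (ℤ × ℤ)} {c : ℤ × ℤ} (hc : X.Visited ω c) {r : ℤ} (hr : 0 ≤ r)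
    (hα : ¬ inR r (vx c) (vx X.α)) (hW : Disjoint X.W (BR r (vx c))) :
    ∃ z, (|z.1 - (vx c).1| = r ∨ |z.2 - (vx c).2| = r) ∧ inR r (vx c) z ∧
      Co (ω ∩ BR r (vx c)) (vx c) z := by
  obtain ⟨i, -, rfl⟩ := hc
  have h1 := (X.side_open ω (Nat.zero_le i)).mono inter_subset_left
  obtain ⟨z, h2, h3, h4⟩ := arm_of_co hr h1.symm hα
  refine ⟨z, h2, h3, h4.mono ?_⟩
  intro e he
  rw [mem_inter, mem_union] at he
  rw [mem_inter]
  rcases he.1 with h5 | h5
  · exact ⟨h5, he.2⟩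
  · exact absurd he.2 (disjoint_left.1 hW h5)

/-- **Dual arm**: if the path visits `c`, the starting face is not in the box of radius `r` around
the face of `c` and all labels of this box are labels of the environment, then there is a dual arm of
closed free edges from the face of `c` to distance `r`. -/
theorem dual_arm {ω : Finset (ℤ × ℤ)} {c : ℤ × ℤ} (hc : X.Visited ω c) {r : ℤ} (hr : 0 ≤ r)
    (hα : ¬ inR r (fi c) (fi X.α))
    (hD : ∀ e : ℤ × ℤ, e + (1, 1) ∈ BR r (fi c) → e ∈ X.E ∪ X.W) :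
    ∃ z, (|z.1 - (fi c).1| = r ∨ |z.2 - (fi c).2| = r) ∧ inR r (fi c) z ∧
      Co (du X.E ω ∩ BR r (fi c)) (fi c) z := by
  obtain ⟨i, -, rfl⟩ := hc
  have h1 := X.side_dual ω (Nat.zero_le i)
  obtain ⟨z, h2, h3, h4⟩ := arm_of_co hr h1.symm hα
  refine ⟨z, h2, h3, h4.mono ?_⟩
  intro e he
  rw [mem_inter] at he ⊢
  refine ⟨?_, he.2⟩
  unfold du at he ⊢
  rw [mem_map] at he ⊢
  obtain ⟨⟨l, hl, hle⟩, hb⟩ := he
  rw [mem_sdiff, mem_union, not_or] at hl
  refine ⟨l, mem_sdiff.2 ⟨?_, hl.2.1⟩, hle⟩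
  have h5 : l + (1, 1) ∈ BR r (fi (X.cor ω i)) := by
    have : (sh1 l) = l + (1, 1) := rfl
    rw [← this, hle]; exact hb
  have h6 := hD l h5
  rw [mem_union] at h6
  exact h6.resolve_right hl.2.2

end Pool.Agent.H69.Q1.DEnv

/-! ### Domains given by a finite set of labels and two corners of one contour -/

namespace Pool.Agent.H39.Q1

open Pool.Agent.H75.Perc Pool.Agent.H75.TwoArm Pool.Agent.H99.NC Pool.Agent.H69.Q1

/-- A finite set `G` of labels (edges of the discrete domain) and two corners `α`, `β` on the same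
contour of `G` (orbit of `pv G`). -/
structure LDom where
  /-- labels of the edges -/
  G : Finset (ℤ × ℤ)
  /-- starting corner -/
  α : ℤ × ℤ
  /-- final corner -/
  β : ℤ × ℤ
  ne : α ≠ β
  orb : InOrb (pv G) β α

namespace LDom

variable (Y : LDom)

/-- Number of steps of the contour from `β` to `α`. -/
noncomputable def m : ℕ := sInf {i | (pv Y.G)^[i] Y.β = Y.α}

lemma contour_m : (pv Y.G)^[Y.m] Y.β = Y.α :=
  Nat.sInf_mem (s := {i | (pv Y.G)^[i] Y.β = Y.α}) Y.orb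

lemma contour_ne {i : ℕ} (h : i < Y.m) : (pv Y.G)^[i] Y.β ≠ Y.α :=
  fun h1 => Nat.notMem_of_lt_sInf h h1

lemma m_pos : 0 < Y.m := by
  rcases Nat.eq_zero_or_pos Y.m with h | h
  · have := Y.contour_m
    rw [h] at this
    exact absurd this.symm Y.ne
  · exact h

lemma lt_m_iff {i : ℕ} : i < Y.m ↔ ∀ j ≤ i, (pv Y.G)^[j] Y.β ≠ Y.α := by
  constructor
  · intro h j hj
    exact Y.contour_ne (by omega)
  · intro h
    by_contra hcon
    push Not at hcon
    exact h _ hcon Y.contour_m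

/-- The wired labels: the edges of `G` met by the contour from `β` to `α`. -/
noncomputable def Wd : Finset (ℤ × ℤ) := Y.G ∩ met Y.G Y.β 0 Y.m

/-- The free labels. -/
noncomputable def Fr : Finset (ℤ × ℤ) := Y.G \ Y.Wd

lemma mem_Wd {e : ℤ × ℤ} : e ∈ Y.Wd ↔ e ∈ Y.G ∧ ∃ i, (∀ j ≤ i, (pv Y.G)^[j] Y.β ≠ Y.α) ∧
    e = plab ((pv Y.G)^[i] Y.β) := by
  unfold Wd
  rw [mem_inter, mem_met]
  constructor
  · rintro ⟨h1, k, ⟨-, h2⟩, h3⟩
    exact ⟨h1, k, Y.lt_m_iff.1 h2, h3.symm⟩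
  · rintro ⟨h1, k, h2, h3⟩
    exact ⟨h1, k, ⟨Nat.zero_le _, Y.lt_m_iff.2 h2⟩, h3.symm⟩

/-- **The contour from `β` to `α` is the same in all configurations.** -/
lemma contour_eq {ω : Finset (ℤ × ℤ)} (hω : ω ⊆ Y.Fr) {i : ℕ} (h : i ≤ Y.m) :
    (pv (ω ∪ Y.Wd))^[i] Y.β = (pv Y.G)^[i] Y.β := by
  induction i with
  | zero => rfl
  | succ i ih =>
    rw [Function.iterate_succ_apply', Function.iterate_succ_apply', ih (by omega)]
    refine pv_eq_of ?_
    rw [mem_union]
    constructor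
    · rintro (h1 | h1)
      · exact (mem_sdiff.1 (hω h1)).1
      · exact (mem_inter.1 h1).1
    · intro h1
      exact Or.inr (mem_inter.2 ⟨h1, mem_met.2 ⟨i, ⟨Nat.zero_le _, by omega⟩, rfl⟩⟩)

/-- The environment of the domain. -/
noncomputable def toDEnv : DEnv where
  E := Y.Fr
  W := Y.Wd
  α := Y.α
  β := Y.β
  disj := by unfold Fr; exact sdiff_disjoint
  reach := by
    intro ω hω
    have h1 : InOrb (pv (ω ∪ Y.Wd)) Y.β Y.α := ⟨Y.m, by rw [Y.contour_eq hω le_rfl, Y.contour_m]⟩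
    exact inOrb_pv_iff.2 (inOrb_symm (inOrb_pv_iff.1 h1))

@[simp] lemma toDEnv_E : Y.toDEnv.E = Y.Fr := rfl
@[simp] lemma toDEnv_W : Y.toDEnv.W = Y.Wd := rfl
@[simp] lemma toDEnv_α : Y.toDEnv.α = Y.α := rfl
@[simp] lemma toDEnv_β : Y.toDEnv.β = Y.β := rfl

/-- The corners of the orbit which are not on the exploration path are the contour corners strictly
between `β` and `α`. -/
lemma back_iff {ω : Finset (ℤ × ℤ)} (hω : ω ⊆ Y.Fr) {c : ℤ × ℤ} :
    Back (ω ∪ Y.Wd) Y.α Y.β c ↔ ∃ j, 0 < j ∧ j < Y.m ∧ (pv Y.G)^[j] Y.β = c := by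
  constructor
  · rintro ⟨j, h1, h2, h3⟩
    have hj : j < Y.m := by
      by_contra hcon
      push Not at hcon
      refine h3 Y.m Y.m_pos hcon ?_
      rw [Y.contour_eq hω le_rfl, Y.contour_m]
    exact ⟨j, h1, hj, by rw [← h2, Y.contour_eq hω hj.le]⟩
  · rintro ⟨j, h1, h2, h3⟩
    refine ⟨j, h1, by rw [Y.contour_eq hω h2.le, h3], ?_⟩
    intro k hk1 hk2
    rw [Y.contour_eq hω (by omega)]
    exact Y.contour_ne (by omega)

/-- **Visit criterion.** `F` = any finite set containing the labels met by the orbit of `α`. -/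
theorem visited_iff {ω F : Finset (ℤ × ℤ)} (hω : ω ⊆ Y.Fr)
    (hF : ∀ i, lab ((nx (ω ∪ Y.Wd))^[i] Y.α) ∈ F) {c : ℤ × ℤ} :
    Y.toDEnv.Visited ω c ↔ Co (ω ∪ Y.Wd) (vx Y.α) (vx c) ∧
      Co (du F (ω ∪ Y.Wd)) (fi Y.α) (fi c) ∧ ¬ ∃ j, 0 < j ∧ j < Y.m ∧ (pv Y.G)^[j] Y.β = c := by
  rw [← Y.back_iff hω]
  exact Y.toDEnv.visited_iff_co hω Y.ne hF

end LDom

end Pool.Agent.H39.Q1
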