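import Mathlib

set_option autoImplicit false

/-! # Localisation, abstract part

Two maps `f₁`, `f₂` (steps of strands) which agree outside a set `S`, with finite orbits, and a larger
set `Q`. A crossing entrance is a point `s` of `S` which is reached, without meeting `S`, from a point
outside `Q`. If there are at most two crossing entrances and they are in the same orbit for both maps, or
in different orbits for both maps, then the exits from `Q` are the same for both maps. -/

namespace Pool.Agent.H39.Q1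

variable {α : Type*}

/-- `y` is reached from `c` by `n` steps of `f`, all taken at points of `P` -/
def Rch (P : α → Prop) (f : α → α) (c y : α) (n : ℕ) : Prop := f^[n] c = y ∧ ∀ i < n, P (f^[i] c)

/-- crossing entrances of `S` -/
def CE (inS inQ : α → Prop) (f : α → α) (s : α) : Prop :=
  inS s ∧ ∃ y n, ¬ inQ y ∧ Rch (fun x => ¬ inS x) f y s n

variable {inS inQ P : α → Prop} {f f1 f2 g1 g2 : α → α} {s s' x y c : α} {n m k : ℕ}

lemma Rch.refl : Rch P f c c 0 := ⟨rfl, fun i hi => absurd hi (Nat.not_lt_zero i)⟩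

lemma Rch.trans (h : Rch P f c y n) (h' : Rch P f y x m) : Rch P f c x (m + n) := by
  refine ⟨by rw [Function.iterate_add_apply, h.1, h'.1], fun i hi => ?_⟩
  by_cases h1 : i < n
  · exact h.2 i h1
  · have e : i = (i - n) + n := by omega
    rw [e, Function.iterate_add_apply, h.1]
    exact h'.2 _ (by omega)

lemma Rch.one (h : P c) : Rch P f c (f c) 1 :=
  ⟨rfl, fun i hi => by obtain rfl : i = 0 := by omega
                       exact h⟩

lemma Rch.pre (h : Rch P f c y n) (hm : m ≤ n) : Rch P f c (f^[m] c) m :=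
  ⟨rfl, fun i hi => h.2 i (lt_of_lt_of_le hi hm)⟩

lemma Rch.suf (h : Rch P f c y n) (hm : m ≤ n) : Rch P f (f^[m] c) y (n - m) := by
  refine ⟨by rw [← Function.iterate_add_apply, Nat.sub_add_cancel hm, h.1], fun i hi => ?_⟩
  rw [← Function.iterate_add_apply]
  exact h.2 _ (by omega)

/-- change of the map along a path on which the maps agree -/
lemma Rch.congr (hf : ∀ x, P x → f1 x = f2 x) (h : Rch P f1 c y n) : Rch P f2 c y n := by
  have key : ∀ i ≤ n, f2^[i] c = f1^[i] c := by
    intro i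
    induction i with
    | zero => intro _; rfl
    | succ i ih =>
      intro hi
      rw [Function.iterate_succ_apply', Function.iterate_succ_apply', ih (by omega),
        hf _ (h.2 i (by omega))]
  refine ⟨by rw [key n le_rfl, h.1], fun i hi => ?_⟩
  rw [key i hi.le]; exact h.2 i hi

lemma CE.congr (hf : ∀ x, ¬ inS x → f1 x = f2 x) (h : CE inS inQ f1 s) : CE inS inQ f2 s := by
  obtain ⟨h1, y, n, h2, h3⟩ := h
  exact ⟨h1, y, n, h2, h3.congr hf⟩

/-- backward uniqueness: a path inside `Q` which starts in `S` and a path outside `S` which starts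
outside `Q` do not meet at a point which is not the first one of one of them -/
lemma back (hinj : Function.Injective f) (hs : inS s) :
    ∀ (n k : ℕ) (x : α), Rch inQ f s x k → 1 ≤ k → ¬ inQ y → Rch (fun x => ¬ inS x) f y x n →
      n = 0 := by
  intro n
  induction n with
  | zero => intro k x _ _ _ _; rfl
  | succ n ih =>
    intro k x hk hk1 hy hn
    exfalso
    have e1 : f (f^[k - 1] s) = x := by
      rw [← Function.iterate_succ_apply' f, show (k - 1).succ = k by omega]
      exact hk.1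
    have e2 : f (f^[n] y) = x := by
      rw [← Function.iterate_succ_apply' f]
      exact hn.1
    have e3 : f^[k - 1] s = f^[n] y := hinj (e1.trans e2.symm)
    have q1 : inQ (f^[k - 1] s) := hk.2 _ (by omega)
    have q2 : ¬ inS (f^[n] y) := hn.2 _ (by omega)
    by_cases h0 : k - 1 = 0
    · rw [h0] at e3
      rw [← e3] at q2
      exact q2 hs
    · have h2 : Rch (fun x => ¬ inS x) f y (f^[k - 1] s) n := by
        rw [e3]; exact hn.pre (by omega)
      have h3 := ih (k - 1) (f^[k - 1] s) (hk.pre (by omega)) (by omega) hy h2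
      subst h3
      rw [e3] at q1
      exact hy q1

lemma inOrb_of_per {L : ℕ} (hL : 0 < L) (hper : f^[L] c = c) {x : α} (h : ∃ i, f^[i] c = x) :
    ∃ i, i < L ∧ f^[i] c = x := by
  obtain ⟨i, hi⟩ := h
  refine ⟨i % L, Nat.mod_lt _ hL, ?_⟩
  have hq : ∀ q : ℕ, f^[L * q] c = c := by
    intro q
    induction q with
    | zero => rfl
    | succ q ih => rw [Nat.mul_succ, Function.iterate_add_apply, hper, ih]
  have e : i = i % L + L * (i / L) := (Nat.mod_add_div i L).symm
  rw [e, Function.iterate_add_apply, hq] at hi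
  exact hi

lemma back_per (hper : ∀ c, ∃ L, 0 < L ∧ f^[L] c = c) {c x : α} {n : ℕ} (h : f^[n] c = x) :
    ∃ i, f^[i] x = c := by
  obtain ⟨L, hL, hLc⟩ := hper c
  obtain ⟨i, hi, hix⟩ := inOrb_of_per hL hLc ⟨n, h⟩
  refine ⟨L - i, ?_⟩
  rw [← hix, ← Function.iterate_add_apply, Nat.sub_add_cancel hi.le, hLc]

open Classical in
/-- first exit from `Q` and next visit of `S` -/
lemma exists_next (hper : ∀ c, ∃ L, 0 < L ∧ f^[L] c = c) (hs : CE inS inQ f s) :
    ∃ y m s' n, Rch inQ f s y m ∧ ¬ inQ y ∧ Rch (fun x => ¬ inS x) f y s' n ∧ inS s' := by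
  obtain ⟨h1, y0, n0, h2, h3⟩ := hs
  obtain ⟨i0, hi0⟩ := back_per hper h3.1
  have hex : ∃ m, ¬ inQ (f^[m] s) := ⟨i0, by rw [hi0]; exact h2⟩
  set m := Nat.find hex with hm
  have hm1 : ¬ inQ (f^[m] s) := Nat.find_spec hex
  have hm2 : ∀ i < m, inQ (f^[i] s) := fun i hi => not_not.1 (Nat.find_min hex hi)
  obtain ⟨i1, hi1⟩ := back_per hper (f := f) (c := s) (n := m) rfl
  have hex2 : ∃ n, inS (f^[n] (f^[m] s)) := ⟨i1, by rw [hi1]; exact h1⟩
  set n := Nat.find hex2 with hn
  exact ⟨f^[m] s, m, f^[n] (f^[m] s), n, ⟨rfl, hm2⟩, hm1, ⟨rfl, fun i hi => Nat.find_min hex2 hi⟩,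
    Nat.find_spec hex2⟩

/-- equal next entrances give equal exits -/
lemma exit_eq (hQ : ∀ x, inS x → inQ x) (hf : ∀ x, ¬ inS x → f1 x = f2 x)
    (hi1 : Function.Injective f1) (hi2 : Function.Injective f2) (hs : inS s) {y1 y2 : α}
    {m1 m2 n1 n2 : ℕ} (h1 : Rch inQ f1 s y1 m1) (h2 : Rch inQ f2 s y2 m2) (q1 : ¬ inQ y1)
    (q2 : ¬ inQ y2) (r1 : Rch (fun x => ¬ inS x) f1 y1 s' n1)
    (r2 : Rch (fun x => ¬ inS x) f2 y2 s' n2) : y1 = y2 := by
  have k1 : 1 ≤ m1 := by
    by_contra h
    obtain rfl : m1 = 0 := by omega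
    have := h1.1
    simp only [Function.iterate_zero, id_eq] at this
    rw [← this] at q1
    exact q1 (hQ _ hs)
  have k2 : 1 ≤ m2 := by
    by_contra h
    obtain rfl : m2 = 0 := by omega
    have := h2.1
    simp only [Function.iterate_zero, id_eq] at this
    rw [← this] at q2
    exact q2 (hQ _ hs)
  rcases le_total n1 n2 with h | h
  · have r2' : Rch (fun x => ¬ inS x) f1 y2 s' n2 := r2.congr fun x hx => (hf x hx).symm
    have e1 : f1^[n2 - n1] y2 = y1 := by
      apply hi1.iterate n1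
      rw [← Function.iterate_add_apply, show n1 + (n2 - n1) = n2 by omega, r2'.1, r1.1]
    have r3 : Rch (fun x => ¬ inS x) f1 y2 y1 (n2 - n1) := by
      have := r2'.pre (m := n2 - n1) (by omega)
      rwa [e1] at this
    have := back hi1 hs _ _ _ h1 k1 q2 r3
    rw [this] at e1
    exact e1.symm
  · have r1' : Rch (fun x => ¬ inS x) f2 y1 s' n1 := r1.congr hf
    have e1 : f2^[n1 - n2] y1 = y2 := by
      apply hi2.iterate n2
      rw [← Function.iterate_add_apply, show n2 + (n1 - n2) = n1 by omega, r1'.1, r2.1]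
    have r3 : Rch (fun x => ¬ inS x) f2 y1 y2 (n1 - n2) := by
      have := r1'.pre (m := n1 - n2) (by omega)
      rwa [e1] at this
    have := back hi2 hs _ _ _ h2 k2 q1 r3
    rw [this] at e1
    exact e1

/-- if two crossing entrances are in the same orbit, the orbit does not return to the first one at
once -/
lemma next_ne (hinj : Function.Injective f) (hQ : ∀ x, inS x → inQ x) (hs : CE inS inQ f s)
    (hs' : CE inS inQ f s') (hne : s ≠ s') (hor : ∃ i, f^[i] s = s')
    (h1 : Rch inQ f s y m) (q : ¬ inQ y) (h2 : Rch (fun x => ¬ inS x) f y s n) : False := by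
  have hm : 1 ≤ m := by
    by_contra h
    obtain rfl : m = 0 := by omega
    have := h1.1
    simp only [Function.iterate_zero, id_eq] at this
    rw [← this] at q
    exact q (hQ _ hs.1)
  have hper : f^[n + m] s = s := by
    rw [Function.iterate_add_apply, h1.1, h2.1]
  obtain ⟨j, hj, hjs⟩ := inOrb_of_per (by omega : 0 < n + m) hper hor
  obtain ⟨q', y', n', q2, q3⟩ := hs'
  have hj0 : 1 ≤ j := by
    by_contra h
    obtain rfl : j = 0 := by omega
    exact hne hjs
  rcases lt_trichotomy j m with h | h | h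
  · have h3 : Rch inQ f s s' j := by
      have := h1.pre (m := j) h.le
      rwa [hjs] at this
    have := back hinj hs.1 _ _ _ h3 hj0 q2 q3
    subst this
    have e := q3.1
    simp only [Function.iterate_zero, id_eq] at e
    rw [e] at q2
    exact q2 (hQ _ q')
  · rw [h, h1.1] at hjs
    rw [hjs] at q
    exact q (hQ _ q')
  · have e : j = (j - m) + m := by omega
    rw [e, Function.iterate_add_apply, h1.1] at hjs
    have := h2.2 (j - m) (by omega)
    rw [hjs] at this
    exact this q'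

/-- **Exits from `Q` of the crossing entrances.** -/
theorem exits_same (hQ : ∀ x, inS x → inQ x) (hf : ∀ x, ¬ inS x → f1 x = f2 x)
    (hi1 : Function.Injective f1) (hi2 : Function.Injective f2)
    (hp1 : ∀ c, ∃ L, 0 < L ∧ f1^[L] c = c) (hp2 : ∀ c, ∃ L, 0 < L ∧ f2^[L] c = c)
    (two : ∀ a b c, CE inS inQ f1 a → CE inS inQ f1 b → CE inS inQ f1 c → a = b ∨ b = c ∨ a = c)
    (alt : (∀ a b, CE inS inQ f1 a → CE inS inQ f1 b → (∃ i, f1^[i] a = b) ∧ ∃ i, f2^[i] a = b) ∨
      (∀ a b, CE inS inQ f1 a → CE inS inQ f1 b → ((∃ i, f1^[i] a = b) ∨ ∃ i, f2^[i] a = b) →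
        a = b))
    (hs : CE inS inQ f1 s) (h : Rch inQ f1 s y m) (hy : ¬ inQ y) :
    ∃ m', Rch inQ f2 s y m' := by
  have hs2 : CE inS inQ f2 s := hs.congr hf
  obtain ⟨y1, m1, s1, n1, a1, a2, a3, a4⟩ := exists_next hp1 hs
  obtain ⟨y2, m2, s2, n2, b1, b2, b3, b4⟩ := exists_next hp2 hs2
  -- the exit is unique
  have hyy : y1 = y := by
    rcases lt_trichotomy m m1 with h3 | h3 | h3
    · exfalso
      have := a1.2 m h3
      rw [h.1] at this
      exact hy this
    · rw [← a1.1, ← h.1, h3]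
    · exfalso
      have := h.2 m1 h3
      rw [a1.1] at this
      exact a2 this
  have c1 : CE inS inQ f1 s1 := ⟨a4, y1, n1, a2, a3⟩
  have c2 : CE inS inQ f2 s2 := ⟨b4, y2, n2, b2, b3⟩
  have c2' : CE inS inQ f1 s2 := c2.congr fun x hx => (hf x hx).symm
  have key : s1 = s2 := by
    rcases alt with halt | halt
    · by_cases hall : ∀ b, CE inS inQ f1 b → s = b
      · rw [← hall _ c1, ← hall _ c2']
      · push Not at hall
        obtain ⟨b, hb, hne⟩ := hall
        have n1' : s1 ≠ s := by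
          rintro rfl
          exact next_ne hi1 hQ hs hb hne (halt _ _ hs hb).1 a1 a2 a3
        have n2' : s2 ≠ s := by
          rintro rfl
          exact next_ne hi2 hQ hs2 (hb.congr hf) hne (halt _ _ hs hb).2 b1 b2 b3
        rcases two s s1 s2 hs c1 c2' with h5 | h5 | h5
        · exact absurd h5.symm n1'
        · exact h5
        · exact absurd h5.symm n2'
    · have e1 : s = s1 := halt _ _ hs c1 (Or.inl ⟨n1 + m1, by
        rw [Function.iterate_add_apply, a1.1, a3.1]⟩)
      have e2 : s = s2 := halt _ _ hs c2' (Or.inr ⟨n2 + m2, by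
        rw [Function.iterate_add_apply, b1.1, b3.1]⟩)
      rw [← e1, ← e2]
  subst key
  have hyy2 : y1 = y2 := exit_eq hQ hf hi1 hi2 hs.1 a1 b1 a2 b2 a3 b3
  refine ⟨m2, ?_⟩
  rw [← hyy, hyy2]
  exact b1

open Classical in
/-- **Exits from `Q` of all entrances of `Q`.** -/
theorem exits_all (hQ : ∀ x, inS x → inQ x) (hf : ∀ x, ¬ inS x → f1 x = f2 x)
    (hi1 : Function.Injective f1) (hi2 : Function.Injective f2)
    (hp1 : ∀ c, ∃ L, 0 < L ∧ f1^[L] c = c) (hp2 : ∀ c, ∃ L, 0 < L ∧ f2^[L] c = c)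
    (two : ∀ a b c, CE inS inQ f1 a → CE inS inQ f1 b → CE inS inQ f1 c → a = b ∨ b = c ∨ a = c)
    (alt : (∀ a b, CE inS inQ f1 a → CE inS inQ f1 b → (∃ i, f1^[i] a = b) ∧ ∃ i, f2^[i] a = b) ∨
      (∀ a b, CE inS inQ f1 a → CE inS inQ f1 b → ((∃ i, f1^[i] a = b) ∨ ∃ i, f2^[i] a = b) →
        a = b)) {x c : α} (hx : ¬ inQ x) (hxc : f1 x = c)
    (h : Rch inQ f1 c y m) (hy : ¬ inQ y) :
    ∃ m', Rch inQ f2 c y m' := by
  by_cases hex : ∃ i, i < m ∧ inS (f1^[i] c)
  · set j := Nat.find hex with hj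
    obtain ⟨hjm, hjS⟩ := Nat.find_spec hex
    rw [← hj] at hjm hjS
    have hmin : ∀ i < j, ¬ inS (f1^[i] c) := fun i hi hS =>
      Nat.find_min hex hi ⟨lt_trans hi hjm, hS⟩
    have r1 : Rch (fun x => ¬ inS x) f1 c (f1^[j] c) j := ⟨rfl, hmin⟩
    have r0 : Rch (fun x => ¬ inS x) f1 x c 1 := by
      have := Rch.one (P := fun x => ¬ inS x) (f := f1) (c := x) fun h => hx (hQ _ h)
      rwa [hxc] at this
    have hce : CE inS inQ f1 (f1^[j] c) := ⟨hjS, x, _, hx, r0.trans r1⟩
    obtain ⟨m', hm'⟩ := exits_same hQ hf hi1 hi2 hp1 hp2 two alt hce (h.suf hjm.le) hy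
    have r2 : Rch (fun x => inQ x ∧ ¬ inS x) f1 c (f1^[j] c) j :=
      ⟨rfl, fun i hi => ⟨h.2 i (lt_trans hi hjm), hmin i hi⟩⟩
    have r3 := r2.congr (f2 := f2) fun x hx => hf x hx.2
    have r4 : Rch inQ f2 c (f1^[j] c) j := ⟨r3.1, fun i hi => (r3.2 i hi).1⟩
    exact ⟨_, r4.trans hm'⟩
  · push Not at hex
    have r2 : Rch (fun x => inQ x ∧ ¬ inS x) f1 c y m :=
      ⟨h.1, fun i hi => ⟨h.2 i hi, hex i hi⟩⟩
    have r3 := r2.congr (f2 := f2) fun x hx => hf x hx.2
    exact ⟨m, r3.1, fun i hi => (r3.2 i hi).1⟩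

/-- **The orbits outside `Q` agree.** `g₁`, `g₂` are the true steps, `f₁`, `f₂` the steps in the
environment modified outside `Q`. -/
theorem orbit_same (hQ : ∀ x, inS x → inQ x) (hg : ∀ x, ¬ inS x → g1 x = g2 x)
    (h1 : ∀ x, inQ x → g1 x = f1 x) (h2 : ∀ x, inQ x → g2 x = f2 x)
    (hent : ∀ x, ¬ inQ x → ∃ x', ¬ inQ x' ∧ f1 x' = g1 x)
    (hex : ∀ x c y m, ¬ inQ x → f1 x = c → Rch inQ f1 c y m → ¬ inQ y → ∃ m', Rch inQ f2 c y m')
    {c0 : α} (hc0 : ¬ inQ c0) (n : ℕ) (hn : ¬ inQ (g1^[n] c0)) : ∃ n', g2^[n'] c0 = g1^[n] c0 := by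
  classical
  induction n using Nat.strong_induction_on with
  | _ n ih =>
    rcases Nat.eq_zero_or_pos n with h0 | h0
    · exact ⟨0, by rw [h0]; rfl⟩
    · -- last time before `n` outside `Q`
      have hexm : ∃ m, m < n ∧ ¬ inQ (g1^[m] c0) ∧ ∀ j, m < j → j < n → inQ (g1^[j] c0) := by
        have : ∀ k ≤ n, (∃ m, m < k ∧ ¬ inQ (g1^[m] c0) ∧ ∀ j, m < j → j < k → inQ (g1^[j] c0)) ∨
            k = 0 := by
          intro k
          induction k with
          | zero => intro _; exact Or.inr rfl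
          | succ k ihk =>
            intro hk
            left
            by_cases hq : inQ (g1^[k] c0)
            · rcases ihk (by omega) with ⟨m, m1, m2, m3⟩ | h
              · refine ⟨m, by omega, m2, fun j hj1 hj2 => ?_⟩
                rcases Nat.lt_or_ge j k with h4 | h4
                · exact m3 j hj1 h4
                · obtain rfl : j = k := by omega
                  exact hq
              · subst h
                exact absurd hq hc0
            · exact ⟨k, by omega, hq, fun j hj1 hj2 => by omega⟩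
        rcases this n le_rfl with h | h
        · exact h
        · omega
      obtain ⟨m, m1, m2, m3⟩ := hexm
      obtain ⟨n', hn'⟩ := ih m m1 m2
      have e1 : g2 (g1^[m] c0) = g1 (g1^[m] c0) := (hg _ fun h => m2 (hQ _ h)).symm
      rcases Nat.eq_or_lt_of_le (Nat.succ_le_of_lt m1) with h5 | h5
      · refine ⟨n' + 1, ?_⟩
        rw [Function.iterate_succ_apply', hn', e1, ← Function.iterate_succ_apply' g1, h5]
      · set c := g1 (g1^[m] c0) with hc
        have hcm : c = g1^[m + 1] c0 := by rw [hc, ← Function.iterate_succ_apply' g1]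
        obtain ⟨x', q1, q2⟩ := hent _ m2
        have r1 : Rch inQ g1 c (g1^[n] c0) (n - (m + 1)) := by
          refine ⟨?_, fun i hi => ?_⟩
          · rw [hcm, ← Function.iterate_add_apply]; congr 2; omega
          · rw [hcm, ← Function.iterate_add_apply]
            exact m3 _ (by omega) (by omega)
        have r2 : Rch inQ f1 c (g1^[n] c0) (n - (m + 1)) := r1.congr fun x hx => h1 x hx
        obtain ⟨m', r3⟩ := hex x' c _ _ q1 q2 r2 hn
        have r4 : Rch inQ g2 c (g1^[n] c0) m' := r3.congr fun x hx => (h2 x hx).symm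
        refine ⟨m' + (n' + 1), ?_⟩
        rw [Function.iterate_add_apply, Function.iterate_succ_apply', hn', e1]
        exact r4.1

end Pool.Agent.H39.Q1
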