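import Mathlib
import Pool.Agent.H39.Q1.LocAbs
import Pool.Agent.Q1.M6c.Uniq

set_option autoImplicit false
open Finset

/-! # Localisation in the plane

`Q` is a finite set of labels, `S ⊆ Q` a connected set, `Z` the open labels outside `S`, `η₁`, `η₂` two
configurations of `S`. A strand which enters `Q` and reaches `S` meets `S` at an entrance. If the
vertex of every such entrance is joined in `Q \ S` to `t` or to `w₀`, and `t`, `w₀` are joined in `Q` for
both configurations or for none of them, then the orbits of `nx (Z ∪ η₁)` and `nx (Z ∪ η₂)` visit the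
same corners outside `Q`. -/

namespace Pool.Agent.H39.Q1

open Pool.Agent.H75.Perc Pool.Agent.H75.TwoArm Pool.Agent.H69.Q1 Pool.Agent.Q1
open Pool.Agent.Q1.Env (TConn TAdj)

/-- Entrance of `S` of a strand which comes from outside `Q` (without meeting `S` before). -/
def Ent (S Q Z : Finset (ℤ × ℤ)) (s : ℤ × ℤ) : Prop :=
  lab s ∈ S ∧ ∃ c n, lab c ∈ Q ∧ plab c ∉ Q ∧
    Rch (fun x => lab x ∈ Q ∧ lab x ∉ S) (nx Z) c s n

variable {S Q Z B R0 η η1 η2 : Finset (ℤ × ℤ)} {s s' c c' c0 t w0 : ℤ × ℤ} {n : ℕ}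

lemma nx_congr {w w' : Finset (ℤ × ℤ)} {x : ℤ × ℤ} (h : lab x ∈ w ↔ lab x ∈ w') :
    nx w x = nx w' x := by
  unfold nx
  by_cases h1 : lab x ∈ w
  · rw [if_pos h1, if_pos (h.1 h1)]
  · rw [if_neg h1, if_neg fun h2 => h1 (h.2 h2)]

lemma rch_co (h : Rch (fun x => lab x ∈ Q ∧ lab x ∉ S) (nx Z) c s n) :
    Co (Z ∩ (Q \ S)) (vx c) (vx s) := by
  have key : ∀ i ≤ n, Co (Z ∩ (Q \ S)) (vx c) (vx ((nx Z)^[i] c)) := by
    intro i
    induction i with
    | zero => intro _; exact Co.refl _ _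
    | succ i ih =>
      intro hi
      rw [Function.iterate_succ_apply']
      have ih := ih (by omega)
      have hP := h.2 i (by omega)
      set z := (nx Z)^[i] c
      by_cases hl : lab z ∈ Z
      · have h1 : nx Z z = nxO z := by unfold nx; rw [if_pos hl]
        rw [h1]
        have h2 := vx_nxO z
        exact ih.tail ⟨h2.1, by
          rw [h2.2]; exact mem_inter.2 ⟨hl, mem_sdiff.2 hP⟩⟩
      · have h1 : nx Z z = nxC z := by unfold nx; rw [if_neg hl]
        rw [h1, Pool.Agent.H75.Perc.vx_nxC]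
        exact ih
  have := key n le_rfl
  rwa [h.1] at this

lemma rch_du (h : Rch (fun x => lab x ∈ Q ∧ lab x ∉ S) (nx Z) c s n) :
    Co (du (Q \ S) Z) (fi c) (fi s) := by
  have key : ∀ i ≤ n, Co (du (Q \ S) Z) (fi c) (fi ((nx Z)^[i] c)) := by
    intro i
    induction i with
    | zero => intro _; exact Co.refl _ _
    | succ i ih =>
      intro hi
      rw [Function.iterate_succ_apply']
      have ih := ih (by omega)
      have hP := h.2 i (by omega)
      set z := (nx Z)^[i] c
      by_cases hl : lab z ∈ Z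
      · have h1 : nx Z z = nxO z := by unfold nx; rw [if_pos hl]
        rw [h1, Pool.Agent.H75.TwoArm.StrandAux.fi_nxO]
        exact ih
      · have h1 : nx Z z = nxC z := by unfold nx; rw [if_neg hl]
        rw [h1]
        have h4 := Pool.Agent.H75.TwoArm.StrandAux.fi_nxC z
        exact ih.tail ⟨h4.1, by rw [h4.2]; exact Pool.Agent.H75.TwoArm.StrandAux.mem_du (mem_sdiff.2 hP) hl⟩
  have := key n le_rfl
  rwa [h.1] at this

lemma dco_of_du {E w : Finset (ℤ × ℤ)} {f g : ℤ × ℤ} (h : Co (du E w) f g) : DCo w f g := ⟨E, h⟩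

/-- a dual connection by closed labels of `E` avoids every set whose labels in `E` are open -/
lemma dco_of_du' {E w w' : Finset (ℤ × ℤ)} (hw : ∀ l ∈ w', l ∈ E → l ∈ w) {f g : ℤ × ℤ}
    (h : Co (du E w) f g) : DCo w' f g := by
  refine ⟨E, h.mono ?_⟩
  unfold du
  refine map_subset_map.2 fun l hl => ?_
  rw [mem_sdiff] at hl ⊢
  exact ⟨hl.1, fun h2 => hl.2 (hw l h2 hl.1)⟩

/-- an entrance is an entrance -/
lemma Ent.plab_notin (hSQ : S ⊆ Q) (h : Ent S Q Z s) : plab s ∉ S := by
  obtain ⟨h1, c, n, h2, h3, h4⟩ := h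
  rcases Nat.eq_zero_or_pos n with h5 | h5
  · subst h5
    have := h4.1
    simp only [Function.iterate_zero, id_eq] at this
    rw [← this]
    exact fun h => h3 (hSQ h)
  · have := h4.1
    rw [← this, show n = (n - 1) + 1 by omega, Function.iterate_succ_apply', plab_nx]
    exact (h4.2 (n - 1) (by omega)).2

open Classical in
lemma ent_of_ce (hSQ : S ⊆ Q) (hBZ : ∀ l ∈ Q, l ∉ S → (l ∈ B ↔ l ∈ Z))
    (hη : η ⊆ S) (h : CE (fun x => lab x ∈ S) (fun x => lab x ∈ Q) (nx (B ∪ η)) s) :
    Ent S Q Z s := by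
  obtain ⟨h1, y, n, h2, h3⟩ := h
  have hn0 : 0 < n := by
    rcases Nat.eq_zero_or_pos n with h5 | h5
    · subst h5
      have := h3.1
      simp only [Function.iterate_zero, id_eq] at this
      rw [this] at h2
      exact absurd (hSQ h1) h2
    · exact h5
  -- last time outside `Q`
  have hexm : ∃ m, m < n ∧ lab ((nx (B ∪ η))^[m] y) ∉ Q ∧
      ∀ j, m < j → j < n → lab ((nx (B ∪ η))^[j] y) ∈ Q := by
    have : ∀ k ≤ n, (∃ m, m < k ∧ lab ((nx (B ∪ η))^[m] y) ∉ Q ∧
        ∀ j, m < j → j < k → lab ((nx (B ∪ η))^[j] y) ∈ Q) ∨ k = 0 := by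
      intro k
      induction k with
      | zero => intro _; exact Or.inr rfl
      | succ k ihk =>
        intro hk
        left
        by_cases hq : lab ((nx (B ∪ η))^[k] y) ∈ Q
        · rcases ihk (by omega) with ⟨m, m1, m2, m3⟩ | h
          · refine ⟨m, by omega, m2, fun j hj1 hj2 => ?_⟩
            rcases Nat.lt_or_ge j k with h4 | h4
            · exact m3 j hj1 h4
            · obtain rfl : j = k := by omega
              exact hq
          · subst h
            exact absurd hq h2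
        · exact ⟨k, by omega, hq, fun j hj1 hj2 => by omega⟩
    rcases this n le_rfl with h | h
    · exact h
    · omega
  obtain ⟨m, m1, m2, m3⟩ := hexm
  have hs : (nx (B ∪ η))^[n] y = s := h3.1
  refine ⟨h1, (nx (B ∪ η))^[m + 1] y, n - (m + 1), ?_, ?_, ?_⟩
  · by_cases h5 : m + 1 = n
    · rw [h5, hs]; exact hSQ h1
    · exact m3 _ (by omega) (by omega)
  · rw [Function.iterate_succ_apply', plab_nx]; exact m2
  · have r1 : Rch (fun x => lab x ∈ Q ∧ lab x ∉ S) (nx (B ∪ η)) ((nx (B ∪ η))^[m + 1] y) s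
        (n - (m + 1)) := by
      refine ⟨by rw [← Function.iterate_add_apply, Nat.sub_add_cancel (by omega), hs],
        fun i hi => ?_⟩
      rw [← Function.iterate_add_apply]
      exact ⟨m3 _ (by omega) (by omega), h3.2 _ (by omega)⟩
    refine r1.congr fun x hx => nx_congr ?_
    rw [mem_union, ← hBZ _ hx.1 hx.2]
    exact ⟨fun h => h.resolve_right fun h' => hx.2 (hη h'), fun h => Or.inl h⟩

lemma per_nx (w : Finset (ℤ × ℤ)) (c : ℤ × ℤ) : ∃ L, 0 < L ∧ (nx w)^[L] c = c := by
  obtain ⟨L, hL⟩ := exists_orb_nx w c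
  exact ⟨L, hL.pos, hL.per⟩

/-- **General form.** `B` is a modification of `Z` outside `Q`. -/
theorem plane_loc (hSQ : S ⊆ Q) (hS : TConn S) (hodd : ∀ e ∈ S, (e.1 + e.2) % 2 = 1)
    (hZS : Disjoint Z S) (hBS : Disjoint B S) (hBZ : ∀ l ∈ Q, l ∉ S → (l ∈ B ↔ l ∈ Z))
    (h1 : η1 ⊆ S) (h2 : η2 ⊆ S) (Ty : ℤ × ℤ → Prop)
    (hsame : ∀ s s', Ent S Q Z s → Ent S Q Z s' → (Ty s ↔ Ty s') →
      Co B (vx s) (vx s') ∧ DCo (B ∪ S) (fi s) (fi s'))
    (alt : (∀ s s', Ent S Q Z s → Ent S Q Z s' →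
        InOrb (nx (B ∪ η1)) s s' ∧ InOrb (nx (B ∪ η2)) s s') ∨
      (∀ s s', Ent S Q Z s → Ent S Q Z s' →
        (InOrb (nx (B ∪ η1)) s s' ∨ InOrb (nx (B ∪ η2)) s s') → (Ty s ↔ Ty s')))
    (hc0 : lab c0 ∉ Q) (hc : lab c ∉ Q) (h : InOrb (nx (Z ∪ η1)) c0 c) :
    InOrb (nx (Z ∪ η2)) c0 c := by
  classical
  obtain ⟨n, hn⟩ := h
  have huniq : ∀ s s', Ent S Q Z s → Ent S Q Z s' → (Ty s ↔ Ty s') → s = s' := by
    intro s s' e1 e2 hT
    obtain ⟨k1, k2⟩ := hsame s s' e1 e2 hT
    exact Pool.Agent.Q1.M6c.entrance_unique hS hodd hBS e1.1 (e1.plab_notin hSQ) e2.1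
      (e2.plab_notin hSQ) k1 k2
  have hf : ∀ x, ¬ lab x ∈ S → nx (B ∪ η1) x = nx (B ∪ η2) x := by
    intro x hx
    apply nx_congr
    rw [mem_union, mem_union]
    constructor
    · rintro (h | h)
      · exact Or.inl h
      · exact absurd (h1 h) hx
    · rintro (h | h)
      · exact Or.inl h
      · exact absurd (h2 h) hx
  have hg : ∀ x, ¬ lab x ∈ S → nx (Z ∪ η1) x = nx (Z ∪ η2) x := by
    intro x hx
    apply nx_congr
    rw [mem_union, mem_union]
    constructor
    · rintro (h | h)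
      · exact Or.inl h
      · exact absurd (h1 h) hx
    · rintro (h | h)
      · exact Or.inl h
      · exact absurd (h2 h) hx
  have hin : ∀ {η : Finset (ℤ × ℤ)}, ∀ x, lab x ∈ Q → nx (Z ∪ η) x = nx (B ∪ η) x := by
    intro η x hx
    apply nx_congr
    rw [mem_union, mem_union]
    by_cases hxS : lab x ∈ S
    · have a1 : lab x ∉ Z := fun h => disjoint_left.1 hZS h hxS
      have a2 : lab x ∉ B := fun h => disjoint_left.1 hBS h hxS
      tauto
    · rw [hBZ _ hx hxS]
  have hex := fun (x c y : ℤ × ℤ) (m : ℕ) (hx : ¬ lab x ∈ Q) (hxc : nx (B ∪ η1) x = c)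
      (hr : Rch (fun x => lab x ∈ Q) (nx (B ∪ η1)) c y m) (hy : ¬ lab y ∈ Q) =>
    exits_all (inS := fun x => lab x ∈ S) (inQ := fun x => lab x ∈ Q) (f1 := nx (B ∪ η1))
      (f2 := nx (B ∪ η2)) (fun x hx => hSQ hx) hf (nx_injective _) (nx_injective _)
      (per_nx _) (per_nx _)
      (by
        intro a b d ha hb hd
        have ea := ent_of_ce hSQ hBZ h1 ha
        have eb := ent_of_ce hSQ hBZ h1 hb
        have ed := ent_of_ce hSQ hBZ h1 hd
        by_cases ta : Ty a <;> by_cases tb : Ty b <;> by_cases td : Ty d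
        · exact Or.inl (huniq _ _ ea eb (by tauto))
        · exact Or.inl (huniq _ _ ea eb (by tauto))
        · exact Or.inr (Or.inr (huniq _ _ ea ed (by tauto)))
        · exact Or.inr (Or.inl (huniq _ _ eb ed (by tauto)))
        · exact Or.inr (Or.inl (huniq _ _ eb ed (by tauto)))
        · exact Or.inr (Or.inr (huniq _ _ ea ed (by tauto)))
        · exact Or.inl (huniq _ _ ea eb (by tauto))
        · exact Or.inl (huniq _ _ ea eb (by tauto)))
      (by
        rcases alt with h | h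
        · left
          intro a b ha hb
          exact h a b (ent_of_ce hSQ hBZ h1 ha) (ent_of_ce hSQ hBZ h1 hb)
        · right
          intro a b ha hb hab
          have ea := ent_of_ce hSQ hBZ h1 ha
          have eb := ent_of_ce hSQ hBZ h1 hb
          exact huniq _ _ ea eb (h a b ea eb hab))
      hx hxc hr hy
  obtain ⟨n', hn'⟩ := orbit_same (inS := fun x => lab x ∈ S) (inQ := fun x => lab x ∈ Q)
    (f1 := nx (B ∪ η1)) (f2 := nx (B ∪ η2)) (g1 := nx (Z ∪ η1)) (g2 := nx (Z ∪ η2))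
    (fun x hx => hSQ hx) hg hin hin
    (by
      intro x hx
      refine ⟨pv (B ∪ η1) (nx (Z ∪ η1) x), ?_, nx_pv _ _⟩
      rw [lab_pv, plab_nx]; exact hx)
    hex hc0 n (by rw [hn]; exact hc)
  exact ⟨n', by rw [hn', hn]⟩

/-- **Localisation, open clusters.** The crossing strands have the vertex joined to `t` or to `w₀`. -/
theorem loc_open (hSQ : S ⊆ Q) (hS : TConn S) (hodd : ∀ e ∈ S, (e.1 + e.2) % 2 = 1)
    (hZS : Disjoint Z S) (h1 : η1 ⊆ S) (h2 : η2 ⊆ S)
    (hO : ∀ c c', lab c ∈ Q → plab c ∉ Q → lab c' ∈ Q → plab c' ∉ Q → DCo Q (fi c) (fi c'))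
    (hty : ∀ c s, lab c ∈ Q → plab c ∉ Q → lab s ∈ S → Co (Z ∩ Q) (vx c) (vx s) →
      Co (Z ∩ Q) (vx s) t ∨ Co (Z ∩ Q) (vx s) w0)
    (hT : (Co (Z ∩ Q ∪ η1) t w0 ∧ Co (Z ∩ Q ∪ η2) t w0) ∨
      (¬ Co (Z ∩ Q ∪ η1) t w0 ∧ ¬ Co (Z ∩ Q ∪ η2) t w0))
    (hc0 : lab c0 ∉ Q) (hc : lab c ∉ Q) (h : InOrb (nx (Z ∪ η1)) c0 c) :
    InOrb (nx (Z ∪ η2)) c0 c := by
  classical
  have hB : ∀ l ∈ Q, l ∉ S → (l ∈ Z ∩ Q ↔ l ∈ Z) := by
    intro l hl _
    rw [mem_inter]; tauto
  have hsub : Z ∩ Q ∪ S ⊆ Q := union_subset inter_subset_right hSQ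
  have hBS : Disjoint (Z ∩ Q) S := hZS.mono_left inter_subset_left
  have hfaces : ∀ s s', Ent S Q Z s → Ent S Q Z s' → DCo (Z ∩ Q ∪ S) (fi s) (fi s') := by
    rintro s s' ⟨-, c, n, a1, a2, a3⟩ ⟨-, c', n', b1, b2, b3⟩
    have hw : ∀ l ∈ Z ∩ Q ∪ S, l ∈ Q \ S → l ∈ Z := by
      intro l h3 h4
      rw [mem_sdiff] at h4
      rcases mem_union.1 h3 with h5 | h5
      · exact (mem_inter.1 h5).1
      · exact absurd h5 h4.2
    exact ((dco_of_du' hw (rch_du a3)).symm.trans ((hO c c' a1 a2 b1 b2).anti hsub)).trans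
      (dco_of_du' hw (rch_du b3))
  have htype : ∀ s, Ent S Q Z s → Co (Z ∩ Q) (vx s) t ∨ Co (Z ∩ Q) (vx s) w0 := by
    rintro s ⟨a0, c, n, a1, a2, a3⟩
    exact hty c s a1 a2 a0 ((rch_co a3).mono (inter_subset_inter_left sdiff_subset))
  refine plane_loc (B := Z ∩ Q) hSQ hS hodd hZS hBS hB h1 h2 (fun s => Co (Z ∩ Q) (vx s) t)
    (fun s s' e1 e2 hts => ⟨?_, hfaces s s' e1 e2⟩) ?_ hc0 hc h
  · rcases htype s e1 with h3 | h3
    · exact h3.trans (hts.1 h3).symm
    · by_cases h4 : Co (Z ∩ Q) (vx s) t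
      · exact h4.trans (hts.1 h4).symm
      · rcases htype s' e2 with h5 | h5
        · exact absurd (hts.2 h5) h4
        · exact h3.trans h5.symm
  · rcases hT with ⟨t1, t2⟩ | ⟨t1, t2⟩
    · left
      intro s s' e1 e2
      have key : ∀ η, η ⊆ S → Co (Z ∩ Q ∪ η) t w0 → InOrb (nx (Z ∩ Q ∪ η)) s s' := by
        intro η hη ht
        have hv : Co (Z ∩ Q ∪ η) (vx s) (vx s') := by
          have m : Z ∩ Q ⊆ Z ∩ Q ∪ η := subset_union_left
          rcases htype s e1 with h3 | h3 <;> rcases htype s' e2 with h4 | h4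
          · exact (h3.mono m).trans (h4.mono m).symm
          · exact ((h3.mono m).trans ht).trans (h4.mono m).symm
          · exact ((h3.mono m).trans ht.symm).trans (h4.mono m).symm
          · exact (h3.mono m).trans (h4.mono m).symm
        obtain ⟨F, hF⟩ := (hfaces s s' e1 e2).anti (union_subset_union_right hη)
        exact inOrb_of_co _ hv hF
      exact ⟨key η1 h1 t1, key η2 h2 t2⟩
    · right
      intro s s' e1 e2 hor
      have key : ∀ η, ¬ Co (Z ∩ Q ∪ η) t w0 → InOrb (nx (Z ∩ Q ∪ η)) s s' →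
          (Co (Z ∩ Q) (vx s) t ↔ Co (Z ∩ Q) (vx s') t) := by
        intro η ht hin
        obtain ⟨i, hi⟩ := hin
        have hv := co_orb (Z ∩ Q ∪ η) s i
        rw [hi] at hv
        have m : Z ∩ Q ⊆ Z ∩ Q ∪ η := subset_union_left
        constructor
        · intro h3
          rcases htype s' e2 with h4 | h4
          · exact h4
          · exact absurd (((h3.mono m).symm.trans hv).trans (h4.mono m)) ht
        · intro h3
          rcases htype s e1 with h4 | h4
          · exact h4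
          · exact absurd (((h3.mono m).symm.trans hv.symm).trans (h4.mono m)) ht
      rcases hor with h3 | h3
      · exact key η1 t1 h3
      · exact key η2 t2 h3

/-- **Localisation, dual clusters.** `R₀` is a ring of labels around `Q`, joined outside `Q`. -/
theorem loc_closed (hSQ : S ⊆ Q) (hS : TConn S) (hodd : ∀ e ∈ S, (e.1 + e.2) % 2 = 1)
    (hZS : Disjoint Z S) (h1 : η1 ⊆ S) (h2 : η2 ⊆ S) (hR : Disjoint R0 Q)
    (hO : ∀ c c', lab c ∈ Q → plab c ∉ Q → lab c' ∈ Q → plab c' ∉ Q → Co R0 (vx c) (vx c'))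
    (hring : ∀ x y, fi x = fi y → lab x ∈ Q → lab y ∈ Q ∪ R0)
    (hty : ∀ c s, lab c ∈ Q → plab c ∉ Q → lab s ∈ S → Co (du (Q \ S) Z) (fi c) (fi s) →
      Co (du (Q \ S) Z) (fi s) t ∨ Co (du (Q \ S) Z) (fi s) w0)
    (hT : (Co (du Q (Z ∪ η1)) t w0 ∧ Co (du Q (Z ∪ η2)) t w0) ∨
      (¬ Co (du Q (Z ∪ η1)) t w0 ∧ ¬ Co (du Q (Z ∪ η2)) t w0))
    (hc0 : lab c0 ∉ Q) (hc : lab c ∉ Q) (h : InOrb (nx (Z ∪ η1)) c0 c) :
    InOrb (nx (Z ∪ η2)) c0 c := by
  classical
  set B := Z ∩ Q ∪ R0 with hBdef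
  have hB : ∀ l ∈ Q, l ∉ S → (l ∈ B ↔ l ∈ Z) := by
    intro l hl _
    rw [hBdef, mem_union, mem_inter]
    constructor
    · rintro (h | h)
      · exact h.1
      · exact absurd hl (disjoint_left.1 hR h)
    · exact fun h => Or.inl ⟨h, hl⟩
  have hBS : Disjoint B S := by
    rw [disjoint_left]
    intro l hl hlS
    rw [hBdef, mem_union] at hl
    rcases hl with hl | hl
    · exact disjoint_left.1 hZS (mem_inter.1 hl).1 hlS
    · exact disjoint_left.1 hR hl (hSQ hlS)
  have hw : ∀ l ∈ B ∪ S, l ∈ Q \ S → l ∈ Z := by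
    intro l h3 h4
    rw [mem_sdiff] at h4
    rcases mem_union.1 h3 with h5 | h5
    · exact (hB l h4.1 h4.2).1 h5
    · exact absurd h5 h4.2
  have hverts : ∀ s s', Ent S Q Z s → Ent S Q Z s' → Co B (vx s) (vx s') := by
    rintro s s' ⟨-, c, n, a1, a2, a3⟩ ⟨-, c', n', b1, b2, b3⟩
    have m : Z ∩ (Q \ S) ⊆ B := by
      intro l hl
      rw [mem_inter, mem_sdiff] at hl
      exact (hB l hl.2.1 hl.2.2).2 hl.1
    exact (((rch_co a3).mono m).symm.trans
      ((hO c c' a1 a2 b1 b2).mono subset_union_right)).trans ((rch_co b3).mono m)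
  have htype : ∀ s, Ent S Q Z s → Co (du (Q \ S) Z) (fi s) t ∨ Co (du (Q \ S) Z) (fi s) w0 := by
    rintro s ⟨a0, c, n, a1, a2, a3⟩
    exact hty c s a1 a2 a0 (rch_du a3)
  have hduB : ∀ η, η ⊆ S → du (Q \ S) Z ⊆ du Q (Z ∪ η) := by
    intro η hη
    unfold du
    refine map_subset_map.2 fun l hl => ?_
    rw [mem_sdiff, mem_sdiff] at hl
    rw [mem_sdiff, mem_union]
    refine ⟨hl.1.1, ?_⟩
    rintro (h3 | h3)
    · exact hl.2 h3
    · exact hl.1.2 (hη h3)
  have hduE : ∀ η, η ⊆ S → ∀ E, Q ⊆ E → E ⊆ Q ∪ R0 → du E (B ∪ η) = du Q (Z ∪ η) := by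
    intro η hη E hE1 hE2
    unfold du
    congr 1
    ext l
    constructor
    · intro h
      obtain ⟨h3, h4⟩ := mem_sdiff.1 h
      have hlQ : l ∈ Q := by
        rcases mem_union.1 (hE2 h3) with h5 | h5
        · exact h5
        · exact absurd (mem_union_left _ (mem_union_right _ h5)) h4
      refine mem_sdiff.2 ⟨hlQ, fun h5 => ?_⟩
      rcases mem_union.1 h5 with h5 | h5
      · exact h4 (mem_union_left _ (mem_union_left _ (mem_inter.2 ⟨h5, hlQ⟩)))
      · exact h4 (mem_union_right _ h5)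
    · intro h
      obtain ⟨h3, h4⟩ := mem_sdiff.1 h
      refine mem_sdiff.2 ⟨hE1 h3, fun h5 => ?_⟩
      rcases mem_union.1 h5 with h5 | h5
      · rcases mem_union.1 h5 with h6 | h6
        · exact h4 (mem_union_left _ (mem_inter.1 h6).1)
        · exact disjoint_left.1 hR h6 h3
      · exact h4 (mem_union_right _ h5)
  refine plane_loc (B := B) hSQ hS hodd hZS hBS hB h1 h2 (fun s => Co (du (Q \ S) Z) (fi s) t)
    (fun s s' e1 e2 hts => ⟨hverts s s' e1 e2, ?_⟩) ?_ hc0 hc h
  · have key : Co (du (Q \ S) Z) (fi s) (fi s') := by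
      rcases htype s e1 with h3 | h3
      · exact h3.trans (hts.1 h3).symm
      · by_cases h4 : Co (du (Q \ S) Z) (fi s) t
        · exact h4.trans (hts.1 h4).symm
        · rcases htype s' e2 with h5 | h5
          · exact absurd (hts.2 h5) h4
          · exact h3.trans h5.symm
    exact dco_of_du' hw key
  · rcases hT with ⟨t1, t2⟩ | ⟨t1, t2⟩
    · left
      intro s s' e1 e2
      have key : ∀ η, η ⊆ S → Co (du Q (Z ∪ η)) t w0 → InOrb (nx (B ∪ η)) s s' := by
        intro η hη ht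
        have hv : Co (du Q (Z ∪ η)) (fi s) (fi s') := by
          have m := hduB η hη
          rcases htype s e1 with h3 | h3 <;> rcases htype s' e2 with h4 | h4
          · exact (h3.mono m).trans (h4.mono m).symm
          · exact ((h3.mono m).trans ht).trans (h4.mono m).symm
          · exact ((h3.mono m).trans ht.symm).trans (h4.mono m).symm
          · exact (h3.mono m).trans (h4.mono m).symm
        rw [← hduE η hη Q (Subset.refl _) subset_union_left] at hv
        exact inOrb_of_co _ ((hverts s s' e1 e2).mono subset_union_left) hv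
      exact ⟨key η1 h1 t1, key η2 h2 t2⟩
    · right
      intro s s' e1 e2 hor
      have key : ∀ η, η ⊆ S → ¬ Co (du Q (Z ∪ η)) t w0 → InOrb (nx (B ∪ η)) s s' →
          (Co (du (Q \ S) Z) (fi s) t ↔ Co (du (Q \ S) Z) (fi s') t) := by
        intro η hη ht hin
        obtain ⟨i, hi⟩ := hin
        have hinv : ∀ j, ∃ z, fi z = fi ((nx (B ∪ η))^[j] s) ∧ lab z ∈ Q := by
          intro j
          induction j with
          | zero => exact ⟨s, rfl, hSQ e1.1⟩
          | succ j ih =>
            rw [Function.iterate_succ_apply']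
            obtain ⟨z, z1, z2⟩ := ih
            have hlab := hring z _ z1 z2
            set x := (nx (B ∪ η))^[j] s
            by_cases hx : lab x ∈ B ∪ η
            · have e : nx (B ∪ η) x = nxO x := by unfold nx; rw [if_pos hx]
              rw [e, Pool.Agent.H75.TwoArm.StrandAux.fi_nxO]
              exact ⟨z, z1, z2⟩
            · have hxQ : lab x ∈ Q := by
                rcases mem_union.1 hlab with h5 | h5
                · exact h5
                · exact absurd (mem_union_left _ (mem_union_right _ h5)) hx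
              have e : nx (B ∪ η) x = nxC x := by unfold nx; rw [if_neg hx]
              have e2 : lab (pv {lab x} (nxC x)) = lab x := by
                have e3 : plab (nxC x) = lab x := by
                  have := plab_nx (∅ : Finset (ℤ × ℤ)) x
                  rwa [show nx ∅ x = nxC x by unfold nx; rw [if_neg (notMem_empty _)]] at this
                rw [lab_pv, e3]
              refine ⟨pv {lab x} (nxC x), ?_, by rw [e2]; exact hxQ⟩
              have e4 : nxO (pv {lab x} (nxC x)) = nxC x := by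
                have := nx_pv {lab x} (nxC x)
                unfold nx at this
                rwa [if_pos (by rw [e2]; exact mem_singleton_self _)] at this
              rw [e, ← Pool.Agent.H75.TwoArm.StrandAux.fi_nxO, e4]
        have hlabs : ∀ j, lab ((nx (B ∪ η))^[j] s) ∈ Q ∪ R0 := by
          intro j
          obtain ⟨z, z1, z2⟩ := hinv j
          exact hring z _ z1 z2
        have hv := dual_orb hlabs i
        rw [hi, hduE η hη _ subset_union_left (Subset.refl _)] at hv
        have m := hduB η hη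
        constructor
        · intro h3
          rcases htype s' e2 with h4 | h4
          · exact h4
          · exact absurd (((h3.mono m).symm.trans hv).trans (h4.mono m)) ht
        · intro h3
          rcases htype s e1 with h4 | h4
          · exact h4
          · exact absurd (((h3.mono m).symm.trans hv.symm).trans (h4.mono m)) ht
      rcases hor with h3 | h3
      · exact key η1 h1 t1 h3
      · exact key η2 h2 t2 h3

end Pool.Agent.H39.Q1
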