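import Mathlib
import Pool.Agent.H39.Q1.LocPlane
import Pool.Agent.H20.Q1.MxLoc

set_option autoImplicit false
open Finset

/-! # Localisation: geometry of a box

The faces outside a box are joined off the box; the vertices of the sphere of radius `r` are joined by
the ring of labels between the boxes of radius `r` and `r + 1`. -/

namespace Pool.Agent.H39.Q1

open Pool.Agent.H75.Perc Pool.Agent.H75.TwoArm Pool.Agent.H69.Q1 Pool.Agent.Q1
open Pool.Agent.H99.NC Pool.Agent.H60.Q1
open Pool.Agent.Q1.Env (TConn TAdj)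

variable {a b c d r : ℤ} {w : ℤ × ℤ} {A : Finset (ℤ × ℤ)}

lemma dco_vert' {i j j' : ℤ} (h : ∀ k : ℤ, ((2 * i - 1, 2 * k) : ℤ × ℤ) ∉ A) :
    DCo A (i, j) (i, j') := by
  rcases le_total j j' with h1 | h1
  · obtain ⟨n, hn⟩ := Int.le.dest h1
    rw [← hn]; exact dco_vert n fun k _ _ => h k
  · obtain ⟨n, hn⟩ := Int.le.dest h1
    rw [← hn]; exact (dco_vert n fun k _ _ => h k).symm

/-- the face with index `f` is outside the box -/
def OutF (a b c d : ℤ) (f : ℤ × ℤ) : Prop := f.1 ≤ a ∨ b < f.1 ∨ f.2 ≤ c ∨ d < f.2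

/-- faces outside the box are joined off the box -/
theorem dco_outside (hA : A ⊆ Bx a b c d) {f g : ℤ × ℤ} (hf : OutF a b c d f)
    (hg : OutF a b c d g) : DCo A f g := by
  have key : ∀ f : ℤ × ℤ, OutF a b c d f → DCo A f (a, c) := by
    intro f hf
    have h1 : f = (f.1, f.2) := rfl
    rcases hf with h | h | h | h
    · have v : DCo A (f.1, f.2) (f.1, c) := dco_vert' fun k hk => by
        have := mem_Bx.1 (hA hk); simp only at this; omega
      have u : DCo A (f.1, c) (a, c) := dco_horiz' fun k hk => by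
        have := mem_Bx.1 (hA hk); simp only at this; omega
      exact v.trans u
    · have v : DCo A (f.1, f.2) (f.1, c) := dco_vert' fun k hk => by
        have := mem_Bx.1 (hA hk); simp only at this; omega
      have u : DCo A (f.1, c) (a, c) := dco_horiz' fun k hk => by
        have := mem_Bx.1 (hA hk); simp only at this; omega
      exact v.trans u
    · have v : DCo A (a, f.2) (a, c) := dco_vert' fun k hk => by
        have := mem_Bx.1 (hA hk); simp only at this; omega
      have u : DCo A (f.1, f.2) (a, f.2) := dco_horiz' fun k hk => by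
        have := mem_Bx.1 (hA hk); simp only at this; omega
      exact u.trans v
    · have v : DCo A (a, f.2) (a, c) := dco_vert' fun k hk => by
        have := mem_Bx.1 (hA hk); simp only at this; omega
      have u : DCo A (f.1, f.2) (a, f.2) := dco_horiz' fun k hk => by
        have := mem_Bx.1 (hA hk); simp only at this; omega
      exact u.trans v
  exact (key f hf).trans (key g hg).symm

lemma outF_of_plab {z : ℤ × ℤ} (h : plab z ∉ Bx a b c d) : OutF a b c d (fi z) := by
  by_contra hc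
  apply h
  have ho : ((plab z).1 + (plab z).2) % 2 = 1 := by
    have := odd_lab (pv ∅ z)
    rwa [lab_pv] at this
  unfold OutF at hc
  unfold fi at hc
  rw [mem_Bx]
  unfold plab at ho ⊢
  simp only at hc
  split_ifs at ho ⊢ <;> simp only at ho ⊢ <;> omega

/-- hypothesis `hO` of `loc_open` -/
theorem hO_box {z z' : ℤ × ℤ} (h : plab z ∉ BR w r) (h' : plab z' ∉ BR w r) :
    DCo (BR w r) (fi z) (fi z') :=
  dco_outside (Subset.refl _) (outF_of_plab h) (outF_of_plab h')

/-- the ring of labels around the box of radius `r` -/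
noncomputable def RG (w : ℤ × ℤ) (r : ℤ) : Finset (ℤ × ℤ) := BR w (r + 1) \ BR w r

lemma RG_disj : Disjoint (RG w r) (BR w r) := sdiff_disjoint

/-- hypothesis `hring` of `loc_closed` -/
theorem hring_box {x y : ℤ × ℤ} (h : fi x = fi y) (hx : lab x ∈ BR w r) :
    lab y ∈ BR w r ∪ RG w r := by
  have hy : lab y ∈ BR w (r + 1) := by
    have ho := odd_lab y
    unfold BR at hx ⊢
    rw [mem_Bx] at hx ⊢
    unfold fi at h
    rw [Prod.mk.injEq] at h
    obtain ⟨e1, e2⟩ := h
    unfold lab at hx ho ⊢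
    split_ifs at hx ho ⊢ <;> simp only at hx ho ⊢ <;> omega
  unfold RG
  rw [mem_union, mem_sdiff]
  by_cases h1 : lab y ∈ BR w r
  · exact Or.inl h1
  · exact Or.inr ⟨hy, h1⟩

lemma co_hor {x y : ℤ} (n : ℕ)
    (h : ∀ k : ℤ, x ≤ k → k < x + n → ((2 * k + 1, 2 * y) : ℤ × ℤ) ∈ A) :
    Co A (x, y) (x + n, y) := by
  induction n with
  | zero => simpa using Co.refl (ω := A) (x, y)
  | succ n ih =>
    refine (ih fun k h1 h2 => h k h1 (by push_cast; omega)).tail ⟨?_, ?_⟩
    · left
      refine Prod.ext ?_ ?_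
      · simp only [Prod.fst_sub]; push_cast; ring
      · simp
    · have := h (x + n) (by omega) (by push_cast; omega)
      have e : ((x + (n : ℤ), y) : ℤ × ℤ) + (x + ((n + 1 : ℕ) : ℤ), y) = (2 * (x + n) + 1, 2 * y) := by
        refine Prod.ext ?_ ?_
        · simp only [Prod.fst_add]; push_cast; ring
        · simp only [Prod.snd_add]; ring
      rw [e]; exact this

lemma co_ver {x y : ℤ} (n : ℕ)
    (h : ∀ k : ℤ, y ≤ k → k < y + n → ((2 * x, 2 * k + 1) : ℤ × ℤ) ∈ A) :
    Co A (x, y) (x, y + n) := by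
  induction n with
  | zero => simpa using Co.refl (ω := A) (x, y)
  | succ n ih =>
    refine (ih fun k h1 h2 => h k h1 (by push_cast; omega)).tail ⟨?_, ?_⟩
    · right; left
      refine Prod.ext ?_ ?_
      · simp
      · simp only [Prod.snd_sub]; push_cast; ring
    · have := h (y + n) (by omega) (by push_cast; omega)
      have e : ((x, y + (n : ℤ)) : ℤ × ℤ) + (x, y + ((n + 1 : ℕ) : ℤ)) = (2 * x, 2 * (y + n) + 1) := by
        refine Prod.ext ?_ ?_
        · simp only [Prod.fst_add]; ring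
        · simp only [Prod.snd_add]; push_cast; ring
      rw [e]; exact this

lemma co_hor' {x x' y : ℤ}
    (h : ∀ k : ℤ, (x ≤ k ∧ k < x') ∨ (x' ≤ k ∧ k < x) → ((2 * k + 1, 2 * y) : ℤ × ℤ) ∈ A) :
    Co A (x, y) (x', y) := by
  rcases le_total x x' with h1 | h1
  · obtain ⟨n, hn⟩ := Int.le.dest h1
    rw [← hn]; exact co_hor n fun k k1 k2 => h k (Or.inl ⟨k1, by omega⟩)
  · obtain ⟨n, hn⟩ := Int.le.dest h1
    rw [← hn]; exact (co_hor n fun k k1 k2 => h k (Or.inr ⟨k1, by omega⟩)).symm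

lemma co_ver' {x y y' : ℤ}
    (h : ∀ k : ℤ, (y ≤ k ∧ k < y') ∨ (y' ≤ k ∧ k < y) → ((2 * x, 2 * k + 1) : ℤ × ℤ) ∈ A) :
    Co A (x, y) (x, y') := by
  rcases le_total y y' with h1 | h1
  · obtain ⟨n, hn⟩ := Int.le.dest h1
    rw [← hn]; exact co_ver n fun k k1 k2 => h k (Or.inl ⟨k1, by omega⟩)
  · obtain ⟨n, hn⟩ := Int.le.dest h1
    rw [← hn]; exact (co_ver n fun k k1 k2 => h k (Or.inr ⟨k1, by omega⟩)).symm

lemma mem_RG {l : ℤ × ℤ} : l ∈ RG w r ↔
    ((2 * (w.1 - (r + 1)) ≤ l.1 ∧ l.1 ≤ 2 * (w.1 + (r + 1))) ∧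
      (2 * (w.2 - (r + 1)) ≤ l.2 ∧ l.2 ≤ 2 * (w.2 + (r + 1))) ∧ (l.1 + l.2) % 2 = 1) ∧
    ¬ ((2 * (w.1 - r) ≤ l.1 ∧ l.1 ≤ 2 * (w.1 + r)) ∧ (2 * (w.2 - r) ≤ l.2 ∧ l.2 ≤ 2 * (w.2 + r)) ∧
      (l.1 + l.2) % 2 = 1) := by
  unfold RG BR
  rw [mem_sdiff, mem_Bx, mem_Bx]

/-- the vertices of the sphere of radius `r` are joined by the ring -/
theorem co_ring (hr : 0 ≤ r) {u u' : ℤ × ℤ} (h1 : inR w r u) (h2 : ¬ inR w (r - 1) u)
    (h1' : inR w r u') (h2' : ¬ inR w (r - 1) u') : Co (RG w r) u u' := by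
  have key : ∀ u : ℤ × ℤ, inR w r u → ¬ inR w (r - 1) u →
      Co (RG w r) u (w.1 - (r + 1), w.2 - (r + 1)) := by
    intro u k1 k2
    rw [inR_iff] at k1 k2
    have bottom : ∀ x : ℤ, w.1 - (r + 1) ≤ x → x ≤ w.1 + (r + 1) →
        Co (RG w r) (x, w.2 - (r + 1)) (w.1 - (r + 1), w.2 - (r + 1)) := by
      intro x g1 g2
      refine co_hor' fun k hk => ?_
      rw [mem_RG]; simp only; omega
    have left : ∀ y : ℤ, w.2 - (r + 1) ≤ y → y ≤ w.2 + (r + 1) →
        Co (RG w r) (w.1 - (r + 1), y) (w.1 - (r + 1), w.2 - (r + 1)) := by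
      intro y g1 g2
      refine co_ver' fun k hk => ?_
      rw [mem_RG]; simp only; omega
    have right : ∀ y : ℤ, w.2 - (r + 1) ≤ y → y ≤ w.2 + (r + 1) →
        Co (RG w r) (w.1 + (r + 1), y) (w.1 - (r + 1), w.2 - (r + 1)) := by
      intro y g1 g2
      have e1 : Co (RG w r) (w.1 + (r + 1), y) (w.1 + (r + 1), w.2 - (r + 1)) := by
        refine co_ver' fun k hk => ?_
        rw [mem_RG]; simp only; omega
      exact e1.trans (bottom _ (by omega) le_rfl)
    have top : ∀ x : ℤ, w.1 - (r + 1) ≤ x → x ≤ w.1 + (r + 1) →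
        Co (RG w r) (x, w.2 + (r + 1)) (w.1 - (r + 1), w.2 - (r + 1)) := by
      intro x g1 g2
      have e1 : Co (RG w r) (x, w.2 + (r + 1)) (w.1 - (r + 1), w.2 + (r + 1)) := by
        refine co_hor' fun k hk => ?_
        rw [mem_RG]; simp only; omega
      exact e1.trans (left _ (by omega) le_rfl)
    have hu : u = (u.1, u.2) := rfl
    have hcase : u.1 = w.1 - r ∨ u.1 = w.1 + r ∨ u.2 = w.2 - r ∨ u.2 = w.2 + r := by omega
    rcases hcase with h | h | h | h
    · have e1 : Co (RG w r) (u.1, u.2) (w.1 - (r + 1), u.2) := by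
        refine co_hor' fun k hk => ?_
        rw [mem_RG]; simp only; omega
      exact e1.trans (left _ (by omega) (by omega))
    · have e1 : Co (RG w r) (u.1, u.2) (w.1 + (r + 1), u.2) := by
        refine co_hor' fun k hk => ?_
        rw [mem_RG]; simp only; omega
      exact e1.trans (right _ (by omega) (by omega))
    · have e1 : Co (RG w r) (u.1, u.2) (u.1, w.2 - (r + 1)) := by
        refine co_ver' fun k hk => ?_
        rw [mem_RG]; simp only; omega
      exact e1.trans (bottom _ (by omega) (by omega))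
    · have e1 : Co (RG w r) (u.1, u.2) (u.1, w.2 + (r + 1)) := by
        refine co_ver' fun k hk => ?_
        rw [mem_RG]; simp only; omega
      exact e1.trans (top _ (by omega) (by omega))
  exact (key u h1 h2).trans (key u' h1' h2').symm

/-- vertex of an entrance of the box -/
lemma vx_far {z : ℤ × ℤ} (h : plab z ∉ BR w r) : ¬ inR w (r - 1) (vx z) := by
  intro hc
  apply h
  have ho : ((plab z).1 + (plab z).2) % 2 = 1 := by
    have := odd_lab (pv ∅ z)
    rwa [lab_pv] at this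
  rw [inR_iff] at hc
  unfold vx at hc
  unfold BR
  rw [mem_Bx]
  unfold plab at ho ⊢
  simp only at hc
  split_ifs at ho ⊢ <;> simp only at ho ⊢ <;> omega

lemma vx_in {z : ℤ × ℤ} (h : lab z ∈ BR w r) : inR w r (vx z) := by
  rw [inR_iff]
  unfold BR at h
  rw [mem_Bx] at h
  unfold vx
  unfold lab at h
  simp only
  split_ifs at h <;> simp only at h <;> omega

/-- hypothesis `hO` of `loc_closed` -/
theorem hO_ring (hr : 0 ≤ r) {z z' : ℤ × ℤ} (h1 : lab z ∈ BR w r) (h2 : plab z ∉ BR w r)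
    (h1' : lab z' ∈ BR w r) (h2' : plab z' ∉ BR w r) : Co (RG w r) (vx z) (vx z') :=
  co_ring hr (vx_in h1) (vx_far h2) (vx_in h1') (vx_far h2')

end Pool.Agent.H39.Q1
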