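import Mathlib
import Pool.Agent.H39.Q1.LocBox
import Pool.Agent.Q1.M6c.Flat

set_option autoImplicit false
open Finset

/-! # Localisation in an environment

`X` is a plane-like environment, `S` a connected set of random labels inside the box `BR w r`, `ωo` the
open random labels outside `S`, `η ⊆ S`. If the crossing strands of the annulus `BR w r \ S` are those of
one cluster (`t`) and of the wall (`w₀`), then for every corner outside the box the increment depends on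
`η` only through the bit: `t` and `w₀` are joined inside the box or not. -/

namespace Pool.Agent.H39.Q1

open Pool.Agent.H75.Perc Pool.Agent.H75.TwoArm Pool.Agent.H69.Q1 Pool.Agent.Q1
open Pool.Agent.H99.NC Pool.Agent.H60.Q1
open Pool.Agent.Q1.Env (TConn TAdj)

variable {X : Env} {W S η η' ωo ω ω' ζ A : Finset (ℤ × ℤ)} {w t w0 c : ℤ × ℤ} {ρ r : ℤ}

lemma incO_eq_of (hω : ω ⊆ X.E) (hω' : ω' ⊆ X.E) (h : X.On ω c ↔ X.On ω' c)
    (hK : X.On ω c → X.On ω' c → X.SameK ω ω' c) : X.incO ω c = X.incO ω' c := by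
  by_cases h1 : X.On ω c
  · have h2 := h.1 h1
    have h3 := hK h1 h2
    obtain ⟨i, hi, hi'⟩ := h1
    obtain ⟨j, hj, hj'⟩ := h2
    rw [Env.incO_of hω hi hi', Env.incO_of hω' hj hj', h3 i j hi hj hi' hj']
  · rw [Env.incO_of_not h1, Env.incO_of_not fun h2 => h1 (h.2 h2)]

lemma on_iff_inOrb (hX : X.PlaneLike W) (hω : ω ⊆ X.E) :
    X.On ω c ↔ InOrb (nx (ω ∪ W)) X.c0 c := by
  constructor
  · rintro ⟨i, _, hi⟩
    exact ⟨i, by rw [← hX ω hω i]; exact hi⟩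
  · rintro ⟨i, hi⟩
    rw [← hX ω hω i] at hi
    obtain ⟨j, hj, hij⟩ := ((Env.orb hω).inOrb_iff c).1 ⟨i, hi⟩
    exact ⟨j, hj, hij⟩

/-- comparable configurations with the same visits have the same increments -/
lemma incO_eq_of_sub (hX : X.PlaneLike W) (hω' : ω' ⊆ X.E) (hsub : ω ⊆ ω')
    (h : X.On ω c ↔ X.On ω' c) : X.incO ω c = X.incO ω' c :=
  incO_eq_of (hsub.trans hω') hω' h fun h1 h2 => hX.sameK hω' hsub h1 h2

/-- **Localisation, open clusters.** -/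
theorem incO_loc_open (hX : X.PlaneLike W) (hS : TConn S) (hSE : S ⊆ X.E) (hSW : Disjoint S W)
    (hSr : S ⊆ BR w r) (hωo : ωo ⊆ X.E \ S) (hη : η ⊆ S)
    (hty : ∀ c s, lab c ∈ BR w r → plab c ∉ BR w r → lab s ∈ S →
      Co ((ωo ∪ W) ∩ BR w r) (vx c) (vx s) →
      Co ((ωo ∪ W) ∩ BR w r) (vx s) t ∨ Co ((ωo ∪ W) ∩ BR w r) (vx s) w0)
    (hc0 : lab X.c0 ∉ BR w r) (hc : lab c ∉ BR w r) :
    (Co ((ωo ∪ W) ∩ BR w r ∪ η) t w0 → X.incO (ωo ∪ η) c = X.incO (ωo ∪ S) c) ∧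
    (¬ Co ((ωo ∪ W) ∩ BR w r ∪ η) t w0 → X.incO (ωo ∪ η) c = X.incO ωo c) := by
  have hodd : ∀ e ∈ S, (e.1 + e.2) % 2 = 1 := fun e he => X.odd e (hSE he)
  have hZS : Disjoint (ωo ∪ W) S := by
    rw [disjoint_union_left]
    refine ⟨disjoint_left.2 fun l h1 h2 => (mem_sdiff.1 (hωo h1)).2 h2, hSW.symm⟩
  have hE : ∀ η', η' ⊆ S → ωo ∪ η' ⊆ X.E := fun η' h =>
    union_subset (hωo.trans sdiff_subset) (h.trans hSE)
  have e : ∀ η', ωo ∪ η' ∪ W = ωo ∪ W ∪ η' := fun η' => by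
    rw [union_assoc, union_comm η' W, ← union_assoc]
  have key : ∀ η1 η2, η1 ⊆ S → η2 ⊆ S →
      ((Co ((ωo ∪ W) ∩ BR w r ∪ η1) t w0 ∧ Co ((ωo ∪ W) ∩ BR w r ∪ η2) t w0) ∨
      (¬ Co ((ωo ∪ W) ∩ BR w r ∪ η1) t w0 ∧ ¬ Co ((ωo ∪ W) ∩ BR w r ∪ η2) t w0)) →
      X.On (ωo ∪ η1) c → X.On (ωo ∪ η2) c := by
    intro η1 η2 h1 h2 hT hon
    rw [on_iff_inOrb hX (hE _ h1), e] at hon
    rw [on_iff_inOrb hX (hE _ h2), e]
    exact loc_open hSr hS hodd hZS h1 h2 (fun c c' _ h4 _ h6 => hO_box h4 h6) hty hT hc0 hc hon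
  constructor
  · intro h1
    have h2 : Co ((ωo ∪ W) ∩ BR w r ∪ S) t w0 := h1.mono (union_subset_union_right hη)
    refine incO_eq_of_sub hX (hE _ (Subset.refl _)) (union_subset_union_right hη) ?_
    exact ⟨key _ _ hη (Subset.refl _) (Or.inl ⟨h1, h2⟩),
      key _ _ (Subset.refl _) hη (Or.inl ⟨h2, h1⟩)⟩
  · intro h1
    have h2 : ¬ Co ((ωo ∪ W) ∩ BR w r ∪ ∅) t w0 := fun h =>
      h1 (h.mono (union_subset_union_right (empty_subset _)))
    symm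
    refine incO_eq_of_sub hX (hE _ hη) subset_union_left ?_
    have k1 := key ∅ η (empty_subset _) hη (Or.inr ⟨h2, h1⟩)
    have k2 := key η ∅ hη (empty_subset _) (Or.inr ⟨h1, h2⟩)
    rw [union_empty] at k1 k2
    exact ⟨k1, k2⟩

/-- **Localisation, dual clusters.** -/
theorem incO_loc_closed (hX : X.PlaneLike W) (hS : TConn S) (hSE : S ⊆ X.E) (hSW : Disjoint S W)
    (hr : 0 ≤ r) (hSr : S ⊆ BR w r) (hωo : ωo ⊆ X.E \ S) (hη : η ⊆ S)
    (hty : ∀ c s, lab c ∈ BR w r → plab c ∉ BR w r → lab s ∈ S →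
      Co (du (BR w r \ S) (ωo ∪ W)) (fi c) (fi s) →
      Co (du (BR w r \ S) (ωo ∪ W)) (fi s) t ∨ Co (du (BR w r \ S) (ωo ∪ W)) (fi s) w0)
    (hc0 : lab X.c0 ∉ BR w r) (hc : lab c ∉ BR w r) :
    (Co (du (BR w r) (ωo ∪ W ∪ η)) t w0 → X.incO (ωo ∪ η) c = X.incO ωo c) ∧
    (¬ Co (du (BR w r) (ωo ∪ W ∪ η)) t w0 → X.incO (ωo ∪ η) c = X.incO (ωo ∪ S) c) := by
  have hodd : ∀ e ∈ S, (e.1 + e.2) % 2 = 1 := fun e he => X.odd e (hSE he)
  have hZS : Disjoint (ωo ∪ W) S := by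
    rw [disjoint_union_left]
    refine ⟨disjoint_left.2 fun l h1 h2 => (mem_sdiff.1 (hωo h1)).2 h2, hSW.symm⟩
  have hE : ∀ η', η' ⊆ S → ωo ∪ η' ⊆ X.E := fun η' h =>
    union_subset (hωo.trans sdiff_subset) (h.trans hSE)
  have e : ∀ η', ωo ∪ η' ∪ W = ωo ∪ W ∪ η' := fun η' => by
    rw [union_assoc, union_comm η' W, ← union_assoc]
  have key : ∀ η1 η2, η1 ⊆ S → η2 ⊆ S →
      ((Co (du (BR w r) (ωo ∪ W ∪ η1)) t w0 ∧ Co (du (BR w r) (ωo ∪ W ∪ η2)) t w0) ∨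
      (¬ Co (du (BR w r) (ωo ∪ W ∪ η1)) t w0 ∧ ¬ Co (du (BR w r) (ωo ∪ W ∪ η2)) t w0)) →
      X.On (ωo ∪ η1) c → X.On (ωo ∪ η2) c := by
    intro η1 η2 h1 h2 hT hon
    rw [on_iff_inOrb hX (hE _ h1), e] at hon
    rw [on_iff_inOrb hX (hE _ h2), e]
    exact loc_closed hSr hS hodd hZS h1 h2 RG_disj
      (fun c c' h3 h4 h5 h6 => hO_ring hr h3 h4 h5 h6) (fun x y h3 h4 => hring_box h3 h4)
      hty hT hc0 hc hon
  constructor
  · intro h1
    have h2 : Co (du (BR w r) (ωo ∪ W ∪ ∅)) t w0 :=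
      h1.mono (du_anti (union_subset_union_right (empty_subset _)))
    symm
    refine incO_eq_of_sub hX (hE _ hη) subset_union_left ?_
    have k1 := key ∅ η (empty_subset _) hη (Or.inl ⟨h2, h1⟩)
    have k2 := key η ∅ hη (empty_subset _) (Or.inl ⟨h1, h2⟩)
    rw [union_empty] at k1 k2
    exact ⟨k1, k2⟩
  · intro h1
    have h2 : ¬ Co (du (BR w r) (ωo ∪ W ∪ S)) t w0 := fun h =>
      h1 (h.mono (du_anti (union_subset_union_right hη)))
    refine incO_eq_of_sub hX (hE _ (Subset.refl _)) (union_subset_union_right hη) ?_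
    exact ⟨key _ _ hη (Subset.refl _) (Or.inr ⟨h1, h2⟩),
      key _ _ (Subset.refl _) hη (Or.inr ⟨h2, h1⟩)⟩

/-- The type hypothesis from 'only the cluster of `t` crosses'. `ζ` : open bulk labels of the annulus,
all other open labels of `A` are joined to `w₀`. -/
lemma ty_of (hwl : ∀ u v, IsUnit4 (v - u) → u + v ∈ A → u + v ∉ ζ → Co A v w0)
    (hζA : ζ ⊆ A) (hcr : ∀ u v, inR w ρ u → ¬ inR w (r - 1) v → Co ζ u v → Co ζ u t)
    {u v : ℤ × ℤ} (hu : inR w ρ u) (hv : ¬ inR w (r - 1) v) (h : Co A v u) :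
    Co A u t ∨ Co A u w0 := by
  have key : ∀ x, Co A v x → Co ζ v x ∨ Co A x w0 := by
    intro x hx
    induction hx with
    | refl => exact Or.inl (Co.refl _ _)
    | @tail a b _ hab ih =>
      by_cases hl : a + b ∈ ζ
      · rcases ih with ih | ih
        · exact Or.inl (ih.tail ⟨hab.1, hl⟩)
        · right
          have h1 : Co A a b := Relation.ReflTransGen.single hab
          exact h1.symm.trans ih
      · exact Or.inr (hwl a b hab.1 hab.2 hl)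
  rcases key u h with h1 | h1
  · exact Or.inl ((hcr u v hu hv h1.symm).mono hζA)
  · exact Or.inr h1

end Pool.Agent.H39.Q1
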