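import Mathlib
import Pool.Agent.H39.Q1.LocEnv
import Pool.Agent.H43.Q1.Parity

set_option autoImplicit false
open Finset

/-! # Toggling one label without effect far away

`w` open labels, `e ∉ w`. (A) If the ends of `e` are joined inside a set `M` of labels and the corner
`c` is not separated from the root by `M`, opening `e` changes nothing at `c`. (B) If the ends of `e`
are not joined and one of them is joined neither to `c` nor to the root, opening `e` changes nothing
at `c`. (C), (D): the same with colours exchanged. -/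

namespace Pool.Agent.H39.Q1

open Pool.Agent.H75.Perc Pool.Agent.H75.TwoArm Pool.Agent.H75.Four Pool.Agent.H69.Q1
open Pool.Agent.Q1 Pool.Agent.H43.Q1

variable {w M N : Finset (ℤ × ℤ)} {e u v x y f g φ ψ : ℤ × ℤ}

/-- induction along a dual connection -/
lemma DCo.ind {P : ℤ × ℤ → Prop} (h : DCo w f g) (h0 : P f)
    (hs : ∀ x y, P x → IsUnit4 (y - x) → x + y - (1, 1) ∉ w → P y) : P g := by
  obtain ⟨F, hF⟩ := h
  induction hF with
  | refl => exact h0
  | @tail a b _ hab ih =>
    refine hs a b ih hab.1 fun h3 => ?_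
    have h2 := hab.2
    unfold du at h2
    obtain ⟨l, hl, he⟩ := mem_map.1 h2
    have h4 : a + b - (1, 1) = l := by
      rw [← he]; unfold sh1; simp
    rw [h4] at h3
    exact (mem_sdiff.1 hl).2 h3

lemma face_add {a b e : ℤ × ℤ} (h : a + b - (1, 1) = e) : a + b = e + (1, 1) := by
  rw [← h]; simp

lemma face_sub {a b e : ℤ × ℤ} (h : a + b = e + (1, 1)) : a + b - (1, 1) = e := by
  rw [h]; simp

/-- two faces of a label: any face of the label is one of them -/
lemma side_cases (h1 : IsUnit4 (ψ - φ)) (h2 : φ + ψ = e + (1, 1)) (h3 : IsUnit4 (y - x))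
    (h4 : x + y = e + (1, 1)) : (x = φ ∧ y = ψ) ∨ (x = ψ ∧ y = φ) := by
  obtain ⟨p1, p2⟩ := φ
  obtain ⟨q1, q2⟩ := ψ
  obtain ⟨x1, x2⟩ := x
  obtain ⟨y1, y2⟩ := y
  obtain ⟨e1, e2⟩ := e
  unfold IsUnit4 at h1 h3
  simp only [Prod.mk_sub_mk, Prod.mk.injEq, Prod.mk_add_mk] at h1 h2 h3 h4 ⊢
  omega

lemma end_cases (h1 : IsUnit4 (v - u)) (h2 : u + v = e) (h3 : IsUnit4 (y - x))
    (h4 : x + y = e) : (x = u ∧ y = v) ∨ (x = v ∧ y = u) := by
  obtain ⟨p1, p2⟩ := u
  obtain ⟨q1, q2⟩ := v
  obtain ⟨x1, x2⟩ := x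
  obtain ⟨y1, y2⟩ := y
  obtain ⟨e1, e2⟩ := e
  unfold IsUnit4 at h1 h3
  simp only [Prod.mk_sub_mk, Prod.mk.injEq, Prod.mk_add_mk] at h1 h2 h3 h4 ⊢
  omega

lemma odd_of_ends (h1 : IsUnit4 (v - u)) (h2 : u + v = e) : (e.1 + e.2) % 2 = 1 := by
  obtain ⟨p1, p2⟩ := u
  obtain ⟨q1, q2⟩ := v
  obtain ⟨e1, e2⟩ := e
  unfold IsUnit4 at h1
  simp only [Prod.mk_sub_mk, Prod.mk.injEq, Prod.mk_add_mk] at h1 h2 ⊢
  omega

lemma odd_of_sides (h1 : IsUnit4 (ψ - φ)) (h2 : φ + ψ = e + (1, 1)) : (e.1 + e.2) % 2 = 1 := by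
  obtain ⟨p1, p2⟩ := φ
  obtain ⟨q1, q2⟩ := ψ
  obtain ⟨e1, e2⟩ := e
  unfold IsUnit4 at h1
  simp only [Prod.mk_sub_mk, Prod.mk.injEq, Prod.mk_add_mk] at h1 h2 ⊢
  omega

/-- the two faces of a label, as faces of the two corners which meet it -/
lemma sides_fi (he : (e.1 + e.2) % 2 = 1) :
    IsUnit4 (fi (zv e) - fi (zu e)) ∧ fi (zu e) + fi (zv e) = e + (1, 1) := by
  obtain ⟨a, b⟩ := e
  simp only at he
  unfold zu zv fi IsUnit4
  by_cases h : a % 2 = 0
  · simp only [h, if_true, Prod.mk_sub_mk, Prod.mk.injEq, Prod.mk_add_mk]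
    omega
  · rw [if_neg h, if_neg h]
    simp only [Prod.mk_sub_mk, Prod.mk.injEq, Prod.mk_add_mk]
    omega

/-- the two ends of a label, as vertices of the two corners which meet it -/
lemma ends_vx (he : (e.1 + e.2) % 2 = 1) : IsUnit4 (ev e - eu e) ∧ eu e + ev e = e := by
  obtain ⟨a, b⟩ := e
  simp only at he
  unfold eu ev IsUnit4
  simp only [Prod.mk_sub_mk, Prod.mk.injEq, Prod.mk_add_mk]
  omega

/-! ### (A) -/

/-- opening a label whose ends are joined does not change the connections -/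
lemma co_of_insert (he : e ∉ w) (h1 : IsUnit4 (v - u)) (h2 : u + v = e) (h : Co w u v)
    (hxy : Co (insert e w) x y) : Co w x y := by
  have e1 : (insert e w).erase e = w := erase_insert he
  have ho := odd_of_ends h1 h2
  have h3 : Co ((insert e w).erase e) (eu e) (ev e) := by
    rw [e1]
    rcases end_cases (ends_vx ho).1 (ends_vx ho).2 h1 h2 with ⟨a, b⟩ | ⟨a, b⟩
    · rw [← a, ← b]; exact h
    · rw [← a, ← b]; exact h.symm
  have := co_erase h3 hxy
  rwa [e1] at this

/-- a dual path between faces on the same side of a chain can be made to avoid `e` -/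
theorem dco_insert_joined (he : e ∉ w) (heM : e ∈ M) (h1 : IsUnit4 (v - u)) (h2 : u + v = e)
    (h : Co (w ∩ M) u v) (hM : DCo M f g) (hd : DCo w f g) : DCo (insert e w) f g := by
  have ho := odd_of_ends h1 h2
  obtain ⟨P, hP1, hP2, hP3⟩ := co_chain h
  have heP : e ∉ P := fun h => he (mem_inter.1 (hP1 h)).1
  have hQ1 : ∀ l ∈ symmDiff P {e}, (l.1 + l.2) % 2 = 1 := by
    intro l hl
    rw [mem_symmDiff, mem_singleton] at hl
    rcases hl with hl | hl
    · exact hP2 l hl.1
    · rw [hl.1]; exact ho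
  have hQ2 : ∀ V, bd (symmDiff P {e}) V = 0 := by
    intro V
    rw [bd_symmDiff, hP3]
    have h4 : bd {e} V = V u + V v := by
      unfold bd
      rw [sum_singleton]
      rcases end_cases (ends_vx ho).1 (ends_vx ho).2 h1 h2 with ⟨a, b⟩ | ⟨a, b⟩
      · rw [← a, ← b]
      · rw [← a, ← b, add_comm]
    rw [h4]
    exact two_zero _
  obtain ⟨s, hs⟩ := face_fun hQ1 hQ2
  have hone : ∀ a b : ZMod 2, a + b = 0 → a = b := fun a b h => by
    have := two_zero b
    calc a = a + b + b := by rw [add_assoc, this, add_zero]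
      _ = b := by rw [h, zero_add]
  have hsM : ∀ a b, IsUnit4 (b - a) → a + b - (1, 1) ∉ insert e (w ∩ M) → s a = s b := by
    intro a b h3 h4
    apply hone
    rw [hs a b _ h3 (face_add rfl), if_neg]
    intro h5
    rw [mem_symmDiff, mem_singleton] at h5
    apply h4
    rcases h5 with h5 | h5
    · exact mem_insert_of_mem (hP1 h5.1)
    · rw [h5.1]; exact mem_insert_self _ _
  have hse : ∀ a b, IsUnit4 (b - a) → a + b = e + (1, 1) → s a ≠ s b := by
    intro a b h3 h4 h5
    have := hs a b e h3 h4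
    rw [if_pos, h5, two_zero] at this
    · exact absurd this (by decide)
    · rw [mem_symmDiff]; exact Or.inr ⟨mem_singleton_self _, heP⟩
  have hsfg : s g = s f := by
    refine DCo.ind (P := fun x => s x = s f) hM rfl fun x y hx h3 h4 => ?_
    rw [← hx]
    refine (hsM x y h3 fun h5 => h4 ?_).symm
    rcases mem_insert.1 h5 with h6 | h6
    · rw [h6]; exact heM
    · exact (mem_inter.1 h6).2
  have key : (s g = s f → DCo (insert e w) f g) ∧ (s g ≠ s f → ∀ y y', IsUnit4 (y' - y) →
      y + y' = e + (1, 1) → s y = s f → DCo (insert e w) f y) := by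
    refine DCo.ind (P := fun x => (s x = s f → DCo (insert e w) f x) ∧ (s x ≠ s f → ∀ y y',
      IsUnit4 (y' - y) → y + y' = e + (1, 1) → s y = s f → DCo (insert e w) f y)) hd
      ⟨fun _ => DCo.refl _ _, fun h => absurd rfl h⟩ ?_
    rintro a b ⟨i1, i2⟩ h3 h4
    by_cases h5 : a + b - (1, 1) = e
    · have h6 := face_add h5
      have h7 := hse a b h3 h6
      constructor
      · intro h8
        have h9 : s a ≠ s f := fun h => h7 (by rw [h, h8])
        have h10 : IsUnit4 (a - b) := by
          unfold IsUnit4 at h3 ⊢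
          simp only [Prod.ext_iff, Prod.fst_sub, Prod.snd_sub] at h3 ⊢
          omega
        exact i2 h9 b a h10 (by rw [add_comm]; exact h6) h8
      · intro h8 y y' h9 h10 h11
        rcases side_cases h3 h6 h9 h10 with ⟨h12, -⟩ | ⟨h12, -⟩
        · rw [h12] at h11 ⊢
          exact i1 h11
        · rw [h12] at h11
          exact absurd h11 h8
    · have h6 : a + b - (1, 1) ∉ insert e w := by
        rw [mem_insert, not_or]; exact ⟨h5, h4⟩
      have h7 : s a = s b := hsM a b h3 fun h8 => h6 (by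
        rcases mem_insert.1 h8 with h9 | h9
        · rw [h9]; exact mem_insert_self _ _
        · exact mem_insert_of_mem (mem_inter.1 h9).1)
      constructor
      · intro h8
        exact (i1 (h7.trans h8)).trans (DCo.step h3 h6)
      · intro h8
        exact i2 (fun h9 => h8 (h7 ▸ h9))
  exact key.1 hsfg

/-! ### (B) -/

lemma dco_orb (w : Finset (ℤ × ℤ)) (c : ℤ × ℤ) (i : ℕ) : DCo w (fi c) (fi ((nx w)^[i] c)) := by
  induction i with
  | zero => exact DCo.refl _ _
  | succ i ih =>
    rw [Function.iterate_succ_apply']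
    refine ih.trans ?_
    set z := (nx w)^[i] c
    by_cases hl : lab z ∈ w
    · have h1 : nx w z = nxO z := by unfold nx; rw [if_pos hl]
      rw [h1, Pool.Agent.H75.TwoArm.StrandAux.fi_nxO]
      exact DCo.refl _ _
    · have h1 : nx w z = nxC z := by unfold nx; rw [if_neg hl]
      rw [h1]
      have h4 := Pool.Agent.H75.TwoArm.StrandAux.fi_nxC z
      refine DCo.step h4.1 ?_
      rw [face_sub h4.2]; exact hl

lemma in12_fi (he : (e.1 + e.2) % 2 = 1) :
    IsUnit4 (fi (in2 e) - fi (in1 e)) ∧ fi (in1 e) + fi (in2 e) = e + (1, 1) := by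
  obtain ⟨a, b⟩ := e
  simp only at he
  unfold in1 in2 fi IsUnit4
  by_cases h : a % 2 = 1
  · simp only [h, if_true, Prod.mk_sub_mk, Prod.mk.injEq, Prod.mk_add_mk]
    omega
  · simp only [h, if_false, Prod.mk_sub_mk, Prod.mk.injEq, Prod.mk_add_mk]
    omega

lemma in12_vx (he : (e.1 + e.2) % 2 = 1) :
    IsUnit4 (vx (in2 e) - vx (in1 e)) ∧ vx (in1 e) + vx (in2 e) = e := by
  obtain ⟨a, b⟩ := e
  simp only at he
  unfold in1 in2 vx IsUnit4
  by_cases h : a % 2 = 1
  · simp only [h, if_true, Prod.mk_sub_mk, Prod.mk.injEq, Prod.mk_add_mk]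
    omega
  · simp only [h, if_false, Prod.mk_sub_mk, Prod.mk.injEq, Prod.mk_add_mk]
    omega

/-- **If the ends of a closed label are not joined, its faces are joined off it.** -/
theorem dco_of_not_co (he : e ∉ w) (h1 : IsUnit4 (v - u)) (h2 : u + v = e) (h : ¬ Co w u v)
    (h3 : IsUnit4 (ψ - φ)) (h4 : φ + ψ = e + (1, 1)) : DCo (insert e w) φ ψ := by
  have ho := odd_of_ends h1 h2
  have hsw := swapped_insert w e ho he
  obtain ⟨Lp, hLp⟩ := exists_orb_nx w (in1 e)
  obtain ⟨Lq, hLq⟩ := exists_orb_nx w (in2 e)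
  have hno : ¬ InOrb (nx w) (in1 e) (in2 e) := by
    rintro ⟨i, hi⟩
    have h5 := co_orb w (in1 e) i
    rw [hi] at h5
    rcases end_cases h1 h2 (in12_vx ho).1 (in12_vx ho).2 with ⟨a, b⟩ | ⟨a, b⟩
    · rw [a, b] at h5; exact h h5
    · rw [a, b] at h5; exact h h5.symm
  obtain ⟨-, m2, -, -⟩ := hsw.merge hLp hLq ⟨0, rfl⟩ hno
  obtain ⟨i, hi⟩ := m2
  have h5 := dco_orb (insert e w) (in1 e) i
  rw [hi] at h5
  rcases side_cases h3 h4 (in12_fi ho).1 (in12_fi ho).2 with ⟨a, b⟩ | ⟨a, b⟩
  · rw [a, b] at h5; exact h5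
  · rw [a, b] at h5; exact h5.symm

/-- then opening it does not change the dual connections -/
theorem dco_insert_free (he : e ∉ w) (h1 : IsUnit4 (v - u)) (h2 : u + v = e) (h : ¬ Co w u v)
    (hd : DCo w f g) : DCo (insert e w) f g := by
  refine DCo.ind (P := fun x => DCo (insert e w) f x) hd (DCo.refl _ _) ?_
  intro a b ih h3 h4
  by_cases h5 : a + b - (1, 1) = e
  · exact ih.trans (dco_of_not_co he h1 h2 h h3 (face_add h5))
  · exact ih.trans (DCo.step h3 (by rw [mem_insert, not_or]; exact ⟨h5, h4⟩))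

/-- opening a label one end of which is joined neither to `x` nor to `y` -/
theorem co_insert_free (h1 : IsUnit4 (v - u)) (h2 : u + v = e)
    (hx : ¬ Co w v x) (hy : ¬ Co w v y) (h : Co (insert e w) x y) : Co w x y := by
  have key : ∀ z, Co (insert e w) x z → Co w x z ∨ (Co w v z ∧ Co w x u) := by
    intro z hz
    induction hz with
    | refl => exact Or.inl (Co.refl _ _)
    | @tail a b _ hab ih =>
      rcases mem_insert.1 hab.2 with h3 | h3
      · rcases end_cases h1 h2 hab.1 h3 with ⟨h4, h5⟩ | ⟨h4, h5⟩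
        · -- from `u` to `v`
          rcases ih with ih | ih
          · exact Or.inr ⟨by rw [h5]; exact Co.refl _ _, by rw [← h4]; exact ih⟩
          · exact Or.inr ⟨by rw [h5]; exact Co.refl _ _, ih.2⟩
        · -- from `v` to `u`
          rcases ih with ih | ih
          · rw [h4] at ih; exact absurd ih.symm hx
          · left; rw [h5]; exact ih.2
      · rcases ih with ih | ih
        · exact Or.inl (ih.tail ⟨hab.1, h3⟩)
        · exact Or.inr ⟨ih.1.tail ⟨hab.1, h3⟩, ih.2⟩
  rcases key y h with h3 | h3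
  · exact h3
  · exact absurd h3.1 hy

/-! ### (D) -/

theorem dco_insert_side (h1 : IsUnit4 (ψ - φ)) (h2 : φ + ψ = e + (1, 1))
    (hx : ¬ DCo (insert e w) φ x) (hy : ¬ DCo (insert e w) φ y) (h : DCo w x y) :
    DCo (insert e w) x y := by
  have key : DCo (insert e w) x y ∨ (DCo (insert e w) φ y ∧ DCo (insert e w) x ψ) := by
    refine DCo.ind (P := fun z => DCo (insert e w) x z ∨
      (DCo (insert e w) φ z ∧ DCo (insert e w) x ψ)) h (Or.inl (DCo.refl _ _)) ?_
    intro a b ih h3 h4
    by_cases h5 : a + b - (1, 1) = e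
    · rcases side_cases h1 h2 h3 (face_add h5) with ⟨h6, h7⟩ | ⟨h6, h7⟩
      · -- from `φ` to `ψ`
        rcases ih with ih | ih
        · rw [h6] at ih; exact absurd ih.symm hx
        · left; rw [h7]; exact ih.2
      · -- from `ψ` to `φ`
        rcases ih with ih | ih
        · right; rw [h7]; exact ⟨DCo.refl _ _, by rw [← h6]; exact ih⟩
        · right; rw [h7]; exact ⟨DCo.refl _ _, ih.2⟩
    · have h6 : a + b - (1, 1) ∉ insert e w := by rw [mem_insert, not_or]; exact ⟨h5, h4⟩
      rcases ih with ih | ih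
      · exact Or.inl (ih.trans (DCo.step h3 h6))
      · exact Or.inr ⟨ih.1.trans (DCo.step h3 h6), ih.2⟩
  rcases key with h3 | h3
  · exact h3
  · exact absurd h3.1 hy

/-! ### (C) -/

/-- an open path between vertices on the same side of a dual chain can be made to avoid `e` -/
theorem co_insert_joined (heM : e ∈ M) (h1 : IsUnit4 (ψ - φ))
    (h2 : φ + ψ = e + (1, 1)) (h : Co (du (M.erase e) w) φ ψ) (hN : Co N x y)
    (hNM : Disjoint N M) (hd : Co (insert e w) x y) : Co w x y := by
  have ho := odd_of_sides h1 h2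
  obtain ⟨P, hP1, hP2, hP3⟩ := co_chain h
  set e' : ℤ × ℤ := e + (1, 1) with he'
  have ho' : (e'.1 + e'.2) % 2 = 1 := by
    rw [he']; simp only [Prod.fst_add, Prod.snd_add]; omega
  have hPl : ∀ l : ℤ × ℤ, l + (1, 1) ∈ P → l ∈ M ∧ l ≠ e ∧ l ∉ w := by
    intro l hl
    have h3 := hP1 hl
    unfold du at h3
    obtain ⟨l', hl', h4⟩ := mem_map.1 h3
    have h5 : l = l' := by
      have h6 : l' + (1, 1) = l + (1, 1) := h4
      exact (add_right_cancel h6).symm
    rw [h5]
    obtain ⟨h6, h7⟩ := mem_sdiff.1 hl'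
    obtain ⟨h8, h9⟩ := mem_erase.1 h6
    exact ⟨h9, h8, h7⟩
  have heP : e' ∉ P := fun h => (hPl e h).2.1 rfl
  have hQ1 : ∀ l ∈ symmDiff P {e'}, (l.1 + l.2) % 2 = 1 := by
    intro l hl
    rw [mem_symmDiff, mem_singleton] at hl
    rcases hl with hl | hl
    · exact hP2 l hl.1
    · rw [hl.1]; exact ho'
  have hQ2 : ∀ V, bd (symmDiff P {e'}) V = 0 := by
    intro V
    rw [bd_symmDiff, hP3]
    have h4 : bd {e'} V = V φ + V ψ := by
      unfold bd
      rw [sum_singleton]
      rcases end_cases (ends_vx ho').1 (ends_vx ho').2 h1 h2 with ⟨a, b⟩ | ⟨a, b⟩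
      · rw [← a, ← b]
      · rw [← a, ← b, add_comm]
    rw [h4]
    exact two_zero _
  obtain ⟨s, hs⟩ := vert_fun hQ1 hQ2
  have hone : ∀ a b : ZMod 2, a + b = 0 → a = b := fun a b h => by
    have := two_zero b
    calc a = a + b + b := by rw [add_assoc, this, add_zero]
      _ = b := by rw [h, zero_add]
  have hsM : ∀ a b, IsUnit4 (b - a) → (a + b = e → False) → (a + b ∈ M → a + b ∈ w) →
      s a = s b := by
    intro a b h3 h4 h5
    apply hone
    rw [hs a b _ h3 rfl, if_neg]
    intro h6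
    rw [mem_symmDiff, mem_singleton] at h6
    rcases h6 with h6 | h6
    · obtain ⟨g1, g2, g3⟩ := hPl _ h6.1
      exact g3 (h5 g1)
    · exact h4 (add_right_cancel h6.1)
  have hse : ∀ a b, IsUnit4 (b - a) → a + b = e → s a ≠ s b := by
    intro a b h3 h4 h5
    have := hs a b e h3 h4
    rw [if_pos, h5, two_zero] at this
    · exact absurd this (by decide)
    · rw [mem_symmDiff]; exact Or.inr ⟨mem_singleton_self _, heP⟩
  have hsN : ∀ z, Co N x z → s z = s x := by
    intro z hz
    induction hz with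
    | refl => rfl
    | @tail a b _ hab ih =>
      have h3 : a + b ∉ M := fun h => disjoint_left.1 hNM hab.2 h
      rw [← ih]
      exact (hsM a b hab.1 (fun h => h3 (by rw [h]; exact heM)) (fun h => absurd h h3)).symm
  have hsxy : s y = s x := hsN y hN
  have key : ∀ z, Co (insert e w) x z → (s z = s x → Co w x z) ∧ (s z ≠ s x → ∀ y y',
      IsUnit4 (y' - y) → y + y' = e → s y = s x → Co w x y) := by
    intro z hz
    induction hz with
    | refl => exact ⟨fun _ => Co.refl _ _, fun h => absurd rfl h⟩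
    | @tail a b _ hab ih =>
      obtain ⟨i1, i2⟩ := ih
      by_cases h5 : a + b = e
      · have h7 := hse a b hab.1 h5
        constructor
        · intro h8
          have h9 : s a ≠ s x := fun h => h7 (by rw [h, h8])
          have h10 : IsUnit4 (a - b) := by
            have h3 := hab.1
            unfold IsUnit4 at h3 ⊢
            simp only [Prod.ext_iff, Prod.fst_sub, Prod.snd_sub] at h3 ⊢
            omega
          exact i2 h9 b a h10 (by rw [add_comm]; exact h5) h8
        · intro h8 y y' h9 h10 h11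
          rcases end_cases hab.1 h5 h9 h10 with ⟨h12, -⟩ | ⟨h12, -⟩
          · rw [h12] at h11 ⊢
            exact i1 h11
          · rw [h12] at h11
            exact absurd h11 h8
      · have h6 : a + b ∈ w := by
          rcases mem_insert.1 hab.2 with h6 | h6
          · exact absurd h6 h5
          · exact h6
        have h7 : s a = s b := hsM a b hab.1 h5 fun _ => h6
        constructor
        · intro h8
          exact (i1 (h7.trans h8)).tail ⟨hab.1, h6⟩
        · intro h8
          exact i2 (fun h9 => h8 (h7 ▸ h9))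
  exact (key y hd).1 hsxy

end Pool.Agent.H39.Q1
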