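import Mathlib
import Pool.Agent.H39.Q1.Cut

set_option autoImplicit false
open Finset

/-! # The cut set lemma

`X` is plane-like with the fixed open labels `W`. `G` is a set of open labels, `Ti` a finite set of
labels (the ties of one colour), `τ ⊆ Ti` the joining ties. The increments at a corner `c` far from the
layer depend on `τ` only through the set of the macroscopic clusters of the layer which are cut. -/

namespace Pool.Agent.H39.Q1

open Pool.Agent.H75.Perc Pool.Agent.H75.TwoArm Pool.Agent.H75.Four Pool.Agent.H69.Q1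
open Pool.Agent.Q1 Pool.Agent.H43.Q1

variable {X : Env} {W M N G Λ Ti τ τ' ω : Finset (ℤ × ℤ)} {e u v x y φ ψ c : ℤ × ℤ}

lemma on_iff_dco (hX : X.PlaneLike W) (hω : ω ⊆ X.E) :
    X.On ω c ↔ Co (ω ∪ W) (vx X.c0) (vx c) ∧ DCo (ω ∪ W) (fi X.c0) (fi c) := by
  rw [on_iff_inOrb hX hω]
  constructor
  · rintro ⟨i, hi⟩
    have h1 := co_orb (ω ∪ W) X.c0 i
    have h2 := dco_orb (ω ∪ W) X.c0 i
    rw [hi] at h1 h2
    exact ⟨h1, h2⟩
  · rintro ⟨h1, F, hF⟩
    exact inOrb_of_co _ h1 hF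

lemma incO_toggle (hX : X.PlaneLike W) (hω : ω ⊆ X.E) (he : e ∈ X.E)
    (h1 : Co (insert e (ω ∪ W)) (vx X.c0) (vx c) → Co (ω ∪ W) (vx X.c0) (vx c))
    (h2 : DCo (ω ∪ W) (fi X.c0) (fi c) → DCo (insert e (ω ∪ W)) (fi X.c0) (fi c)) :
    X.incO ω c = X.incO (insert e ω) c := by
  have hω' : insert e ω ⊆ X.E := insert_subset he hω
  refine incO_eq_of_sub hX hω' (subset_insert _ _) ?_
  rw [on_iff_dco hX hω, on_iff_dco hX hω', insert_union]
  constructor
  · rintro ⟨h3, h4⟩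
    exact ⟨h3.mono (subset_insert _ _), h2 h4⟩
  · rintro ⟨h3, h4⟩
    exact ⟨h1 h3, h4.anti (subset_insert _ _)⟩

/-- (A) the ends of `e` are joined in `M` -/
theorem incO_toggle_A (hX : X.PlaneLike W) (hω : ω ⊆ X.E) (he : e ∈ X.E) (heW : e ∉ ω ∪ W)
    (heM : e ∈ M) (h1 : IsUnit4 (v - u)) (h2 : u + v = e) (h : Co ((ω ∪ W) ∩ M) u v)
    (hM : DCo M (fi X.c0) (fi c)) : X.incO ω c = X.incO (insert e ω) c :=
  incO_toggle hX hω he (fun h3 => co_of_insert heW h1 h2 (h.mono inter_subset_left) h3)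
    fun h3 => dco_insert_joined heW heM h1 h2 h hM h3

/-- (B) the ends of `e` are not joined, one of them is far from everything -/
theorem incO_toggle_B (hX : X.PlaneLike W) (hω : ω ⊆ X.E) (he : e ∈ X.E) (heW : e ∉ ω ∪ W)
    (h1 : IsUnit4 (v - u)) (h2 : u + v = e) (h : ¬ Co (ω ∪ W) u v)
    (hx : ¬ Co (ω ∪ W) v (vx X.c0)) (hy : ¬ Co (ω ∪ W) v (vx c)) :
    X.incO ω c = X.incO (insert e ω) c :=
  incO_toggle hX hω he (fun h3 => co_insert_free h1 h2 hx hy h3)
    fun h3 => dco_insert_free heW h1 h2 h h3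

/-- (C) the faces of `e` are joined in `M` off `e` -/
theorem incO_toggle_C (hX : X.PlaneLike W) (hω : ω ⊆ X.E) (he : e ∈ X.E)
    (heM : e ∈ M) (h1 : IsUnit4 (ψ - φ)) (h2 : φ + ψ = e + (1, 1))
    (h : Co (du (M.erase e) (ω ∪ W)) φ ψ) (hN : Co N (vx X.c0) (vx c)) (hNM : Disjoint N M) :
    X.incO ω c = X.incO (insert e ω) c := by
  have hd : DCo (insert e (ω ∪ W)) φ ψ := by
    refine dco_of_du' (w := ω ∪ W) (fun l hl hl' => ?_) h
    rcases mem_insert.1 hl with h5 | h5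
    · exact absurd h5 (mem_erase.1 hl').1
    · exact h5
  refine incO_toggle hX hω he (fun h3 => co_insert_joined heM h1 h2 h hN hNM h3) fun h3 => ?_
  refine DCo.ind (P := fun x => DCo (insert e (ω ∪ W)) (fi X.c0) x) h3 (DCo.refl _ _) ?_
  intro a b ih h4 h5
  by_cases h6 : a + b - (1, 1) = e
  · refine ih.trans ?_
    rcases side_cases h1 h2 h4 (face_add h6) with ⟨h7, h8⟩ | ⟨h7, h8⟩
    · rw [h7, h8]; exact hd
    · rw [h7, h8]; exact hd.symm
  · exact ih.trans (DCo.step h4 (by rw [mem_insert, not_or]; exact ⟨h6, h5⟩))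

/-- (D) the faces of `e` are not joined off `e`, one of them is far from everything -/
theorem incO_toggle_D (hX : X.PlaneLike W) (hω : ω ⊆ X.E) (he : e ∈ X.E) (heW : e ∉ ω ∪ W)
    (h1 : IsUnit4 (ψ - φ)) (h2 : φ + ψ = e + (1, 1)) (h : ¬ DCo (insert e (ω ∪ W)) φ ψ)
    (hx : ¬ DCo (insert e (ω ∪ W)) φ (fi X.c0)) (hy : ¬ DCo (insert e (ω ∪ W)) φ (fi c)) :
    X.incO ω c = X.incO (insert e ω) c := by
  have ho := odd_of_sides h1 h2
  have hjoin : Co (ω ∪ W) (eu e) (ev e) := by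
    by_contra h3
    exact h (dco_of_not_co heW (ends_vx ho).1 (ends_vx ho).2 h3 h1 h2)
  exact incO_toggle hX hω he
    (fun h3 => co_of_insert heW (ends_vx ho).1 (ends_vx ho).2 hjoin h3)
    fun h3 => dco_insert_side h1 h2 hx hy h3

/-! ### Abstract cut set lemma -/

section abstract

variable {ι β : Type*} [DecidableEq ι]

open Classical in
/-- the canonical set of joining ties -/
noncomputable def star (Ti : Finset ι) (R : ι → ι → Prop) (free : ι → Prop) (τ : Finset ι) :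
    Finset ι := Ti.filter fun e => free e ∨ ∃ e' ∈ τ, R e e'

/-- If adding a tie which is free or related to a present one changes nothing, the function only
depends on the canonical set. -/
theorem eq_star {Ti : Finset ι} {R : ι → ι → Prop} (hR : ∀ a ∈ Ti, R a a) {free : ι → Prop}
    {F : Finset ι → β}
    (h : ∀ τ ⊆ Ti, ∀ e ∈ Ti, e ∉ τ → (free e ∨ ∃ e' ∈ τ, R e e') → F τ = F (insert e τ))
    {τ : Finset ι} (hτ : τ ⊆ Ti) : F τ = F (star Ti R free τ) := by
  classical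
  have hsub : τ ⊆ star Ti R free τ := by
    intro e he
    unfold star
    rw [mem_filter]
    exact ⟨hτ he, Or.inr ⟨e, he, hR e (hτ he)⟩⟩
  have key : ∀ A : Finset ι, A ⊆ star Ti R free τ → F τ = F (τ ∪ A) := by
    intro A
    induction A using Finset.induction_on with
    | empty => intro _; rw [union_empty]
    | insert e A heA ih =>
      intro hA
      have hA' : A ⊆ star Ti R free τ := (subset_insert _ _).trans hA
      have he : e ∈ star Ti R free τ := hA (mem_insert_self _ _)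
      rw [ih hA', union_insert]
      unfold star at he hA'
      rw [mem_filter] at he
      by_cases h1 : e ∈ τ ∪ A
      · rw [insert_eq_of_mem h1]
      · refine h _ (union_subset hτ fun x hx => (mem_filter.1 (hA' hx)).1) e he.1 h1 ?_
        rcases he.2 with h2 | ⟨e', h2, h3⟩
        · exact Or.inl h2
        · exact Or.inr ⟨e', mem_union_left _ h2, h3⟩
  have := key _ (Subset.refl _)
  rwa [union_eq_right.2 hsub] at this

/-- hence it only depends on the status of the classes which are not free -/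
theorem eq_of_status {Ti : Finset ι} {R : ι → ι → Prop} (hR : ∀ a ∈ Ti, R a a) {free : ι → Prop}
    {F : Finset ι → β}
    (h : ∀ τ ⊆ Ti, ∀ e ∈ Ti, e ∉ τ → (free e ∨ ∃ e' ∈ τ, R e e') → F τ = F (insert e τ))
    {τ τ' : Finset ι} (hτ : τ ⊆ Ti) (hτ' : τ' ⊆ Ti)
    (hst : ∀ e ∈ Ti, ¬ free e → ((∃ e' ∈ τ, R e e') ↔ ∃ e' ∈ τ', R e e')) : F τ = F τ' := by
  classical
  rw [eq_star hR h hτ, eq_star hR h hτ']
  congr 1
  unfold star
  refine filter_congr fun e he => ?_
  by_cases hf : free e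
  · exact ⟨fun _ => Or.inl hf, fun _ => Or.inl hf⟩
  · exact or_congr Iff.rfl (hst e he hf)

end abstract

/-! ### Ties of the open colour -/

/-- Data of the ties of the open colour. `tv e`, `tu e` : the ends of the tie `e`, in the bulk and at
the wall; `W1` : the wall, open and connected; `Λ` : the layer. -/
structure TiesO (X : Env) (W Ti W1 : Finset (ℤ × ℤ)) (tv tu : ℤ × ℤ → ℤ × ℤ) : Prop where
  sub : Ti ⊆ X.E
  disj : Disjoint Ti W
  w1 : W1 ⊆ W
  unit : ∀ e ∈ Ti, IsUnit4 (tv e - tu e)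
  ends : ∀ e ∈ Ti, tu e + tv e = e
  conn : ∀ e ∈ Ti, ∀ e' ∈ Ti, Co W1 (tu e) (tu e')
  conn' : ∀ a b, IsUnit4 (b - a) → a + b ∈ W1 → ∀ e ∈ Ti, Co W1 (tu e) a

/-- a small cluster of the layer: all its open labels (those of `G`) are in the layer -/
def SmallO (G Λ : Finset (ℤ × ℤ)) (v : ℤ × ℤ) : Prop :=
  ∀ x y, Co (G ∩ Λ) v x → IsUnit4 (y - x) → x + y ∈ G → x + y ∈ Λ

lemma SmallO.anti {G' : Finset (ℤ × ℤ)} (h : SmallO G' Λ v) (hG : G ⊆ G') : SmallO G Λ v :=
  fun x y h1 h2 h3 => h x y (h1.mono (inter_subset_inter_right hG)) h2 (hG h3)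

/-- the tie `e` has no influence: its cluster is small, or joined to the wall in the layer without
ties -/
def FreeO (G W1 Λ : Finset (ℤ × ℤ)) (tv tu : ℤ × ℤ → ℤ × ℤ) (e : ℤ × ℤ) : Prop :=
  SmallO G Λ (tv e) ∨ Co (G ∩ Λ ∪ W1) (tu e) (tv e)

/-- Hypotheses at the corner `c`: it is not separated from the root by the layer, it is not in a small
cluster of the layer, and the root is at the wall (or in no small cluster). -/
structure FarO (X : Env) (G Ti W1 Λ : Finset (ℤ × ℤ)) (tv tu : ℤ × ℤ → ℤ × ℤ) (c : ℤ × ℤ) :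
    Prop where
  dco : DCo (Λ ∪ Ti ∪ W1) (fi X.c0) (fi c)
  root : ∀ e ∈ Ti, SmallO G Λ (tv e) → Co (G ∩ Λ) (tv e) (vx X.c0) → Co W1 (tu e) (vx X.c0)
  corner : ∀ e ∈ Ti, SmallO G Λ (tv e) → ¬ Co (G ∩ Λ) (tv e) (vx c)

variable {W1 Go : Finset (ℤ × ℤ)} {tv tu : ℤ × ℤ → ℤ × ℤ}

/-- one toggle. `Go` : the open random labels other than the ties of this colour. -/
theorem incO_tie_open (hX : X.PlaneLike W) (hT : TiesO X W Ti W1 tv tu)
    (hGo : Go ⊆ X.E \ Ti) (hc : FarO X (Go ∪ (W \ W1)) Ti W1 Λ tv tu c) (hτ : τ ⊆ Ti)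
    (he : e ∈ Ti) (heτ : e ∉ τ)
    (hcase : FreeO (Go ∪ (W \ W1)) W1 Λ tv tu e ∨
      ∃ e' ∈ τ, Co ((Go ∪ (W \ W1)) ∩ Λ) (tv e) (tv e')) :
    X.incO (Go ∪ τ) c = X.incO (Go ∪ insert e τ) c := by
  classical
  set G := Go ∪ (W \ W1) with hG
  have hω : Go ∪ τ ⊆ X.E := union_subset (hGo.trans sdiff_subset) (hτ.trans hT.sub)
  have heW : e ∉ Go ∪ τ ∪ W := by
    rw [mem_union, mem_union, not_or, not_or]
    exact ⟨⟨fun h => (mem_sdiff.1 (hGo h)).2 he, heτ⟩, fun h => disjoint_left.1 hT.disj he h⟩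
  have hw : Go ∪ τ ∪ W = G ∪ τ ∪ W1 := by
    rw [hG]
    ext l
    have := @hT.w1 l
    simp only [mem_union, mem_sdiff]
    tauto
  rw [union_insert]
  have heM : e ∈ Λ ∪ Ti ∪ W1 := mem_union_left _ (mem_union_right _ he)
  have hu := hT.unit e he
  have hue := hT.ends e he
  have m1 : G ∩ Λ ⊆ (Go ∪ τ ∪ W) ∩ (Λ ∪ Ti ∪ W1) := by
    rw [hw]
    intro l hl
    rw [mem_inter] at hl
    exact mem_inter.2 ⟨mem_union_left _ (mem_union_left _ hl.1),
      mem_union_left _ (mem_union_left _ hl.2)⟩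
  have m2 : W1 ⊆ (Go ∪ τ ∪ W) ∩ (Λ ∪ Ti ∪ W1) := by
    intro l hl
    exact mem_inter.2 ⟨mem_union_right _ (hT.w1 hl), mem_union_right _ hl⟩
  -- joined through another tie
  have hjoin : ∀ e' ∈ τ, Co (G ∩ Λ) (tv e) (tv e') →
      Co ((Go ∪ τ ∪ W) ∩ (Λ ∪ Ti ∪ W1)) (tu e) (tv e) := by
    intro e' he' h1
    have h3 : Co ((Go ∪ τ ∪ W) ∩ (Λ ∪ Ti ∪ W1)) (tu e') (tv e') := by
      refine Relation.ReflTransGen.single ⟨hT.unit e' (hτ he'), ?_⟩
      rw [hT.ends e' (hτ he')]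
      exact mem_inter.2 ⟨mem_union_left _ (mem_union_right _ he'),
        mem_union_left _ (mem_union_right _ (hτ he'))⟩
    exact (((hT.conn e he e' (hτ he')).mono m2).trans h3).trans (h1.mono m1).symm
  by_cases hA : Co ((Go ∪ τ ∪ W) ∩ (Λ ∪ Ti ∪ W1)) (tu e) (tv e)
  · exact incO_toggle_A hX hω (hT.sub he) heW heM hu hue hA hc.dco
  · have hsmall : SmallO G Λ (tv e) := by
      rcases hcase with (h | h) | ⟨e', h1, h2⟩
      · exact h
      · exact absurd (h.mono (union_subset m1 m2)) hA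
      · exact absurd (hjoin e' h1 h2) hA
    -- the full cluster of the bulk end is the cluster in the layer
    have hfull : ∀ x, Co (Go ∪ τ ∪ W) (tv e) x → Co (G ∩ Λ) (tv e) x := by
      intro x hx
      induction hx with
      | refl => exact Co.refl _ _
      | @tail a b _ hab ih =>
        have hl := hab.2
        rw [hw] at hl
        rcases mem_union.1 hl with hl | hl
        · rcases mem_union.1 hl with hl | hl
          · exact ih.tail ⟨hab.1, mem_inter.2 ⟨hl, hsmall a b ih hab.1 hl⟩⟩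
          · exfalso
            -- an open tie
            have h5 := hT.unit _ (hτ hl)
            have h6 := hT.ends _ (hτ hl)
            rcases end_cases h5 h6 hab.1 rfl with ⟨h7, -⟩ | ⟨h7, -⟩
            · -- `a` is the wall end
              apply hA
              have h8 := (hT.conn e he _ (hτ hl)).mono m2
              rw [← h7] at h8
              exact h8.trans (ih.mono m1).symm
            · apply hA
              exact hjoin _ hl (by rw [← h7]; exact ih)
        · exfalso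
          -- a label of the wall
          apply hA
          exact ((hT.conn' a b hab.1 hl e he).mono m2).trans (ih.mono m1).symm
    refine incO_toggle_B hX hω (hT.sub he) heW hu hue ?_ ?_ ?_
    · intro h
      exact hA ((hfull _ h.symm).mono m1).symm
    · intro h
      have h1 := hfull _ h
      exact hA (((hc.root e he hsmall h1).mono m2).trans (h1.mono m1).symm)
    · exact fun h => hc.corner e he hsmall (hfull _ h)

/-- **Cut set lemma, ties of the open colour.** -/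
theorem cutset_open (hX : X.PlaneLike W) (hT : TiesO X W Ti W1 tv tu)
    (hGo : Go ⊆ X.E \ Ti) (hc : FarO X (Go ∪ (W \ W1)) Ti W1 Λ tv tu c) (hτ : τ ⊆ Ti)
    (hτ' : τ' ⊆ Ti)
    (hst : ∀ e ∈ Ti, ¬ FreeO (Go ∪ (W \ W1)) W1 Λ tv tu e →
      ((∃ e' ∈ τ, Co ((Go ∪ (W \ W1)) ∩ Λ) (tv e) (tv e')) ↔
        ∃ e' ∈ τ', Co ((Go ∪ (W \ W1)) ∩ Λ) (tv e) (tv e'))) :
    X.incO (Go ∪ τ) c = X.incO (Go ∪ τ') c :=
  eq_of_status (Ti := Ti) (R := fun e e' => Co ((Go ∪ (W \ W1)) ∩ Λ) (tv e) (tv e'))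
    (free := FreeO (Go ∪ (W \ W1)) W1 Λ tv tu) (F := fun τ => X.incO (Go ∪ τ) c)
    (fun _ _ => Co.refl _ _)
    (fun _ h1 _ h2 h3 h4 => incO_tie_open hX hT hGo hc h1 h2 h3 h4) hτ hτ' hst

/-! ### Ties of the closed colour -/

/-- Data of the ties of the closed colour. `tb e`, `te e` : the faces of the tie `e`, in the bulk and
outside; `K1` : closed labels which join the outer faces. -/
structure TiesC (X : Env) (W Ti K1 : Finset (ℤ × ℤ)) (tb te : ℤ × ℤ → ℤ × ℤ) : Prop where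
  sub : Ti ⊆ X.E
  disj : Disjoint Ti W
  kE : Disjoint K1 X.E
  kW : Disjoint K1 W
  unit : ∀ e ∈ Ti, IsUnit4 (tb e - te e)
  ends : ∀ e ∈ Ti, te e + tb e = e + (1, 1)
  conn : ∀ e ∈ Ti, ∀ e' ∈ Ti, Co (du K1 ∅) (te e) (te e')
  conn' : ∀ a b, IsUnit4 (b - a) → a + b - (1, 1) ∈ K1 → ∀ e ∈ Ti, Co (du K1 ∅) (te e) a

/-- a small dual cluster of the layer: all its closed labels outside `K` are in the layer -/
def SmallC (G Λ K : Finset (ℤ × ℤ)) (φ : ℤ × ℤ) : Prop :=
  ∀ x y, Co (du Λ G) φ x → IsUnit4 (y - x) → x + y - (1, 1) ∉ G ∪ K → x + y - (1, 1) ∈ Λ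

/-- the tie `e` has no influence -/
def FreeC (G Ti K1 Λ : Finset (ℤ × ℤ)) (tb te : ℤ × ℤ → ℤ × ℤ) (e : ℤ × ℤ) : Prop :=
  SmallC G Λ (Ti ∪ K1) (tb e) ∨ Co (du Λ G ∪ du K1 ∅) (te e) (tb e)

/-- Hypotheses at the corner `c`. -/
structure FarC (X : Env) (G Ti K1 Λ N : Finset (ℤ × ℤ)) (tb te : ℤ × ℤ → ℤ × ℤ) (c : ℤ × ℤ) :
    Prop where
  co : Co N (vx X.c0) (vx c)
  disj : Disjoint N (Λ ∪ Ti ∪ K1)
  root : ∀ e ∈ Ti, SmallC G Λ (Ti ∪ K1) (tb e) → Co (du Λ G) (tb e) (fi X.c0) →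
    Co (du K1 ∅) (te e) (fi X.c0)
  corner : ∀ e ∈ Ti, SmallC G Λ (Ti ∪ K1) (tb e) → ¬ Co (du Λ G) (tb e) (fi c)

variable {K1 : Finset (ℤ × ℤ)} {tb te : ℤ × ℤ → ℤ × ℤ}

lemma mem_du_of {E w : Finset (ℤ × ℤ)} {a b : ℤ × ℤ} (h1 : a + b - (1, 1) ∈ E)
    (h2 : a + b - (1, 1) ∉ w) : a + b ∈ du E w := by
  unfold du
  rw [mem_map]
  refine ⟨a + b - (1, 1), mem_sdiff.2 ⟨h1, h2⟩, ?_⟩
  show ((a + b - (1, 1)).1 + 1, (a + b - (1, 1)).2 + 1) = a + b
  refine Prod.ext ?_ ?_ <;> simp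

lemma unit_symm {a b : ℤ × ℤ} (h : IsUnit4 (b - a)) : IsUnit4 (a - b) := by
  unfold IsUnit4 at h ⊢
  simp only [Prod.ext_iff, Prod.fst_sub, Prod.snd_sub] at h ⊢
  omega

/-- one toggle. `Go` : the open random labels other than the ties of this colour; `τ` : closed ties. -/
theorem incO_tie_closed (hX : X.PlaneLike W) (hT : TiesC X W Ti K1 tb te)
    (hGo : Go ⊆ X.E \ Ti) (hΛ : Disjoint Λ Ti) (hc : FarC X (Go ∪ W) Ti K1 Λ N tb te c)
    (hτ : τ ⊆ Ti) (he : e ∈ Ti) (heτ : e ∉ τ)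
    (hcase : FreeC (Go ∪ W) Ti K1 Λ tb te e ∨
      ∃ e' ∈ τ, Co (du Λ (Go ∪ W)) (tb e) (tb e')) :
    X.incO (Go ∪ (Ti \ τ)) c = X.incO (Go ∪ (Ti \ insert e τ)) c := by
  classical
  set G := Go ∪ W with hG
  set ω := Go ∪ (Ti \ insert e τ) with hωdef
  have hω : ω ⊆ X.E := union_subset (hGo.trans sdiff_subset) (sdiff_subset.trans hT.sub)
  have hins : Go ∪ (Ti \ τ) = insert e ω := by
    rw [hωdef]
    ext l
    simp only [mem_union, mem_sdiff, mem_insert]
    by_cases h : l = e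
    · subst h; tauto
    · tauto
  have heW : e ∉ ω ∪ W := by
    rw [mem_union, hωdef, mem_union, not_or, not_or]
    refine ⟨⟨fun h => (mem_sdiff.1 (hGo h)).2 he, fun h => ?_⟩,
      fun h => disjoint_left.1 hT.disj he h⟩
    exact (mem_sdiff.1 h).2 (mem_insert_self _ _)
  rw [hins]
  symm
  have heM : e ∈ Λ ∪ Ti ∪ K1 := mem_union_left _ (mem_union_right _ he)
  have hu := hT.unit e he
  have hue := hT.ends e he
  have hK1 : ∀ l ∈ K1, l ∉ Ti ∧ l ∉ ω ∪ W := by
    intro l hl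
    have h1 : l ∉ X.E := fun h => disjoint_left.1 hT.kE hl h
    refine ⟨fun h => h1 (hT.sub h), fun h => ?_⟩
    rcases mem_union.1 h with h | h
    · exact h1 (hω h)
    · exact disjoint_left.1 hT.kW hl h
  have m1 : du Λ G ⊆ du ((Λ ∪ Ti ∪ K1).erase e) (ω ∪ W) := by
    unfold du
    refine map_subset_map.2 fun l hl => ?_
    obtain ⟨h1, h2⟩ := mem_sdiff.1 hl
    have h3 : l ∉ Ti := fun h => disjoint_left.1 hΛ h1 h
    refine mem_sdiff.2 ⟨mem_erase.2 ⟨fun h => h3 (h ▸ he), mem_union_left _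
      (mem_union_left _ h1)⟩, fun h => ?_⟩
    rcases mem_union.1 h with h | h
    · rcases mem_union.1 h with h | h
      · exact h2 (mem_union_left _ h)
      · exact h3 (mem_sdiff.1 h).1
    · exact h2 (mem_union_right _ h)
  have m2 : du K1 ∅ ⊆ du ((Λ ∪ Ti ∪ K1).erase e) (ω ∪ W) := by
    unfold du
    refine map_subset_map.2 fun l hl => ?_
    have h1 := (mem_sdiff.1 hl).1
    obtain ⟨h2, h3⟩ := hK1 l h1
    exact mem_sdiff.2 ⟨mem_erase.2 ⟨fun h => h2 (h ▸ he), mem_union_right _ h1⟩, h3⟩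
  have hjoin : ∀ e' ∈ τ, Co (du Λ G) (tb e) (tb e') →
      Co (du ((Λ ∪ Ti ∪ K1).erase e) (ω ∪ W)) (te e) (tb e) := by
    intro e' he' h1
    have h3 : Co (du ((Λ ∪ Ti ∪ K1).erase e) (ω ∪ W)) (te e') (tb e') := by
      refine Relation.ReflTransGen.single ⟨hT.unit e' (hτ he'), ?_⟩
      have h4 : te e' + tb e' - (1, 1) = e' := face_sub (hT.ends e' (hτ he'))
      refine mem_du_of ?_ ?_
      · rw [h4]
        exact mem_erase.2 ⟨fun h => heτ (h ▸ he'), mem_union_left _ (mem_union_right _ (hτ he'))⟩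
      · rw [h4, mem_union, hωdef, mem_union, not_or, not_or]
        refine ⟨⟨fun h => (mem_sdiff.1 (hGo h)).2 (hτ he'), fun h => ?_⟩,
          fun h => disjoint_left.1 hT.disj (hτ he') h⟩
        exact (mem_sdiff.1 h).2 (mem_insert_of_mem he')
    exact (((hT.conn e he e' (hτ he')).mono m2).trans h3).trans (h1.mono m1).symm
  by_cases hA : Co (du ((Λ ∪ Ti ∪ K1).erase e) (ω ∪ W)) (te e) (tb e)
  · exact incO_toggle_C hX hω (hT.sub he) heM hu hue hA hc.co hc.disj
  · have hsmall : SmallC G Λ (Ti ∪ K1) (tb e) := by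
      rcases hcase with (h | h) | ⟨e', h1, h2⟩
      · exact h
      · exact absurd (h.mono (union_subset m1 m2)) hA
      · exact absurd (hjoin e' h1 h2) hA
    have hfull : ∀ x, DCo (insert e (ω ∪ W)) (tb e) x → Co (du Λ G) (tb e) x := by
      intro x hx
      refine DCo.ind (P := fun x => Co (du Λ G) (tb e) x) hx (Co.refl _ _) ?_
      intro a b ih hab hl
      by_cases h1 : a + b - (1, 1) ∈ Λ
      · refine ih.tail ⟨hab, mem_du_of h1 fun h => hl ?_⟩
        rcases mem_union.1 h with h | h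
        · exact mem_insert_of_mem (mem_union_left _ (mem_union_left _ h))
        · exact mem_insert_of_mem (mem_union_right _ h)
      · exfalso
        by_cases h2 : a + b - (1, 1) ∈ Ti
        · -- a closed tie
          have h3 : a + b - (1, 1) ∈ τ := by
            by_contra h3
            apply hl
            by_cases h4 : a + b - (1, 1) = e
            · rw [h4]; exact mem_insert_self _ _
            · refine mem_insert_of_mem (mem_union_left _ (mem_union_right _ (mem_sdiff.2 ⟨h2, ?_⟩)))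
              rw [mem_insert, not_or]; exact ⟨h4, h3⟩
          rcases side_cases (hT.unit _ h2) (hT.ends _ h2) hab (face_add rfl) with
            ⟨h5, -⟩ | ⟨h5, -⟩
          · apply hA
            have h6 := (hT.conn e he _ h2).mono m2
            rw [← h5] at h6
            exact h6.trans (ih.mono m1).symm
          · apply hA
            exact hjoin _ h3 (by rw [← h5]; exact ih)
        · by_cases h3 : a + b - (1, 1) ∈ K1
          · apply hA
            exact ((hT.conn' a b hab h3 e he).mono m2).trans (ih.mono m1).symm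
          · apply h1
            refine hsmall a b ih hab fun h4 => ?_
            rcases mem_union.1 h4 with h4 | h4
            · rcases mem_union.1 h4 with h4 | h4
              · exact hl (mem_insert_of_mem (mem_union_left _ (mem_union_left _ h4)))
              · exact hl (mem_insert_of_mem (mem_union_right _ h4))
            · rcases mem_union.1 h4 with h4 | h4
              · exact h2 h4
              · exact h3 h4
    refine incO_toggle_D hX hω (hT.sub he) heW (φ := tb e) (ψ := te e) (unit_symm hu)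
      (by rw [add_comm]; exact hue) ?_ ?_ ?_
    · intro h
      exact hA ((hfull _ h).mono m1).symm
    · intro h
      have h1 := hfull _ h
      exact hA (((hc.root e he hsmall h1).mono m2).trans (h1.mono m1).symm)
    · exact fun h => hc.corner e he hsmall (hfull _ h)

/-- **Cut set lemma, ties of the closed colour.** `τ`, `τ'` : the closed ties. -/
theorem cutset_closed (hX : X.PlaneLike W) (hT : TiesC X W Ti K1 tb te)
    (hGo : Go ⊆ X.E \ Ti) (hΛ : Disjoint Λ Ti) (hc : FarC X (Go ∪ W) Ti K1 Λ N tb te c)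
    (hτ : τ ⊆ Ti) (hτ' : τ' ⊆ Ti)
    (hst : ∀ e ∈ Ti, ¬ FreeC (Go ∪ W) Ti K1 Λ tb te e →
      ((∃ e' ∈ τ, Co (du Λ (Go ∪ W)) (tb e) (tb e')) ↔
        ∃ e' ∈ τ', Co (du Λ (Go ∪ W)) (tb e) (tb e'))) :
    X.incO (Go ∪ (Ti \ τ)) c = X.incO (Go ∪ (Ti \ τ')) c :=
  eq_of_status (Ti := Ti) (R := fun e e' => Co (du Λ (Go ∪ W)) (tb e) (tb e'))
    (free := FreeC (Go ∪ W) Ti K1 Λ tb te) (F := fun τ => X.incO (Go ∪ (Ti \ τ)) c)
    (fun _ _ => Co.refl _ _)
    (fun _ h1 _ h2 h3 h4 => incO_tie_closed hX hT hGo hΛ hc h1 h2 h3 h4) hτ hτ' hst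

end Pool.Agent.H39.Q1
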