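import Mathlib
import Pool.Agent.H39.Q1.CutEnv
import Pool.Agent.H25.Q1.Add
import Pool.Agent.Q1.ExC

set_option autoImplicit false
open Finset

/-! # From the ties to the clusters

The complex product expectation over the ties of a function which depends only on the set of the cut
classes is the complex Bernoulli expectation over the classes, the weight of a cut class being the product
of the weights of its closed ties. -/

namespace Pool.Agent.H39.Q1

open Pool.Agent.Q1 Pool.Agent.H25.Q1.Add

variable {ι κ : Type*} [DecidableEq ι] [DecidableEq κ]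

/-- the classes of `C` which do not meet `τ` -/
def cutof (cl : ι → κ) (C : Finset κ) (τ : Finset ι) : Finset κ :=
  C.filter fun k => ∀ e ∈ τ, cl e ≠ k

/-- the ties whose class is in `C` -/
def blk (cl : ι → κ) (Ti : Finset ι) (C : Finset κ) : Finset ι := Ti.filter fun e => cl e ∈ C

/-- weight of a cut class -/
noncomputable def phc (q : ι → ℂ) (cl : ι → κ) (Ti : Finset ι) (k : κ) : ℂ :=
  ∏ e ∈ Ti.filter (fun e => cl e = k), (1 - q e)

lemma Ec_ite_empty (q : ι → ℂ) (B : Finset ι) (a b : ℂ) :
    Ec q B (fun τ => if τ = ∅ then a else b) =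
      (∏ e ∈ B, (1 - q e)) * a + (1 - ∏ e ∈ B, (1 - q e)) * b := by
  have h1 : Ec q B (fun τ => if τ = ∅ then a else b) =
      Ec q B (fun τ => b + if τ = ∅ then a - b else 0) :=
    Ec_congr fun τ _ => by split_ifs <;> ring
  have h2 : Ec q B (fun τ => if τ = ∅ then a - b else 0) = (∏ e ∈ B, (1 - q e)) * (a - b) := by
    unfold Ec
    rw [Finset.sum_eq_single (∅ : Finset ι)]
    · simp only [if_true]
      unfold wtc
      simp
    · intro τ _ hne
      simp only [if_neg hne, mul_zero]
    · intro h
      exact absurd (empty_mem_powerset B) h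
  rw [h1, Ec_add, h2, Ec_const]
  ring

theorem Ec_blocks (q : ι → ℂ) (cl : ι → κ) (Ti : Finset ι) (C : Finset κ) (G : Finset κ → ℂ) :
    Ec q (blk cl Ti C) (fun τ => G (cutof cl C τ)) = cE (phc q cl Ti) C G := by
  induction C using Finset.induction_on generalizing G with
  | empty =>
    have h1 : blk cl Ti ∅ = ∅ := by unfold blk; simp
    rw [h1, Ec_empty]
    simp [cE, cw, cutof]
  | insert k C hk ih =>
    have h1 : blk cl Ti (insert k C) = blk cl Ti C ∪ Ti.filter (fun e => cl e = k) := by
      unfold blk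
      ext e
      simp only [mem_filter, mem_union, mem_insert]
      tauto
    have hd : Disjoint (blk cl Ti C) (Ti.filter (fun e => cl e = k)) := by
      rw [disjoint_left]
      intro e h2 h3
      unfold blk at h2
      rw [mem_filter] at h2 h3
      rw [h3.2] at h2
      exact hk h2.2
    rw [h1, Ec_union q hd, cE_insert hk, ← ih, ← ih]
    have h2 : ∀ τ1, τ1 ⊆ blk cl Ti C →
        Ec q (Ti.filter (fun e => cl e = k)) (fun τ2 => G (cutof cl (insert k C) (τ1 ∪ τ2))) =
        phc q cl Ti k * G (insert k (cutof cl C τ1)) +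
          (1 - phc q cl Ti k) * G (cutof cl C τ1) := by
      intro τ1 hτ1
      unfold phc
      rw [← Ec_ite_empty]
      refine Ec_congr fun τ2 hτ2 => ?_
      have hk1 : ∀ e ∈ τ1, cl e ≠ k := by
        intro e he h3
        have := hτ1 he
        unfold blk at this
        rw [mem_filter, h3] at this
        exact hk this.2
      by_cases h3 : τ2 = ∅
      · rw [if_pos h3, h3, union_empty]
        congr 1
        unfold cutof
        rw [filter_insert, if_pos hk1]
      · rw [if_neg h3]
        congr 1
        obtain ⟨e0, he0⟩ := nonempty_iff_ne_empty.2 h3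
        have h4 : cl e0 = k := (mem_filter.1 (hτ2 he0)).2
        unfold cutof
        rw [filter_insert, if_neg fun h => h e0 (mem_union_right _ he0) h4]
        refine filter_congr fun j hj => ?_
        constructor
        · exact fun h e he => h e (mem_union_left _ he)
        · intro h e he
          rcases mem_union.1 he with h5 | h5
          · exact h e h5
          · rw [(mem_filter.1 (hτ2 h5)).2]
            rintro rfl
            exact hk hj
    rw [Ec_congr h2, Ec_add, Ec_smul, Ec_smul, smul_eq_mul, smul_eq_mul]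
    ring

/-- **From the ties to the classes which are not free.** -/
theorem Ec_ties (q : ι → ℂ) {Ti : Finset ι} {R : ι → ι → Prop} (cl : ι → κ)
    (hcl : ∀ a ∈ Ti, ∀ b ∈ Ti, (R a b ↔ cl a = cl b)) {free : ι → Prop} [DecidablePred free]
    {F : Finset ι → ℂ}
    (h : ∀ τ ⊆ Ti, ∀ e ∈ Ti, e ∉ τ → (free e ∨ ∃ e' ∈ τ, R e e') → F τ = F (insert e τ)) :
    Ec q Ti F = cE (phc q cl Ti) ((Ti.filter fun e => ¬ free e).image cl)
      (fun A => F (Ti.filter fun e => cl e ∉ A)) := by
  classical
  have hR : ∀ a ∈ Ti, R a a := fun a ha => (hcl a ha a ha).2 rfl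
  set C := Ti.image cl with hC
  set M := (Ti.filter fun e => ¬ free e).image cl with hM
  have hblk : blk cl Ti C = Ti := by
    unfold blk
    exact filter_true_of_mem fun e he => mem_image_of_mem _ he
  have h1 : ∀ τ ⊆ Ti, F τ = F (Ti.filter fun e => cl e ∉ cutof cl C τ) := by
    intro τ hτ
    refine eq_of_status hR h hτ (filter_subset _ _) fun e he _ => ?_
    constructor
    · rintro ⟨e', h2, h3⟩
      refine ⟨e, mem_filter.2 ⟨he, fun h4 => ?_⟩, hR e he⟩
      exact (mem_filter.1 h4).2 e' h2 ((hcl e he e' (hτ h2)).1 h3).symm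
    · rintro ⟨e', h2, h3⟩
      obtain ⟨h4, h5⟩ := mem_filter.1 h2
      unfold cutof at h5
      rw [mem_filter, not_and] at h5
      have h6 := h5 (mem_image_of_mem _ h4)
      push Not at h6
      obtain ⟨e'', h7, h8⟩ := h6
      refine ⟨e'', h7, (hcl e he e'' (hτ h7)).2 ?_⟩
      rw [h8]; exact (hcl e he e' h4).1 h3
  rw [Ec_congr h1]
  have h2 := Ec_blocks q cl Ti C (fun A => F (Ti.filter fun e => cl e ∉ A))
  rw [hblk] at h2
  rw [h2]
  refine cE_inter _ C M (image_subset_image (filter_subset _ _)) _ fun A hA => ?_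
  refine eq_of_status hR h (filter_subset _ _) (filter_subset _ _) fun e he hf => ?_
  have heM : ∀ e' ∈ Ti, R e e' → cl e' ∈ M := by
    intro e' he' h3
    have h4 := (hcl e he e' he').1 h3
    rw [← h4]
    exact mem_image_of_mem _ (mem_filter.2 ⟨he, hf⟩)
  constructor
  · rintro ⟨e', h3, h4⟩
    obtain ⟨h5, h6⟩ := mem_filter.1 h3
    exact ⟨e', mem_filter.2 ⟨h5, fun h7 => h6 (mem_inter.1 h7).1⟩, h4⟩
  · rintro ⟨e', h3, h4⟩
    obtain ⟨h5, h6⟩ := mem_filter.1 h3
    exact ⟨e', mem_filter.2 ⟨h5, fun h7 => h6 (mem_inter.2 ⟨h7, heM e' h5 h4⟩)⟩, h4⟩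

end Pool.Agent.H39.Q1
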