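import Mathlib
import Pool.Agent.H39.Q1.Blocks

set_option autoImplicit false
open Finset

/-! # Expectation over the ties of one colour = Bernoulli expectation over the macroscopic clusters

`U X Cs a ω` : a linear combination of increments at the corners of `Cs`. `clO`, `clC` : the class of a
tie (all ties of its cluster of the layer). -/

namespace Pool.Agent.H39.Q1

open Pool.Agent.H75.Perc Pool.Agent.H75.TwoArm Pool.Agent.H75.Four Pool.Agent.H69.Q1
open Pool.Agent.Q1 Pool.Agent.H25.Q1.Add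

/-- linear combination of increments -/
noncomputable def U (X : Env) (Cs : Finset (ℤ × ℤ)) (a : ℤ × ℤ → ℂ) (ω : Finset (ℤ × ℤ)) : ℂ :=
  ∑ c ∈ Cs, a c * X.incO ω c

open Classical in
/-- class of a tie, open colour -/
noncomputable def clO (G Λ Ti : Finset (ℤ × ℤ)) (tv : ℤ × ℤ → ℤ × ℤ) (e : ℤ × ℤ) :
    Finset (ℤ × ℤ) := Ti.filter fun e' => Co (G ∩ Λ) (tv e) (tv e')

open Classical in
/-- class of a tie, closed colour -/
noncomputable def clC (G Λ Ti : Finset (ℤ × ℤ)) (tb : ℤ × ℤ → ℤ × ℤ) (e : ℤ × ℤ) :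
    Finset (ℤ × ℤ) := Ti.filter fun e' => Co (du Λ G) (tb e) (tb e')

variable {X : Env} {W N G Λ Ti W1 K1 Go Cs : Finset (ℤ × ℤ)} {tv tu tb te : ℤ × ℤ → ℤ × ℤ}
  {a : ℤ × ℤ → ℂ}

open Classical in
lemma clO_iff {e e' : ℤ × ℤ} (_he : e ∈ Ti) (he' : e' ∈ Ti) :
    Co (G ∩ Λ) (tv e) (tv e') ↔ clO G Λ Ti tv e = clO G Λ Ti tv e' := by
  unfold clO
  constructor
  · intro h
    refine filter_congr fun x _ => ?_
    exact ⟨fun h1 => h.symm.trans h1, fun h1 => h.trans h1⟩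
  · intro h
    have h1 : e' ∈ Ti.filter fun x => Co (G ∩ Λ) (tv e') (tv x) := mem_filter.2 ⟨he', Co.refl _ _⟩
    rw [← h] at h1
    exact (mem_filter.1 h1).2

open Classical in
lemma clC_iff {e e' : ℤ × ℤ} (_he : e ∈ Ti) (he' : e' ∈ Ti) :
    Co (du Λ G) (tb e) (tb e') ↔ clC G Λ Ti tb e = clC G Λ Ti tb e' := by
  unfold clC
  constructor
  · intro h
    refine filter_congr fun x _ => ?_
    exact ⟨fun h1 => h.symm.trans h1, fun h1 => h.trans h1⟩
  · intro h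
    have h1 : e' ∈ Ti.filter fun x => Co (du Λ G) (tb e') (tb x) := mem_filter.2 ⟨he', Co.refl _ _⟩
    rw [← h] at h1
    exact (mem_filter.1 h1).2

open Classical in
/-- **Ties of the open colour.** `q` : the (complex) densities of the open ties. The cut classes carry
the weight `∏ (1 - q)`. -/
theorem ties_open (q : ℤ × ℤ → ℂ) (hX : X.PlaneLike W) (hT : TiesO X W Ti W1 tv tu)
    (hGo : Go ⊆ X.E \ Ti) (hc : ∀ c ∈ Cs, FarO X (Go ∪ (W \ W1)) Ti W1 Λ tv tu c) :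
    Ec q Ti (fun τ => U X Cs a (Go ∪ τ)) =
      cE (phc q (clO (Go ∪ (W \ W1)) Λ Ti tv) Ti)
        ((Ti.filter fun e => ¬ FreeO (Go ∪ (W \ W1)) W1 Λ tv tu e).image
          (clO (Go ∪ (W \ W1)) Λ Ti tv))
        (fun A => U X Cs a (Go ∪ Ti.filter fun e => clO (Go ∪ (W \ W1)) Λ Ti tv e ∉ A)) := by
  refine Ec_ties q (R := fun e e' => Co ((Go ∪ (W \ W1)) ∩ Λ) (tv e) (tv e')) _
    (fun e he e' he' => clO_iff he he') (free := FreeO (Go ∪ (W \ W1)) W1 Λ tv tu)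
    (F := fun τ => U X Cs a (Go ∪ τ)) ?_
  intro τ hτ e he heτ hcase
  unfold U
  exact sum_congr rfl fun c hcs => by
    rw [incO_tie_open hX hT hGo (hc c hcs) hτ he heτ hcase]

open Classical in
/-- **Ties of the closed colour.** `q` : the densities of the closed ties. -/
theorem ties_closed (q : ℤ × ℤ → ℂ) (hX : X.PlaneLike W) (hT : TiesC X W Ti K1 tb te)
    (hGo : Go ⊆ X.E \ Ti) (hΛ : Disjoint Λ Ti)
    (hc : ∀ c ∈ Cs, FarC X (Go ∪ W) Ti K1 Λ N tb te c) :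
    Ec q Ti (fun τ => U X Cs a (Go ∪ (Ti \ τ))) =
      cE (phc q (clC (Go ∪ W) Λ Ti tb) Ti)
        ((Ti.filter fun e => ¬ FreeC (Go ∪ W) Ti K1 Λ tb te e).image (clC (Go ∪ W) Λ Ti tb))
        (fun A => U X Cs a (Go ∪ (Ti \ Ti.filter fun e => clC (Go ∪ W) Λ Ti tb e ∉ A))) := by
  refine Ec_ties q (R := fun e e' => Co (du Λ (Go ∪ W)) (tb e) (tb e')) _
    (fun e he e' he' => clC_iff he he') (free := FreeC (Go ∪ W) Ti K1 Λ tb te)
    (F := fun τ => U X Cs a (Go ∪ (Ti \ τ))) ?_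
  intro τ hτ e he heτ hcase
  unfold U
  exact sum_congr rfl fun c hcs => by
    rw [incO_tie_closed hX hT hGo hΛ (hc c hcs) hτ he heτ hcase]

/-- exchange of the colours of the labels in an expectation -/
lemma wtc_compl (q : ℤ × ℤ → ℂ) {E ω : Finset (ℤ × ℤ)} (h : ω ⊆ E) :
    wtc q E (E \ ω) = wtc (fun e => 1 - q e) E ω := by
  unfold wtc
  rw [Finset.sdiff_sdiff_eq_self h, mul_comm]
  simp only [sub_sub_cancel]

lemma Ec_compl (q : ℤ × ℤ → ℂ) (E : Finset (ℤ × ℤ)) (F : Finset (ℤ × ℤ) → ℂ) :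
    Ec q E F = Ec (fun e => 1 - q e) E (fun ω => F (E \ ω)) := by
  unfold Ec
  refine sum_bij' (fun ω _ => E \ ω) (fun ω _ => E \ ω) ?_ ?_ ?_ ?_ ?_
  · intro ω _; exact mem_powerset.2 sdiff_subset
  · intro ω _; exact mem_powerset.2 sdiff_subset
  · intro ω hω; exact Finset.sdiff_sdiff_eq_self (mem_powerset.1 hω)
  · intro ω hω; exact Finset.sdiff_sdiff_eq_self (mem_powerset.1 hω)
  · intro ω hω
    have h := mem_powerset.1 hω
    have h2 := wtc_compl (fun e => 1 - q e) h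
    simp only [sub_sub_cancel] at h2
    rw [h2]
    show _ = wtc q E ω * F (E \ (E \ ω))
    rw [Finset.sdiff_sdiff_eq_self h]

end Pool.Agent.H39.Q1
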