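import Mathlib
import Pool.Agent.H39.Q1.CutSum

set_option autoImplicit false
open Finset

/-! # The response to cutting one cluster, open colour

`DTO` : change of `U` if all ties of the class of `e₀` are closed. It vanishes if the class is free; on
the event that only one cluster crosses an annulus around the contacts it is a function of the labels
outside. -/

namespace Pool.Agent.H39.Q1

open Pool.Agent.H75.Perc Pool.Agent.H75.TwoArm Pool.Agent.H75.Four Pool.Agent.H69.Q1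
open Pool.Agent.Q1 Pool.Agent.H99.NC Pool.Agent.H60.Q1
open Pool.Agent.Q1.Env (TConn)

variable {X : Env} {W G Λ Ti W1 Go Cs S : Finset (ℤ × ℤ)} {tv tu : ℤ × ℤ → ℤ × ℤ}
  {a : ℤ × ℤ → ℂ} {e0 w t w0 : ℤ × ℤ} {ρ r : ℤ}

/-- response to cutting the class of `e₀` -/
noncomputable def DTO (X : Env) (Cs : Finset (ℤ × ℤ)) (a : ℤ × ℤ → ℂ) (W W1 Λ Ti : Finset (ℤ × ℤ))
    (tv : ℤ × ℤ → ℤ × ℤ) (e0 : ℤ × ℤ) (Go : Finset (ℤ × ℤ)) : ℂ :=
  U X Cs a (Go ∪ (Ti \ clO (Go ∪ (W \ W1)) Λ Ti tv e0)) - U X Cs a (Go ∪ Ti)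

lemma mem_clO {e : ℤ × ℤ} : e ∈ clO G Λ Ti tv e0 ↔ e ∈ Ti ∧ Co (G ∩ Λ) (tv e0) (tv e) := by
  classical
  unfold clO
  rw [mem_filter]

/-- a class whose tie is free has no response -/
theorem dto_free (hX : X.PlaneLike W) (hT : TiesO X W Ti W1 tv tu)
    (hGo : Go ⊆ X.E \ Ti) (hc : ∀ c ∈ Cs, FarO X (Go ∪ (W \ W1)) Ti W1 Λ tv tu c)
    (he0 : e0 ∈ Ti) (hfree : FreeO (Go ∪ (W \ W1)) W1 Λ tv tu e0) :
    DTO X Cs a W W1 Λ Ti tv e0 Go = 0 := by
  unfold DTO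
  rw [sub_eq_zero]
  unfold U
  refine sum_congr rfl fun c hcs => ?_
  congr 1
  refine cutset_open hX hT hGo (hc c hcs) sdiff_subset (Subset.refl _) fun e he hnf => ?_
  have hex : ∃ e' ∈ Ti, Co ((Go ∪ (W \ W1)) ∩ Λ) (tv e) (tv e') := ⟨e, he, Co.refl _ _⟩
  refine ⟨fun _ => hex, fun _ => ⟨e, mem_sdiff.2 ⟨he, fun h => hnf ?_⟩, Co.refl _ _⟩⟩
  have h1 := (mem_clO.1 h).2
  rcases hfree with h2 | h2
  · left
    intro x y h3 h4 h5
    exact h2 x y (h1.trans h3) h4 h5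
  · right
    have h3 : Co ((Go ∪ (W \ W1)) ∩ Λ ∪ W1) (tu e) (tu e0) :=
      (hT.conn e he e0 he0).mono subset_union_right
    exact (h3.trans h2).trans (h1.mono subset_union_left)

/-- Geometry of the inner set and of the wall in the box `BR w r`. -/
structure BoxO (X : Env) (W Ti W1 : Finset (ℤ × ℤ)) (tu : ℤ × ℤ → ℤ × ℤ) (S : Finset (ℤ × ℤ))
    (w w0 : ℤ × ℤ) (ρ r : ℤ) : Prop where
  conn : TConn S
  sE : S ⊆ X.E
  sW : Disjoint S W
  sr : S ⊆ BR w ρ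
  lt : ρ < r
  b1 : ∀ a b, IsUnit4 (b - a) → a + b ∈ W1 ∩ BR w r → Co (W1 ∩ BR w r) a w0
  b2 : ∀ e ∈ Ti, e ∈ BR w r → Co (W1 ∩ BR w r) (tu e) w0
  b3 : W ∩ BR w r ⊆ W1
  root : lab X.c0 ∉ BR w r

/-- the crossing event: only the cluster of `t` crosses the annulus -/
def OneX (Go S : Finset (ℤ × ℤ)) (w : ℤ × ℤ) (ρ r : ℤ) (t : ℤ × ℤ) : Prop :=
  ∀ u v, inR w ρ u → ¬ inR w (r - 1) v → Co (Go ∩ (BR w r \ S)) u v →
    Co (Go ∩ (BR w r \ S)) u t

lemma BR_mono' {ρ r : ℤ} (h : ρ ≤ r) : BR w ρ ⊆ BR w r := by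
  intro l hl
  unfold BR at hl ⊢
  rw [mem_Bx] at hl ⊢
  omega

/-- from an open connection of a near vertex with a far vertex to `t`, inside the box -/
lemma near_to_t {η : Finset (ℤ × ℤ)} {x v : ℤ × ℤ} (hSr : S ⊆ BR w ρ)
    (hone : OneX Go S w ρ r t) (hη : η ⊆ Go ∩ BR w r) (hx : inR w ρ x)
    (hv : ¬ inR w (r - 1) v) (h : Co η x v) : Co (Go ∩ BR w r) x t := by
  have hsub : Go ∩ (BR w r \ S) ⊆ Go ∩ BR w r := inter_subset_inter_left sdiff_subset
  have key : ∀ y, Co η v y → Co (Go ∩ (BR w r \ S)) v y ∨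
      ∃ u, inR w ρ u ∧ Co (Go ∩ (BR w r \ S)) v u := by
    intro y hy
    induction hy with
    | refl => exact Or.inl (Co.refl _ _)
    | @tail a b _ hab ih =>
      rcases ih with ih | ih
      · by_cases hl : a + b ∈ S
        · right
          exact ⟨a, (Pool.Agent.H20.Q1.BR_ends hab.1 (hSr hl)).1, ih⟩
        · left
          have h1 := mem_inter.1 (hη hab.2)
          exact ih.tail ⟨hab.1, mem_inter.2 ⟨h1.1, mem_sdiff.2 ⟨h1.2, hl⟩⟩⟩
      · exact Or.inr ih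
  have hu : ∃ u, inR w ρ u ∧ Co (Go ∩ (BR w r \ S)) v u := by
    rcases key x h.symm with h1 | h1
    · exact ⟨x, hx, h1⟩
    · exact h1
  obtain ⟨u, hu1, hu2⟩ := hu
  have h3 := hone u v hu1 hv hu2.symm
  exact (((h.mono hη).trans (hu2.mono hsub)).trans (h3.mono hsub))

/-- **Locality of the response.** -/
theorem dto_loc (hX : X.PlaneLike W) (hT : TiesO X W Ti W1 tv tu)
    (hGo : Go ⊆ X.E \ Ti) (hB : BoxO X W Ti W1 tu S w w0 ρ r) (hΛ : Go ∩ BR w r ⊆ Λ)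
    (hone : OneX Go S w ρ r t) (he0 : e0 ∈ Ti) (hx : inR w ρ (tv e0))
    (ht : ∃ v, ¬ inR w (r - 1) v ∧ Co (Go ∩ BR w r) (tv e0) v)
    (hct : clO (Go ∪ (W \ W1)) Λ Ti tv e0 ⊆ S)
    (hsol : ¬ Co ((Go ∪ (W \ W1)) ∩ Λ ∪ W1) (tu e0) (tv e0))
    (hCs : ∀ c ∈ Cs, lab c ∉ BR w r) :
    DTO X Cs a W W1 Λ Ti tv e0 Go =
      U X Cs a ((Go \ S) ∪ (Ti \ S)) - U X Cs a ((Go \ S) ∪ (Ti \ S) ∪ S) := by
  classical
  set G := Go ∪ (W \ W1) with hG
  set cl := clO G Λ Ti tv e0 with hcl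
  set ωo := (Go \ S) ∪ (Ti \ S) with hωo
  have hGoE : Go ⊆ X.E := hGo.trans sdiff_subset
  have hGoTi : ∀ l ∈ Go, l ∉ Ti := fun l hl => (mem_sdiff.1 (hGo hl)).2
  have he0cl : e0 ∈ cl := mem_clO.2 ⟨he0, Co.refl _ _⟩
  have he0S : e0 ∈ S := hct he0cl
  have hωoE : ωo ⊆ X.E \ S := by
    intro l hl
    rw [hωo, mem_union, mem_sdiff, mem_sdiff] at hl
    rw [mem_sdiff]
    rcases hl with hl | hl
    · exact ⟨hGoE hl.1, hl.2⟩
    · exact ⟨hT.sub hl.1, hl.2⟩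
  set A := (ωo ∪ W) ∩ BR w r with hA
  have hW1A : W1 ∩ BR w r ⊆ A := by
    intro l hl
    rw [mem_inter] at hl
    exact mem_inter.2 ⟨mem_union_right _ (hT.w1 hl.1), hl.2⟩
  have hζA : Go ∩ (BR w r \ S) ⊆ A := by
    intro l hl
    rw [mem_inter, mem_sdiff] at hl
    exact mem_inter.2 ⟨mem_union_left _ (mem_union_left _ (mem_sdiff.2 ⟨hl.1, hl.2.2⟩)), hl.2.1⟩
  have hty : ∀ c s, lab c ∈ BR w r → plab c ∉ BR w r → lab s ∈ S → Co A (vx c) (vx s) →
      Co A (vx s) t ∨ Co A (vx s) w0 := by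
    intro c s _ h2 h3 h4
    refine ty_of (ρ := ρ) (r := r) (w := w) (ζ := Go ∩ (BR w r \ S)) ?_ hζA hone
      (vx_in (hB.sr h3)) (vx_far h2) h4
    intro u v huv hl hlζ
    rw [hA, mem_inter] at hl
    rcases mem_union.1 hl.1 with h5 | h5
    · rw [hωo] at h5
      rcases mem_union.1 h5 with h6 | h6
      · exact absurd (mem_inter.2 ⟨(mem_sdiff.1 h6).1, mem_sdiff.2 ⟨hl.2, (mem_sdiff.1 h6).2⟩⟩) hlζ
      · -- a tie outside `S`
        have h7 := (mem_sdiff.1 h6).1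
        have h8 := (hB.b2 _ h7 hl.2).mono hW1A
        rcases end_cases (hT.unit _ h7) (hT.ends _ h7) huv rfl with ⟨-, h9⟩ | ⟨h9, h9'⟩
        · have h10 : Co A (tu (u + v)) (tv (u + v)) :=
            Relation.ReflTransGen.single ⟨hT.unit _ h7, by
              rw [hT.ends _ h7]; exact mem_inter.2 hl⟩
          rw [h9]
          exact h10.symm.trans h8
        · rw [h9']; exact h8
    · have h6 : u + v ∈ W1 ∩ BR w r := by
        exact mem_inter.2 ⟨hB.b3 (mem_inter.2 ⟨h5, hl.2⟩), hl.2⟩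
      exact (hB.b1 v u (unit_symm huv) (by rw [add_comm]; exact h6)).mono hW1A
  -- the vertex of the tie is joined to `t` in the box
  obtain ⟨v, hv1, hv2⟩ := ht
  have hxt : Co (Go ∩ BR w r) (tv e0) t :=
    near_to_t hB.sr hone (Subset.refl _) hx hv1 hv2
  have hw0 : Co W1 (tu e0) w0 :=
    (hB.b2 e0 he0 (BR_mono' hB.lt.le (hB.sr he0S))).mono inter_subset_left
  -- tied
  have htied : Co (A ∪ ((Go ∩ S) ∪ (Ti ∩ S))) t w0 := by
    have m1 : Go ∩ BR w r ⊆ A ∪ ((Go ∩ S) ∪ (Ti ∩ S)) := by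
      intro l hl
      rw [mem_inter] at hl
      by_cases hlS : l ∈ S
      · exact mem_union_right _ (mem_union_left _ (mem_inter.2 ⟨hl.1, hlS⟩))
      · exact mem_union_left _ (hζA (mem_inter.2 ⟨hl.1, mem_sdiff.2 ⟨hl.2, hlS⟩⟩))
    have h1 : Co (A ∪ ((Go ∩ S) ∪ (Ti ∩ S))) (tu e0) (tv e0) :=
      Relation.ReflTransGen.single ⟨hT.unit _ he0, by
        rw [hT.ends _ he0]
        exact mem_union_right _ (mem_union_right _ (mem_inter.2 ⟨he0, he0S⟩))⟩
    have h2 := (hB.b2 e0 he0 (BR_mono' hB.lt.le (hB.sr he0S))).mono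
      (hW1A.trans (subset_union_left (s₂ := (Go ∩ S) ∪ (Ti ∩ S))))
    exact ((hxt.mono m1).symm.trans h1.symm).trans h2
  -- cut
  have hcut : ¬ Co (A ∪ ((Go ∩ S) ∪ ((Ti ∩ S) \ cl))) t w0 := by
    intro hcon
    have hGΛ : Go ∩ BR w r ⊆ G ∩ Λ := fun l hl =>
      mem_inter.2 ⟨mem_union_left _ (mem_inter.1 hl).1, hΛ hl⟩
    have key : ∀ x, Co (A ∪ ((Go ∩ S) ∪ ((Ti ∩ S) \ cl))) t x → Co (G ∩ Λ) (tv e0) x := by
      intro x hx'
      induction hx' with
      | refl => exact hxt.mono hGΛ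
      | @tail a b _ hab ih =>
        have hsolid : Co W1 (tu e0) a → False := fun h => hsol
          ((h.mono subset_union_right).trans (ih.mono subset_union_left).symm)
        have htie : a + b ∈ Ti → a + b ∉ cl → False := by
          intro h5 h6
          rcases end_cases (hT.unit _ h5) (hT.ends _ h5) hab.1 rfl with ⟨h7, -⟩ | ⟨h7, -⟩
          · apply hsolid
            rw [h7]; exact hT.conn e0 he0 _ h5
          · apply h6
            rw [hcl, mem_clO]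
            refine ⟨h5, ?_⟩
            rw [← h7]; exact ih
        rcases mem_union.1 hab.2 with hl | hl
        · rw [hA, mem_inter] at hl
          rcases mem_union.1 hl.1 with h5 | h5
          · rw [hωo] at h5
            rcases mem_union.1 h5 with h6 | h6
            · exact ih.tail ⟨hab.1, hGΛ (mem_inter.2 ⟨(mem_sdiff.1 h6).1, hl.2⟩)⟩
            · exact (htie (mem_sdiff.1 h6).1 fun h => (mem_sdiff.1 h6).2 (hct h)).elim
          · have h6 : a + b ∈ W1 := hB.b3 (mem_inter.2 ⟨h5, hl.2⟩)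
            exact (hsolid (hT.conn' a b hab.1 h6 e0 he0)).elim
        · rcases mem_union.1 hl with h5 | h5
          · have h6 := mem_inter.1 h5
            exact ih.tail ⟨hab.1, hGΛ (mem_inter.2 ⟨h6.1, BR_mono' hB.lt.le (hB.sr h6.2)⟩)⟩
          · obtain ⟨h6, h7⟩ := mem_sdiff.1 h5
            exact (htie (mem_inter.1 h6).1 h7).elim
    have h1 := key w0 hcon
    exact hsol ((hw0.mono subset_union_right).trans (h1.mono subset_union_left).symm)
  have e1 : Go ∪ Ti = ωo ∪ ((Go ∩ S) ∪ (Ti ∩ S)) := by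
    rw [hωo]
    ext l
    by_cases hl : l ∈ S <;> simp only [mem_union, mem_sdiff, mem_inter, hl, not_true, not_false_iff,
      and_true, and_false, false_or, or_false]
  have e2 : Go ∪ (Ti \ cl) = ωo ∪ ((Go ∩ S) ∪ ((Ti ∩ S) \ cl)) := by
    rw [hωo]
    ext l
    have h1 : l ∉ S → l ∉ cl := fun h h' => h (hct h')
    by_cases hl : l ∈ S
    · simp only [mem_union, mem_sdiff, mem_inter, hl, not_true, and_true, and_false, false_or]
    · simp only [mem_union, mem_sdiff, mem_inter, hl, h1 hl, not_false_iff, and_true, and_false,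
        or_false]
  have s1 : (Go ∩ S) ∪ (Ti ∩ S) ⊆ S := union_subset inter_subset_right inter_subset_right
  have s2 : (Go ∩ S) ∪ ((Ti ∩ S) \ cl) ⊆ S :=
    union_subset inter_subset_right (sdiff_subset.trans inter_subset_right)
  unfold DTO U
  rw [← hG, ← hcl, e1, e2]
  congr 1
  · refine sum_congr rfl fun c hcs => ?_
    rw [(incO_loc_open hX hB.conn hB.sE hB.sW (hB.sr.trans (BR_mono' hB.lt.le)) hωoE s2 hty
      hB.root (hCs c hcs)).2 hcut]
  · refine sum_congr rfl fun c hcs => ?_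
    rw [(incO_loc_open hX hB.conn hB.sE hB.sW (hB.sr.trans (BR_mono' hB.lt.le)) hωoE s1 hty
      hB.root (hCs c hcs)).1 htied]

end Pool.Agent.H39.Q1
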