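import Mathlib
import Pool.Agent.H39.Q1.LocEnv

set_option autoImplicit false
open Finset

/-! # Localisation for dual clusters in boxes centred at a face

`BD f r` : the labels `l` with `l + (1,1) ∈ BR f r`, i.e. the dual edges of the box of radius `r` around the
face `f`. -/

namespace Pool.Agent.H39.Q1

open Pool.Agent.H75.Perc Pool.Agent.H75.TwoArm Pool.Agent.H69.Q1 Pool.Agent.Q1
open Pool.Agent.H99.NC Pool.Agent.H60.Q1
open Pool.Agent.Q1.Env (TConn TAdj)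

variable {X : Env} {W S Q R0 η η' ωo ω ω' ζ A : Finset (ℤ × ℤ)} {f w t w0 c : ℤ × ℤ} {ρ r : ℤ}

/-- **Localisation, dual clusters, general region.** -/
theorem incO_loc_closed_gen (hX : X.PlaneLike W) (hS : TConn S) (hSE : S ⊆ X.E)
    (hSW : Disjoint S W) (hSr : S ⊆ Q) (hωo : ωo ⊆ X.E \ S) (hη : η ⊆ S) (hR : Disjoint R0 Q)
    (hO : ∀ c c', lab c ∈ Q → plab c ∉ Q → lab c' ∈ Q → plab c' ∉ Q → Co R0 (vx c) (vx c'))
    (hring : ∀ x y, fi x = fi y → lab x ∈ Q → lab y ∈ Q ∪ R0)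
    (hty : ∀ c s, lab c ∈ Q → plab c ∉ Q → lab s ∈ S →
      Co (du (Q \ S) (ωo ∪ W)) (fi c) (fi s) →
      Co (du (Q \ S) (ωo ∪ W)) (fi s) t ∨ Co (du (Q \ S) (ωo ∪ W)) (fi s) w0)
    (hc0 : lab X.c0 ∉ Q) (hc : lab c ∉ Q) :
    (Co (du Q (ωo ∪ W ∪ η)) t w0 → X.incO (ωo ∪ η) c = X.incO ωo c) ∧
    (¬ Co (du Q (ωo ∪ W ∪ η)) t w0 → X.incO (ωo ∪ η) c = X.incO (ωo ∪ S) c) := by
  have hodd : ∀ e ∈ S, (e.1 + e.2) % 2 = 1 := fun e he => X.odd e (hSE he)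
  have hZS : Disjoint (ωo ∪ W) S := by
    rw [disjoint_union_left]
    refine ⟨disjoint_left.2 fun l h1 h2 => (mem_sdiff.1 (hωo h1)).2 h2, hSW.symm⟩
  have hE : ∀ η', η' ⊆ S → ωo ∪ η' ⊆ X.E := fun η' h =>
    union_subset (hωo.trans sdiff_subset) (h.trans hSE)
  have e : ∀ η', ωo ∪ η' ∪ W = ωo ∪ W ∪ η' := fun η' => by
    rw [union_assoc, union_comm η' W, ← union_assoc]
  have key : ∀ η1 η2, η1 ⊆ S → η2 ⊆ S →
      ((Co (du Q (ωo ∪ W ∪ η1)) t w0 ∧ Co (du Q (ωo ∪ W ∪ η2)) t w0) ∨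
      (¬ Co (du Q (ωo ∪ W ∪ η1)) t w0 ∧ ¬ Co (du Q (ωo ∪ W ∪ η2)) t w0)) →
      X.On (ωo ∪ η1) c → X.On (ωo ∪ η2) c := by
    intro η1 η2 h1 h2 hT hon
    rw [on_iff_inOrb hX (hE _ h1), e] at hon
    rw [on_iff_inOrb hX (hE _ h2), e]
    exact loc_closed hSr hS hodd hZS h1 h2 hR hO hring hty hT hc0 hc hon
  constructor
  · intro h1
    have h2 : Co (du Q (ωo ∪ W ∪ ∅)) t w0 :=
      h1.mono (du_anti (union_subset_union_right (empty_subset _)))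
    symm
    refine incO_eq_of_sub hX (hE _ hη) subset_union_left ?_
    have k1 := key ∅ η (empty_subset _) hη (Or.inl ⟨h2, h1⟩)
    have k2 := key η ∅ hη (empty_subset _) (Or.inl ⟨h1, h2⟩)
    rw [union_empty] at k1 k2
    exact ⟨k1, k2⟩
  · intro h1
    have h2 : ¬ Co (du Q (ωo ∪ W ∪ S)) t w0 := fun h =>
      h1 (h.mono (du_anti (union_subset_union_right hη)))
    refine incO_eq_of_sub hX (hE _ (Subset.refl _)) (union_subset_union_right hη) ?_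
    exact ⟨key _ _ hη (Subset.refl _) (Or.inr ⟨h1, h2⟩),
      key _ _ (Subset.refl _) hη (Or.inr ⟨h2, h1⟩)⟩

/-- shift of labels by `-(1,1)` -/
def shm : (ℤ × ℤ) ↪ (ℤ × ℤ) where
  toFun e := (e.1 - 1, e.2 - 1)
  inj' := by
    intro a b h
    have h1 := congrArg Prod.fst h
    have h2 := congrArg Prod.snd h
    simp only at h1 h2
    exact Prod.ext (by omega) (by omega)

/-- the box centred at a face -/
noncomputable def BD (f : ℤ × ℤ) (r : ℤ) : Finset (ℤ × ℤ) := (BR f r).map shm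

lemma mem_BD' {l : ℤ × ℤ} : l ∈ BD f r ↔ l + (1, 1) ∈ BR f r := by
  unfold BD
  rw [mem_map]
  constructor
  · rintro ⟨e, he, rfl⟩
    have : shm e + (1, 1) = e := by
      show ((e.1 - 1 + 1, e.2 - 1 + 1) : ℤ × ℤ) = e
      refine Prod.ext ?_ ?_ <;> simp
    rw [this]; exact he
  · intro h
    refine ⟨l + (1, 1), h, ?_⟩
    show (((l + (1, 1)).1 - 1, (l + (1, 1)).2 - 1) : ℤ × ℤ) = l
    refine Prod.ext ?_ ?_ <;> simp

lemma mem_BD {l : ℤ × ℤ} : l ∈ BD f r ↔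
    (2 * (f.1 - r) ≤ l.1 + 1 ∧ l.1 + 1 ≤ 2 * (f.1 + r)) ∧
    (2 * (f.2 - r) ≤ l.2 + 1 ∧ l.2 + 1 ≤ 2 * (f.2 + r)) ∧ (l.1 + l.2) % 2 = 1 := by
  rw [mem_BD']
  unfold BR
  rw [mem_Bx]
  simp only [Prod.fst_add, Prod.snd_add]
  constructor
  · rintro ⟨h1, h2, h3⟩; exact ⟨h1, h2, by omega⟩
  · rintro ⟨h1, h2, h3⟩; exact ⟨h1, h2, by omega⟩

lemma BD_mono {ρ r : ℤ} (h : ρ ≤ r) : BD f ρ ⊆ BD f r := by
  intro l hl
  rw [mem_BD] at hl ⊢
  omega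

/-- the ring of labels around the box centred at a face -/
noncomputable def RD (f : ℤ × ℤ) (r : ℤ) : Finset (ℤ × ℤ) := BD f (r + 1) \ BD f r

lemma RD_disj : Disjoint (RD f r) (BD f r) := sdiff_disjoint

lemma mem_RD {l : ℤ × ℤ} : l ∈ RD f r ↔
    ((2 * (f.1 - (r + 1)) ≤ l.1 + 1 ∧ l.1 + 1 ≤ 2 * (f.1 + (r + 1))) ∧
    (2 * (f.2 - (r + 1)) ≤ l.2 + 1 ∧ l.2 + 1 ≤ 2 * (f.2 + (r + 1))) ∧ (l.1 + l.2) % 2 = 1) ∧
    ¬ ((2 * (f.1 - r) ≤ l.1 + 1 ∧ l.1 + 1 ≤ 2 * (f.1 + r)) ∧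
    (2 * (f.2 - r) ≤ l.2 + 1 ∧ l.2 + 1 ≤ 2 * (f.2 + r)) ∧ (l.1 + l.2) % 2 = 1) := by
  unfold RD
  rw [mem_sdiff, mem_BD, mem_BD]

theorem hring_D {x y : ℤ × ℤ} (h : fi x = fi y) (hx : lab x ∈ BD f r) :
    lab y ∈ BD f r ∪ RD f r := by
  have hy : lab y ∈ BD f (r + 1) := by
    have ho := odd_lab y
    rw [mem_BD] at hx ⊢
    unfold fi at h
    rw [Prod.mk.injEq] at h
    obtain ⟨e1, e2⟩ := h
    unfold lab at hx ho ⊢
    split_ifs at hx ho ⊢ <;> simp only at hx ho ⊢ <;> omega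
  unfold RD
  rw [mem_union, mem_sdiff]
  by_cases h1 : lab y ∈ BD f r
  · exact Or.inl h1
  · exact Or.inr ⟨hy, h1⟩

/-- the vertices of the ring of squares around the box -/
def SqR (f : ℤ × ℤ) (r : ℤ) (u : ℤ × ℤ) : Prop :=
  (f.1 - r - 1 ≤ u.1 ∧ u.1 ≤ f.1 + r) ∧ (f.2 - r - 1 ≤ u.2 ∧ u.2 ≤ f.2 + r) ∧
    (u.1 = f.1 - r - 1 ∨ u.1 = f.1 + r ∨ u.2 = f.2 - r - 1 ∨ u.2 = f.2 + r)

theorem co_ringD {u u' : ℤ × ℤ} (h : SqR f r u) (h' : SqR f r u') : Co (RD f r) u u' := by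
  have key : ∀ u : ℤ × ℤ, SqR f r u → Co (RD f r) u (f.1 - r - 1, f.2 - r - 1) := by
    intro u hu
    obtain ⟨k1, k2, k3⟩ := hu
    have bottom : ∀ x : ℤ, f.1 - r - 1 ≤ x → x ≤ f.1 + r →
        Co (RD f r) (x, f.2 - r - 1) (f.1 - r - 1, f.2 - r - 1) := by
      intro x g1 g2
      refine co_hor' fun k hk => ?_
      rw [mem_RD]; simp only; omega
    have left : ∀ y : ℤ, f.2 - r - 1 ≤ y → y ≤ f.2 + r →
        Co (RD f r) (f.1 - r - 1, y) (f.1 - r - 1, f.2 - r - 1) := by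
      intro y g1 g2
      refine co_ver' fun k hk => ?_
      rw [mem_RD]; simp only; omega
    have hu : u = (u.1, u.2) := rfl
    rcases k3 with h | h | h | h
    · rw [hu, h]; exact left _ k2.1 k2.2
    · have e1 : Co (RD f r) (f.1 + r, u.2) (f.1 + r, f.2 - r - 1) := by
        refine co_ver' fun k hk => ?_
        rw [mem_RD]; simp only; omega
      rw [hu, h]
      exact e1.trans (bottom _ (by omega) le_rfl)
    · rw [hu, h]; exact bottom _ k1.1 k1.2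
    · have e1 : Co (RD f r) (u.1, f.2 + r) (f.1 - r - 1, f.2 + r) := by
        refine co_hor' fun k hk => ?_
        rw [mem_RD]; simp only; omega
      rw [hu, h]
      exact e1.trans (left _ (by omega) le_rfl)
  exact (key u h).trans (key u' h').symm

lemma sqR_vx {z : ℤ × ℤ} (h1 : lab z ∈ BD f r) (h2 : plab z ∉ BD f r) : SqR f r (vx z) := by
  have ho : ((plab z).1 + (plab z).2) % 2 = 1 := by
    have := odd_lab (pv ∅ z)
    rwa [lab_pv] at this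
  have ho' := odd_lab z
  rw [mem_BD] at h1 h2
  unfold SqR vx
  unfold plab at ho h2
  unfold lab at ho' h1
  simp only
  split_ifs at ho h2 ho' h1 <;> simp only at ho h2 ho' h1 <;> omega

theorem hO_D {z z' : ℤ × ℤ} (h1 : lab z ∈ BD f r) (h2 : plab z ∉ BD f r)
    (h1' : lab z' ∈ BD f r) (h2' : plab z' ∉ BD f r) : Co (RD f r) (vx z) (vx z') :=
  co_ringD (sqR_vx h1 h2) (sqR_vx h1' h2')

lemma fi_far {z : ℤ × ℤ} (h : plab z ∉ BD f r) : ¬ inR f (r - 1) (fi z) := by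
  intro hc
  apply h
  have ho : ((plab z).1 + (plab z).2) % 2 = 1 := by
    have := odd_lab (pv ∅ z)
    rwa [lab_pv] at this
  rw [inR_iff] at hc
  unfold fi at hc
  rw [mem_BD]
  unfold plab at ho ⊢
  simp only at hc
  split_ifs at ho ⊢ <;> simp only at ho ⊢ <;> omega

lemma fi_in {z : ℤ × ℤ} (h : lab z ∈ BD f r) : inR f r (fi z) := by
  rw [inR_iff]
  rw [mem_BD] at h
  unfold fi
  unfold lab at h
  simp only
  split_ifs at h <;> simp only at h <;> omega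

end Pool.Agent.H39.Q1
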