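import Mathlib
import Pool.Agent.H39.Q1.DTU
import Pool.Agent.H39.Q1.LocD

set_option autoImplicit false
open Finset

/-! # The response to cutting one cluster, closed colour

`Go` : the open random labels when all ties of the colour are closed. `DTC` : change of `U` if all ties of
the class of `e₀` are opened. Boxes are centred at a face. -/

namespace Pool.Agent.H39.Q1

open Pool.Agent.H75.Perc Pool.Agent.H75.TwoArm Pool.Agent.H75.Four Pool.Agent.H69.Q1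
open Pool.Agent.Q1 Pool.Agent.H99.NC Pool.Agent.H60.Q1
open Pool.Agent.Q1.Env (TConn)

variable {X : Env} {W G Λ Ti K1 Go Cs S N : Finset (ℤ × ℤ)} {tb te : ℤ × ℤ → ℤ × ℤ}
  {a : ℤ × ℤ → ℂ} {e0 f t w0 : ℤ × ℤ} {ρ r : ℤ}

/-- response to cutting the class of `e₀`, closed colour -/
noncomputable def DTC (X : Env) (Cs : Finset (ℤ × ℤ)) (a : ℤ × ℤ → ℂ) (W Λ Ti : Finset (ℤ × ℤ))
    (tb : ℤ × ℤ → ℤ × ℤ) (e0 : ℤ × ℤ) (Go : Finset (ℤ × ℤ)) : ℂ :=
  U X Cs a (Go ∪ clC (Go ∪ W) Λ Ti tb e0) - U X Cs a Go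

lemma mem_clC {e : ℤ × ℤ} : e ∈ clC G Λ Ti tb e0 ↔ e ∈ Ti ∧ Co (du Λ G) (tb e0) (tb e) := by
  classical
  unfold clC
  rw [mem_filter]

lemma of_mem_du {E w : Finset (ℤ × ℤ)} {x y : ℤ × ℤ} (h : x + y ∈ du E w) :
    x + y - (1, 1) ∈ E ∧ x + y - (1, 1) ∉ w := by
  unfold du at h
  rw [mem_map] at h
  obtain ⟨l, hl, hl'⟩ := h
  have : x + y - (1, 1) = l := by
    rw [← hl']
    show ((l.1 + 1, l.2 + 1) : ℤ × ℤ) - (1, 1) = l
    refine Prod.ext ?_ ?_ <;> simp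
  rw [this]
  exact mem_sdiff.1 hl

lemma du_mono {E E' w w' : Finset (ℤ × ℤ)} (h : ∀ l ∈ E, l ∉ w → l ∈ E' ∧ l ∉ w') :
    du E w ⊆ du E' w' := by
  unfold du
  refine map_subset_map.2 fun l hl => ?_
  rw [mem_sdiff] at hl ⊢
  exact h l hl.1 hl.2

/-- a class whose tie is free has no response -/
theorem dtc_free (hX : X.PlaneLike W) (hT : TiesC X W Ti K1 tb te)
    (hGo : Go ⊆ X.E \ Ti) (hΛ : Disjoint Λ Ti)
    (hc : ∀ c ∈ Cs, FarC X (Go ∪ W) Ti K1 Λ N tb te c)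
    (he0 : e0 ∈ Ti) (hfree : FreeC (Go ∪ W) Ti K1 Λ tb te e0) :
    DTC X Cs a W Λ Ti tb e0 Go = 0 := by
  classical
  unfold DTC
  rw [sub_eq_zero]
  unfold U
  refine sum_congr rfl fun c hcs => ?_
  congr 1
  have hcl : clC (Go ∪ W) Λ Ti tb e0 ⊆ Ti := fun e he => (mem_clC.1 he).1
  have h := cutset_closed hX hT hGo hΛ (hc c hcs) (τ := Ti \ clC (Go ∪ W) Λ Ti tb e0) (τ' := Ti)
    sdiff_subset (Subset.refl _) ?_
  · rw [Finset.sdiff_sdiff_eq_self hcl, sdiff_self, bot_eq_empty, union_empty] at h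
    exact h
  · intro e he hnf
    have hex : ∃ e' ∈ Ti, Co (du Λ (Go ∪ W)) (tb e) (tb e') := ⟨e, he, Co.refl _ _⟩
    refine ⟨fun _ => hex, fun _ => ⟨e, mem_sdiff.2 ⟨he, fun h => hnf ?_⟩, Co.refl _ _⟩⟩
    have h1 := (mem_clC.1 h).2
    rcases hfree with h2 | h2
    · left
      intro x y h3 h4 h5
      exact h2 x y (h1.trans h3) h4 h5
    · right
      have h3 : Co (du Λ (Go ∪ W) ∪ du K1 ∅) (te e) (te e0) :=
        (hT.conn e he e0 he0).mono subset_union_right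
      exact (h3.trans h2).trans (h1.mono subset_union_left)

/-- Geometry of the inner set and of the wall in the box `BD f r`. -/
structure BoxC (X : Env) (W Ti K1 Λ : Finset (ℤ × ℤ)) (te : ℤ × ℤ → ℤ × ℤ)
    (S : Finset (ℤ × ℤ)) (f w0 : ℤ × ℤ) (ρ r : ℤ) : Prop where
  conn : TConn S
  sE : S ⊆ X.E
  sW : Disjoint S W
  sr : S ⊆ BD f ρ
  lt : ρ < r
  b1 : ∀ a b, IsUnit4 (b - a) → a + b - (1, 1) ∈ K1 ∩ BD f r →
    Co (du (K1 ∩ BD f r) ∅) a w0
  b2 : ∀ e ∈ Ti, e ∈ BD f r → Co (du (K1 ∩ BD f r) ∅) (te e) w0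
  b3 : BD f r ⊆ Λ ∪ Ti ∪ K1 ∪ W
  root : lab X.c0 ∉ BD f r

/-- only the dual cluster of `t` crosses the annulus -/
def OneXC (G Λ S : Finset (ℤ × ℤ)) (f : ℤ × ℤ) (ρ r : ℤ) (t : ℤ × ℤ) : Prop :=
  ∀ u v, inR f ρ u → ¬ inR f (r - 1) v → Co (du ((Λ ∩ BD f r) \ S) G) u v →
    Co (du ((Λ ∩ BD f r) \ S) G) u t

/-- from a connection of a near vertex with a far vertex to `t` -/
lemma near_to_gen {ζ η' η : Finset (ℤ × ℤ)} {x v : ℤ × ℤ} (hζ : ζ ⊆ η')
    (hη' : ∀ a b, IsUnit4 (b - a) → a + b ∈ η → a + b ∉ ζ → inR f ρ a)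
    (hηs : η ⊆ η')
    (hone : ∀ u v, inR f ρ u → ¬ inR f (r - 1) v → Co ζ u v → Co ζ u t)
    (hx : inR f ρ x) (hv : ¬ inR f (r - 1) v) (h : Co η x v) : Co η' x t := by
  have key : ∀ y, Co η v y → Co ζ v y ∨ ∃ u, inR f ρ u ∧ Co ζ v u := by
    intro y hy
    induction hy with
    | refl => exact Or.inl (Co.refl _ _)
    | @tail a b _ hab ih =>
      rcases ih with ih | ih
      · by_cases hl : a + b ∈ ζ
        · left
          exact ih.tail ⟨hab.1, hl⟩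
        · right
          exact ⟨a, hη' a b hab.1 hab.2 hl, ih⟩
      · exact Or.inr ih
  have hu : ∃ u, inR f ρ u ∧ Co ζ v u := by
    rcases key x h.symm with h1 | h1
    · exact ⟨x, hx, h1⟩
    · exact h1
  obtain ⟨u, hu1, hu2⟩ := hu
  have h3 := hone u v hu1 hv hu2.symm
  exact (((h.mono hηs).trans (hu2.mono hζ)).trans (h3.mono hζ))

lemma BD_ends {a b : ℤ × ℤ} (h : IsUnit4 (b - a)) (hl : a + b - (1, 1) ∈ BD f ρ) :
    inR f ρ a ∧ inR f ρ b := by
  rw [mem_BD'] at hl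
  have : a + b - (1, 1) + (1, 1) = a + b := by
    refine Prod.ext ?_ ?_ <;> simp
  rw [this] at hl
  exact Pool.Agent.H20.Q1.BR_ends h hl

/-- **Locality of the response, closed colour.** -/
theorem dtc_loc (hX : X.PlaneLike W) (hT : TiesC X W Ti K1 tb te)
    (hGo : Go ⊆ X.E \ Ti) (hB : BoxC X W Ti K1 Λ te S f w0 ρ r)
    (hone : OneXC (Go ∪ W) Λ S f ρ r t) (he0 : e0 ∈ Ti) (hx : inR f ρ (tb e0))
    (ht : ∃ v, ¬ inR f (r - 1) v ∧ Co (du (Λ ∩ BD f r) (Go ∪ W)) (tb e0) v)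
    (hct : clC (Go ∪ W) Λ Ti tb e0 ⊆ S)
    (hsol : ¬ Co (du Λ (Go ∪ W) ∪ du K1 ∅) (te e0) (tb e0))
    (hCs : ∀ c ∈ Cs, lab c ∉ BD f r) :
    DTC X Cs a W Λ Ti tb e0 Go = U X Cs a ((Go \ S) ∪ S) - U X Cs a (Go \ S) := by
  classical
  set G := Go ∪ W with hG
  set cl := clC G Λ Ti tb e0 with hcl
  set ωo := Go \ S with hωo
  have hGoE : Go ⊆ X.E := hGo.trans sdiff_subset
  have hGoTi : ∀ l ∈ Go, l ∉ Ti := fun l hl => (mem_sdiff.1 (hGo hl)).2
  have he0cl : e0 ∈ cl := mem_clC.2 ⟨he0, Co.refl _ _⟩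
  have he0S : e0 ∈ S := hct he0cl
  have he0Q : e0 ∈ BD f r := BD_mono hB.lt.le (hB.sr he0S)
  have hωoE : ωo ⊆ X.E \ S := by
    intro l hl
    rw [hωo, mem_sdiff] at hl
    rw [mem_sdiff]
    exact ⟨hGoE hl.1, hl.2⟩
  have hTiW : ∀ l ∈ Ti, l ∉ W := fun l h1 h2 => disjoint_left.1 hT.disj h1 h2
  have hK : ∀ l ∈ K1, l ∉ X.E := fun l h1 h2 => disjoint_left.1 hT.kE h1 h2
  have hKW : ∀ l ∈ K1, l ∉ W := fun l h1 h2 => disjoint_left.1 hT.kW h1 h2
  set A := du (BD f r \ S) (ωo ∪ W) with hA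
  have hKA : du (K1 ∩ BD f r) ∅ ⊆ A := by
    refine du_mono fun l hl _ => ?_
    rw [mem_inter] at hl
    refine ⟨mem_sdiff.2 ⟨hl.2, fun h => hK l hl.1 (hB.sE h)⟩, fun h => ?_⟩
    rcases mem_union.1 h with h | h
    · exact hK l hl.1 (hGoE (mem_sdiff.1 h).1)
    · exact hKW l hl.1 h
  have hζA : du ((Λ ∩ BD f r) \ S) G ⊆ A := by
    refine du_mono fun l hl hl' => ?_
    rw [mem_sdiff, mem_inter] at hl
    refine ⟨mem_sdiff.2 ⟨hl.1.2, hl.2⟩, fun h => hl' ?_⟩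
    rcases mem_union.1 h with h | h
    · exact mem_union_left _ (mem_sdiff.1 h).1
    · exact mem_union_right _ h
  have hty : ∀ c s, lab c ∈ BD f r → plab c ∉ BD f r → lab s ∈ S → Co A (fi c) (fi s) →
      Co A (fi s) t ∨ Co A (fi s) w0 := by
    intro c s _ h2 h3 h4
    refine ty_of (ρ := ρ) (r := r) (w := f) (ζ := du ((Λ ∩ BD f r) \ S) G) ?_ hζA hone
      (fi_in (hB.sr h3)) (fi_far h2) h4
    intro u v huv hl hlζ
    obtain ⟨h5, h6⟩ := of_mem_du hl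
    rw [mem_sdiff] at h5
    rw [mem_union, not_or] at h6
    have h7 : u + v - (1, 1) ∉ Go := fun h => h6.1 (mem_sdiff.2 ⟨h, h5.2⟩)
    have h8 := hB.b3 h5.1
    rw [mem_union, mem_union, mem_union] at h8
    rcases h8 with ((h8 | h8) | h8) | h8
    · exfalso
      apply hlζ
      refine mem_du_of (mem_sdiff.2 ⟨mem_inter.2 ⟨h8, h5.1⟩, h5.2⟩) ?_
      rw [hG, mem_union, not_or]
      exact ⟨h7, h6.2⟩
    · -- a closed tie
      have h9 := (hB.b2 _ h8 h5.1).mono hKA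
      rcases side_cases (hT.unit _ h8) (hT.ends _ h8) huv (face_add rfl) with ⟨-, h10⟩ | ⟨-, h10⟩
      · rw [h10]
        have h11 : Co A (te (u + v - (1, 1))) (tb (u + v - (1, 1))) := by
          refine Relation.ReflTransGen.single ⟨hT.unit _ h8, ?_⟩
          rw [hT.ends _ h8]
          have : u + v - (1, 1) + (1, 1) = u + v := by
            refine Prod.ext ?_ ?_ <;> simp
          rw [this]; exact hl
        exact h11.symm.trans h9
      · rw [h10]; exact h9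
    · exact (hB.b1 v u (unit_symm huv) (by
        rw [add_comm]; exact mem_inter.2 ⟨h8, h5.1⟩)).mono hKA
    · exact absurd h8 h6.2
  obtain ⟨v, hv1, hv2⟩ := ht
  have hxt : Co (du (Λ ∩ BD f r) G) (tb e0) t := by
    refine near_to_gen (f := f) (ρ := ρ) (r := r) (ζ := du ((Λ ∩ BD f r) \ S) G)
      (η := du (Λ ∩ BD f r) G) ?_ ?_ (Subset.refl _) hone hx hv1 hv2
    · refine du_mono fun l hl hl' => ⟨(mem_sdiff.1 hl).1, hl'⟩
    · intro a b hab h1 h2
      obtain ⟨h3, h4⟩ := of_mem_du h1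
      have h5 : a + b - (1, 1) ∈ S := by
        by_contra h5
        exact h2 (mem_du_of (mem_sdiff.2 ⟨h3, h5⟩) h4)
      exact (BD_ends hab (hB.sr h5)).1
  have hw0 : Co (du K1 ∅) (te e0) w0 :=
    (hB.b2 e0 he0 he0Q).mono (du_mono fun l hl h => ⟨(mem_inter.1 hl).1, h⟩)
  have eG : ωo ∪ W ∪ (Go ∩ S) = G := by
    rw [hωo, hG]
    ext l
    simp only [mem_union, mem_sdiff, mem_inter]
    tauto
  -- tied
  have htied : Co (du (BD f r) (ωo ∪ W ∪ (Go ∩ S))) t w0 := by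
    rw [eG]
    have m1 : du (Λ ∩ BD f r) G ⊆ du (BD f r) G := du_mono fun l hl h => ⟨(mem_inter.1 hl).2, h⟩
    have m2 : du (K1 ∩ BD f r) ∅ ⊆ du (BD f r) G := by
      refine du_mono fun l hl _ => ⟨(mem_inter.1 hl).2, fun h => ?_⟩
      rcases mem_union.1 h with h | h
      · exact hK l (mem_inter.1 hl).1 (hGoE h)
      · exact hKW l (mem_inter.1 hl).1 h
    have h1 : Co (du (BD f r) G) (te e0) (tb e0) := by
      refine Relation.ReflTransGen.single ⟨hT.unit _ he0, mem_du_of ?_ ?_⟩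
      · rw [face_sub (hT.ends e0 he0)]; exact he0Q
      · rw [face_sub (hT.ends e0 he0), hG, mem_union, not_or]
        exact ⟨fun h => hGoTi _ h he0, hTiW e0 he0⟩
    exact ((hxt.mono m1).symm.trans h1.symm).trans ((hB.b2 e0 he0 he0Q).mono m2)
  -- cut
  have hcut : ¬ Co (du (BD f r) (ωo ∪ W ∪ ((Go ∩ S) ∪ cl))) t w0 := by
    intro hcon
    rw [← union_assoc, eG] at hcon
    have key : ∀ x, Co (du (BD f r) (G ∪ cl)) t x → Co (du Λ G) (tb e0) x := by
      intro x hx'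
      induction hx' with
      | refl => exact hxt.mono (du_mono fun l hl h => ⟨(mem_inter.1 hl).1, h⟩)
      | @tail a b _ hab ih =>
        have hsolid : Co (du K1 ∅) (te e0) a → False := fun h => hsol
          ((h.mono subset_union_right).trans (ih.mono subset_union_left).symm)
        obtain ⟨h3, h4⟩ := of_mem_du hab.2
        rw [mem_union, not_or] at h4
        have h8 := hB.b3 h3
        rw [mem_union, mem_union, mem_union] at h8
        rcases h8 with ((h8 | h8) | h8) | h8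
        · exact ih.tail ⟨hab.1, mem_du_of h8 h4.1⟩
        · exfalso
          rcases side_cases (hT.unit _ h8) (hT.ends _ h8) hab.1 (face_add rfl) with
            ⟨h9, -⟩ | ⟨h9, -⟩
          · apply hsolid
            rw [h9]; exact hT.conn e0 he0 _ h8
          · apply h4.2
            rw [hcl, mem_clC]
            refine ⟨h8, ?_⟩
            rw [← h9]; exact ih
        · exact (hsolid (hT.conn' a b hab.1 h8 e0 he0)).elim
        · exact absurd (mem_union_right _ h8) h4.1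
    have h1 := key w0 hcon
    exact hsol ((hw0.mono subset_union_right).trans (h1.mono subset_union_left).symm)
  have e1 : Go = ωo ∪ (Go ∩ S) := by
    rw [hωo]
    ext l
    simp only [mem_union, mem_sdiff, mem_inter]
    tauto
  have e2 : Go ∪ cl = ωo ∪ ((Go ∩ S) ∪ cl) := by
    rw [← union_assoc, ← e1]
  have s1 : Go ∩ S ⊆ S := inter_subset_right
  have s2 : (Go ∩ S) ∪ cl ⊆ S := union_subset inter_subset_right hct
  have hSQ : S ⊆ BD f r := hB.sr.trans (BD_mono hB.lt.le)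
  unfold DTC U
  rw [← hG, ← hcl, e2]
  congr 1
  · refine sum_congr rfl fun c hcs => ?_
    rw [(incO_loc_closed_gen hX hB.conn hB.sE hB.sW hSQ hωoE s2 RD_disj
      (fun c c' g1 g2 g3 g4 => hO_D g1 g2 g3 g4) (fun x y g1 g2 => hring_D g1 g2)
      hty hB.root (hCs c hcs)).2 hcut]
  · refine sum_congr rfl fun c hcs => ?_
    have := (incO_loc_closed_gen hX hB.conn hB.sE hB.sW hSQ hωoE s1 RD_disj
      (fun c c' g1 g2 g3 g4 => hO_D g1 g2 g3 g4) (fun x y g1 g2 => hring_D g1 g2)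
      hty hB.root (hCs c hcs)).1 htied
    rw [← e1] at this
    rw [this]

end Pool.Agent.H39.Q1
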