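import Mathlib
import Pool.Agent.H39.Q1.DTUC
import Pool.Agent.H20.Q1.MxV

set_option autoImplicit false
open Finset

/-! # Several families of ties, both colours: exact passage to the clusters of the layers

`TT` : all ties, `fm e` : the family of the tie `e`, `co i` : colour of the family `i` (`true` : open
ties), `Wl i` : its wall, `La i` : its layer, `b e`, `o e` : the inner and the outer end of the tie `e`
(vertices for open ties, faces for closed ties). `Bb` : bulk labels, `B ⊆ Bb` : thick layer, all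
`La i ⊆ B`. For a configuration `ω ⊆ B` the expectation over all ties and over the labels of `Bb \ B`
is a Bernoulli expectation over the classes of `ω` which are not free. -/

namespace Pool.Agent.H39.Q1

open Pool.Agent.H75.Perc Pool.Agent.H75.TwoArm Pool.Agent.H75.Four Pool.Agent.H69.Q1
open Pool.Agent.Q1 Pool.Agent.H25.Q1.Add Pool.Agent.H99.NC Pool.Agent.H49.Perc
open Pool.Agent.H20.Q1 (Eh CS hf)

/-! ### abstract part -/

section abstract

variable {ι : Type*} [DecidableEq ι] {α : Type*} [DecidableEq α]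

lemma cE_congr {φ φ' : ι → ℂ} {s : Finset ι} {F F' : Finset ι → ℂ} (hφ : ∀ i ∈ s, φ i = φ' i)
    (hF : ∀ A ⊆ s, F A = F' A) : cE φ s F = cE φ' s F' := by
  unfold cE
  refine sum_congr rfl fun A hA => ?_
  have hA' := mem_powerset.1 hA
  rw [hF A hA']
  congr 1
  unfold cw
  congr 1
  · exact prod_congr rfl fun i hi => hφ i (hA' hi)
  · exact prod_congr rfl fun i hi => by rw [hφ i (mem_sdiff.1 hi).1]

/-- sum over the classes = sum over the minimal elements -/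
lemma sum_min {T : Finset α} {cl : α → Finset α} {rk : α → ℤ} (h1 : ∀ e ∈ T, e ∈ cl e)
    (h2 : ∀ e ∈ T, cl e ⊆ T) (h3 : ∀ e ∈ T, ∀ e' ∈ cl e, cl e' = cl e)
    (hrk : ∀ e ∈ T, ∀ e' ∈ T, rk e = rk e' → e = e') (f : Finset α → ℂ) :
    ∑ k ∈ T.image cl, f k =
      ∑ e ∈ T, if ∀ e' ∈ cl e, rk e ≤ rk e' then f (cl e) else 0 := by
  classical
  rw [← Finset.sum_fiberwise_of_maps_to (s := T) (t := T.image cl) (g := cl)
    (fun e he => mem_image_of_mem _ he)]
  refine sum_congr rfl fun k hk => ?_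
  obtain ⟨e0, he0, rfl⟩ := mem_image.1 hk
  obtain ⟨m, hm, hmin⟩ := Finset.exists_min_image (cl e0) rk ⟨e0, h1 e0 he0⟩
  have hmT : m ∈ T := h2 e0 he0 hm
  have hcm : cl m = cl e0 := h3 e0 he0 m hm
  rw [Finset.sum_eq_single_of_mem m (mem_filter.2 ⟨hmT, hcm⟩)]
  · rw [if_pos, hcm]
    intro e' he'
    rw [hcm] at he'
    exact hmin e' he'
  · intro b hb hne
    obtain ⟨hb1, hb2⟩ := mem_filter.1 hb
    rw [if_neg]
    intro h4
    apply hne
    refine hrk b hb1 m hmT (le_antisymm (h4 m (by rw [hb2]; exact hm)) (hmin b ?_))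
    rw [← hb2]; exact h1 b hb1

end abstract

/-! ### the environment -/

/-- vertices of the layer (open ties) -/
def VO (La T : Finset (ℤ × ℤ)) (b : ℤ × ℤ → ℤ × ℤ) (x : ℤ × ℤ) : Prop :=
  (∃ e ∈ T, b e = x) ∨ ∃ z, IsUnit4 (z - x) ∧ x + z ∈ La

/-- faces of the layer (closed ties) -/
def VC (La T : Finset (ℤ × ℤ)) (b : ℤ × ℤ → ℤ × ℤ) (x : ℤ × ℤ) : Prop :=
  (∃ e ∈ T, b e = x) ∨ ∃ z, IsUnit4 (z - x) ∧ x + z - (1, 1) ∈ La

section

variable {ι : Type*} [DecidableEq ι]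

/-- the ties of a family -/
def TF (TT : Finset (ℤ × ℤ)) (fm : ℤ × ℤ → ι) (i : ι) : Finset (ℤ × ℤ) :=
  TT.filter fun e => fm e = i

/-- the open labels of the ties if the ties of `P` are tied -/
def opn (TT : Finset (ℤ × ℤ)) (fm : ℤ × ℤ → ι) (co : ι → Bool) (P : Finset (ℤ × ℤ)) :
    Finset (ℤ × ℤ) := TT.filter fun e => (e ∈ P ↔ co (fm e) = true)

/-- Environment with several families of ties. -/
structure Multi (X : Env) (W Bb B TT : Finset (ℤ × ℤ)) (fm : ℤ × ℤ → ι) (co : ι → Bool)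
    (Wl La : ι → Finset (ℤ × ℤ)) (b o : ℤ × ℤ → ℤ × ℤ) : Prop where
  pl : X.PlaneLike W
  bE : Bb ⊆ X.E
  tE : TT ⊆ X.E
  bB : B ⊆ Bb
  bW : Disjoint Bb W
  bT : Disjoint Bb TT
  tO : ∀ i, co i = true → TiesO X W (TF TT fm i) (Wl i) b o
  tC : ∀ i, co i = false → TiesC X W (TF TT fm i) (Wl i) b o
  la : ∀ i, La i ⊆ B
  nbO : ∀ i, co i = true → ∀ x y, IsUnit4 (y - x) → VO (La i) (TF TT fm i) b x →
    x + y ∈ Bb → x + y ∈ B
  nbC : ∀ i, co i = false → ∀ x y, IsUnit4 (y - x) → VC (La i) (TF TT fm i) b x →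
    x + y - (1, 1) ∈ Bb → x + y - (1, 1) ∈ B

/-- A corner far from the layers. -/
structure FarM (X : Env) (TT : Finset (ℤ × ℤ)) (fm : ℤ × ℤ → ι) (co : ι → Bool)
    (Wl La : ι → Finset (ℤ × ℤ)) (b o : ℤ × ℤ → ℤ × ℤ) (c : ℤ × ℤ) : Prop where
  dco : ∀ i, co i = true → DCo (La i ∪ TF TT fm i ∪ Wl i) (fi X.c0) (fi c)
  cc : ∀ i, co i = false → ∃ N, Co N (vx X.c0) (vx c) ∧
    Disjoint N (La i ∪ TF TT fm i ∪ Wl i)
  rootO : ∀ i, co i = true → VO (La i) (TF TT fm i) b (vx X.c0) →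
    ∀ e ∈ TF TT fm i, Co (Wl i) (o e) (vx X.c0)
  rootC : ∀ i, co i = false → VC (La i) (TF TT fm i) b (fi X.c0) →
    ∀ e ∈ TF TT fm i, Co (du (Wl i) ∅) (o e) (fi X.c0)
  cornerO : ∀ i, co i = true → ¬ VO (La i) (TF TT fm i) b (vx c)
  cornerC : ∀ i, co i = false → ¬ VC (La i) (TF TT fm i) b (fi c)

/-- open bulk labels of the layer, as a set of edges between vertices (`true`) or faces (`false`) -/
noncomputable def gr (co : ι → Bool) (La : ι → Finset (ℤ × ℤ)) (i : ι) (ω : Finset (ℤ × ℤ)) :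
    Finset (ℤ × ℤ) := if co i = true then ω ∩ La i else du (La i) ω

open Classical in
/-- the class of a tie -/
noncomputable def cls (TT : Finset (ℤ × ℤ)) (fm : ℤ × ℤ → ι) (co : ι → Bool)
    (La : ι → Finset (ℤ × ℤ)) (b : ℤ × ℤ → ℤ × ℤ) (ω : Finset (ℤ × ℤ)) (e : ℤ × ℤ) :
    Finset (ℤ × ℤ) := (TF TT fm (fm e)).filter fun e' => Co (gr co La (fm e) ω) (b e) (b e')

/-- free ties (the ties of the other families count as exits) -/
def fre (W TT : Finset (ℤ × ℤ)) (fm : ℤ × ℤ → ι) (co : ι → Bool)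
    (Wl La : ι → Finset (ℤ × ℤ)) (b o : ℤ × ℤ → ℤ × ℤ) (ω : Finset (ℤ × ℤ)) (e : ℤ × ℤ) :
    Prop :=
  if co (fm e) = true then
    SmallO (ω ∪ ((W \ Wl (fm e)) ∪ (TT \ TF TT fm (fm e)))) (La (fm e)) (b e) ∨
      Co ((ω ∪ (W \ Wl (fm e))) ∩ La (fm e) ∪ Wl (fm e)) (o e) (b e)
  else FreeC (ω ∪ W) (TF TT fm (fm e)) (Wl (fm e)) (La (fm e)) b o e

end

variable {ι : Type*} [DecidableEq ι] {X : Env} {W Bb B TT Cs ω ω' θ P : Finset (ℤ × ℤ)}
  {fm : ℤ × ℤ → ι} {co : ι → Bool} {Wl La : ι → Finset (ℤ × ℤ)}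
  {b o : ℤ × ℤ → ℤ × ℤ} {a : ℤ × ℤ → ℂ} {s : ℤ × ℤ → ℂ} {e x : ℤ × ℤ} {i : ι}

lemma mem_TF : e ∈ TF TT fm i ↔ e ∈ TT ∧ fm e = i := by
  unfold TF; rw [mem_filter]

lemma mem_opn : e ∈ opn TT fm co P ↔ e ∈ TT ∧ (e ∈ P ↔ co (fm e) = true) := by
  unfold opn; rw [mem_filter]

lemma mem_cls {e' : ℤ × ℤ} : e' ∈ cls TT fm co La b ω e ↔
    (e' ∈ TT ∧ fm e' = fm e) ∧ Co (gr co La (fm e) ω) (b e) (b e') := by
  classical
  unfold cls
  rw [mem_filter, mem_TF]

lemma self_cls (he : e ∈ TT) : e ∈ cls TT fm co La b ω e := mem_cls.2 ⟨⟨he, rfl⟩, Co.refl _ _⟩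

lemma cls_sub : cls TT fm co La b ω e ⊆ TT := fun _ h => (mem_cls.1 h).1.1

lemma cls_eq_of {e' : ℤ × ℤ} (h : e' ∈ cls TT fm co La b ω e) :
    cls TT fm co La b ω e' = cls TT fm co La b ω e := by
  obtain ⟨⟨_, h2⟩, h3⟩ := mem_cls.1 h
  ext l
  rw [mem_cls, mem_cls, h2]
  constructor
  · rintro ⟨h4, h5⟩; exact ⟨h4, h3.trans h5⟩
  · rintro ⟨h4, h5⟩; exact ⟨h4, h3.symm.trans h5⟩

lemma cls_iff {e' : ℤ × ℤ} (he' : e' ∈ TT) :
    e' ∈ cls TT fm co La b ω e ↔ cls TT fm co La b ω e = cls TT fm co La b ω e' := by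
  constructor
  · intro h; exact (cls_eq_of h).symm
  · intro h; rw [h]; exact self_cls he'

/-- the ties of a class -/
lemma fib_cls {e0 : ℤ × ℤ} :
    (TT.filter fun e => cls TT fm co La b ω e = cls TT fm co La b ω e0) =
      cls TT fm co La b ω e0 := by
  ext e
  rw [mem_filter]
  constructor
  · rintro ⟨h1, h2⟩
    rw [← h2]; exact self_cls h1
  · intro h1
    exact ⟨cls_sub h1, cls_eq_of h1⟩

lemma VO_of_co {G L T : Finset (ℤ × ℤ)} (he : e ∈ T) (h : Co (G ∩ L) (b e) x) :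
    VO L T b x := by
  rcases Relation.ReflTransGen.cases_tail h with h1 | ⟨p, -, h1⟩
  · exact Or.inl ⟨e, he, h1.symm⟩
  · right
    refine ⟨p, unit_symm h1.1, ?_⟩
    rw [add_comm]
    exact (mem_inter.1 h1.2).2

lemma VC_of_co {G L T : Finset (ℤ × ℤ)} (he : e ∈ T) (h : Co (du L G) (b e) x) :
    VC L T b x := by
  rcases Relation.ReflTransGen.cases_tail h with h1 | ⟨p, -, h1⟩
  · exact Or.inl ⟨e, he, h1.symm⟩
  · right
    refine ⟨p, unit_symm h1.1, ?_⟩
    rw [add_comm]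
    exact (of_mem_du h1.2).1

lemma FarM.farO {c : ℤ × ℤ} (hc : FarM X TT fm co Wl La b o c) (hi : co i = true)
    (G : Finset (ℤ × ℤ)) : FarO X G (TF TT fm i) (Wl i) (La i) b o c where
  dco := hc.dco i hi
  root := fun e he _ h2 => hc.rootO i hi (VO_of_co he h2) e he
  corner := fun _ he _ h2 => hc.cornerO i hi (VO_of_co he h2)

lemma FarM.farC {c : ℤ × ℤ} (hc : FarM X TT fm co Wl La b o c) (hi : co i = false)
    (G : Finset (ℤ × ℤ)) : ∃ N, FarC X G (TF TT fm i) (Wl i) (La i) N b o c := by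
  obtain ⟨N, h1, h2⟩ := hc.cc i hi
  exact ⟨N, h1, h2, fun e he _ h3 => hc.rootC i hi (VC_of_co he h3) e he,
    fun _ he _ h3 => hc.cornerC i hi (VC_of_co he h3)⟩

namespace Multi

variable (h : Multi X W Bb B TT fm co Wl La b o)

include h

lemma la_W : Disjoint (La i) W := h.bW.mono_left ((h.la i).trans h.bB)
lemma la_T : Disjoint (La i) TT := h.bT.mono_left ((h.la i).trans h.bB)

/-- only the labels of the thick layer matter (open) -/
lemma capO (hd : Disjoint θ B) : (ω ∪ θ ∪ (W \ Wl i)) ∩ La i = ω ∩ La i := by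
  ext l
  have h1 : l ∈ θ → l ∉ La i := fun h2 h3 => disjoint_left.1 hd h2 (h.la i h3)
  have h2 : l ∈ La i → l ∉ W := fun h3 h4 => disjoint_left.1 h.la_W h3 h4
  simp only [mem_inter, mem_union, mem_sdiff]
  tauto

lemma capO' : (ω ∪ (W \ Wl i)) ∩ La i = ω ∩ La i := by
  have := h.capO (ω := ω) (i := i) (θ := ∅) (disjoint_empty_left _)
  rwa [union_empty] at this

lemma capO2 : (ω ∪ ((W \ Wl i) ∪ (TT \ TF TT fm i))) ∩ La i = ω ∩ La i := by
  ext l
  have h2 : l ∈ La i → l ∉ W := fun h3 h4 => disjoint_left.1 h.la_W h3 h4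
  have h3 : l ∈ La i → l ∉ TT := fun h3 h4 => disjoint_left.1 h.la_T h3 h4
  simp only [mem_inter, mem_union, mem_sdiff]
  tauto

/-- only the labels of the thick layer matter (closed) -/
lemma duC (hd : Disjoint θ B) : du (La i) (ω ∪ θ ∪ W) = du (La i) ω := by
  unfold du
  congr 1
  ext l
  have h1 : l ∈ θ → l ∉ La i := fun h2 h3 => disjoint_left.1 hd h2 (h.la i h3)
  have h2 : l ∈ La i → l ∉ W := fun h3 h4 => disjoint_left.1 h.la_W h3 h4
  simp only [mem_sdiff, mem_union]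
  tauto

lemma duC' : du (La i) (ω ∪ W) = du (La i) ω := by
  have := h.duC (ω := ω) (i := i) (θ := ∅) (disjoint_empty_left _)
  rwa [union_empty] at this

lemma clO_eq (hd : Disjoint θ B) (hi : co (fm e) = true) :
    clO (ω ∪ θ ∪ (W \ Wl (fm e))) (La (fm e)) (TF TT fm (fm e)) b e =
      cls TT fm co La b ω e := by
  ext e'
  rw [mem_clO, mem_cls, mem_TF, h.capO hd]
  unfold gr
  rw [if_pos hi]

lemma clC_eq (hd : Disjoint θ B) (hi : co (fm e) = false) :
    clC (ω ∪ θ ∪ W) (La (fm e)) (TF TT fm (fm e)) b e = cls TT fm co La b ω e := by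
  ext e'
  rw [mem_clC, mem_cls, mem_TF, h.duC hd]
  unfold gr
  rw [if_neg (by rw [hi]; exact Bool.false_ne_true)]

lemma freO (hθ : θ ⊆ Bb ∪ (TT \ TF TT fm (fm e))) (hd : Disjoint θ B) (he : e ∈ TT)
    (hi : co (fm e) = true) (hf : fre W TT fm co Wl La b o ω e) :
    FreeO (ω ∪ θ ∪ (W \ Wl (fm e))) (Wl (fm e)) (La (fm e)) b o e := by
  unfold fre at hf
  rw [if_pos hi] at hf
  have heF : e ∈ TF TT fm (fm e) := mem_TF.2 ⟨he, rfl⟩
  unfold FreeO
  unfold SmallO at hf ⊢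
  rw [h.capO', h.capO2] at hf
  rw [h.capO hd]
  rcases hf with h1 | h1
  · left
    intro x y h2 h3 h4
    rcases mem_union.1 h4 with h5 | h5
    · rcases mem_union.1 h5 with h6 | h6
      · exact h1 x y h2 h3 (mem_union_left _ h6)
      · rcases mem_union.1 (hθ h6) with h7 | h7
        · exfalso
          exact disjoint_left.1 hd h6 (h.nbO _ hi x y h3 (VO_of_co heF h2) h7)
        · exact h1 x y h2 h3 (mem_union_right _ (mem_union_right _ h7))
    · exact h1 x y h2 h3 (mem_union_right _ (mem_union_left _ h5))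
  · right; exact h1

lemma freC (hd : Disjoint θ B)
    (hi : co (fm e) = false) (hf : fre W TT fm co Wl La b o ω e) :
    FreeC (ω ∪ θ ∪ W) (TF TT fm (fm e)) (Wl (fm e)) (La (fm e)) b o e := by
  unfold fre at hf
  rw [if_neg (by rw [hi]; exact Bool.false_ne_true)] at hf
  unfold FreeC SmallC at hf ⊢
  rw [h.duC'] at hf
  rw [h.duC hd]
  rcases hf with h1 | h1
  · left
    intro x y h2 h3 h4
    refine h1 x y h2 h3 fun h6 => h4 ?_
    simp only [mem_union] at h6 ⊢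
    tauto
  · right; exact h1

end Multi

/-- mean over the labels of `Bb \ B`, the ties of `P` are tied -/
noncomputable def VM (X : Env) (Cs : Finset (ℤ × ℤ)) (a : ℤ × ℤ → ℂ) (Bb B TT : Finset (ℤ × ℤ))
    (fm : ℤ × ℤ → ι) (co : ι → Bool) (ω P : Finset (ℤ × ℤ)) : ℂ :=
  Eh (Bb \ B) (fun ω' => U X Cs a (ω ∪ ω' ∪ opn TT fm co P))

/-- one toggle -/
lemma Multi.toggle (h : Multi X W Bb B TT fm co Wl La b o)
    (hc : ∀ c ∈ Cs, FarM X TT fm co Wl La b o c) (hω : ω ⊆ B) (_hP : P ⊆ TT) (he : e ∈ TT)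
    (heP : e ∉ P)
    (hcase : fre W TT fm co Wl La b o ω e ∨ ∃ e' ∈ P, e' ∈ cls TT fm co La b ω e) :
    VM X Cs a Bb B TT fm co ω P = VM X Cs a Bb B TT fm co ω (insert e P) := by
  classical
  unfold VM
  refine Ec_congr fun ω' hω' => ?_
  unfold U
  refine sum_congr rfl fun c hcs => ?_
  congr 1
  set i := fm e with hi
  set T := TF TT fm i with hT
  have heT : e ∈ T := mem_TF.2 ⟨he, rfl⟩
  set θ := ω' ∪ (opn TT fm co P \ T) with hθ
  have hω'B : ω' ⊆ Bb := hω'.trans sdiff_subset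
  have hopT : opn TT fm co P \ T ⊆ TT \ T := fun l hl => by
    obtain ⟨h1, h2⟩ := mem_sdiff.1 hl
    exact mem_sdiff.2 ⟨(mem_opn.1 h1).1, h2⟩
  have hθ1 : θ ⊆ Bb ∪ (TT \ T) := union_subset_union hω'B hopT
  have hθB : Disjoint θ B := by
    rw [hθ, disjoint_union_left]
    refine ⟨disjoint_left.2 fun l h1 h2 => (mem_sdiff.1 (hω' h1)).2 h2,
      disjoint_left.2 fun l h1 h2 => ?_⟩
    exact disjoint_left.1 h.bT (h.bB h2) (mem_sdiff.1 (hopT h1)).1
  have hGo : ω ∪ θ ⊆ X.E \ T := by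
    intro l hl
    rw [mem_sdiff]
    rcases mem_union.1 hl with h1 | h1
    · refine ⟨h.bE (h.bB (hω h1)), fun h2 => ?_⟩
      exact disjoint_left.1 h.bT (h.bB (hω h1)) (mem_TF.1 h2).1
    · rcases mem_union.1 (hθ1 h1) with h3 | h3
      · exact ⟨h.bE h3, fun h2 => disjoint_left.1 h.bT h3 (mem_TF.1 h2).1⟩
      · exact ⟨h.tE (mem_sdiff.1 h3).1, (mem_sdiff.1 h3).2⟩
  have hPT : P ∩ T ⊆ T := inter_subset_right
  have hePT : e ∉ P ∩ T := fun h1 => heP (mem_inter.1 h1).1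
  rcases hco : co i with _ | _
  · -- closed
    obtain ⟨N, hN⟩ := (hc c hcs).farC (i := i) hco (ω ∪ θ ∪ W)
    have hl : Disjoint (La i) T := disjoint_left.2 fun l h1 h2 =>
      disjoint_left.1 h.la_T h1 (mem_TF.1 h2).1
    have key := incO_tie_closed (N := N) h.pl (h.tC i hco) hGo hl hN hPT heT hePT ?_
    · have e1 : ω ∪ ω' ∪ opn TT fm co P = ω ∪ θ ∪ (T \ (P ∩ T)) := by
        ext l
        simp only [hθ, mem_union, mem_sdiff, mem_inter, mem_opn]
        by_cases h1 : l ∈ T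
        · have h2 := mem_TF.1 h1
          rw [h2.2, hco]
          have : ¬ (false = true) := Bool.false_ne_true
          clear * - h1 h2 this
          tauto
        · clear * - h1
          tauto
      have e2 : ω ∪ ω' ∪ opn TT fm co (insert e P) = ω ∪ θ ∪ (T \ insert e (P ∩ T)) := by
        ext l
        simp only [hθ, mem_union, mem_sdiff, mem_inter, mem_opn, mem_insert]
        by_cases h1 : l ∈ T
        · have h2 := mem_TF.1 h1
          rw [h2.2, hco]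
          have : ¬ (false = true) := Bool.false_ne_true
          clear * - h1 h2 this
          tauto
        · have h2 : l ≠ e := fun h3 => h1 (h3 ▸ heT)
          clear * - h1 h2
          tauto
      rw [e1, e2]
      exact key
    · rcases hcase with h1 | ⟨e', h1, h2⟩
      · left; exact h.freC hθB hco h1
      · right
        obtain ⟨⟨h3, h4⟩, h5⟩ := mem_cls.1 h2
        refine ⟨e', mem_inter.2 ⟨h1, mem_TF.2 ⟨h3, h4⟩⟩, ?_⟩
        rw [h.duC hθB]
        unfold gr at h5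
        rw [← hi, if_neg (by rw [hco]; exact Bool.false_ne_true)] at h5
        exact h5
  · -- open
    have key := incO_tie_open h.pl (h.tO i hco) hGo ((hc c hcs).farO (i := i) hco _) hPT heT hePT ?_
    · have e1 : ω ∪ ω' ∪ opn TT fm co P = ω ∪ θ ∪ (P ∩ T) := by
        ext l
        simp only [hθ, mem_union, mem_sdiff, mem_inter, mem_opn]
        by_cases h1 : l ∈ T
        · have h2 := mem_TF.1 h1
          rw [h2.2, hco]
          clear * - h1 h2
          tauto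
        · clear * - h1
          tauto
      have e2 : ω ∪ ω' ∪ opn TT fm co (insert e P) = ω ∪ θ ∪ insert e (P ∩ T) := by
        ext l
        simp only [hθ, mem_union, mem_sdiff, mem_inter, mem_opn, mem_insert]
        by_cases h1 : l ∈ T
        · have h2 := mem_TF.1 h1
          rw [h2.2, hco]
          clear * - h1 h2
          tauto
        · have h2 : l ≠ e := fun h3 => h1 (h3 ▸ heT)
          clear * - h1 h2
          tauto
      rw [e1, e2]
      exact key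
    · rcases hcase with h1 | ⟨e', h1, h2⟩
      · left; exact h.freO hθ1 hθB he hco h1
      · right
        obtain ⟨⟨h3, h4⟩, h5⟩ := mem_cls.1 h2
        refine ⟨e', mem_inter.2 ⟨h1, mem_TF.2 ⟨h3, h4⟩⟩, ?_⟩
        rw [h.capO hθB]
        unfold gr at h5
        rw [← hi, if_pos hco] at h5
        exact h5

open Classical in
/-- the classes which are not free -/
noncomputable def JM (W TT : Finset (ℤ × ℤ)) (fm : ℤ × ℤ → ι) (co : ι → Bool)
    (Wl La : ι → Finset (ℤ × ℤ)) (b o : ℤ × ℤ → ℤ × ℤ) (ω : Finset (ℤ × ℤ)) :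
    Finset (Finset (ℤ × ℤ)) :=
  (TT.filter fun e => ¬ fre W TT fm co Wl La b o ω e).image (cls TT fm co La b ω)

/-- the ties whose class is not in `A` -/
noncomputable def unc (TT : Finset (ℤ × ℤ)) (fm : ℤ × ℤ → ι) (co : ι → Bool)
    (La : ι → Finset (ℤ × ℤ)) (b : ℤ × ℤ → ℤ × ℤ) (ω : Finset (ℤ × ℤ))
    (A : Finset (Finset (ℤ × ℤ))) : Finset (ℤ × ℤ) :=
  TT.filter fun e => cls TT fm co La b ω e ∉ A

/-- **From the ties to the clusters.** `s e` : weight of the tie `e` being cut. -/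
theorem Multi.classes (h : Multi X W Bb B TT fm co Wl La b o)
    (hc : ∀ c ∈ Cs, FarM X TT fm co Wl La b o c) (hω : ω ⊆ B) :
    Ec (fun e => 1 - s e) TT (VM X Cs a Bb B TT fm co ω) =
      cE (fun k => ∏ e ∈ k, s e) (JM W TT fm co Wl La b o ω)
        (fun A => VM X Cs a Bb B TT fm co ω (unc TT fm co La b ω A)) := by
  classical
  have key := Ec_ties (Ti := TT) (fun e => 1 - s e)
    (R := fun e e' => e' ∈ cls TT fm co La b ω e) (cls TT fm co La b ω)
    (fun e he e' he' => cls_iff he') (free := fre W TT fm co Wl La b o ω)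
    (F := VM X Cs a Bb B TT fm co ω)
    (fun P hP e he heP hcase => h.toggle hc hω hP he heP hcase)
  rw [key]
  unfold JM unc
  refine cE_congr (fun k hk => ?_) fun A _ => rfl
  obtain ⟨e0, he0, rfl⟩ := mem_image.1 hk
  unfold phc
  rw [fib_cls]
  exact prod_congr rfl fun e _ => by ring

/-- response to cutting the class of the tie `e` -/
noncomputable def DM (X : Env) (Cs : Finset (ℤ × ℤ)) (a : ℤ × ℤ → ℂ) (Bb B TT : Finset (ℤ × ℤ))
    (fm : ℤ × ℤ → ι) (co : ι → Bool) (La : ι → Finset (ℤ × ℤ)) (b : ℤ × ℤ → ℤ × ℤ)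
    (e : ℤ × ℤ) (ω : Finset (ℤ × ℤ)) : ℂ :=
  VM X Cs a Bb B TT fm co ω (TT \ cls TT fm co La b ω e) - VM X Cs a Bb B TT fm co ω TT

open Classical in
/-- functional of the contact set: the tie `e` is the first of its class, weight of the cut class -/
noncomputable def FT (T : Finset (ℤ × ℤ)) (b : ℤ × ℤ → ℤ × ℤ) (rk : ℤ × ℤ → ℤ)
    (s : ℤ × ℤ → ℂ) (e : ℤ × ℤ) (S : Set (ℤ × ℤ)) : ℂ :=
  if ∀ e' ∈ T, b e' ∈ S → rk e ≤ rk e' then ∏ e' ∈ T.filter (fun e' => b e' ∈ S), s e' else 0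

/-- inner ends of the ties -/
def WV (T : Finset (ℤ × ℤ)) (b : ℤ × ℤ → ℤ × ℤ) (v : ℤ × ℤ) : Prop := ∃ e ∈ T, b e = v

/-- contact set of the class of `e` -/
noncomputable def SM (TT : Finset (ℤ × ℤ)) (fm : ℤ × ℤ → ι) (co : ι → Bool)
    (La : ι → Finset (ℤ × ℤ)) (b : ℤ × ℤ → ℤ × ℤ) (e : ℤ × ℤ) (ω : Finset (ℤ × ℤ)) :
    Set (ℤ × ℤ) := CS (WV (TF TT fm (fm e)) b) (gr co La (fm e) ω) (b e)

lemma cls_mem {e e' : ℤ × ℤ} (he' : e' ∈ TF TT fm (fm e)) :
    e' ∈ cls TT fm co La b ω e ↔ b e' ∈ SM TT fm co La b e ω := by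
  rw [mem_cls]
  constructor
  · rintro ⟨_, h1⟩
    exact ⟨⟨e', he', rfl⟩, h1⟩
  · rintro ⟨_, h1⟩
    exact ⟨mem_TF.1 he', h1⟩

open Classical in
lemma FT_cls (rk : ℤ × ℤ → ℤ) (e : ℤ × ℤ) :
    FT (TF TT fm (fm e)) b rk s e (SM TT fm co La b e ω) =
      if ∀ e' ∈ cls TT fm co La b ω e, rk e ≤ rk e' then
        ∏ e' ∈ cls TT fm co La b ω e, s e' else 0 := by
  unfold FT
  have hsub : ∀ {e'}, e' ∈ cls TT fm co La b ω e → e' ∈ TF TT fm (fm e) := fun h =>
    mem_TF.2 (mem_cls.1 h).1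
  have e1 : ((TF TT fm (fm e)).filter fun e' => b e' ∈ SM TT fm co La b e ω) =
      cls TT fm co La b ω e := by
    ext e'
    rw [mem_filter]
    constructor
    · rintro ⟨h1, h2⟩; exact (cls_mem h1).2 h2
    · intro h1; exact ⟨hsub h1, (cls_mem (hsub h1)).1 h1⟩
  rw [e1]
  refine if_congr ?_ rfl rfl
  constructor
  · intro h1 e' he'
    exact h1 e' (hsub he') ((cls_mem (hsub he')).1 he')
  · intro h1 e' he' h2
    exact h1 e' ((cls_mem he').2 h2)

/-- a free tie has no response -/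
lemma Multi.DM_free (h : Multi X W Bb B TT fm co Wl La b o)
    (hc : ∀ c ∈ Cs, FarM X TT fm co Wl La b o c) (hω : ω ⊆ B) (he : e ∈ TT)
    (hf : fre W TT fm co Wl La b o ω e) : DM X Cs a Bb B TT fm co La b e ω = 0 := by
  classical
  unfold DM
  rw [sub_eq_zero]
  refine eq_of_status (Ti := TT) (R := fun e e' => e' ∈ cls TT fm co La b ω e)
    (free := fre W TT fm co Wl La b o ω) (F := VM X Cs a Bb B TT fm co ω)
    (fun e he => self_cls he)
    (fun P hP e he heP hcase => h.toggle hc hω hP he heP hcase) sdiff_subset (Subset.refl _) ?_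
  intro e1 he1 hnf
  refine ⟨fun _ => ⟨e1, he1, self_cls he1⟩, fun _ => ⟨e1, mem_sdiff.2 ⟨he1, fun h1 => hnf ?_⟩,
    self_cls he1⟩⟩
  -- a tie of the class of a free tie is free
  obtain ⟨⟨h2, h3⟩, h4⟩ := mem_cls.1 h1
  have he1F : e1 ∈ TF TT fm (fm e) := mem_TF.2 ⟨h2, h3⟩
  have heF : e ∈ TF TT fm (fm e) := mem_TF.2 ⟨he, rfl⟩
  unfold fre at hf ⊢
  rw [h3]
  unfold gr at h4
  split_ifs at hf h4 ⊢ with hco
  · have h4' : Co ((ω ∪ (W \ Wl (fm e))) ∩ La (fm e)) (b e) (b e1) := by rw [h.capO']; exact h4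
    rcases hf with h5 | h5
    · left
      intro x y h6 h7 h8
      refine h5 x y (Co.trans ?_ h6) h7 h8
      rw [h.capO2]; exact h4
    · right
      have h6 : Co ((ω ∪ (W \ Wl (fm e))) ∩ La (fm e) ∪ Wl (fm e)) (o e1) (o e) :=
        ((h.tO _ hco).conn e1 he1F e heF).mono subset_union_right
      exact (h6.trans h5).trans (h4'.mono subset_union_left)
  · have hco' : co (fm e) = false := by simpa using hco
    have h4' : Co (du (La (fm e)) (ω ∪ W)) (b e) (b e1) := by rw [h.duC']; exact h4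
    rcases hf with h5 | h5
    · left
      intro x y h6 h7 h8
      exact h5 x y (h4'.trans h6) h7 h8
    · right
      have h6 : Co (du (La (fm e)) (ω ∪ W) ∪ du (Wl (fm e)) ∅) (o e1) (o e) :=
        ((h.tC _ hco').conn e1 he1F e heF).mono subset_union_right
      exact (h6.trans h5).trans (h4'.mono subset_union_left)

lemma unc_empty : unc TT fm co La b ω ∅ = TT := by
  unfold unc
  simp

lemma unc_single : unc TT fm co La b ω {cls TT fm co La b ω e} =
    TT \ cls TT fm co La b ω e := by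
  unfold unc
  ext l
  rw [mem_filter, mem_sdiff, mem_singleton]
  constructor
  · rintro ⟨h1, h2⟩
    refine ⟨h1, fun h3 => h2 ?_⟩
    exact cls_eq_of h3
  · rintro ⟨h1, h2⟩
    refine ⟨h1, fun h3 => h2 ?_⟩
    rw [← h3]; exact self_cls h1

/-- the first order term as a sum over the ties -/
lemma Multi.sum_first (h : Multi X W Bb B TT fm co Wl La b o) {rk : ℤ × ℤ → ℤ}
    (hc : ∀ c ∈ Cs, FarM X TT fm co Wl La b o c) (hω : ω ⊆ B)
    (hrk : ∀ e ∈ TT, ∀ e' ∈ TT, rk e = rk e' → e = e') :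
    ∑ k ∈ JM W TT fm co Wl La b o ω, (∏ e ∈ k, s e) *
      (VM X Cs a Bb B TT fm co ω (unc TT fm co La b ω {k}) -
        VM X Cs a Bb B TT fm co ω (unc TT fm co La b ω ∅)) =
    ∑ e ∈ TT, FT (TF TT fm (fm e)) b rk s e (SM TT fm co La b e ω) *
        DM X Cs a Bb B TT fm co La b e ω := by
  classical
  set V : Finset (Finset (ℤ × ℤ)) → ℂ :=
    fun A => VM X Cs a Bb B TT fm co ω (unc TT fm co La b ω A) with hV
  set g : Finset (ℤ × ℤ) → ℂ := fun k => (∏ e ∈ k, s e) * (V {k} - V ∅) with hg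
  have hD : ∀ e, V {cls TT fm co La b ω e} - V ∅ = DM X Cs a Bb B TT fm co La b e ω := by
    intro e
    rw [hV]
    simp only
    rw [unc_single, unc_empty]
    rfl
  have h1 : ∑ k ∈ JM W TT fm co Wl La b o ω, g k =
      ∑ k ∈ TT.image (cls TT fm co La b ω), g k := by
    unfold JM
    refine sum_subset (image_subset_image (filter_subset _ _)) fun k h1 h2 => ?_
    obtain ⟨e, he, rfl⟩ := mem_image.1 h1
    have hf : fre W TT fm co Wl La b o ω e := by
      by_contra hf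
      exact h2 (mem_image_of_mem _ (mem_filter.2 ⟨he, hf⟩))
    rw [hg]
    simp only
    rw [hD, h.DM_free hc hω he hf, mul_zero]
  have h2 : ∑ k ∈ JM W TT fm co Wl La b o ω, (∏ e ∈ k, s e) * (V {k} - V ∅) =
      ∑ k ∈ JM W TT fm co Wl La b o ω, g k := rfl
  rw [h2, h1, sum_min (rk := rk) (fun e he => self_cls he) (fun e _ => cls_sub)
    (fun e _ e' he' => cls_eq_of he') hrk]
  refine sum_congr rfl fun e he => ?_
  rw [FT_cls, ← hD e]
  split_ifs <;> ring

/-- expectation over the ties and the bulk -/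
noncomputable def Tot (X : Env) (Cs : Finset (ℤ × ℤ)) (a : ℤ × ℤ → ℂ)
    (Bb TT : Finset (ℤ × ℤ)) (fm : ℤ × ℤ → ι) (co : ι → Bool) (s : ℤ × ℤ → ℂ) : ℂ :=
  Eh Bb (fun ω => Ec (fun e => 1 - s e) TT (fun P => U X Cs a (ω ∪ opn TT fm co P)))

/-- **First order expansion.** -/
theorem Multi.first (h : Multi X W Bb B TT fm co Wl La b o) {rk : ℤ × ℤ → ℤ}
    (hc : ∀ c ∈ Cs, FarM X TT fm co Wl La b o c)
    (hrk : ∀ e ∈ TT, ∀ e' ∈ TT, rk e = rk e' → e = e') {M : ℝ}
    (hM : ∀ ω ⊆ B, ∀ P ⊆ TT, ‖VM X Cs a Bb B TT fm co ω P‖ ≤ M) :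
    ‖Tot X Cs a Bb TT fm co s - Eh Bb (fun ω => U X Cs a (ω ∪ opn TT fm co TT)) -
      ∑ e ∈ TT, Eh B (fun ω => FT (TF TT fm (fm e)) b rk s e (SM TT fm co La b e ω) *
        DM X Cs a Bb B TT fm co La b e ω)‖ ≤
      M * Ex hf B (fun ω => ∑ A ∈ (JM W TT fm co Wl La b o ω).powerset with
        2 ≤ A.card, ∏ k ∈ A, (2 * ‖∏ e ∈ k, s e‖)) := by
  classical
  set V : Finset (ℤ × ℤ) → Finset (Finset (ℤ × ℤ)) → ℂ :=
    fun ω A => VM X Cs a Bb B TT fm co ω (unc TT fm co La b ω A) with hV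
  have e1 : Tot X Cs a Bb TT fm co s = Eh B (fun ω =>
      cE (fun k => ∏ e ∈ k, s e) (JM W TT fm co Wl La b o ω) (V ω)) := by
    unfold Tot
    refine (Ec_split _ h.bB _).trans (Ec_congr fun ω hω => ?_)
    rw [hV]
    simp only
    rw [← h.classes hc hω]
    exact Ec_swap (fun _ => (1 / 2 : ℂ)) (fun e => 1 - s e) (Bb \ B) TT
      (fun ω' P => U X Cs a (ω ∪ ω' ∪ opn TT fm co P))
  have e2 : Eh Bb (fun ω => U X Cs a (ω ∪ opn TT fm co TT)) = Eh B (fun ω => V ω ∅) := by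
    refine (Ec_split _ h.bB _).trans (Ec_congr fun ω hω => ?_)
    rw [hV]
    simp only
    rw [unc_empty]
    rfl
  have e3 : (∑ e ∈ TT, Eh B (fun ω => FT (TF TT fm (fm e)) b rk s e
        (SM TT fm co La b e ω) * DM X Cs a Bb B TT fm co La b e ω)) =
      Eh B (fun ω => ∑ k ∈ JM W TT fm co Wl La b o ω, (∏ e ∈ k, s e) *
        (V ω {k} - V ω ∅)) := by
    symm
    refine (Ec_congr fun ω hω => h.sum_first (s := s) (a := a) hc hω hrk).trans ?_
    exact Ec_sum _ _ _ _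
  rw [e1, e2, e3]
  rw [← Ec_sub, ← Ec_sub]
  have hb : ∀ ω, ω ⊆ B → ‖cE (fun k => ∏ e ∈ k, s e) (JM W TT fm co Wl La b o ω)
        (V ω) - V ω ∅ - ∑ k ∈ JM W TT fm co Wl La b o ω, (∏ e ∈ k, s e) *
        (V ω {k} - V ω ∅)‖ ≤
      M * ∑ A ∈ (JM W TT fm co Wl La b o ω).powerset with
        2 ≤ A.card, ∏ k ∈ A, (2 * ‖∏ e ∈ k, s e‖) := by
    intro ω hω
    have := first_order (φ := fun k => ∏ e ∈ k, s e) (s := JM W TT fm co Wl La b o ω)
      (F := V ω) (M := M) (fun A _ => hM ω hω _ (filter_subset _ _))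
    simpa only [smul_eq_mul] using this
  refine (Ec_half_norm hb).trans (le_of_eq ?_)
  exact Ex_smul _ _ _ _

/-! ### the response in terms of `DTO`, `DTC` -/

/-- all ties tied: the open labels of the other families -/
def oth (TT : Finset (ℤ × ℤ)) (fm : ℤ × ℤ → ι) (co : ι → Bool) (i : ι) : Finset (ℤ × ℤ) :=
  opn TT fm co TT \ TF TT fm i

lemma mem_oth : e ∈ oth TT fm co i ↔ (e ∈ TT ∧ co (fm e) = true) ∧ fm e ≠ i := by
  unfold oth
  rw [mem_sdiff, mem_opn, mem_TF]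
  tauto

theorem Multi.DM_O (h : Multi X W Bb B TT fm co Wl La b o) (hi : co (fm e) = true) :
    DM X Cs a Bb B TT fm co La b e ω = Eh (Bb \ B) (fun ω' =>
      DTO X Cs a W (Wl (fm e)) (La (fm e)) (TF TT fm (fm e)) b e
        (ω ∪ (ω' ∪ oth TT fm co (fm e)))) := by
  unfold DM VM
  rw [← Ec_sub]
  refine Ec_congr fun ω' hω' => ?_
  have hd : Disjoint (ω' ∪ oth TT fm co (fm e)) B := by
    rw [disjoint_union_left]
    refine ⟨disjoint_left.2 fun l h1 h2 => (mem_sdiff.1 (hω' h1)).2 h2,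
      disjoint_left.2 fun l h1 h2 => ?_⟩
    exact disjoint_left.1 h.bT (h.bB h2) (mem_oth.1 h1).1.1
  unfold DTO
  rw [h.clO_eq hd hi]
  congr 2
  · ext l
    simp only [mem_union, mem_opn, mem_sdiff, mem_TF, mem_oth]
    have h1 : l ∈ cls TT fm co La b ω e → fm l = fm e := fun h2 => (mem_cls.1 h2).1.2
    by_cases h2 : fm l = fm e
    · rw [h2, hi]; tauto
    · tauto
  · ext l
    simp only [mem_union, mem_opn, mem_TF, mem_oth]
    by_cases h2 : fm l = fm e
    · rw [h2, hi]; tauto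
    · tauto

theorem Multi.DM_C (h : Multi X W Bb B TT fm co Wl La b o) (hi : co (fm e) = false) :
    DM X Cs a Bb B TT fm co La b e ω = Eh (Bb \ B) (fun ω' =>
      DTC X Cs a W (La (fm e)) (TF TT fm (fm e)) b e
        (ω ∪ (ω' ∪ oth TT fm co (fm e)))) := by
  unfold DM VM
  rw [← Ec_sub]
  refine Ec_congr fun ω' hω' => ?_
  have hd : Disjoint (ω' ∪ oth TT fm co (fm e)) B := by
    rw [disjoint_union_left]
    refine ⟨disjoint_left.2 fun l h1 h2 => (mem_sdiff.1 (hω' h1)).2 h2,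
      disjoint_left.2 fun l h1 h2 => ?_⟩
    exact disjoint_left.1 h.bT (h.bB h2) (mem_oth.1 h1).1.1
  unfold DTC
  rw [h.clC_eq hd hi]
  have hne : ¬ (false = true) := Bool.false_ne_true
  congr 2
  · ext l
    simp only [mem_union, mem_opn, mem_sdiff, mem_oth]
    have h1 : l ∈ cls TT fm co La b ω e → l ∈ TT ∧ fm l = fm e := fun h2 => (mem_cls.1 h2).1
    by_cases h2 : fm l = fm e
    · rw [h2, hi]; tauto
    · tauto
  · ext l
    simp only [mem_union, mem_opn, mem_oth]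
    by_cases h2 : fm l = fm e
    · rw [h2, hi]; tauto
    · tauto

end Pool.Agent.H39.Q1
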