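import Mathlib
import Pool.Agent.H39.Q1.Multi

set_option autoImplicit false
open Finset

/-! # Locality of the averaged response of one tie

`DM .. e ω` : response to cutting the class of the tie `e`, the labels off the thick layer being
averaged out. Near a flat wall: it vanishes unless the class reaches distance `R`; if only the cluster
of the class crosses the annulus `ρ, r`, it does not depend on the labels inside the box of radius
`ρ`. -/

namespace Pool.Agent.H39.Q1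

open Pool.Agent.H75.Perc Pool.Agent.H75.TwoArm Pool.Agent.H75.Four Pool.Agent.H69.Q1
open Pool.Agent.Q1 Pool.Agent.H25.Q1.Add Pool.Agent.H99.NC Pool.Agent.H49.Perc
open Pool.Agent.H60.Q1
open Pool.Agent.H20.Q1 (Eh CS near_iff far_iff BR_ends BR_of_ends)
open Pool.Agent.Q1.Env (TConn)

/-- exactly one cluster of `ζ` crosses -/
def Gx (w : ℤ × ℤ) (ρ r : ℤ) (ζ : Finset (ℤ × ℤ)) (t : ℤ × ℤ) : Prop :=
  Far w r t ∧ (∃ u, Near w ρ u ∧ Co ζ u t) ∧ ∀ u v, Near w ρ u → Far w r v → Co ζ u v → Co ζ t u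

section graph

variable {η Wg ζ : Finset (ℤ × ℤ)} {w x y t t' oe : ℤ × ℤ} {ρ r R m : ℤ}

lemma Gx.unique (h : Gx w ρ r ζ t) (h' : Gx w ρ r ζ t') : Co ζ t t' := by
  obtain ⟨h1, ⟨u, h2, h3⟩, -⟩ := h'
  exact (h.2.2 u t' h2 h1 h3).trans h3

/-- a far vertex of the cluster is joined to `t` outside the near box -/
lemma out_of (hx : inR w ρ x) (hρr : ρ < r) (hy : Far w r y) (h : Co η x y)
    (hG : Gx w ρ r (η ∩ (BR w r \ BR w ρ)) t) : Co (η \ BR w ρ) t y := by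
  have key : ∀ y', Co η y y' → Co (η \ BR w ρ) y y' ∨
      ∃ u, inR w ρ u ∧ Co (η \ BR w ρ) y u := by
    intro y' hy'
    induction hy' with
    | refl => exact Or.inl (Co.refl _ _)
    | @tail a b _ hab ih =>
      rcases ih with ih | ih
      · by_cases hl : a + b ∈ BR w ρ
        · right
          exact ⟨a, (BR_ends hab.1 hl).1, ih⟩
        · left
          exact ih.tail ⟨hab.1, mem_sdiff.2 ⟨hab.2, hl⟩⟩
      · exact Or.inr ih
  have hu : ∃ u, inR w ρ u ∧ Co (η \ BR w ρ) y u := by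
    rcases key x h.symm with h1 | h1
    · exact ⟨x, hx, h1⟩
    · exact h1
  obtain ⟨u, hu1, hu2⟩ := hu
  have hu1' := hu1
  rw [inR_iff] at hu1'
  obtain ⟨v', h1, h2⟩ := open_exit hu2.symm (by rw [abs_lt, abs_lt]; omega :
    |u.1 - w.1| < r ∧ |u.2 - w.2| < r) hy
  have e : (η \ BR w ρ) ∩ BR w r = η ∩ (BR w r \ BR w ρ) := by
    ext l
    simp only [mem_inter, mem_sdiff]
    tauto
  have h3 : Co (η ∩ (BR w r \ BR w ρ)) u v' := by
    rw [← e]; exact h2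
  have h4 := hG.2.2 u v' (near_iff.2 hu1) h1 h3
  have hsub : η ∩ (BR w r \ BR w ρ) ⊆ η \ BR w ρ := by
    rw [← e]; exact inter_subset_left
  exact (h4.mono hsub).trans hu2.symm

/-- touching the wall outside -/
def Tch (η Wg : Finset (ℤ × ℤ)) (x : ℤ × ℤ) : Prop :=
  ∃ y z, IsUnit4 (z - y) ∧ y + z ∈ Wg ∧ Co η x y

lemma tch_iff (hx : inR w ρ x) (hρr : ρ < r) (hrR : r ≤ R)
    (hG : Gx w ρ r (η ∩ (BR w r \ BR w ρ)) t) (hxt : Co η x t)
    (hsep : ∀ y z, IsUnit4 (z - y) → y + z ∈ Wg → Co η x y → ¬ inR w R y) :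
    Tch η Wg x ↔ Tch (η \ BR w ρ) Wg t := by
  constructor
  · rintro ⟨y, z, h1, h2, h3⟩
    refine ⟨y, z, h1, h2, out_of hx hρr ?_ h3 hG⟩
    have h4 := hsep y z h1 h2 h3
    rw [far_iff]
    intro h5
    apply h4
    rw [inR_iff] at h5 ⊢
    omega
  · rintro ⟨y, z, h1, h2, h3⟩
    exact ⟨y, z, h1, h2, hxt.trans (h3.mono sdiff_subset)⟩

lemma tch_of_co (hoe : ∀ z, IsUnit4 (z - oe) → oe + z ∉ η) (hne : oe ≠ x)
    (h : Co (η ∪ Wg) oe x) : Tch η Wg x := by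
  have key : ∀ y, Co (η ∪ Wg) x y → Co η x y ∨ Tch η Wg x := by
    intro y hy
    induction hy with
    | refl => exact Or.inl (Co.refl _ _)
    | @tail a b _ hab ih =>
      rcases ih with ih | ih
      · rcases mem_union.1 hab.2 with h1 | h1
        · exact Or.inl (ih.tail ⟨hab.1, h1⟩)
        · exact Or.inr ⟨a, b, hab.1, h1, ih⟩
      · exact Or.inr ih
  rcases key oe h.symm with h1 | h1
  · exfalso
    rcases Relation.ReflTransGen.cases_tail h1 with h2 | ⟨p, -, h2⟩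
    · exact hne h2
    · apply hoe p (unit_symm h2.1)
      rw [add_comm]; exact h2.2
  · exact h1

lemma co_of_tch (hcn : ∀ a b, IsUnit4 (b - a) → a + b ∈ Wg → Co Wg oe a)
    (h : Tch η Wg x) : Co (η ∪ Wg) oe x := by
  obtain ⟨y, z, h1, h2, h3⟩ := h
  exact ((hcn y z h1 h2).mono subset_union_right).trans (h3.symm.mono subset_union_left)

end graph

variable {ι : Type*} [DecidableEq ι] {X : Env} {W Bb B TT Cs ω ω' θ P : Finset (ℤ × ℤ)}
  {fm : ℤ × ℤ → ι} {co : ι → Bool} {Wl La : ι → Finset (ℤ × ℤ)}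
  {b o : ℤ × ℤ → ℤ × ℤ} {a : ℤ × ℤ → ℂ} {e x w t : ℤ × ℤ} {i : ι} {m ρ r R : ℤ}

/-- boxes of labels, centred at a vertex (`true`) or at a face (`false`) -/
noncomputable def bx (c : Bool) (w : ℤ × ℤ) (r : ℤ) : Finset (ℤ × ℤ) :=
  if c = true then BR w r else BD w r

/-- Geometry of a flat wall near `w`, for a family of open ties. -/
structure WallO (X : Env) (W Bb TT : Finset (ℤ × ℤ)) (T W1 La : Finset (ℤ × ℤ))
    (b o : ℤ × ℤ → ℤ × ℤ) (e w : ℤ × ℤ) (m R : ℤ) : Prop where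
  inb : ∀ l ∈ Bb ∪ (TT \ T), l ∈ BR w R → l ∈ La
  root : lab X.c0 ∉ BR w R
  wsub : W ∩ BR w R ⊆ W1
  conn : ∀ ρ, m < ρ → ρ < R → TConn ((La ∪ T) ∩ BR w ρ)
  b1 : ∀ r, m < r → r ≤ R → ∀ u v, IsUnit4 (v - u) → u + v ∈ W1 ∩ BR w r →
    Co (W1 ∩ BR w r) u (o e)
  b2 : ∀ r, m < r → r ≤ R → ∀ e' ∈ T, e' ∈ BR w r → Co (W1 ∩ BR w r) (o e') (o e)
  sep : ∀ y z, IsUnit4 (z - y) → y + z ∈ W1 → VO La T b y → ¬ inR w R y
  oe : ∀ z, IsUnit4 (z - o e) → o e + z ∉ La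
  ne : o e ≠ b e

/-- Geometry of a flat wall near `w`, for a family of closed ties. -/
structure WallC (X : Env) (W Bb TT : Finset (ℤ × ℤ)) (T K1 La : Finset (ℤ × ℤ))
    (b o : ℤ × ℤ → ℤ × ℤ) (e w : ℤ × ℤ) (m R : ℤ) : Prop where
  inb : ∀ l ∈ Bb ∪ (TT \ T), l ∈ BD w R → l ∈ La
  root : lab X.c0 ∉ BD w R
  cov : BD w R ⊆ La ∪ T ∪ K1 ∪ W
  conn : ∀ ρ, m < ρ → ρ < R → TConn ((La ∪ T) ∩ BD w ρ)
  b1 : ∀ r, m < r → r ≤ R → ∀ u v, IsUnit4 (v - u) → u + v - (1, 1) ∈ K1 ∩ BD w r →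
    Co (du (K1 ∩ BD w r) ∅) u (o e)
  b2 : ∀ r, m < r → r ≤ R → ∀ e' ∈ T, e' ∈ BD w r → Co (du (K1 ∩ BD w r) ∅) (o e') (o e)
  sep : ∀ y z, IsUnit4 (z - y) → y + z - (1, 1) ∈ K1 → VC La T b y → ¬ inR w R y
  oe : ∀ z, IsUnit4 (z - o e) → o e + z - (1, 1) ∉ La
  ne : o e ≠ b e

/-- Geometry of a flat wall near `w` for the family of the tie `e`. -/
def WallG (X : Env) (W Bb TT : Finset (ℤ × ℤ)) (fm : ℤ × ℤ → ι) (co : ι → Bool)
    (Wl La : ι → Finset (ℤ × ℤ)) (b o : ℤ × ℤ → ℤ × ℤ) (e w : ℤ × ℤ) (m R : ℤ) : Prop :=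
  if co (fm e) = true then WallO X W Bb TT (TF TT fm (fm e)) (Wl (fm e)) (La (fm e)) b o e w m R
  else WallC X W Bb TT (TF TT fm (fm e)) (Wl (fm e)) (La (fm e)) b o e w m R

lemma tie_box {e' : ℤ × ℤ} (hmρ : m < ρ) (hu : IsUnit4 (b e' - o e')) (hb : inR w m (b e')) :
    o e' + b e' ∈ BR w ρ := by
  have h1 := unit_cases hu
  rw [inR_iff] at hb
  refine BR_of_ends hu ?_ ?_
  · rw [inR_iff]; omega
  · rw [inR_iff]; omega

lemma oth_sub : oth TT fm co i ⊆ TT \ TF TT fm i := fun l hl => by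
  obtain ⟨⟨h1, -⟩, h2⟩ := mem_oth.1 hl
  exact mem_sdiff.2 ⟨h1, fun h3 => h2 (mem_TF.1 h3).2⟩

namespace Multi

variable (h : Multi X W Bb B TT fm co Wl La b o)

include h

lemma go_sub (hω : ω ⊆ B) (hω' : ω' ⊆ Bb \ B) :
    ω ∪ (ω' ∪ oth TT fm co i) ⊆ X.E \ TF TT fm i := by
  intro l hl
  rw [mem_sdiff]
  rcases mem_union.1 hl with h1 | h1
  · refine ⟨h.bE (h.bB (hω h1)), fun h2 => ?_⟩
    exact disjoint_left.1 h.bT (h.bB (hω h1)) (mem_TF.1 h2).1
  · rcases mem_union.1 h1 with h3 | h3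
    · have h4 := (mem_sdiff.1 (hω' h3)).1
      exact ⟨h.bE h4, fun h2 => disjoint_left.1 h.bT h4 (mem_TF.1 h2).1⟩
    · obtain ⟨h4, h5⟩ := mem_sdiff.1 (oth_sub h3)
      exact ⟨h.tE h4, h5⟩

lemma go_in (hω : ω ⊆ B) (hω' : ω' ⊆ Bb \ B) {l : ℤ × ℤ}
    (hl : l ∈ ω ∪ (ω' ∪ oth TT fm co i)) : l ∈ Bb ∪ (TT \ TF TT fm i) := by
  rcases mem_union.1 hl with h1 | h1
  · exact mem_union_left _ (h.bB (hω h1))
  · rcases mem_union.1 h1 with h3 | h3
    · exact mem_union_left _ (mem_sdiff.1 (hω' h3)).1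
    · exact mem_union_right _ (oth_sub h3)

/-- labels of the layer come from the thick layer -/
lemma go_la (hω' : ω' ⊆ Bb \ B) {l : ℤ × ℤ}
    (hl : l ∈ ω ∪ (ω' ∪ oth TT fm co i)) (hl' : l ∈ La i) : l ∈ ω := by
  rcases mem_union.1 hl with h1 | h1
  · exact h1
  · exfalso
    rcases mem_union.1 h1 with h3 | h3
    · exact (mem_sdiff.1 (hω' h3)).2 (h.la i hl')
    · exact disjoint_left.1 h.la_T hl' (mem_sdiff.1 (oth_sub h3)).1

/-- the response vanishes unless the class reaches distance `R` -/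
theorem far (hc : ∀ c ∈ Cs, FarM X TT fm co Wl La b o c)
    (hG : WallG X W Bb TT fm co Wl La b o e w m R) (hω : ω ⊆ B) (he : e ∈ TT)
    (hD : DM X Cs a Bb B TT fm co La b e ω ≠ 0) :
    ∃ v, Far w R v ∧ Co (gr co La (fm e) ω) (b e) v := by
  have hf : ¬ fre W TT fm co Wl La b o ω e := fun hf => hD (h.DM_free hc hω he hf)
  unfold fre at hf
  unfold WallG at hG
  unfold gr
  rcases hco : co (fm e) with _ | _
  · rw [hco] at hf hG
    rw [if_neg Bool.false_ne_true] at hf hG ⊢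
    unfold FreeC at hf
    rw [not_or] at hf
    have h1 := hf.1
    unfold SmallC at h1
    push Not at h1
    obtain ⟨x, y, h2, h3, h4, h5⟩ := h1
    rw [h.duC'] at h2
    refine ⟨x, ?_, h2⟩
    rw [far_iff]
    intro h6
    have h7 : x + y - (1, 1) ∈ BD w R := by
      rw [mem_BD']
      have e1 : x + y - (1, 1) + (1, 1) = x + y := by
        refine Prod.ext ?_ ?_ <;> simp
      rw [e1]
      have h8 := unit_cases h3
      rw [inR_iff] at h6
      refine BR_of_ends h3 ?_ ?_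
      · rw [inR_iff]; omega
      · rw [inR_iff]; omega
    have h9 := hG.cov h7
    simp only [mem_union] at h4 h9
    tauto
  · rw [hco] at hf hG
    rw [if_pos rfl] at hf hG ⊢
    rw [not_or] at hf
    have h1 := hf.1
    unfold SmallO at h1
    push Not at h1
    obtain ⟨x, y, h2, h3, h4, h5⟩ := h1
    rw [h.capO2] at h2
    refine ⟨x, ?_, h2⟩
    rw [far_iff]
    intro h6
    have h7 : x + y ∈ BR w R := by
      have h8 := unit_cases h3
      rw [inR_iff] at h6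
      refine BR_of_ends h3 ?_ ?_
      · rw [inR_iff]; omega
      · rw [inR_iff]; omega
    rcases mem_union.1 h4 with h8 | h8
    · exact h5 (hG.inb _ (mem_union_left _ (h.bB (hω h8))) h7)
    · rcases mem_union.1 h8 with h8 | h8
      · exact (mem_sdiff.1 h8).2 (hG.wsub (mem_inter.2 ⟨(mem_sdiff.1 h8).1, h7⟩))
      · exact h5 (hG.inb _ (mem_union_right _ h8) h7)

end Multi

/-- value of the response as a function of the labels outside (open ties) -/
noncomputable def psiO (X : Env) (Cs : Finset (ℤ × ℤ)) (a : ℤ × ℤ → ℂ) (Bb B TT : Finset (ℤ × ℤ))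
    (fm : ℤ × ℤ → ι) (co : ι → Bool) (i : ι) (S z : Finset (ℤ × ℤ)) : ℂ :=
  Eh (Bb \ B) (fun ω' => U X Cs a (z ∪ (ω' ∪ oth TT fm co i) ∪ (TF TT fm i \ S)) -
    U X Cs a (z ∪ (ω' ∪ oth TT fm co i) ∪ (TF TT fm i \ S) ∪ S))

/-- value of the response as a function of the labels outside (closed ties) -/
noncomputable def psiC (X : Env) (Cs : Finset (ℤ × ℤ)) (a : ℤ × ℤ → ℂ) (Bb B TT : Finset (ℤ × ℤ))
    (fm : ℤ × ℤ → ι) (co : ι → Bool) (i : ι) (S z : Finset (ℤ × ℤ)) : ℂ :=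
  Eh (Bb \ B) (fun ω' => U X Cs a (z ∪ (ω' ∪ oth TT fm co i) ∪ S) -
    U X Cs a (z ∪ (ω' ∪ oth TT fm co i)))

/-- open ties -/
theorem Multi.locO (h : Multi X W Bb B TT fm co Wl La b o)
    (hi : co (fm e) = true)
    (hG : WallO X W Bb TT (TF TT fm (fm e)) (Wl (fm e)) (La (fm e)) b o e w m R)
    (hmρ : m < ρ) (hρr : ρ < r) (hrR : r ≤ R) (he : e ∈ TT) (hω : ω ⊆ B)
    (hx : Gx w ρ r (gr co La (fm e) ω ∩ (BR w r \ BR w ρ)) t)
    (ht : Co (gr co La (fm e) ω) (b e) t)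
    (hcn : ∀ v, WV (TF TT fm (fm e)) b v → Co (gr co La (fm e) ω) (b e) v → inR w m v)
    (hnt : ¬ Tch (gr co La (fm e) ω) (Wl (fm e)) (b e))
    (hCs : ∀ c ∈ Cs, lab c ∉ BR w R) :
    DM X Cs a Bb B TT fm co La b e ω =
      psiO X Cs a Bb B TT fm co (fm e) ((La (fm e) ∪ TF TT fm (fm e)) ∩ BR w ρ) (ω \ BR w ρ) := by
  classical
  have egr : gr co La (fm e) ω = ω ∩ La (fm e) := by
    unfold gr; rw [if_pos hi]
  rw [h.DM_O hi]
  unfold psiO
  refine Ec_congr fun ω' hω' => ?_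
  set i := fm e with hidef
  set T := TF TT fm i with hT
  set η := gr co La i ω with hη
  set Go := ω ∪ (ω' ∪ oth TT fm co i) with hGo
  set S := (La i ∪ T) ∩ BR w ρ with hS
  have heT : e ∈ T := mem_TF.2 ⟨he, rfl⟩
  have hTO := h.tO i hi
  have hρR : ρ < R := by omega
  have hBR : ∀ {l : ℤ × ℤ}, l ∈ Go → l ∈ BR w R → l ∈ ω ∧ l ∈ La i := by
    intro l h1 h2
    have h3 := hG.inb l (h.go_in hω hω' h1) h2
    exact ⟨h.go_la hω' h1 h3, h3⟩
  have hinm : inR w m (b e) := hcn _ ⟨e, heT, rfl⟩ (Co.refl _ _)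
  have hxρ : inR w ρ (b e) := by
    rw [inR_iff] at hinm ⊢; omega
  have eζ : Go ∩ (BR w r \ S) = η ∩ (BR w r \ BR w ρ) := by
    ext l
    have m1 : l ∈ Go ∩ (BR w r \ S) ↔ l ∈ Go ∧ l ∈ BR w r ∧ l ∉ S := by
      rw [mem_inter, mem_sdiff]
    have m2 : l ∈ η ∩ (BR w r \ BR w ρ) ↔ l ∈ η ∧ l ∈ BR w r ∧ l ∉ BR w ρ := by
      rw [mem_inter, mem_sdiff]
    rw [m1, m2]
    constructor
    · rintro ⟨h1, h2, h3⟩
      obtain ⟨h4, h5⟩ := hBR h1 (BR_mono' hrR h2)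
      refine ⟨by rw [egr]; exact mem_inter.2 ⟨h4, h5⟩, h2, fun h6 => h3 ?_⟩
      exact mem_inter.2 ⟨mem_union_left _ h5, h6⟩
    · rintro ⟨h1, h2, h3⟩
      rw [egr] at h1
      exact ⟨mem_union_left _ (mem_inter.1 h1).1, h2, fun h4 => h3 (mem_inter.1 h4).2⟩
  have hB : BoxO X W T (Wl i) o S w (o e) ρ r := by
    refine ⟨hG.conn ρ hmρ hρR, fun l hl => ?_, ?_, inter_subset_right, hρr, hG.b1 r (by omega) hrR,
      hG.b2 r (by omega) hrR, fun l hl => ?_, fun hl => hG.root (BR_mono' hrR hl)⟩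
    · rcases mem_union.1 (mem_inter.1 hl).1 with h1 | h1
      · exact h.bE (h.bB (h.la i h1))
      · exact hTO.sub h1
    · rw [disjoint_left]
      intro l hl h2
      rcases mem_union.1 (mem_inter.1 hl).1 with h1 | h1
      · exact disjoint_left.1 h.la_W h1 h2
      · exact disjoint_left.1 hTO.disj h1 h2
    · rw [mem_inter] at hl
      exact hG.wsub (mem_inter.2 ⟨hl.1, BR_mono' hrR hl.2⟩)
  have hone : OneX Go S w ρ r t := by
    intro u v h1 h2 h3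
    rw [eζ] at h3 ⊢
    exact (hx.2.2 u v (near_iff.2 h1) (far_iff.2 h2) h3).symm
  have hd : Disjoint (ω' ∪ oth TT fm co i) B := by
    rw [disjoint_union_left]
    refine ⟨disjoint_left.2 fun l h1 h2 => (mem_sdiff.1 (hω' h1)).2 h2,
      disjoint_left.2 fun l h1 h2 => ?_⟩
    exact disjoint_left.1 h.bT (h.bB h2) (mem_oth.1 h1).1.1
  have hcap : (Go ∪ (W \ Wl i)) ∩ La i = η := by
    rw [egr]; exact h.capO hd
  have key := dto_loc (Cs := Cs) (a := a) (Λ := La i) (e0 := e) (t := t) h.pl hTO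
    (h.go_sub hω hω') hB (fun l hl => ?_) hone heT hxρ ?_ ?_ ?_
    (fun c hcs hl => hCs c hcs (BR_mono' hrR hl))
  · rw [key]
    have e1 : Go \ S = ω \ BR w ρ ∪ (ω' ∪ oth TT fm co i) := by
      ext l
      have m1 : l ∈ Go \ S ↔ l ∈ Go ∧ l ∉ S := mem_sdiff
      have m2 : l ∈ ω \ BR w ρ ∪ (ω' ∪ oth TT fm co i) ↔
          (l ∈ ω ∧ l ∉ BR w ρ) ∨ l ∈ ω' ∪ oth TT fm co i := by rw [mem_union, mem_sdiff]
      rw [m1, m2]
      constructor
      · rintro ⟨h1, h2⟩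
        rcases mem_union.1 h1 with h3 | h3
        · refine Or.inl ⟨h3, fun h4 => h2 (mem_inter.2 ⟨mem_union_left _ ?_, h4⟩)⟩
          exact (hBR h1 (BR_mono' hρR.le h4)).2
        · exact Or.inr h3
      · rintro (⟨h1, h2⟩ | h1)
        · exact ⟨mem_union_left _ h1, fun h3 => h2 (mem_inter.1 h3).2⟩
        · refine ⟨mem_union_right _ h1, fun h2 => ?_⟩
          have h3 := hBR (mem_union_right _ h1) (BR_mono' hρR.le (mem_inter.1 h2).2)
          exact disjoint_left.1 hd h1 (hω h3.1)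
    rw [e1]
  · obtain ⟨h1, h2⟩ := mem_inter.1 hl
    exact (hBR h1 (BR_mono' hrR h2)).2
  · -- a far vertex inside the box
    have hxr : |(b e).1 - w.1| < r ∧ |(b e).2 - w.2| < r := by
      rw [abs_lt, abs_lt]
      rw [inR_iff] at hinm
      omega
    obtain ⟨v', h1, h2⟩ := open_exit ht hxr hx.1
    refine ⟨v', far_iff.1 h1, h2.mono fun l hl => ?_⟩
    obtain ⟨h3, h4⟩ := mem_inter.1 hl
    rw [egr] at h3
    exact mem_inter.2 ⟨mem_union_left _ (mem_inter.1 h3).1, h4⟩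
  · -- the ties of the class
    intro e' he'
    rw [mem_clO, hcap] at he'
    have h1 := hcn _ ⟨e', he'.1, rfl⟩ he'.2
    refine mem_inter.2 ⟨mem_union_right _ he'.1, ?_⟩
    rw [← hTO.ends e' he'.1]
    exact tie_box hmρ (hTO.unit e' he'.1) h1
  · rw [hcap]
    intro h1
    apply hnt
    refine tch_of_co (fun z hz hl => ?_) hG.ne h1
    rw [egr] at hl
    exact hG.oe z hz (mem_inter.1 hl).2

/-- closed ties -/
theorem Multi.locC (h : Multi X W Bb B TT fm co Wl La b o)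
    (hi : co (fm e) = false)
    (hG : WallC X W Bb TT (TF TT fm (fm e)) (Wl (fm e)) (La (fm e)) b o e w m R)
    (hmρ : m < ρ) (hρr : ρ < r) (hrR : r ≤ R) (he : e ∈ TT) (hω : ω ⊆ B)
    (hx : Gx w ρ r (gr co La (fm e) ω ∩ (BR w r \ BR w ρ)) t)
    (ht : Co (gr co La (fm e) ω) (b e) t)
    (hcn : ∀ v, WV (TF TT fm (fm e)) b v → Co (gr co La (fm e) ω) (b e) v → inR w m v)
    (hnt : ¬ Tch (gr co La (fm e) ω) (du (Wl (fm e)) ∅) (b e))
    (hCs : ∀ c ∈ Cs, lab c ∉ BD w R) :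
    DM X Cs a Bb B TT fm co La b e ω =
      psiC X Cs a Bb B TT fm co (fm e) ((La (fm e) ∪ TF TT fm (fm e)) ∩ BD w ρ) (ω \ BD w ρ) := by
  classical
  have egr : gr co La (fm e) ω = du (La (fm e)) ω := by
    unfold gr; rw [if_neg (by rw [hi]; exact Bool.false_ne_true)]
  rw [h.DM_C hi]
  unfold psiC
  refine Ec_congr fun ω' hω' => ?_
  set i := fm e with hidef
  set T := TF TT fm i with hT
  set η := gr co La i ω with hη
  set Go := ω ∪ (ω' ∪ oth TT fm co i) with hGo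
  set S := (La i ∪ T) ∩ BD w ρ with hS
  have heT : e ∈ T := mem_TF.2 ⟨he, rfl⟩
  have hTC := h.tC i hi
  have hρR : ρ < R := by omega
  have hBR : ∀ {l : ℤ × ℤ}, l ∈ Go → l ∈ BD w R → l ∈ ω ∧ l ∈ La i := by
    intro l h1 h2
    have h3 := hG.inb l (h.go_in hω hω' h1) h2
    exact ⟨h.go_la hω' h1 h3, h3⟩
  have hinm : inR w m (b e) := hcn _ ⟨e, heT, rfl⟩ (Co.refl _ _)
  have hxρ : inR w ρ (b e) := by
    rw [inR_iff] at hinm ⊢; omega
  have hd : Disjoint (ω' ∪ oth TT fm co i) B := by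
    rw [disjoint_union_left]
    refine ⟨disjoint_left.2 fun l h1 h2 => (mem_sdiff.1 (hω' h1)).2 h2,
      disjoint_left.2 fun l h1 h2 => ?_⟩
    exact disjoint_left.1 h.bT (h.bB h2) (mem_oth.1 h1).1.1
  have hcap : du (La i) (Go ∪ W) = η := by
    rw [egr]; exact h.duC hd
  have memdu : ∀ {E w' : Finset (ℤ × ℤ)} {l : ℤ × ℤ}, l ∈ du E w' ↔
      l - (1, 1) ∈ E ∧ l - (1, 1) ∉ w' := by
    intro E w' l
    constructor
    · intro hl
      have h1 := of_mem_du (x := l) (y := 0) (by rw [add_zero]; exact hl)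
      rwa [add_zero] at h1
    · rintro ⟨h1, h2⟩
      have h3 := mem_du_of (a := l) (b := 0) (E := E) (w := w') (by rw [add_zero]; exact h1)
        (by rw [add_zero]; exact h2)
      rwa [add_zero] at h3
  have e11 : ∀ l : ℤ × ℤ, l - (1, 1) + (1, 1) = l := fun l => by
    refine Prod.ext ?_ ?_ <;> simp
  have eζ : du ((La i ∩ BD w r) \ S) (Go ∪ W) = η ∩ (BR w r \ BR w ρ) := by
    ext l
    rw [mem_inter, ← hcap, memdu, memdu, mem_sdiff, mem_inter, mem_sdiff, hS, mem_inter, mem_union,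
      mem_BD', mem_BD', e11]
    tauto
  have hB : BoxC X W T (Wl i) (La i) o S w (o e) ρ r := by
    refine ⟨hG.conn ρ hmρ hρR, fun l hl => ?_, ?_, inter_subset_right, hρr, hG.b1 r (by omega) hrR,
      hG.b2 r (by omega) hrR, (BD_mono hrR).trans hG.cov, fun hl => hG.root (BD_mono hrR hl)⟩
    · rcases mem_union.1 (mem_inter.1 hl).1 with h1 | h1
      · exact h.bE (h.bB (h.la i h1))
      · exact hTC.sub h1
    · rw [disjoint_left]
      intro l hl h2
      rcases mem_union.1 (mem_inter.1 hl).1 with h1 | h1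
      · exact disjoint_left.1 h.la_W h1 h2
      · exact disjoint_left.1 hTC.disj h1 h2
  have hone : OneXC (Go ∪ W) (La i) S w ρ r t := by
    intro u v h1 h2 h3
    rw [eζ] at h3 ⊢
    exact (hx.2.2 u v (near_iff.2 h1) (far_iff.2 h2) h3).symm
  have key := dtc_loc (Cs := Cs) (a := a) (Λ := La i) (e0 := e) (t := t) h.pl hTC
    (h.go_sub hω hω') hB hone heT hxρ ?_ ?_ ?_ (fun c hcs hl => hCs c hcs (BD_mono hrR hl))
  · rw [key]
    have e1 : Go \ S = ω \ BD w ρ ∪ (ω' ∪ oth TT fm co i) := by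
      ext l
      have m1 : l ∈ Go \ S ↔ l ∈ Go ∧ l ∉ S := mem_sdiff
      have m2 : l ∈ ω \ BD w ρ ∪ (ω' ∪ oth TT fm co i) ↔
          (l ∈ ω ∧ l ∉ BD w ρ) ∨ l ∈ ω' ∪ oth TT fm co i := by rw [mem_union, mem_sdiff]
      rw [m1, m2]
      constructor
      · rintro ⟨h1, h2⟩
        rcases mem_union.1 h1 with h3 | h3
        · refine Or.inl ⟨h3, fun h4 => h2 (mem_inter.2 ⟨mem_union_left _ ?_, h4⟩)⟩
          exact (hBR h1 (BD_mono hρR.le h4)).2
        · exact Or.inr h3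
      · rintro (⟨h1, h2⟩ | h1)
        · exact ⟨mem_union_left _ h1, fun h3 => h2 (mem_inter.1 h3).2⟩
        · refine ⟨mem_union_right _ h1, fun h2 => ?_⟩
          have h3 := hBR (mem_union_right _ h1) (BD_mono hρR.le (mem_inter.1 h2).2)
          exact disjoint_left.1 hd h1 (hω h3.1)
    rw [e1]
  · -- a far vertex inside the box
    have hxr : |(b e).1 - w.1| < r ∧ |(b e).2 - w.2| < r := by
      rw [abs_lt, abs_lt]
      rw [inR_iff] at hinm
      omega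
    obtain ⟨v', h1, h2⟩ := open_exit ht hxr hx.1
    refine ⟨v', far_iff.1 h1, h2.mono fun l hl => ?_⟩
    obtain ⟨h3, h4⟩ := mem_inter.1 hl
    rw [← hcap, memdu] at h3
    rw [memdu, mem_inter, mem_BD', e11]
    exact ⟨⟨h3.1, h4⟩, h3.2⟩
  · -- the ties of the class
    intro e' he'
    rw [mem_clC, hcap] at he'
    have h1 := hcn _ ⟨e', he'.1, rfl⟩ he'.2
    refine mem_inter.2 ⟨mem_union_right _ he'.1, ?_⟩
    rw [mem_BD', ← hTC.ends e' he'.1]
    exact tie_box hmρ (hTC.unit e' he'.1) h1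
  · rw [hcap]
    intro h1
    apply hnt
    refine tch_of_co (fun z hz hl => ?_) hG.ne h1
    rw [egr, memdu] at hl
    exact hG.oe z hz hl.1

end Pool.Agent.H39.Q1
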