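import Mathlib
import Pool.Agent.H39.Q1.AdmLoc

set_option autoImplicit false
open Finset

/-! # The averaged response is an admissible second factor (all orientations, both colours)

`gm ε` : sign changes of the coordinates. `lm c ε` : map of labels (`c = true` : open ties, labels
`l`; `c = false` : closed ties, labels `l + (1,1)`; then `gm ε`). `push c ε B ω` : the configuration
`ω` (open ties) or `B \ ω` (closed ties) in the new coordinates. -/

namespace Pool.Agent.H39.Q1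

open Pool.Agent.H75.Perc Pool.Agent.H75.TwoArm Pool.Agent.H75.Four Pool.Agent.H69.Q1
open Pool.Agent.Q1 Pool.Agent.H25.Q1.Add Pool.Agent.H99.NC Pool.Agent.H49.Perc
open Pool.Agent.H60.Q1
open Pool.Agent.H20.Q1 (Eh CS near_iff far_iff BR_ends BR_of_ends Gd AdmC Rch mem_AL' mem_HL')

variable {ι : Type*} [DecidableEq ι] {X : Env} {W Bb B TT Cs ω ω' θ P G : Finset (ℤ × ℤ)}
  {fm : ℤ × ℤ → ι} {co : ι → Bool} {Wl La : ι → Finset (ℤ × ℤ)}
  {b o : ℤ × ℤ → ℤ × ℤ} {a : ℤ × ℤ → ℂ} {e x w t l u v : ℤ × ℤ} {i : ι} {m ρ r R κ : ℤ}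
  {ε : Bool × Bool} {c : Bool}

/-! ### the locality, both colours -/

lemma mem_du' {E w' : Finset (ℤ × ℤ)} : l ∈ du E w' ↔ l - (1, 1) ∈ E ∧ l - (1, 1) ∉ w' := by
  constructor
  · intro hl
    have h1 := of_mem_du (x := l) (y := 0) (by rw [add_zero]; exact hl)
    rwa [add_zero] at h1
  · rintro ⟨h1, h2⟩
    have h3 := mem_du_of (a := l) (b := 0) (E := E) (w := w') (by rw [add_zero]; exact h1)
      (by rw [add_zero]; exact h2)
    rwa [add_zero] at h3

lemma sub_add_one (l : ℤ × ℤ) : l - (1, 1) + (1, 1) = l := by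
  refine Prod.ext ?_ ?_ <;> simp

lemma gr_out : gr co La i (ω \ bx (co i) w ρ) \ BR w ρ = gr co La i ω \ BR w ρ := by
  unfold gr bx
  rcases hco : co i with _ | _
  · rw [if_neg Bool.false_ne_true, if_neg Bool.false_ne_true, if_neg Bool.false_ne_true]
    ext l
    rw [mem_sdiff, mem_sdiff, mem_du', mem_du', mem_sdiff, mem_BD', sub_add_one]
    tauto
  · rw [if_pos rfl, if_pos rfl, if_pos rfl]
    ext l
    simp only [mem_sdiff, mem_inter]
    tauto

/-- **Locality of the response, both colours.** -/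
theorem Multi.loc (h : Multi X W Bb B TT fm co Wl La b o)
    (hc : ∀ c ∈ Cs, FarM X TT fm co Wl La b o c)
    (hG : WallG X W Bb TT fm co Wl La b o e w m R)
    (hmρ : m < ρ) (hρr : ρ < r) (hrR : r ≤ R) (he : e ∈ TT)
    (hCs : ∀ c ∈ Cs, lab c ∉ bx (co (fm e)) w R) :
    ∃ Ψ : Finset (ℤ × ℤ) → ℂ, ∀ ω, ω ⊆ B → ∀ t,
      Gx w ρ r (gr co La (fm e) ω ∩ (BR w r \ BR w ρ)) t →
      Co (gr co La (fm e) ω) (b e) t →
      (∀ v, WV (TF TT fm (fm e)) b v → Co (gr co La (fm e) ω) (b e) v → inR w m v) →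
      DM X Cs a Bb B TT fm co La b e ω = Ψ (ω \ bx (co (fm e)) w ρ) := by
  classical
  set i := fm e with hi
  set T := TF TT fm i with hT
  have heT : e ∈ T := mem_TF.2 ⟨he, rfl⟩
  set Wg := if co i = true then Wl i else du (Wl i) ∅ with hWg
  set psi := if co i = true then
      psiO X Cs a Bb B TT fm co i ((La i ∪ T) ∩ BR w ρ) else
      psiC X Cs a Bb B TT fm co i ((La i ∪ T) ∩ BD w ρ) with hpsi
  refine ⟨fun z => if ∃ t, Gx w ρ r (gr co La i z ∩ (BR w r \ BR w ρ)) t ∧
    ¬ Tch (gr co La i z \ BR w ρ) Wg t then psi z else 0, ?_⟩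
  intro ω hω t hx ht hcn
  set z := ω \ bx (co i) w ρ with hz
  have e1 : gr co La i z \ BR w ρ = gr co La i ω \ BR w ρ := gr_out
  have e2 : gr co La i z ∩ (BR w r \ BR w ρ) = gr co La i ω ∩ (BR w r \ BR w ρ) := by
    have h1 : ∀ η : Finset (ℤ × ℤ), η ∩ (BR w r \ BR w ρ) = (η \ BR w ρ) ∩ BR w r := by
      intro η; ext l; simp only [mem_inter, mem_sdiff]; tauto
    rw [h1, h1, e1]
  have hinm : inR w m (b e) := hcn _ ⟨e, heT, rfl⟩ (Co.refl _ _)
  have hxρ : inR w ρ (b e) := by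
    rw [inR_iff] at hinm ⊢; omega
  have hsep : ∀ y z, IsUnit4 (z - y) → y + z ∈ Wg → Co (gr co La i ω) (b e) y →
      ¬ inR w R y := by
    intro y z h1 h2 h3
    unfold WallG at hG
    rw [← hi] at hG
    rw [hWg] at h2
    unfold gr at h3
    rcases hco : co i with _ | _
    · rw [hco] at hG h2 h3
      rw [if_neg Bool.false_ne_true] at hG h2 h3
      exact hG.sep y z h1 (of_mem_du h2).1 (VC_of_co heT h3)
    · rw [hco] at hG h2 h3
      rw [if_pos rfl] at hG h2 h3
      exact hG.sep y z h1 h2 (VO_of_co heT h3)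
  have hiff := tch_iff (η := gr co La i ω) (Wg := Wg) hxρ hρr hrR hx ht hsep
  by_cases hT' : Tch (gr co La i ω) Wg (b e)
  · -- the class touches the wall elsewhere
    have h0 : DM X Cs a Bb B TT fm co La b e ω = 0 := by
      refine h.DM_free hc hω he ?_
      unfold fre
      rw [← hi]
      rw [hWg] at hT'
      unfold gr at hT'
      rcases hco : co i with _ | _
      · rw [hco] at hT'
        rw [if_neg Bool.false_ne_true, if_neg Bool.false_ne_true] at hT'
        rw [if_neg Bool.false_ne_true]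
        right
        rw [h.duC']
        refine co_of_tch (fun a b' h1 h2 => ?_) hT'
        exact (h.tC i hco).conn' a b' h1 (of_mem_du h2).1 e heT
      · rw [hco] at hT'
        rw [if_pos rfl, if_pos rfl] at hT'
        rw [if_pos rfl]
        right
        rw [h.capO']
        exact co_of_tch (fun a b' h1 h2 => (h.tO i hco).conn' a b' h1 h2 e heT) hT'
    rw [h0]
    simp only
    rw [if_neg]
    rintro ⟨t', h1, h2⟩
    rw [e2] at h1
    rw [e1] at h2
    apply h2
    obtain ⟨y, z', h3, h4, h5⟩ := hiff.1 hT'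
    refine ⟨y, z', h3, h4, ?_⟩
    have h6 := (Gx.unique h1 hx).mono (show gr co La i ω ∩ (BR w r \ BR w ρ) ⊆
      gr co La i ω \ BR w ρ from fun l hl => by
        obtain ⟨g1, g2⟩ := mem_inter.1 hl
        exact mem_sdiff.2 ⟨g1, (mem_sdiff.1 g2).2⟩)
    exact h6.trans h5
  · simp only
    rw [if_pos ⟨t, by rw [e2]; exact hx, by rw [e1]; exact fun h1 => hT' (hiff.2 h1)⟩]
    rw [hpsi]
    unfold WallG at hG
    rw [← hi] at hG
    rcases hco : co i with _ | _
    · rw [hco] at hG hCs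
      rw [if_neg Bool.false_ne_true] at hG ⊢
      have hb : ∀ c ∈ Cs, lab c ∉ BD w R := by
        unfold bx at hCs
        rw [if_neg Bool.false_ne_true] at hCs
        exact hCs
      rw [hWg, hco, if_neg Bool.false_ne_true] at hT'
      have := h.locC (Cs := Cs) (a := a) hco hG hmρ hρr hrR he hω hx ht hcn hT' hb
      rw [this, hz]
      unfold bx
      rw [hco, if_neg Bool.false_ne_true]
    · rw [hco] at hG hCs
      rw [if_pos rfl] at hG ⊢
      have hb : ∀ c ∈ Cs, lab c ∉ BR w R := by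
        unfold bx at hCs
        rw [if_pos rfl] at hCs
        exact hCs
      rw [hWg, hco, if_pos rfl] at hT'
      have := h.locO (Cs := Cs) (a := a) hco hG hmρ hρr hrR he hω hx ht hcn hT' hb
      rw [this, hz]
      unfold bx
      rw [hco, if_pos rfl]

/-! ### change of coordinates -/

/-- sign -/
def sgb (b : Bool) : ℤ := if b = true then -1 else 1

lemma sgb_sq (b : Bool) : sgb b * sgb b = 1 := by
  unfold sgb; split_ifs <;> norm_num

lemma sgb_cases (b : Bool) : sgb b = 1 ∨ sgb b = -1 := by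
  unfold sgb; split_ifs <;> simp

/-- sign changes of the coordinates -/
def gm (ε : Bool × Bool) (v : ℤ × ℤ) : ℤ × ℤ := (sgb ε.1 * v.1, sgb ε.2 * v.2)

lemma gm_gm (v : ℤ × ℤ) : gm ε (gm ε v) = v := by
  unfold gm
  refine Prod.ext ?_ ?_
  · simp only; rw [← mul_assoc, sgb_sq, one_mul]
  · simp only; rw [← mul_assoc, sgb_sq, one_mul]

lemma gm_add (u v : ℤ × ℤ) : gm ε (u + v) = gm ε u + gm ε v := by
  unfold gm
  refine Prod.ext ?_ ?_ <;> simp only [Prod.fst_add, Prod.snd_add, mul_add]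

lemma gm_inj : Function.Injective (gm ε) := fun u v h => by
  rw [← gm_gm (ε := ε) u, h, gm_gm]

/-- sign changes as an embedding -/
def gmE (ε : Bool × Bool) : (ℤ × ℤ) ↪ (ℤ × ℤ) := ⟨gm ε, gm_inj⟩

lemma gm_unit (h : IsUnit4 (v - u)) : IsUnit4 (gm ε v - gm ε u) := by
  have h1 := unit_cases h
  unfold IsUnit4 gm
  simp only [Prod.ext_iff, Prod.fst_sub, Prod.snd_sub]
  rcases sgb_cases ε.1 with h2 | h2 <;> rcases sgb_cases ε.2 with h3 | h3 <;> rw [h2, h3] <;> omega

lemma mem_gmE : l ∈ G.map (gmE ε) ↔ gm ε l ∈ G := by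
  rw [mem_map]
  constructor
  · rintro ⟨l', h1, rfl⟩
    show gm ε (gm ε l') ∈ G
    rw [gm_gm]; exact h1
  · intro h1
    exact ⟨gm ε l, h1, gm_gm l⟩

lemma Co_gm (h : Co G u v) : Co (G.map (gmE ε)) (gm ε u) (gm ε v) := by
  induction h with
  | refl => exact Co.refl _ _
  | @tail p q _ hpq ih =>
    refine ih.tail ⟨gm_unit hpq.1, ?_⟩
    rw [← gm_add, mem_gmE, gm_gm]
    exact hpq.2

lemma Co_gm' (h : Co (G.map (gmE ε)) u v) : Co G (gm ε u) (gm ε v) := by
  have h1 := Co_gm (ε := ε) h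
  have e1 : (G.map (gmE ε)).map (gmE ε) = G := by
    ext l
    rw [mem_gmE, mem_gmE, gm_gm]
  rwa [e1] at h1

lemma Co_gm_iff : Co (G.map (gmE ε)) u v ↔ Co G (gm ε u) (gm ε v) :=
  ⟨Co_gm', fun h => by
    have := Co_gm (ε := ε) h
    rwa [gm_gm, gm_gm] at this⟩

lemma inR_gm : inR (gm ε w) r (gm ε v) ↔ inR w r v := by
  rw [inR_iff, inR_iff]
  unfold gm
  simp only
  rcases sgb_cases ε.1 with h2 | h2 <;> rcases sgb_cases ε.2 with h3 | h3 <;> rw [h2, h3] <;> omega

lemma inR_gm' : inR (gm ε w) r v ↔ inR w r (gm ε v) := by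
  rw [← inR_gm (ε := ε) (v := gm ε v), gm_gm]

lemma Far_gm : Far (gm ε w) r v ↔ Far w r (gm ε v) := by
  rw [far_iff, far_iff, inR_gm']

lemma Near_gm : Near (gm ε w) r v ↔ Near w r (gm ε v) := by
  rw [near_iff, near_iff, inR_gm']

lemma mem_BR_gm : l ∈ BR (gm ε w) r ↔ gm ε l ∈ BR w r := by
  unfold BR
  rw [mem_Bx, mem_Bx]
  unfold gm
  simp only
  rcases sgb_cases ε.1 with h2 | h2 <;> rcases sgb_cases ε.2 with h3 | h3 <;> rw [h2, h3] <;> omega

/-- shift of the labels -/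
def tc (c : Bool) : ℤ × ℤ := if c = true then (0, 0) else (1, 1)

/-- map of labels -/
def lm (c : Bool) (ε : Bool × Bool) : (ℤ × ℤ) ↪ (ℤ × ℤ) where
  toFun l := gm ε (l + tc c)
  inj' := fun l l' h => by
    have h1 := gm_inj h
    exact add_right_cancel h1

lemma lm_apply (l : ℤ × ℤ) : lm c ε l = gm ε (l + tc c) := rfl

lemma mem_lm {E : Finset (ℤ × ℤ)} : l ∈ E.map (lm c ε) ↔ gm ε l - tc c ∈ E := by
  rw [mem_map]
  constructor
  · rintro ⟨l', h1, rfl⟩
    rw [lm_apply, gm_gm, add_sub_cancel_right]; exact h1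
  · intro h1
    refine ⟨gm ε l - tc c, h1, ?_⟩
    rw [lm_apply, sub_add_cancel, gm_gm]

lemma mem_bx : l ∈ bx c w r ↔ l + tc c ∈ BR w r := by
  unfold bx tc
  rcases c with _ | _
  · rw [if_neg Bool.false_ne_true, if_neg Bool.false_ne_true, mem_BD']
  · rw [if_pos rfl, if_pos rfl]
    have : l + (0, 0) = l := add_zero l
    rw [this]

/-- the configuration in the new coordinates -/
def push (c : Bool) (ε : Bool × Bool) (B ω : Finset (ℤ × ℤ)) : Finset (ℤ × ℤ) :=
  (if c = true then ω else B \ ω).map (lm c ε)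

/-- the configuration in the old coordinates -/
def pull (c : Bool) (ε : Bool × Bool) (B ω : Finset (ℤ × ℤ)) : Finset (ℤ × ℤ) :=
  B.filter fun l => (lm c ε l ∈ ω ↔ c = true)

lemma mem_push (hω : ω ⊆ B) : l ∈ push c ε B ω ↔
    gm ε l - tc c ∈ B ∧ (gm ε l - tc c ∈ ω ↔ c = true) := by
  unfold push
  rw [mem_lm]
  rcases c with _ | _
  · rw [if_neg Bool.false_ne_true, mem_sdiff]
    have : ¬ (false = true) := Bool.false_ne_true
    tauto
  · rw [if_pos rfl]
    have := @hω (gm ε l - tc true)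
    tauto

lemma mem_pull : l ∈ pull c ε B ω ↔ l ∈ B ∧ (lm c ε l ∈ ω ↔ c = true) := by
  unfold pull; rw [mem_filter]

lemma pull_push (hω : ω ⊆ B) : pull c ε B (push c ε B ω) = ω := by
  ext l
  rw [mem_pull, mem_push hω, lm_apply, gm_gm, add_sub_cancel_right]
  have := @hω l
  by_cases h1 : c = true <;> tauto

lemma pull_sub : pull c ε B ω ⊆ B := filter_subset _ _

lemma push_pull (hω : ω ⊆ B.map (lm c ε)) : push c ε B (pull c ε B ω) = ω := by
  ext l
  rw [mem_push pull_sub, mem_pull, lm_apply, sub_add_cancel, gm_gm]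
  have h1 : l ∈ ω → gm ε l - tc c ∈ B := fun h2 => mem_lm.1 (hω h2)
  by_cases h2 : c = true <;> tauto

lemma push_sub (hω : ω ⊆ B) : push c ε B ω ⊆ B.map (lm c ε) := fun l hl => by
  rw [mem_push hω] at hl
  exact mem_lm.2 hl.1

/-- the expectation in the new coordinates -/
theorem Eh_push (B : Finset (ℤ × ℤ)) (F : Finset (ℤ × ℤ) → ℂ) :
    Eh (B.map (lm c ε)) F = Eh B (fun ω => F (push c ε B ω)) := by
  have key : Eh (B.map (lm c ε)) F = Eh B (fun ω => F (ω.map (lm c ε))) := by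
    have h1 : ∀ (D : Finset (ℤ × ℤ)) (G : Finset (ℤ × ℤ) → ℂ),
        Ec (fun _ => (1 / 2 : ℂ)) (D.map (lm c ε)) G =
          Ec (fun _ => (1 / 2 : ℂ)) D (fun ω => G (ω.map (lm c ε))) := by
      intro D
      induction D using Finset.induction_on with
      | empty => intro G; simp
      | insert e E he ih =>
        intro G
        have h1 : lm c ε e ∉ E.map (lm c ε) := by
          rw [mem_map]
          rintro ⟨x, hx, hxe⟩
          rw [(lm c ε).injective hxe] at hx
          exact he hx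
        rw [map_insert, Ec_insert _ h1, Ec_insert _ he, ih, ih]
        simp only [map_insert]
    exact h1 B F
  rw [key]
  rcases c with _ | _
  · refine (Ec_compl _ B _).trans ?_
    have e1 : (fun e : ℤ × ℤ => (1 : ℂ) - (fun _ : ℤ × ℤ => (1 / 2 : ℂ)) e) =
        fun _ => (1 / 2 : ℂ) := by
      funext e; norm_num
    rw [e1]
    refine Ec_congr fun ω _ => ?_
    unfold push
    rw [if_neg Bool.false_ne_true]
  · refine Ec_congr fun ω _ => ?_
    unfold push
    rw [if_pos rfl]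

/-- the cluster labels in the new coordinates -/
lemma push_gr (hLB : La i ⊆ B) (hω : ω ⊆ B) :
    push (co i) ε B ω ∩ (La i).map (lm (co i) ε) = (gr co La i ω).map (gmE ε) := by
  ext l
  rw [mem_inter, mem_push hω, mem_lm, mem_gmE]
  unfold gr
  have h1 := @hLB (gm ε l - tc (co i))
  have h2 := @hω (gm ε l - tc (co i))
  rcases hco : co i with _ | _
  · rw [hco] at h1 h2
    rw [if_neg Bool.false_ne_true, mem_du']
    unfold tc at h1 h2 ⊢
    rw [if_neg Bool.false_ne_true] at h1 h2 ⊢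
    have : ¬ (false = true) := Bool.false_ne_true
    tauto
  · rw [hco] at h1 h2
    rw [if_pos rfl, mem_inter]
    unfold tc at h1 h2 ⊢
    rw [if_pos rfl] at h1 h2 ⊢
    have e0 : gm ε l - (0, 0) = gm ε l := sub_zero _
    rw [e0] at h1 h2 ⊢
    tauto

/-- the contact set in the new coordinates -/
lemma push_CS (hLB : La (fm e) ⊆ B) (hω : ω ⊆ B) :
    CS (fun v => WV (TF TT fm (fm e)) b (gm ε v))
      (push (co (fm e)) ε B ω ∩ (La (fm e)).map (lm (co (fm e)) ε)) (gm ε (b e)) =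
    {v | gm ε v ∈ SM TT fm co La b e ω} := by
  rw [push_gr hLB hω]
  ext v
  show (_ ∧ _) ↔ gm ε v ∈ SM TT fm co La b e ω
  unfold SM
  show (_ ∧ _) ↔ (_ ∧ _)
  rw [Co_gm_iff, gm_gm]

/-- **The averaged response is an admissible second factor.** -/
theorem Multi.admC (h : Multi X W Bb B TT fm co Wl La b o)
    (hc : ∀ c ∈ Cs, FarM X TT fm co Wl La b o c)
    (hG : WallG X W Bb TT fm co Wl La b o e w m R) (he : e ∈ TT)
    (hCs : ∀ c ∈ Cs, lab c ∉ bx (co (fm e)) w R)
    {M : ℝ} (hM : ∀ ω ⊆ B, ∀ P ⊆ TT, ‖VM X Cs a Bb B TT fm co ω P‖ ≤ M)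
    (habv : ∀ l ∈ B, l ∈ bx (co (fm e)) w R →
      2 * ht κ (gm ε w) ≤ ht κ (lm (co (fm e)) ε l)) :
    AdmC κ (gm ε w) (gm ε (b e)) m R ((La (fm e)).map (lm (co (fm e)) ε))
      (B.map (lm (co (fm e)) ε)) (fun v => WV (TF TT fm (fm e)) b (gm ε v)) (2 * M)
      (fun ω => DM X Cs a Bb B TT fm co La b e (pull (co (fm e)) ε B ω)) := by
  set c := co (fm e) with hcdef
  set L' := (La (fm e)).map (lm c ε) with hL'
  have hM0 : 0 ≤ M := (norm_nonneg _).trans (hM ∅ (empty_subset _) ∅ (empty_subset _))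
  have hgr : ∀ ω, ω ⊆ B.map (lm c ε) →
      ω ∩ L' = (gr co La (fm e) (pull c ε B ω)).map (gmE ε) := by
    intro ω hω
    rw [← push_gr (h.la _) pull_sub, ← hcdef, push_pull hω]
  refine ⟨by positivity, fun ω hω => ?_, fun ω hω hD => ?_, fun ρ r h1 h2 h3 => ?_⟩
  · unfold DM
    refine (norm_sub_le _ _).trans ?_
    have g1 := hM _ (pull_sub (c := c) (ε := ε) (ω := ω)) _
      (sdiff_subset (s := TT) (t := cls TT fm co La b (pull c ε B ω) e))
    have g2 := hM _ (pull_sub (c := c) (ε := ε) (ω := ω)) TT (Subset.refl _)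
    linarith
  · obtain ⟨v, g1, g2⟩ := h.far hc hG pull_sub he hD
    refine ⟨gm ε v, ?_, ?_⟩
    · rw [Far_gm, gm_gm]; exact g1
    · rw [hgr ω hω]
      exact Co_gm g2
  · obtain ⟨Ψ, hΨ⟩ := h.loc (a := a) hc hG h1 h2 h3 he hCs
    refine ⟨fun z => Ψ (pull c ε B z \ bx c w ρ), fun ω hω c0 hGd hco0 _ hcon => ?_⟩
    set ω0 := pull c ε B ω with hω0
    have hset : ω ∩ AL κ (gm ε w) ρ r =
        (gr co La (fm e) ω0 ∩ (BR w r \ BR w ρ)).map (gmE ε) := by
      ext l
      rw [mem_inter, mem_AL', mem_gmE, mem_inter, mem_sdiff, mem_BR_gm, mem_BR_gm]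
      have g0 : gm ε l ∈ gr co La (fm e) ω0 ↔ l ∈ ω ∩ L' := by
        rw [hgr ω hω, mem_gmE]
      rw [g0, mem_inter]
      constructor
      · rintro ⟨g1, g2, g3, -⟩
        refine ⟨⟨g1, ?_⟩, g2, g3⟩
        have g4 := mem_lm.1 (hω g1)
        rw [hL', mem_lm]
        have g5 : gm ε l - tc c ∈ bx c w R := by
          rw [mem_bx, sub_add_cancel]
          exact BR_mono' h3 g2
        have hG' := hG
        unfold WallG at hG'
        unfold bx at g5
        rcases hco : c with _ | _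
        · rw [hco] at g4 g5
          rw [← hcdef, hco] at hG'
          rw [if_neg Bool.false_ne_true] at g5 hG'
          exact hG'.inb _ (mem_union_left _ (h.bB g4)) g5
        · rw [hco] at g4 g5
          rw [← hcdef, hco] at hG'
          rw [if_pos rfl] at g5 hG'
          exact hG'.inb _ (mem_union_left _ (h.bB g4)) g5
      · rintro ⟨⟨g1, g2⟩, g3, g4⟩
        refine ⟨g1, g3, g4, ?_⟩
        have g5 := mem_lm.1 (hω g1)
        have g6 : gm ε l - tc c ∈ bx c w R := by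
          rw [mem_bx, sub_add_cancel]
          exact BR_mono' h3 g3
        have g7 := habv _ g5 g6
        rw [lm_apply, sub_add_cancel, gm_gm] at g7
        exact g7
    have hGx : Gx w ρ r (gr co La (fm e) ω0 ∩ (BR w r \ BR w ρ)) (gm ε c0) := by
      rw [hset] at hGd
      obtain ⟨g1, ⟨u, g2, g3⟩, -, g4⟩ := hGd
      refine ⟨Far_gm.1 g1, ⟨gm ε u, Near_gm.1 g2, Co_gm' g3⟩, fun u' v' g5 g6 g7 => ?_⟩
      have g8 := g4 (gm ε u') (gm ε v') (by rw [Near_gm, gm_gm]; exact g5)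
        (by rw [Far_gm, gm_gm]; exact g6) (Co_gm g7)
      have g9 := Co_gm' g8
      rwa [gm_gm] at g9
    have hcc : Co (gr co La (fm e) ω0) (b e) (gm ε c0) := by
      rw [hgr ω hω] at hco0
      have := Co_gm' hco0
      rwa [gm_gm] at this
    have hD := hΨ ω0 pull_sub (gm ε c0) hGx hcc fun v g1 g2 => by
      have g3 := hcon (gm ε v) (by rw [gm_gm]; exact g1) (by
        rw [hgr ω hω]
        exact Co_gm g2)
      exact inR_gm.1 g3
    simp only
    rw [hD]
    congr 1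
    ext l
    rw [mem_sdiff, mem_sdiff, hω0, mem_pull, mem_pull, mem_sdiff, mem_HL']
    by_cases hl : l ∈ bx c w ρ
    · clear * - hl
      tauto
    · have hl' : lm c ε l ∉ BR (gm ε w) ρ := by
        rw [mem_BR_gm, lm_apply, gm_gm, ← mem_bx]; exact hl
      clear * - hl hl'
      tauto

end Pool.Agent.H39.Q1
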