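import Mathlib
import Pool.Agent.H39.Q1.AdmX
import Pool.Agent.Q1.M6c.BoxTop

set_option autoImplicit false
open Finset

/-! # Flat walls with ties: the geometric hypotheses

`FlatL` : description of the labels in a box around a flat wall, in the coordinates in which the domain is
the half plane `v₁ + v₂ ≥ z₁ + z₂` (`z` : the centre). It implies `WallG` and the hypotheses `Env` of
the mixing theorem. -/

namespace Pool.Agent.H39.Q1

open Pool.Agent.H75.Perc Pool.Agent.H75.TwoArm Pool.Agent.H75.Four Pool.Agent.H69.Q1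
open Pool.Agent.Q1 Pool.Agent.H99.NC Pool.Agent.H49.Perc
open Pool.Agent.H60.Q1 Pool.Agent.Q1.M6c
open Pool.Agent.H20.Q1 (Eh CS near_iff far_iff BR_ends BR_of_ends Gd AdmC Rch mem_AL' mem_HL' Flat)
open Pool.Agent.Q1.Env (TConn TAdj)

/-- height of a label above the wall -/
def hg (z l : ℤ × ℤ) : ℤ := l.1 + l.2 - 2 * (z.1 + z.2)

lemma mem_BRz {z l : ℤ × ℤ} {r : ℤ} : l ∈ BR z r ↔
    (2 * (z.1 - r) ≤ l.1 ∧ l.1 ≤ 2 * (z.1 + r)) ∧ (2 * (z.2 - r) ≤ l.2 ∧ l.2 ≤ 2 * (z.2 + r)) ∧
      (l.1 + l.2) % 2 = 1 := by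
  unfold BR; rw [mem_Bx]

/-! ### connectivity of the tiles -/

/-- neighbouring tiles -/
def Dg (x y : ℤ × ℤ) : Prop := (y.1 = x.1 + 1 ∨ y.1 = x.1 - 1) ∧ (y.2 = x.2 + 1 ∨ y.2 = x.2 - 1)

section tiles

variable {S : ℤ × ℤ → Prop} {z δ : ℤ × ℤ} {ρ : ℤ}

lemma dg_symm {x y : ℤ × ℤ} (h : Dg x y) : Dg y x := by
  unfold Dg at h ⊢; omega

lemma path_symm {x y : ℤ × ℤ} (h : Relation.ReflTransGen (fun x y => Dg x y ∧ S x ∧ S y) x y) :
    Relation.ReflTransGen (fun x y => Dg x y ∧ S x ∧ S y) y x := by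
  induction h with
  | refl => exact Relation.ReflTransGen.refl
  | tail _ hab ih => exact Relation.ReflTransGen.head ⟨dg_symm hab.1, hab.2.2, hab.2.1⟩ ih

lemma half_path (hρ : 1 ≤ ρ)
    (hS : ∀ l, l ∈ BR z ρ → 1 ≤ hg z l → S l) (n : ℕ) :
    ∀ l : ℤ × ℤ, l ∈ BR z ρ → 1 ≤ hg z l →
      2 * (z.1 + ρ) - l.1 + (2 * (z.2 + ρ) - l.2) ≤ n →
      Relation.ReflTransGen (fun x y => Dg x y ∧ S x ∧ S y) l (2 * (z.1 + ρ), 2 * (z.2 + ρ) - 1) := by
  induction n using Nat.strong_induction_on with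
  | _ n ih =>
    intro l hl hh hn
    have hl' := mem_BRz.1 hl
    have hSl := hS l hl hh
    unfold hg at hh
    obtain ⟨l1, l2⟩ := l
    simp only at hl' hh hn
    by_cases ha : l1 < 2 * (z.1 + ρ)
    · by_cases hb : l2 < 2 * (z.2 + ρ)
      · have g1 : ((l1 + 1, l2 + 1) : ℤ × ℤ) ∈ BR z ρ := by
          rw [mem_BRz]; simp only; omega
        have g2 : 1 ≤ hg z (l1 + 1, l2 + 1) := by unfold hg; simp only; omega
        exact Relation.ReflTransGen.head ⟨⟨Or.inl rfl, Or.inl rfl⟩, hSl, hS _ g1 g2⟩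
          (ih (n - 2) (by omega) _ g1 g2 (by simp only; omega))
      · -- top side
        by_cases hc : l1 = 2 * (z.1 + ρ) - 1
        · have e : ((2 * (z.1 + ρ), 2 * (z.2 + ρ) - 1) : ℤ × ℤ) = (l1 + 1, l2 - 1) := by
            refine Prod.ext ?_ ?_ <;> simp only <;> omega
          rw [e]
          refine Relation.ReflTransGen.single ⟨⟨Or.inl rfl, Or.inr rfl⟩, hSl, hS _ ?_ ?_⟩
          · rw [mem_BRz]; simp only; omega
          · unfold hg; simp only; omega
        · have g1 : ((l1 + 1, l2 - 1) : ℤ × ℤ) ∈ BR z ρ := by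
            rw [mem_BRz]; simp only; omega
          have g2 : 1 ≤ hg z (l1 + 1, l2 - 1) := by unfold hg; simp only; omega
          have g3 : ((l1 + 2, l2) : ℤ × ℤ) ∈ BR z ρ := by
            rw [mem_BRz]; simp only; omega
          have g4 : 1 ≤ hg z (l1 + 2, l2) := by unfold hg; simp only; omega
          refine Relation.ReflTransGen.head ⟨⟨Or.inl rfl, Or.inr rfl⟩, hSl, hS _ g1 g2⟩ ?_
          refine Relation.ReflTransGen.head ⟨⟨Or.inl ?_, Or.inl ?_⟩, hS _ g1 g2, hS _ g3 g4⟩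
            (ih (n - 2) (by omega) _ g3 g4 (by simp only; omega))
          · show l1 + 2 = l1 + 1 + 1; omega
          · show l2 = l2 - 1 + 1; omega
    · -- right side
      by_cases hc : l2 = 2 * (z.2 + ρ) - 1
      · have e : ((2 * (z.1 + ρ), 2 * (z.2 + ρ) - 1) : ℤ × ℤ) = (l1, l2) := by
          refine Prod.ext ?_ ?_ <;> simp only <;> omega
        rw [e]
      · have g1 : ((l1 - 1, l2 + 1) : ℤ × ℤ) ∈ BR z ρ := by
          rw [mem_BRz]; simp only; omega
        have g2 : 1 ≤ hg z (l1 - 1, l2 + 1) := by unfold hg; simp only; omega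
        have g3 : ((l1, l2 + 2) : ℤ × ℤ) ∈ BR z ρ := by
          rw [mem_BRz]; simp only; omega
        have g4 : 1 ≤ hg z (l1, l2 + 2) := by unfold hg; simp only; omega
        refine Relation.ReflTransGen.head ⟨⟨Or.inr rfl, Or.inl rfl⟩, hSl, hS _ g1 g2⟩ ?_
        refine Relation.ReflTransGen.head ⟨⟨Or.inl ?_, Or.inl ?_⟩, hS _ g1 g2, hS _ g3 g4⟩
          (ih (n - 2) (by omega) _ g3 g4 (by simp only; omega))
        · show l1 = l1 - 1 + 1; omega
        · show l2 + 2 = l2 + 1 + 1; omega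

/-- the tiles above the wall and the ties are connected inside the box -/
lemma half_conn (hρ : 1 ≤ ρ) (hS : ∀ l, l ∈ BR z ρ → 1 ≤ hg z l → S l)
    (hS' : ∀ l, S l → l ∈ BR z ρ ∧ (1 ≤ hg z l ∨ hg z l = -1)) {x y : ℤ × ℤ} (hx : S x)
    (hy : S y) : Relation.ReflTransGen (fun x y => Dg x y ∧ S x ∧ S y) x y := by
  have key : ∀ x, S x → Relation.ReflTransGen (fun x y => Dg x y ∧ S x ∧ S y) x
      (2 * (z.1 + ρ), 2 * (z.2 + ρ) - 1) := by
    intro x hx
    obtain ⟨h1, h2⟩ := hS' x hx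
    rcases h2 with h2 | h2
    · exact half_path hρ hS (2 * (z.1 + ρ) - x.1 + (2 * (z.2 + ρ) - x.2)).toNat x h1 h2 (by omega)
    · have h1' := mem_BRz.1 h1
      unfold hg at h2
      have g1 : ((x.1 + 1, x.2 + 1) : ℤ × ℤ) ∈ BR z ρ := by
        rw [mem_BRz]; simp only; omega
      have g2 : 1 ≤ hg z (x.1 + 1, x.2 + 1) := by unfold hg; simp only; omega
      exact Relation.ReflTransGen.head ⟨⟨Or.inl rfl, Or.inl rfl⟩, hx, hS _ g1 g2⟩
        (half_path hρ hS (2 * (z.1 + ρ) - (x.1 + 1) + (2 * (z.2 + ρ) - (x.2 + 1))).toNat _ g1 g2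
          (by simp only; omega))
  exact (key x hx).trans (path_symm (key y hy))

end tiles

/-! ### connectivity of the wall -/

/-- the labels of the wall inside a box (graph labels) -/
noncomputable def Wst (c : Bool) (z : ℤ × ℤ) (r : ℤ) : Finset (ℤ × ℤ) :=
  (BR z r).filter fun l => if c = true then hg z l = -3 else hg z l ≤ -3

section wall

variable {z u v : ℤ × ℤ} {r : ℤ} {c : Bool}

lemma zig (n : ℕ) : ∀ x : ℤ, z.1 - r ≤ x → x ≤ z.1 + r - 1 → x - (z.1 - r) ≤ n →
    Co (Wst true z r) (x, z.1 + z.2 - 1 - x) (z.1 - r, z.2 + r - 1) := by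
  induction n with
  | zero =>
    intro x h1 h2 h3
    have e : ((x, z.1 + z.2 - 1 - x) : ℤ × ℤ) = (z.1 - r, z.2 + r - 1) := by
      refine Prod.ext ?_ ?_ <;> simp only <;> push_cast at h3 <;> omega
    rw [e]; exact Co.refl _ _
  | succ n ih =>
    intro x h1 h2 h3
    by_cases hx : x = z.1 - r
    · have e : ((x, z.1 + z.2 - 1 - x) : ℤ × ℤ) = (z.1 - r, z.2 + r - 1) := by
        refine Prod.ext ?_ ?_ <;> simp only <;> omega
      rw [e]; exact Co.refl _ _
    · have h4 := ih (x - 1) (by omega) (by omega) (by push_cast at h3; omega)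
      have s1 : Co (Wst true z r) (x, z.1 + z.2 - 1 - x) (x - 1, z.1 + z.2 - 1 - x) := by
        refine Relation.ReflTransGen.single ⟨?_, ?_⟩
        · unfold IsUnit4
          simp
        · unfold Wst
          rw [mem_filter, if_pos rfl, mem_BRz]
          unfold hg
          simp only [Prod.mk_add_mk]
          omega
      have s2 : Co (Wst true z r) (x - 1, z.1 + z.2 - 1 - x) (x - 1, z.1 + z.2 - 1 - (x - 1)) := by
        refine Relation.ReflTransGen.single ⟨?_, ?_⟩
        · unfold IsUnit4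
          simp only [Prod.mk_sub_mk, Prod.ext_iff]
          omega
        · unfold Wst
          rw [mem_filter, if_pos rfl, mem_BRz]
          unfold hg
          simp only [Prod.mk_add_mk]
          omega
      exact (s1.trans s2).trans h4

/-- reference vertex of the wall -/
def wref (c : Bool) (z : ℤ × ℤ) (r : ℤ) : ℤ × ℤ :=
  if c = true then (z.1 - r, z.2 + r - 1) else (z.1 - r, z.2 - r)

lemma co_wref1 (h1 : inR z r u) (h2 : u.1 + u.2 ≤ z.1 + z.2 - 1)
    (h3 : c = true → u.1 + u.2 = z.1 + z.2 - 1) : Co (Wst c z r) u (wref c z r) := by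
  rw [inR_iff] at h1
  unfold wref
  rcases c with _ | _
  · rw [if_neg Bool.false_ne_true]
    have s1 : Co (Wst false z r) (u.1, u.2) (z.1 - r, u.2) := by
      refine co_hor' fun k hk => ?_
      unfold Wst
      rw [mem_filter, if_neg Bool.false_ne_true, mem_BRz]
      unfold hg
      simp only
      omega
    have s2 : Co (Wst false z r) (z.1 - r, u.2) (z.1 - r, z.2 - r) := by
      refine co_ver' fun k hk => ?_
      unfold Wst
      rw [mem_filter, if_neg Bool.false_ne_true, mem_BRz]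
      unfold hg
      simp only
      omega
    exact s1.trans s2
  · rw [if_pos rfl]
    have h4 := h3 rfl
    have e : u = (u.1, z.1 + z.2 - 1 - u.1) := Prod.ext rfl (by simp only; omega)
    rw [e]
    exact zig (u.1 - (z.1 - r)).toNat u.1 (by omega) (by omega) (by omega)

/-- the wall is connected inside the box -/
lemma co_wref (hu : IsUnit4 (v - u)) (h : u + v ∈ Wst c z r) : Co (Wst c z r) u (wref c z r) := by
  have h0 := h
  unfold Wst at h
  rw [mem_filter] at h
  obtain ⟨h1, h2⟩ := h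
  obtain ⟨h3, h4⟩ := BR_ends hu h1
  have h5 := unit_cases hu
  have h6 := mem_BRz.1 h1
  unfold hg at h2
  simp only [Prod.fst_add, Prod.snd_add] at h2 h6
  by_cases h7 : u.1 + u.2 = z.1 + z.2 - 1
  · exact co_wref1 h3 (by omega) fun _ => h7
  · rcases c with _ | _
    · rw [if_neg Bool.false_ne_true] at h2
      refine co_wref1 h3 (by omega) fun h8 => absurd h8 Bool.false_ne_true
    · rw [if_pos rfl] at h2
      have h8 : v.1 + v.2 = z.1 + z.2 - 1 := by omega
      have s1 : Co (Wst true z r) u v := Relation.ReflTransGen.single ⟨hu, h0⟩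
      exact s1.trans (co_wref1 h4 (by omega) fun _ => h8)

/-- a wall which is closed under steps towards the ties is connected inside the box -/
lemma co_fill {F : Finset (ℤ × ℤ)} (hF1 : F ⊆ BR z r) (hF2 : ∀ l ∈ BR z r, hg z l = -3 → l ∈ F)
    (hF3 : ∀ l ∈ F, hg z l ≤ -3) (hF4 : ∀ l ∈ F, hg z l ≤ -5 → l + (1, 1) ∈ F) (n : ℕ) :
    ∀ u v : ℤ × ℤ, IsUnit4 (v - u) → u + v ∈ F → -3 - hg z (u + v) ≤ n →
      Co F u (wref true z r) := by
  have hsub : Wst true z r ⊆ F := by
    intro l hl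
    unfold Wst at hl
    rw [mem_filter, if_pos rfl] at hl
    exact hF2 l hl.1 hl.2
  induction n using Nat.strong_induction_on with
  | _ n ih =>
    intro u v hu h hn
    have h3 := hF3 _ h
    have hpar := (mem_BRz.1 (hF1 h)).2.2
    by_cases h5 : hg z (u + v) ≤ -5
    · have h6 := hF4 _ h h5
      have hc := unit_cases hu
      have s0 : Co F u v := Relation.ReflTransGen.single ⟨hu, h⟩
      have hh : hg z (u + v + (1, 1)) = hg z (u + v) + 2 := by
        unfold hg
        simp only [Prod.fst_add, Prod.snd_add]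
        ring
      have key : ∀ a b : ℤ × ℤ, IsUnit4 (b - a) → a + b = u + v + (1, 1) →
          Co F a (wref true z r) := by
        intro a b h7 h8
        refine ih (n - 1) (by omega) a b h7 (by rw [h8]; exact h6) ?_
        rw [h8, hh]
        omega
      obtain ⟨u1, u2⟩ := u
      obtain ⟨v1, v2⟩ := v
      simp only at hc
      rcases hc with ⟨c1, c2⟩ | ⟨c1, c2⟩ | ⟨c1, c2⟩ | ⟨c1, c2⟩
      all_goals first
        | exact key (u1, u2) (u1 + 1, u2) (by unfold IsUnit4; simp)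
            (Prod.ext (by simp only [Prod.mk_add_mk]; omega) (by simp only [Prod.mk_add_mk]; omega))
        | exact key (u1, u2) (u1, u2 + 1) (by unfold IsUnit4; simp)
            (Prod.ext (by simp only [Prod.mk_add_mk]; omega) (by simp only [Prod.mk_add_mk]; omega))
        | exact s0.trans (key (v1, v2) (v1 + 1, v2) (by unfold IsUnit4; simp)
            (Prod.ext (by simp only [Prod.mk_add_mk]; omega) (by simp only [Prod.mk_add_mk]; omega)))
        | exact s0.trans (key (v1, v2) (v1, v2 + 1) (by unfold IsUnit4; simp)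
            (Prod.ext (by simp only [Prod.mk_add_mk]; omega) (by simp only [Prod.mk_add_mk]; omega)))
    · refine (co_wref (c := true) hu ?_).mono hsub
      unfold Wst
      rw [mem_filter, if_pos rfl]
      refine ⟨hF1 h, ?_⟩
      unfold hg at h3 h5 ⊢
      omega

end wall

/-! ### description of the labels near a flat wall -/

variable {ι : Type*} [DecidableEq ι] {X : Env} {W Bb B TT T Wi L : Finset (ℤ × ℤ)}
  {b o : ℤ × ℤ → ℤ × ℤ} {e w l u v : ℤ × ℤ} {m ρ r R : ℤ} {δ : ℤ × ℤ}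
  {ε : Bool × Bool} {c : Bool}

/-- The labels in the box of radius `R` around `w`, in the coordinates `lm c ε`. `T` : the ties of the
family, `Wi` its wall, `L` its layer, `Bb` the bulk, `TT` all ties. The wall contains the first line below the
ties and is closed under steps towards the ties; if it is closed it contains everything below the ties. -/
structure FlatL (W Bb TT T Wi L : Finset (ℤ × ℤ)) (b o : ℤ × ℤ → ℤ × ℤ) (c : Bool)
    (ε : Bool × Bool) (δ w : ℤ × ℤ) (R : ℤ) : Prop where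
  hδ : δ = (1, 0) ∨ δ = (0, 1)
  la : ∀ l, lm c ε l ∈ BR (gm ε w) R → (l ∈ L ↔ 1 ≤ hg (gm ε w) (lm c ε l))
  xe : ∀ l ∈ Bb ∪ (TT \ T), lm c ε l ∈ BR (gm ε w) R → 1 ≤ hg (gm ε w) (lm c ε l)
  tie : ∀ l, lm c ε l ∈ BR (gm ε w) R →
    (l ∈ T ↔ hg (gm ε w) (lm c ε l) = -1 ∧ (lm c ε l + δ).1 % 2 = 0)
  ends : ∀ l ∈ T, lm c ε l ∈ BR (gm ε w) R →
    gm ε (o l) = gm ε (b l) - δ ∧ o l + b l = l + tc c
  wl : ∀ l, lm c ε l ∈ BR (gm ε w) R →
    (l ∈ Wi → hg (gm ε w) (lm c ε l) ≤ -3) ∧ (hg (gm ε w) (lm c ε l) = -3 → l ∈ Wi)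
  wf : c = false → ∀ l, lm c ε l ∈ BR (gm ε w) R → hg (gm ε w) (lm c ε l) ≤ -3 → l ∈ Wi
  wu : ∀ l ∈ Wi, lm c ε l ∈ BR (gm ε w) R → hg (gm ε w) (lm c ε l) ≤ -5 →
    gm ε (lm c ε l + (1, 1)) - tc c ∈ Wi
  w : ∀ l, lm c ε l ∈ BR (gm ε w) R →
    if c = true then (l ∈ W → l ∈ Wi) else (hg (gm ε w) (lm c ε l) = -1 → l ∉ T → l ∈ W)

namespace FlatL

lemma hgodd {z l : ℤ × ℤ} {r : ℤ} (h : l ∈ BR z r) : hg z l % 2 = 1 := by
  have := mem_BRz.1 h
  unfold hg; omega

/-- walls of one line (open) or filled walls (closed) -/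
theorem of_line (hδ : δ = (1, 0) ∨ δ = (0, 1))
    (la : ∀ l, lm c ε l ∈ BR (gm ε w) R → (l ∈ L ↔ 1 ≤ hg (gm ε w) (lm c ε l)))
    (xe : ∀ l ∈ Bb ∪ (TT \ T), lm c ε l ∈ BR (gm ε w) R → 1 ≤ hg (gm ε w) (lm c ε l))
    (tie : ∀ l, lm c ε l ∈ BR (gm ε w) R →
      (l ∈ T ↔ hg (gm ε w) (lm c ε l) = -1 ∧ (lm c ε l + δ).1 % 2 = 0))
    (ends : ∀ l ∈ T, lm c ε l ∈ BR (gm ε w) R →
      gm ε (o l) = gm ε (b l) - δ ∧ o l + b l = l + tc c)
    (wl : ∀ l, lm c ε l ∈ BR (gm ε w) R →
      (l ∈ Wi ↔ if c = true then hg (gm ε w) (lm c ε l) = -3 else hg (gm ε w) (lm c ε l) ≤ -3))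
    (hw : ∀ l, lm c ε l ∈ BR (gm ε w) R →
      if c = true then (l ∈ W → l ∈ Wi) else (hg (gm ε w) (lm c ε l) = -1 → l ∉ T → l ∈ W)) :
    FlatL W Bb TT T Wi L b o c ε δ w R where
  hδ := hδ
  la := la
  xe := xe
  tie := tie
  ends := ends
  wl := by
    intro l hl
    have h1 := wl l hl
    cases c
    · rw [if_neg Bool.false_ne_true] at h1
      exact ⟨h1.1, fun h => h1.2 h.le⟩
    · rw [if_pos rfl] at h1
      exact ⟨fun h => (h1.1 h).le, h1.2⟩
  wf := by
    rintro rfl l hl h2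
    have h1 := wl l hl
    rw [if_neg Bool.false_ne_true] at h1
    exact h1.2 h2
  wu := by
    intro l hlW hl h5
    have h1 := (wl l hl).1 hlW
    cases c
    · rw [if_neg Bool.false_ne_true] at h1
      have hlm : lm false ε (gm ε (lm false ε l + (1, 1)) - tc false) = lm false ε l + (1, 1) := by
        rw [lm_apply, sub_add_cancel, gm_gm]
      have hbox : lm false ε l + (1, 1) ∈ BR (gm ε w) R := by
        rw [mem_BRz] at hl ⊢
        unfold hg at h5
        simp only [Prod.fst_add, Prod.snd_add]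
        omega
      have h2 := wl (gm ε (lm false ε l + (1, 1)) - tc false) (by rw [hlm]; exact hbox)
      rw [if_neg Bool.false_ne_true, hlm] at h2
      refine h2.2 ?_
      unfold hg at h5 ⊢
      simp only [Prod.fst_add, Prod.snd_add]
      omega
    · rw [if_pos rfl] at h1
      omega
  w := hw

variable (hF : FlatL W Bb TT T Wi L b o c ε δ w R)

include hF

/-- the ends of a tie -/
lemma tie_ends (h1 : l ∈ T) (h2 : lm c ε l ∈ BR (gm ε w) R) :
    ((gm ε (b l)).1 + (gm ε (b l)).2 = (gm ε w).1 + (gm ε w).2 ∧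
      lm c ε l + δ = gm ε (b l) + gm ε (b l)) ∧
    gm ε (o l) = gm ε (b l) - δ := by
  obtain ⟨h3, h4⟩ := hF.ends l h1 h2
  have h5 : lm c ε l = gm ε (o l) + gm ε (b l) := by
    rw [lm_apply, ← h4, gm_add]
  obtain ⟨h6, -⟩ := (hF.tie l h2).1 h1
  have h7 : lm c ε l + δ = gm ε (b l) + gm ε (b l) := by
    rw [h5, h3]
    abel
  refine ⟨⟨?_, h7⟩, h3⟩
  unfold hg at h6
  have h8 := congrArg Prod.fst h7
  have h9 := congrArg Prod.snd h7
  simp only [Prod.fst_add, Prod.snd_add] at h8 h9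
  rcases hF.hδ with h | h <;> rw [h] at h8 h9 <;> simp only at h8 h9 <;> omega

/-- a wall vertex is the inner end of a tie -/
lemma tie_of (hv : inR (gm ε w) (R - 1) v) (hs : v.1 + v.2 = (gm ε w).1 + (gm ε w).2) :
    ∃ e ∈ T, gm ε (b e) = v ∧ lm c ε e ∈ BR (gm ε w) R := by
  set e := gm ε (v + v - δ) - tc c with he
  have h1 : lm c ε e = v + v - δ := by
    rw [lm_apply, he, sub_add_cancel, gm_gm]
  have h2 : lm c ε e ∈ BR (gm ε w) R := by
    rw [h1, mem_BRz]
    rw [inR_iff] at hv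
    rcases hF.hδ with h | h <;> rw [h] <;>
      simp only [Prod.fst_sub, Prod.snd_sub, Prod.fst_add, Prod.snd_add] <;> omega
  have h3 : e ∈ T := by
    rw [hF.tie e h2, h1]
    unfold hg
    rcases hF.hδ with h | h <;> rw [h] <;>
      simp only [Prod.fst_sub, Prod.snd_sub, Prod.fst_add, Prod.snd_add] <;> omega
  refine ⟨e, h3, ?_, h2⟩
  have h4 := (hF.tie_ends h3 h2).1.2
  rw [h1, sub_add_cancel] at h4
  have h5 := congrArg Prod.fst h4
  have h6 := congrArg Prod.snd h4
  simp only [Prod.fst_add, Prod.snd_add] at h5 h6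
  exact (Prod.ext (by omega) (by omega)).symm

/-- vertices of the layer are above the wall -/
lemma ver_above {y : ℤ × ℤ} (hy : inR (gm ε w) (R - 1) (gm ε y))
    (h : (∃ e ∈ T, b e = y ∧ IsUnit4 (b e - o e) ∧ o e + b e = e + tc c) ∨
      ∃ z, IsUnit4 (z - y) ∧ y + z - tc c ∈ L) :
    (gm ε w).1 + (gm ε w).2 ≤ (gm ε y).1 + (gm ε y).2 := by
  rw [inR_iff] at hy
  rcases h with ⟨e, h1, h2, h3, h4⟩ | ⟨z, h1, h2⟩
  · have h5 := unit_cases (gm_unit (ε := ε) h3)
    rw [h2] at h5 h4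
    have h6 : lm c ε e ∈ BR (gm ε w) R := by
      rw [lm_apply, ← h4, gm_add]
      refine BR_of_ends (gm_unit (ε := ε) (by rw [← h2]; exact h3)) ?_ ?_
      · rw [inR_iff]; omega
      · rw [inR_iff]; omega
    have h7 := (hF.tie_ends h1 h6).1.1
    rw [h2] at h7
    exact h7.ge
  · have h5 := unit_cases (gm_unit (ε := ε) h1)
    have h6 : lm c ε (y + z - tc c) ∈ BR (gm ε w) R := by
      rw [lm_apply, sub_add_cancel, gm_add]
      refine BR_of_ends (gm_unit (ε := ε) h1) ?_ ?_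
      · rw [inR_iff]; omega
      · rw [inR_iff]; omega
    have h7 := (hF.la _ h6).1 h2
    rw [lm_apply, sub_add_cancel, gm_add] at h7
    unfold hg at h7
    simp only [Prod.fst_add, Prod.snd_add] at h7
    omega

lemma tconn (hρ : 1 ≤ ρ) (hρR : ρ ≤ R) : TConn ((L ∪ T) ∩ bx c w ρ) := by
  set z := gm ε w with hz
  set S : ℤ × ℤ → Prop := fun l => gm ε l - tc c ∈ L ∪ T ∧ l ∈ BR z ρ with hS
  have hlm : ∀ l, lm c ε (gm ε l - tc c) = l := fun l => by
    rw [lm_apply, sub_add_cancel, gm_gm]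
  have hmono : ∀ l, l ∈ BR z ρ → l ∈ BR z R := fun l hl => BR_mono' hρR hl
  have h1 : ∀ l, l ∈ BR z ρ → 1 ≤ hg z l → S l := by
    intro l hl hh
    refine ⟨mem_union_left _ ?_, hl⟩
    rw [hF.la _ (by rw [hlm]; exact hmono l hl), hlm]
    exact hh
  have h2 : ∀ l, S l → l ∈ BR z ρ ∧ (1 ≤ hg z l ∨ hg z l = -1) := by
    rintro l ⟨h3, h4⟩
    refine ⟨h4, ?_⟩
    have h5 : lm c ε (gm ε l - tc c) ∈ BR z R := by rw [hlm]; exact hmono l h4
    rcases mem_union.1 h3 with h6 | h6
    · left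
      have := (hF.la _ h5).1 h6
      rwa [hlm] at this
    · right
      have := ((hF.tie _ h5).1 h6).1
      rwa [hlm] at this
  intro x hx y hy
  have hin : ∀ x, x ∈ (L ∪ T) ∩ bx c w ρ → S (lm c ε x) := by
    intro x hx
    obtain ⟨h3, h4⟩ := mem_inter.1 hx
    refine ⟨?_, ?_⟩
    · rw [lm_apply, gm_gm, add_sub_cancel_right]; exact h3
    · rw [hz, mem_BR_gm, lm_apply, gm_gm, ← mem_bx]; exact h4
  have key := half_conn hρ h1 h2 (hin x hx) (hin y hy)
  have back : ∀ p q : ℤ × ℤ, Relation.ReflTransGen (fun x y => Dg x y ∧ S x ∧ S y) p q →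
      Relation.ReflTransGen (fun x y => TAdj x y ∧ y ∈ (L ∪ T) ∩ bx c w ρ)
        (gm ε p - tc c) (gm ε q - tc c) := by
    intro p q h
    induction h with
    | refl => exact Relation.ReflTransGen.refl
    | @tail p' q' _ hab ih =>
      refine ih.tail ⟨?_, ?_⟩
      · have h3 := hab.1
        have h4 := (mem_BRz.1 hab.2.1.2).2.2
        unfold Dg at h3
        have h5 : ((gm ε p' - tc c).1 + (gm ε p' - tc c).2) % 2 = 1 := by
          unfold gm tc
          rcases sgb_cases ε.1 with g1 | g1 <;> rcases sgb_cases ε.2 with g2 | g2 <;>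
            rw [g1, g2] <;> split_ifs <;> simp only [Prod.fst_sub, Prod.snd_sub] <;> omega
        have h6 : ((gm ε q' - tc c).1 = (gm ε p' - tc c).1 + 1 ∨
            (gm ε q' - tc c).1 = (gm ε p' - tc c).1 - 1) ∧
            ((gm ε q' - tc c).2 = (gm ε p' - tc c).2 + 1 ∨
            (gm ε q' - tc c).2 = (gm ε p' - tc c).2 - 1) := by
          unfold gm
          rcases sgb_cases ε.1 with g1 | g1 <;> rcases sgb_cases ε.2 with g2 | g2 <;>
            rw [g1, g2] <;> simp only [Prod.fst_sub, Prod.snd_sub] <;> omega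
        generalize gm ε p' - tc c = P at h5 h6 ⊢
        generalize gm ε q' - tc c = Q at h6 ⊢
        obtain ⟨P1, P2⟩ := P
        obtain ⟨Q1, Q2⟩ := Q
        simp only at h5 h6
        obtain ⟨h7 | h7, h8 | h8⟩ := h6 <;> subst h7 <;> subst h8
        · exact tadj_pp h5
        · exact tadj_pm h5
        · exact tadj_mp h5
        · exact tadj_mm h5
      · obtain ⟨h3, h4⟩ := hab.2.2
        refine mem_inter.2 ⟨h3, ?_⟩
        rw [mem_bx, sub_add_cancel, ← mem_BR_gm]; exact h4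
  have := back _ _ key
  have e1 : ∀ x : ℤ × ℤ, gm ε (lm c ε x) - tc c = x := fun x => by
    rw [lm_apply, gm_gm, add_sub_cancel_right]
  rwa [e1, e1] at this

omit hF in
/-- the graph labels of the wall in the box -/
lemma mem_WF : l ∈ (if c = true then Wi ∩ BR w r else du (Wi ∩ BD w r) ∅).map (gmE ε) ↔
    l ∈ BR (gm ε w) r ∧ gm ε l - tc c ∈ Wi := by
  rw [mem_gmE]
  have hbr : l ∈ BR (gm ε w) r ↔ gm ε l ∈ BR w r := mem_BR_gm
  rcases c with _ | _
  · unfold tc
    rw [if_neg Bool.false_ne_true, if_neg Bool.false_ne_true, mem_du', mem_inter, mem_BD', sub_add_one]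
    have : gm ε l - (1, 1) ∉ (∅ : Finset (ℤ × ℤ)) := notMem_empty _
    tauto
  · unfold tc
    rw [if_pos rfl, if_pos rfl]
    have e0 : gm ε l - (0, 0) = gm ε l := sub_zero _
    rw [e0, mem_inter]
    tauto

lemma wall_co (hr : r ≤ R) (hu : IsUnit4 (v - u))
    (h : u + v ∈ (if c = true then Wi ∩ BR w r else du (Wi ∩ BD w r) ∅)) :
    Co (if c = true then Wi ∩ BR w r else du (Wi ∩ BD w r) ∅) u
      (gm ε (wref true (gm ε w) r)) := by
  set F := (if c = true then Wi ∩ BR w r else du (Wi ∩ BD w r) ∅).map (gmE ε) with hFd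
  have hlm : ∀ l, lm c ε (gm ε l - tc c) = l := fun l => by
    rw [lm_apply, sub_add_cancel, gm_gm]
  have hbox : ∀ l, l ∈ BR (gm ε w) r → lm c ε (gm ε l - tc c) ∈ BR (gm ε w) R := fun l hl => by
    rw [hlm]; exact BR_mono' hr hl
  have h1 : gm ε u + gm ε v ∈ F := by
    rw [hFd, ← gm_add, mem_gmE, gm_gm]; exact h
  have f1 : F ⊆ BR (gm ε w) r := fun l hl => (mem_WF.1 hl).1
  have f2 : ∀ l ∈ BR (gm ε w) r, hg (gm ε w) l = -3 → l ∈ F := fun l hl h3 =>
    mem_WF.2 ⟨hl, (hF.wl _ (hbox l hl)).2 (by rw [hlm]; exact h3)⟩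
  have f3 : ∀ l ∈ F, hg (gm ε w) l ≤ -3 := fun l hl => by
    obtain ⟨h3, h4⟩ := mem_WF.1 hl
    have := (hF.wl _ (hbox l h3)).1 h4
    rwa [hlm] at this
  have f4 : ∀ l ∈ F, hg (gm ε w) l ≤ -5 → l + (1, 1) ∈ F := fun l hl h5 => by
    obtain ⟨h3, h4⟩ := mem_WF.1 hl
    refine mem_WF.2 ⟨?_, ?_⟩
    · rw [mem_BRz] at h3 ⊢
      unfold hg at h5
      simp only [Prod.fst_add, Prod.snd_add]
      omega
    · have := hF.wu _ h4 (hbox l h3) (by rw [hlm]; exact h5)
      rwa [hlm] at this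
  have h2 := co_fill f1 f2 f3 f4 (-3 - hg (gm ε w) (gm ε u + gm ε v)).toNat _ _
    (gm_unit (ε := ε) hu) h1 (by
      have := f3 _ h1
      rw [Int.toNat_of_nonneg (by omega)])
  have h3 := Co_gm' h2
  rwa [gm_gm] at h3

/-- the outer end of a tie is on the wall -/
lemma tie_co (hr : r ≤ R) (h1 : e ∈ T) (h2 : lm c ε e ∈ BR (gm ε w) r) :
    Co (if c = true then Wi ∩ BR w r else du (Wi ∩ BD w r) ∅) (o e)
      (gm ε (wref true (gm ε w) r)) := by
  have h2' : lm c ε e ∈ BR (gm ε w) R := BR_mono' hr h2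
  obtain ⟨⟨h3, -⟩, h4⟩ := hF.tie_ends h1 h2'
  have h5 := (hF.ends e h1 h2').2
  have h6 : lm c ε e = gm ε (o e) + gm ε (b e) := by rw [lm_apply, ← h5, gm_add]
  have hunit : IsUnit4 (gm ε (b e) - gm ε (o e)) := by
    rw [h4]
    rcases hF.hδ with h | h <;> rw [h] <;> unfold IsUnit4 <;> simp
  have h7 : inR (gm ε w) r (gm ε (o e)) := by
    rw [h6] at h2
    exact (BR_ends hunit h2).1
  have h8 : (gm ε (o e)).1 + (gm ε (o e)).2 = (gm ε w).1 + (gm ε w).2 - 1 := by
    rw [h4]
    rcases hF.hδ with h | h <;> rw [h] <;> simp only [Prod.fst_sub, Prod.snd_sub] <;> omega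
  have h9 := co_wref1 (c := true) h7 h8.le fun _ => h8
  have hsub : Wst true (gm ε w) r ⊆
      (if c = true then Wi ∩ BR w r else du (Wi ∩ BD w r) ∅).map (gmE ε) := by
    intro l hl
    unfold Wst at hl
    rw [mem_filter, if_pos rfl] at hl
    have hlm : lm c ε (gm ε l - tc c) = l := by rw [lm_apply, sub_add_cancel, gm_gm]
    exact mem_WF.2 ⟨hl.1, (hF.wl _ (by rw [hlm]; exact BR_mono' hr hl.1)).2
      (by rw [hlm]; exact hl.2)⟩
  have h10 := Co_gm' (h9.mono hsub)
  rwa [gm_gm] at h10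

/-- heights of the ends of a wall label -/
lemma wall_low {y z : ℤ × ℤ} (hz : IsUnit4 (z - y)) (h : y + z - tc c ∈ Wi)
    (hb : inR (gm ε w) (R - 1) (gm ε y)) :
    (gm ε y).1 + (gm ε y).2 ≤ (gm ε w).1 + (gm ε w).2 - 1 := by
  have h5 := unit_cases (gm_unit (ε := ε) hz)
  rw [inR_iff] at hb
  have h6 : lm c ε (y + z - tc c) ∈ BR (gm ε w) R := by
    rw [lm_apply, sub_add_cancel, gm_add]
    refine BR_of_ends (gm_unit (ε := ε) hz) ?_ ?_
    · rw [inR_iff]; omega
    · rw [inR_iff]; omega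
  have h7 := (hF.wl _ h6).1 h
  rw [lm_apply, sub_add_cancel, gm_add] at h7
  unfold hg at h7
  simp only [Prod.fst_add, Prod.snd_add] at h7
  omega

end FlatL

variable {fm : ℤ × ℤ → ι} {co : ι → Bool} {Wl La : ι → Finset (ℤ × ℤ)}

/-- **The geometric hypotheses follow from the description of the labels.** -/
theorem wallG_of_flat (hM : Multi X W Bb B TT fm co Wl La b o) (he : e ∈ TT)
    (hF : FlatL W Bb TT (TF TT fm (fm e)) (Wl (fm e)) (La (fm e)) b o (co (fm e)) ε δ w (R + 1))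
    (hm : 0 ≤ m) (hmR : m + 1 < R) (hb : inR w m (b e))
    (hroot : lab X.c0 ∉ bx (co (fm e)) w R) :
    WallG X W Bb TT fm co Wl La b o e w m R := by
  set i := fm e with hi
  set T := TF TT fm i with hT
  have heT : e ∈ T := mem_TF.2 ⟨he, rfl⟩
  have hbox : ∀ {l : ℤ × ℤ} {r : ℤ}, r ≤ R → l ∈ bx (co i) w r →
      lm (co i) ε l ∈ BR (gm ε w) (R + 1) := by
    intro l r hr hl
    rw [mem_BR_gm, lm_apply, gm_gm]
    rw [mem_bx] at hl
    exact BR_mono' (by omega) hl
  have hbox' : ∀ {l : ℤ × ℤ} {r : ℤ}, l ∈ bx (co i) w r →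
      lm (co i) ε l ∈ BR (gm ε w) r := by
    intro l r hl
    rw [mem_BR_gm, lm_apply, gm_gm]
    rwa [mem_bx] at hl
  -- the tie `e` is in the box of radius `r > m`
  have hebox : ∀ r, m < r → lm (co i) ε e ∈ BR (gm ε w) r := by
    intro r hr
    have hsum : o e + b e = e + tc (co i) ∧ IsUnit4 (b e - o e) := by
      rcases hco : co i with _ | _
      · refine ⟨?_, (hM.tC i hco).unit e heT⟩
        unfold tc; rw [if_neg Bool.false_ne_true]
        exact (hM.tC i hco).ends e heT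
      · refine ⟨?_, (hM.tO i hco).unit e heT⟩
        unfold tc; rw [if_pos rfl]
        have : e + (0, 0) = e := add_zero e
        rw [this]
        exact (hM.tO i hco).ends e heT
    rw [lm_apply, ← hsum.1, mem_BR_gm, gm_gm]
    exact tie_box hr hsum.2 hb
  unfold WallG
  rw [← hi, ← hT]
  rcases hco : co i with _ | _
  · -- closed
    rw [if_neg Bool.false_ne_true]
    rw [hco] at hF hroot hbox hbox' hebox
    unfold bx at hroot hbox hbox'
    rw [if_neg Bool.false_ne_true] at hroot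
    have hb1 : ∀ {l : ℤ × ℤ} {r : ℤ}, r ≤ R → l ∈ BD w r →
        lm false ε l ∈ BR (gm ε w) (R + 1) := fun hr hl =>
      hbox hr (by rw [if_neg Bool.false_ne_true]; exact hl)
    have hb2 : ∀ {l : ℤ × ℤ} {r : ℤ}, l ∈ BD w r → lm false ε l ∈ BR (gm ε w) r := fun hl =>
      hbox' (by rw [if_neg Bool.false_ne_true]; exact hl)
    have hTC := hM.tC i hco
    have hwc : ∀ r, r ≤ R → ∀ u v : ℤ × ℤ, IsUnit4 (v - u) → u + v ∈ du (Wl i ∩ BD w r) ∅ →
        Co (du (Wl i ∩ BD w r) ∅) u (gm ε (wref true (gm ε w) r)) := by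
      intro r hr u v h1 h2
      have := hF.wall_co (r := r) (by omega) h1 (by rw [if_neg Bool.false_ne_true]; exact h2)
      rwa [if_neg Bool.false_ne_true] at this
    have htc : ∀ r, r ≤ R → ∀ e' ∈ T, lm false ε e' ∈ BR (gm ε w) r →
        Co (du (Wl i ∩ BD w r) ∅) (o e') (gm ε (wref true (gm ε w) r)) := by
      intro r hr e' h1 h2
      have := hF.tie_co (r := r) (by omega) h1 h2
      rwa [if_neg Bool.false_ne_true] at this
    refine ⟨fun l hl hlb => ?_, hroot, fun l hl => ?_, fun ρ h1 h2 => ?_,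
      fun r h1 h2 u v h3 h4 => ?_, fun r h1 h2 e' h3 h4 => ?_, fun y z h1 h2 h3 h4 => ?_,
      fun z h1 h2 => ?_, ?_⟩
    · exact (hF.la l (hb1 le_rfl hlb)).2 (hF.xe l hl (hb1 le_rfl hlb))
    · have h1 := hb1 le_rfl hl
      have h2 := FlatL.hgodd h1
      rw [mem_union, mem_union, mem_union]
      by_cases h3 : 1 ≤ hg (gm ε w) (lm false ε l)
      · exact Or.inl (Or.inl (Or.inl ((hF.la l h1).2 h3)))
      · by_cases h4 : hg (gm ε w) (lm false ε l) = -1
        · by_cases h5 : l ∈ T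
          · exact Or.inl (Or.inl (Or.inr h5))
          · right
            have := hF.w l h1
            rw [if_neg Bool.false_ne_true] at this
            exact this h4 h5
        · exact Or.inl (Or.inr (hF.wf rfl l h1 (by omega)))
    · have := hF.tconn (ρ := ρ) (by omega) (by omega)
      unfold bx at this
      rwa [if_neg Bool.false_ne_true] at this
    · have h5 := hwc r h2 u v h3 (mem_du_of h4 (notMem_empty _))
      exact h5.trans (htc r h2 e heT (hebox r h1)).symm
    · exact (htc r h2 e' h3 (hb2 h4)).trans (htc r h2 e heT (hebox r h1)).symm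
    · have h5 : inR (gm ε w) (R + 1 - 1) (gm ε y) := by
        rw [inR_gm]
        have : R + 1 - 1 = R := by ring
        rw [this]; exact h4
      have h6 := hF.wall_low h1 (by unfold tc; rw [if_neg Bool.false_ne_true]; exact h2) h5
      have h7 := hF.ver_above h5 (by
        unfold tc
        rw [if_neg Bool.false_ne_true]
        rcases h3 with ⟨e', g1, g2⟩ | ⟨z', g1, g2⟩
        · exact Or.inl ⟨e', g1, g2, hTC.unit e' g1, hTC.ends e' g1⟩
        · exact Or.inr ⟨z', g1, g2⟩)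
      omega
    · -- the outer end of `e`
      have h5 := hebox R (by omega)
      have h5' : lm false ε e ∈ BR (gm ε w) (R + 1) := BR_mono' (by omega) h5
      obtain ⟨⟨h6, -⟩, h7⟩ := hF.tie_ends heT h5'
      have h8 : (gm ε (o e)).1 + (gm ε (o e)).2 = (gm ε w).1 + (gm ε w).2 - 1 := by
        rw [h7]
        rcases hF.hδ with h | h <;> rw [h] <;> simp only [Prod.fst_sub, Prod.snd_sub] <;> omega
      have h9 : inR (gm ε w) (R + 1 - 1) (gm ε (o e)) := by
        rw [h7]
        have h10 : inR (gm ε w) m (gm ε (b e)) := inR_gm.2 hb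
        rw [inR_iff] at h10 ⊢
        rcases hF.hδ with h | h <;> rw [h] <;> simp only [Prod.fst_sub, Prod.snd_sub] <;> omega
      have h10 := hF.ver_above h9 (Or.inr ⟨z, h1, by
        unfold tc; rw [if_neg Bool.false_ne_true]; exact h2⟩)
      omega
    · intro h1
      have := unit_cases (hTC.unit e heT)
      rw [h1] at this
      omega
  · -- open
    rw [if_pos rfl]
    rw [hco] at hF hroot hbox hbox' hebox
    unfold bx at hroot hbox hbox'
    rw [if_pos rfl] at hroot
    have hb1 : ∀ {l : ℤ × ℤ} {r : ℤ}, r ≤ R → l ∈ BR w r →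
        lm true ε l ∈ BR (gm ε w) (R + 1) := fun hr hl =>
      hbox hr (by rw [if_pos rfl]; exact hl)
    have hb2 : ∀ {l : ℤ × ℤ} {r : ℤ}, l ∈ BR w r → lm true ε l ∈ BR (gm ε w) r := fun hl =>
      hbox' (by rw [if_pos rfl]; exact hl)
    have hTO := hM.tO i hco
    have tc0 : ∀ x : ℤ × ℤ, x - tc true = x := fun x => by
      unfold tc; rw [if_pos rfl]; exact sub_zero x
    have tc1 : ∀ x : ℤ × ℤ, x + tc true = x := fun x => by
      unfold tc; rw [if_pos rfl]; exact add_zero x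
    have hwc : ∀ r, r ≤ R → ∀ u v : ℤ × ℤ, IsUnit4 (v - u) → u + v ∈ Wl i ∩ BR w r →
        Co (Wl i ∩ BR w r) u (gm ε (wref true (gm ε w) r)) := by
      intro r hr u v h1 h2
      have := hF.wall_co (r := r) (by omega) h1 (by rw [if_pos rfl]; exact h2)
      rwa [if_pos rfl] at this
    have htc : ∀ r, r ≤ R → ∀ e' ∈ T, lm true ε e' ∈ BR (gm ε w) r →
        Co (Wl i ∩ BR w r) (o e') (gm ε (wref true (gm ε w) r)) := by
      intro r hr e' h1 h2
      have := hF.tie_co (r := r) (by omega) h1 h2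
      rwa [if_pos rfl] at this
    refine ⟨fun l hl hlb => ?_, hroot, fun l hl => ?_, fun ρ h1 h2 => ?_,
      fun r h1 h2 u v h3 h4 => ?_, fun r h1 h2 e' h3 h4 => ?_, fun y z h1 h2 h3 h4 => ?_,
      fun z h1 h2 => ?_, ?_⟩
    · exact (hF.la l (hb1 le_rfl hlb)).2 (hF.xe l hl (hb1 le_rfl hlb))
    · obtain ⟨h1, h2⟩ := mem_inter.1 hl
      have := hF.w l (hb1 le_rfl h2)
      rw [if_pos rfl] at this
      exact this h1
    · have := hF.tconn (ρ := ρ) (by omega) (by omega)
      unfold bx at this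
      rwa [if_pos rfl] at this
    · exact (hwc r h2 u v h3 h4).trans (htc r h2 e heT (hebox r h1)).symm
    · exact (htc r h2 e' h3 (hb2 h4)).trans (htc r h2 e heT (hebox r h1)).symm
    · have h5 : inR (gm ε w) (R + 1 - 1) (gm ε y) := by
        rw [inR_gm]
        have : R + 1 - 1 = R := by ring
        rw [this]; exact h4
      have h6 := hF.wall_low h1 (by rw [tc0]; exact h2) h5
      have h7 := hF.ver_above h5 (by
        rcases h3 with ⟨e', g1, g2⟩ | ⟨z', g1, g2⟩
        · exact Or.inl ⟨e', g1, g2, hTO.unit e' g1, by rw [tc1]; exact hTO.ends e' g1⟩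
        · exact Or.inr ⟨z', g1, by rw [tc0]; exact g2⟩)
      omega
    · have h5 := hebox R (by omega)
      have h5' : lm true ε e ∈ BR (gm ε w) (R + 1) := BR_mono' (by omega) h5
      obtain ⟨⟨h6, -⟩, h7⟩ := hF.tie_ends heT h5'
      have h8 : (gm ε (o e)).1 + (gm ε (o e)).2 = (gm ε w).1 + (gm ε w).2 - 1 := by
        rw [h7]
        rcases hF.hδ with h | h <;> rw [h] <;> simp only [Prod.fst_sub, Prod.snd_sub] <;> omega
      have h9 : inR (gm ε w) (R + 1 - 1) (gm ε (o e)) := by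
        rw [h7]
        have h10 : inR (gm ε w) m (gm ε (b e)) := inR_gm.2 hb
        rw [inR_iff] at h10 ⊢
        rcases hF.hδ with h | h <;> rw [h] <;> simp only [Prod.fst_sub, Prod.snd_sub] <;> omega
      have h10 := hF.ver_above h9 (Or.inr ⟨z, h1, by rw [tc0]; exact h2⟩)
      omega
    · intro h1
      have := unit_cases (hTO.unit e heT)
      rw [h1] at this
      omega

/-- **The hypotheses of the mixing theorem.** -/
theorem env_of_flat (hM : Multi X W Bb B TT fm co Wl La b o) {i : ι}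
    (hF : FlatL W Bb TT (TF TT fm i) (Wl i) (La i) b o (co i) ε δ w (R + 1)) :
    Pool.Agent.H20.Q1.Env 1 (gm ε w) R ((La i).map (lm (co i) ε))
      (fun v => WV (TF TT fm i) b (gm ε v)) where
  sub := fun l hl => by
    obtain ⟨h1, h2⟩ := mem_HL'.1 hl
    rw [mem_lm]
    have hlm : lm (co i) ε (gm ε l - tc (co i)) = l := by
      rw [lm_apply, sub_add_cancel, gm_gm]
    have h3 : l ∈ BR (gm ε w) (R + 1) := BR_mono' (by omega) h1
    rw [hF.la _ (by rw [hlm]; exact h3), hlm]
    have h4 := FlatL.hgodd h3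
    unfold ht at h2
    unfold hg at h4 ⊢
    simp only [one_mul] at h2
    omega
  abv := fun l hl hb => by
    rw [mem_lm] at hl
    have hlm : lm (co i) ε (gm ε l - tc (co i)) = l := by
      rw [lm_apply, sub_add_cancel, gm_gm]
    have h3 : l ∈ BR (gm ε w) (R + 1) := BR_mono' (by omega) hb
    rw [hF.la _ (by rw [hlm]; exact h3), hlm] at hl
    unfold ht
    unfold hg at hl
    simp only [one_mul]
    omega
  flat := fun v hv hh => by
    unfold ht at hh ⊢
    simp only [one_mul] at hh ⊢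
    constructor
    · rintro ⟨e', h1, h2⟩
      have hv' : inR (gm ε w) (R + 1 - 1) v := by
        have : R + 1 - 1 = R := by ring
        rw [this]; exact hv
      have hends : o e' + b e' = e' + tc (co i) ∧ IsUnit4 (b e' - o e') := by
        rcases hco : co i with _ | _
        · refine ⟨?_, (hM.tC i hco).unit e' h1⟩
          unfold tc; rw [if_neg Bool.false_ne_true]
          exact (hM.tC i hco).ends e' h1
        · refine ⟨?_, (hM.tO i hco).unit e' h1⟩
          unfold tc; rw [if_pos rfl]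
          have : e' + (0, 0) = e' := add_zero e'
          rw [this]
          exact (hM.tO i hco).ends e' h1
      have h3 : lm (co i) ε e' ∈ BR (gm ε w) (R + 1) := by
        rw [lm_apply, ← hends.1, mem_BR_gm, gm_gm]
        refine tie_box (m := R) (by omega) hends.2 ?_
        rw [h2, ← inR_gm', ]
        exact hv
      have h4 := (hF.tie_ends h1 h3).1.1
      rw [h2, gm_gm] at h4
      omega
    · intro h1
      have hv' : inR (gm ε w) (R + 1 - 1) v := by
        have : R + 1 - 1 = R := by ring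
        rw [this]; exact hv
      obtain ⟨e', h2, h3, -⟩ := hF.tie_of hv' (by omega)
      refine ⟨e', h2, ?_⟩
      rw [← h3, gm_gm]

end Pool.Agent.H39.Q1
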