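import Mathlib
import Pool.Agent.H25.Q1.Add

set_option autoImplicit false
open Finset

/-! # Chains of classes

The classes which touch both walls at a corner with two colours form a chain: if one of them is tied, all
smaller ones have no influence. For weights in a Stolz angle (`‖1 - φ‖ ≤ K (1 - ‖φ‖)`) the complex mean
over a chain is at most `K M`; the first order expansion keeps its form. -/

namespace Pool.Agent.H39.Q1

open Pool.Agent.H25.Q1.Add

section chain

variable {ι : Type*} [DecidableEq ι] {E : Type*} [NormedAddCommGroup E] [NormedSpace ℂ E]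
  {φ : ι → ℂ} {s : Finset ι} {rk : ι → ℤ} {F : Finset ι → E} {M K : ℝ}

lemma cE_const (φ : ι → ℂ) (s : Finset ι) (c : E) : cE φ s (fun _ => c) = c := by
  unfold cE
  rw [← sum_smul, sum_cw, one_smul]

lemma cE_congr' {φ : ι → ℂ} {s : Finset ι} {F F' : Finset ι → E} (hF : ∀ A ⊆ s, F A = F' A) :
    cE φ s F = cE φ s F' := by
  unfold cE
  exact sum_congr rfl fun A hA => by rw [hF A (mem_powerset.1 hA)]

/-- products of weights in a Stolz angle -/
lemma stolz_prod {α : Type*} [DecidableEq α] {a : α → ℂ} {k : Finset α}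
    (h1 : ∀ e ∈ k, ‖a e‖ ≤ 1) (h : ∀ e ∈ k, ‖1 - a e‖ ≤ K * (1 - ‖a e‖)) :
    ‖∏ e ∈ k, a e‖ ≤ 1 ∧ ‖1 - ∏ e ∈ k, a e‖ ≤ K * (1 - ‖∏ e ∈ k, a e‖) := by
  induction k using Finset.induction_on with
  | empty => simp
  | insert x k hx ih =>
    obtain ⟨i1, i2⟩ := ih (fun e he => h1 e (mem_insert_of_mem he))
      (fun e he => h e (mem_insert_of_mem he))
    have g1 := h1 x (mem_insert_self _ _)
    have g2 := h x (mem_insert_self _ _)
    rw [prod_insert hx, norm_mul]
    have n1 := norm_nonneg (a x)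
    have n2 := norm_nonneg (∏ e ∈ k, a e)
    refine ⟨by nlinarith, ?_⟩
    have e1 : 1 - a x * ∏ e ∈ k, a e = (1 - a x) + a x * (1 - ∏ e ∈ k, a e) := by ring
    rw [e1]
    refine (norm_add_le _ _).trans ?_
    rw [norm_mul]
    have : ‖a x‖ * ‖1 - ∏ e ∈ k, a e‖ ≤ ‖a x‖ * (K * (1 - ‖∏ e ∈ k, a e‖)) :=
      mul_le_mul_of_nonneg_left i2 n1
    nlinarith

/-- a tied class hides all smaller ones -/
lemma hide {s : Finset ι} {j : ι} (hj : j ∉ s) (hrk : ∀ i ∈ s, rk i ≤ rk j) {F : Finset ι → E}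
    (sh : ∀ A ⊆ s, ∀ i ∈ s, i ∉ A → rk i ≤ rk j → F (insert i A) = F A) :
    ∀ A ⊆ s, F A = F ∅ := by
  intro A
  induction A using Finset.induction_on with
  | empty => intro _; rfl
  | insert a A ha ih =>
    intro hA
    have h1 : A ⊆ s := (subset_insert _ _).trans hA
    have h2 : a ∈ s := hA (mem_insert_self _ _)
    rw [sh A h1 a h2 ha (hrk a h2), ih h1]

/-- **The complex mean over a chain is bounded.** -/
theorem chain_bound (hK : 1 ≤ K) (h1 : ∀ i ∈ s, ‖φ i‖ ≤ 1)
    (h2 : ∀ i ∈ s, ‖1 - φ i‖ ≤ K * (1 - ‖φ i‖)) (hF : ∀ A ⊆ s, ‖F A‖ ≤ M)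
    (sh : ∀ A ⊆ s, ∀ i ∈ s, ∀ j ∈ s, i ∉ A → j ∉ A → i ≠ j → rk i ≤ rk j →
      F (insert i A) = F A) : ‖cE φ s F‖ ≤ K * M := by
  have hM : 0 ≤ M := (norm_nonneg _).trans (hF ∅ (empty_subset _))
  induction s using Finset.induction_on_max_value (f := rk) generalizing F with
  | empty =>
    have e1 : cE φ ∅ F = F ∅ := by simp [cE, cw]
    rw [e1]
    have := hF ∅ (empty_subset _)
    nlinarith
  | insert a s ha hmax ih =>
    rw [cE_insert ha]
    have hc : cE φ s F = F ∅ := by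
      have h3 : ∀ A ⊆ s, F A = F ∅ := by
        refine hide (rk := rk) ha hmax fun A hA i hi hiA hr => ?_
        exact sh A (hA.trans (subset_insert _ _)) i (mem_insert_of_mem hi) a (mem_insert_self _ _)
          hiA (fun h => ha (hA h)) (fun h => ha (h ▸ hi)) hr
      rw [cE_congr' h3, cE_const]
    have hb : ‖cE φ s (fun A => F (insert a A))‖ ≤ K * M := by
      refine ih (fun i hi => h1 i (mem_insert_of_mem hi)) (fun i hi => h2 i (mem_insert_of_mem hi))
        (fun A hA => hF _ (insert_subset_insert a hA)) ?_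
      intro A hA i hi j hj hiA hjA hne hr
      rw [Finset.insert_comm]
      refine sh (insert a A) (insert_subset_insert a hA) i (mem_insert_of_mem hi) j
        (mem_insert_of_mem hj) ?_ ?_ hne hr
      · rw [mem_insert, not_or]; exact ⟨fun h => ha (h ▸ hi), hiA⟩
      · rw [mem_insert, not_or]; exact ⟨fun h => ha (h ▸ hj), hjA⟩
    rw [hc]
    refine (norm_add_le _ _).trans ?_
    rw [norm_smul, norm_smul]
    have g1 := h1 a (mem_insert_self _ _)
    have g2 := h2 a (mem_insert_self _ _)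
    have g3 := hF ∅ (empty_subset _)
    have n1 := norm_nonneg (φ a)
    have n2 := norm_nonneg (1 - φ a)
    have t1 : ‖1 - φ a‖ * ‖F ∅‖ ≤ K * (1 - ‖φ a‖) * M :=
      mul_le_mul g2 g3 (norm_nonneg _) (n2.trans g2)
    have t2 : ‖φ a‖ * ‖cE φ s fun A => F (insert a A)‖ ≤ ‖φ a‖ * (K * M) :=
      mul_le_mul_of_nonneg_left hb n1
    nlinarith

/-- the largest elements -/
def tops (rk : ι → ℤ) (C : Finset ι) : Finset ι := C.filter fun n => ∀ i ∈ C, rk i ≤ rk n

lemma mem_tops {C : Finset ι} {n : ι} : n ∈ tops rk C ↔ n ∈ C ∧ ∀ i ∈ C, rk i ≤ rk n := by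
  unfold tops; rw [mem_filter]

lemma tops_nonempty {C : Finset ι} (h : C.Nonempty) : (tops rk C).Nonempty := by
  obtain ⟨n, h1, h2⟩ := Finset.exists_max_image C rk h
  exact ⟨n, mem_tops.2 ⟨h1, h2⟩⟩

end chain

section first

variable {ι : Type*} [DecidableEq ι] {φ : ι → ℂ} {rk : ι → ℤ} {F : Finset ι → ℂ} {M K : ℝ}

lemma cE_union {φ : ι → ℂ} {s t : Finset ι} (hd : Disjoint s t) (F : Finset ι → ℂ) :
    cE φ (s ∪ t) F = cE φ s (fun A => cE φ t (fun B => F (A ∪ B))) := by
  induction s using Finset.induction_on generalizing F with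
  | empty => simp [cE, cw]
  | insert a s ha ih =>
    have hd' : Disjoint s t := hd.mono_left (subset_insert _ _)
    have hat : a ∉ s ∪ t := by
      rw [mem_union, not_or]
      exact ⟨ha, fun h => disjoint_left.1 hd (mem_insert_self _ _) h⟩
    rw [insert_union, cE_insert hat, cE_insert ha, ih hd', ih hd']
    congr 2
    refine cE_congr' fun A _ => cE_congr' fun B _ => ?_
    rw [insert_union]

/-- the error of the first order expansion with a chain `C` -/
noncomputable def chErr (φ : ι → ℂ) (rk : ι → ℤ) (J C : Finset ι) (M K : ℝ) : ℝ :=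
  K * M * ∑ A ∈ ((J \ C) ∪ tops rk C).powerset with 2 ≤ A.card, ∏ i ∈ A, (2 * ‖φ i‖) +
    (K + 1) * M * ∑ n ∈ tops rk C, ∑ m ∈ tops rk (C.erase n), ‖φ n‖ * ‖φ m‖

/-- **First order expansion with a chain.** -/
theorem first_chain {J C : Finset ι} (hC : C ⊆ J) (hK : 1 ≤ K) (h1 : ∀ i ∈ C, ‖φ i‖ ≤ 1)
    (h2 : ∀ i ∈ C, ‖1 - φ i‖ ≤ K * (1 - ‖φ i‖)) (hF : ∀ A ⊆ J, ‖F A‖ ≤ M)
    (sh : ∀ A ⊆ J, ∀ i ∈ C, ∀ j ∈ C, i ∉ A → j ∉ A → i ≠ j → rk i ≤ rk j →
      F (insert i A) = F A) :
    ‖cE φ J F - F ∅ - ∑ i ∈ J, φ i * (F {i} - F ∅)‖ ≤ chErr φ rk J C M K := by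
  have hM : 0 ≤ M := (norm_nonneg _).trans (hF ∅ (empty_subset _))
  have hnn : 0 ≤ ∑ n ∈ tops rk C, ∑ m ∈ tops rk (C.erase n), ‖φ n‖ * ‖φ m‖ :=
    sum_nonneg fun n _ => sum_nonneg fun m _ => by positivity
  rcases C.eq_empty_or_nonempty with hCe | hCne
  · subst hCe
    have e1 : (tops rk (∅ : Finset ι)) = ∅ := by unfold tops; simp
    have h3 := first_order (φ := φ) hF
    simp only [smul_eq_mul] at h3
    refine h3.trans ?_
    unfold chErr
    rw [e1, sdiff_empty, union_empty, sum_empty, mul_zero, add_zero]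
    have h4 : 0 ≤ ∑ A ∈ J.powerset with 2 ≤ A.card, ∏ i ∈ A, (2 * ‖φ i‖) :=
      sum_nonneg fun A _ => prod_nonneg fun i _ => by positivity
    refine mul_le_mul_of_nonneg_right ?_ h4
    nlinarith
  obtain ⟨n, hn⟩ := tops_nonempty (rk := rk) hCne
  obtain ⟨hnC, hnmax⟩ := mem_tops.1 hn
  set m := C.erase n with hm
  have hmC : m ⊆ C := erase_subset _ _
  have hmJ : m ⊆ J := hmC.trans hC
  have hnm : n ∉ m := notMem_erase _ _
  set T := J \ m with hT
  have hTJ : T ⊆ J := sdiff_subset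
  have hd : Disjoint T m := sdiff_disjoint
  have hJ : J = T ∪ m := (sdiff_union_of_subset hmJ).symm
  set G : Finset ι → ℂ := fun A => cE φ m (fun B => F (A ∪ B)) with hG
  have hcE : cE φ J F = cE φ T G := by rw [hJ, cE_union hd]
  -- `n` tied
  have hG1 : ∀ A ⊆ T, n ∉ A → G A = F A := by
    intro A hA hnA
    have h3 : ∀ B ⊆ m, F (A ∪ B) = F (A ∪ ∅) := by
      refine hide (rk := rk) (F := fun B => F (A ∪ B)) hnm (fun i hi => hnmax i (hmC hi)) ?_
      intro B hB i hi hiB hr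
      rw [union_insert]
      refine sh (A ∪ B) (union_subset (hA.trans hTJ) (hB.trans hmJ)) i (hmC hi) n hnC ?_ ?_
        (fun h => hnm (h ▸ hi)) hr
      · rw [mem_union, not_or]
        exact ⟨fun h => disjoint_left.1 hd (hA h) hi, hiB⟩
      · rw [mem_union, not_or]
        exact ⟨hnA, fun h => hnm (hB h)⟩
    rw [hG]
    simp only
    rw [cE_congr' h3, cE_const, union_empty]
  have hG2 : ∀ A ⊆ T, ‖G A‖ ≤ K * M := by
    intro A hA
    refine chain_bound (rk := rk) hK (fun i hi => h1 i (hmC hi)) (fun i hi => h2 i (hmC hi))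
      (fun B hB => hF _ (union_subset (hA.trans hTJ) (hB.trans hmJ))) ?_
    intro B hB i hi j hj hiB hjB hne hr
    rw [union_insert]
    refine sh (A ∪ B) (union_subset (hA.trans hTJ) (hB.trans hmJ)) i (hmC hi) j (hmC hj) ?_ ?_
      hne hr
    · rw [mem_union, not_or]
      exact ⟨fun h => disjoint_left.1 hd (hA h) hi, hiB⟩
    · rw [mem_union, not_or]
      exact ⟨fun h => disjoint_left.1 hd (hA h) hj, hjB⟩
  have hnT : n ∈ T := mem_sdiff.2 ⟨hC hnC, hnm⟩
  have hG0 : G ∅ = F ∅ := hG1 ∅ (empty_subset _) (notMem_empty _)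
  have hfo := first_order (φ := φ) (s := T) (F := G) (M := K * M) hG2
  simp only [smul_eq_mul] at hfo
  -- the sum over `J`
  have hsum : ∑ i ∈ J, φ i * (F {i} - F ∅) = ∑ i ∈ T, φ i * (F {i} - F ∅) := by
    have hJs : ∑ i ∈ J, φ i * (F {i} - F ∅) = ∑ i ∈ T, φ i * (F {i} - F ∅) +
        ∑ i ∈ m, φ i * (F {i} - F ∅) := by
      rw [← sum_union hd, ← hJ]
    rw [hJs]
    have : ∑ i ∈ m, φ i * (F {i} - F ∅) = 0 := by
      refine sum_eq_zero fun i hi => ?_
      have h3 := sh ∅ (empty_subset _) i (hmC hi) n hnC (notMem_empty _) (notMem_empty _)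
        (fun h => hnm (h ▸ hi)) (hnmax i (hmC hi))
      have e1 : ({i} : Finset ι) = insert i ∅ := rfl
      rw [e1, h3, sub_self, mul_zero]
    rw [this, add_zero]
  have hsum2 : ∑ i ∈ T, φ i * (G {i} - G ∅) = ∑ i ∈ T, φ i * (F {i} - F ∅) +
      φ n * (G {n} - F {n}) := by
    rw [← Finset.add_sum_erase T _ hnT, ← Finset.add_sum_erase T (fun i => φ i * (F {i} - F ∅)) hnT]
    have : ∑ i ∈ T.erase n, φ i * (G {i} - G ∅) = ∑ i ∈ T.erase n, φ i * (F {i} - F ∅) := by
      refine sum_congr rfl fun i hi => ?_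
      obtain ⟨g1, g2⟩ := mem_erase.1 hi
      rw [hG0, hG1 {i} (singleton_subset_iff.2 g2) (by rw [mem_singleton]; exact fun h => g1 h.symm)]
    rw [this, hG0]
    ring
  have hmain : ‖G {n} - F {n}‖ ≤ (K + 1) * M * ∑ p ∈ tops rk m, ‖φ p‖ := by
    rcases m.eq_empty_or_nonempty with hme | hmne
    · have e1 : G {n} = F {n} := by
        rw [hG]; simp only; rw [hme]; simp [cE, cw]
      rw [e1, sub_self, norm_zero]
      exact mul_nonneg (mul_nonneg (by linarith) hM) (sum_nonneg fun _ _ => norm_nonneg _)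
    obtain ⟨p, hp⟩ := tops_nonempty (rk := rk) hmne
    obtain ⟨hpm, hpmax⟩ := mem_tops.1 hp
    set m' := m.erase p with hm'
    have hpm' : p ∉ m' := notMem_erase _ _
    have hmm : m = insert p m' := (insert_erase hpm).symm
    have hm'm : m' ⊆ m := erase_subset _ _
    have e1 : G {n} = (1 - φ p) * F {n} +
        φ p * cE φ m' (fun B => F ({n} ∪ insert p B)) := by
      rw [hG]
      simp only
      rw [hmm, cE_insert hpm']
      simp only [smul_eq_mul]
      congr 2
      have h3 : ∀ B ⊆ m', F ({n} ∪ B) = F ({n} ∪ ∅) := by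
        refine hide (rk := rk) (F := fun B => F ({n} ∪ B)) hpm'
          (fun i hi => hpmax i (hm'm hi)) ?_
        intro B hB i hi hiB hr
        rw [union_insert]
        refine sh _ ?_ i (hmC (hm'm hi)) p (hmC hpm) ?_ ?_ (fun h => hpm' (h ▸ hi)) hr
        · exact union_subset (singleton_subset_iff.2 (hC hnC)) (hB.trans (hm'm.trans hmJ))
        · rw [mem_union, not_or, mem_singleton]
          exact ⟨fun h => hnm (h ▸ hm'm hi), hiB⟩
        · rw [mem_union, not_or, mem_singleton]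
          exact ⟨fun h => hnm (h ▸ hpm), fun h => hpm' (hB h)⟩
      rw [cE_congr' h3, cE_const, union_empty]
    have hb : ‖cE φ m' (fun B => F ({n} ∪ insert p B))‖ ≤ K * M := by
      refine chain_bound (rk := rk) hK (fun i hi => h1 i (hmC (hm'm hi)))
        (fun i hi => h2 i (hmC (hm'm hi))) (fun B hB => hF _ ?_) ?_
      · refine union_subset (singleton_subset_iff.2 (hC hnC)) (insert_subset (hmJ hpm) ?_)
        exact hB.trans (hm'm.trans hmJ)
      · intro B hB i hi j hj hiB hjB hne hr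
        rw [Finset.insert_comm, union_insert]
        refine sh _ ?_ i (hmC (hm'm hi)) j (hmC (hm'm hj)) ?_ ?_ hne hr
        · refine union_subset (singleton_subset_iff.2 (hC hnC)) (insert_subset (hmJ hpm) ?_)
          exact hB.trans (hm'm.trans hmJ)
        · rw [mem_union, not_or, mem_singleton, mem_insert, not_or]
          exact ⟨fun h => hnm (h ▸ hm'm hi), fun h => hpm' (h ▸ hi), hiB⟩
        · rw [mem_union, not_or, mem_singleton, mem_insert, not_or]
          exact ⟨fun h => hnm (h ▸ hm'm hj), fun h => hpm' (h ▸ hj), hjB⟩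
    have e2 : G {n} - F {n} = φ p * (cE φ m' (fun B => F ({n} ∪ insert p B)) - F {n}) := by
      rw [e1]; ring
    rw [e2, norm_mul]
    have h4 : ‖cE φ m' (fun B => F ({n} ∪ insert p B)) - F {n}‖ ≤ (K + 1) * M := by
      refine (norm_sub_le _ _).trans ?_
      have := hF {n} (singleton_subset_iff.2 (hC hnC))
      linarith
    have h5 : ‖φ p‖ ≤ ∑ p ∈ tops rk m, ‖φ p‖ :=
      single_le_sum (f := fun p => ‖φ p‖) (fun _ _ => norm_nonneg _) hp
    have h6 : 0 ≤ (K + 1) * M := mul_nonneg (by linarith) hM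
    calc ‖φ p‖ * ‖cE φ m' (fun B => F ({n} ∪ insert p B)) - F {n}‖
        ≤ ‖φ p‖ * ((K + 1) * M) := mul_le_mul_of_nonneg_left h4 (norm_nonneg _)
      _ = (K + 1) * M * ‖φ p‖ := by ring
      _ ≤ _ := mul_le_mul_of_nonneg_left h5 h6
  -- conclusion
  have e3 : cE φ J F - F ∅ - ∑ i ∈ J, φ i * (F {i} - F ∅) =
      (cE φ T G - G ∅ - ∑ i ∈ T, φ i * (G {i} - G ∅)) + φ n * (G {n} - F {n}) := by
    rw [hcE, hsum2, hG0, hsum]
    ring
  rw [e3]
  refine (norm_add_le _ _).trans ?_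
  unfold chErr
  refine add_le_add (hfo.trans ?_) ?_
  · refine mul_le_mul_of_nonneg_left ?_ (mul_nonneg (by linarith) hM)
    refine sum_le_sum_of_subset_of_nonneg ?_ fun A _ _ => prod_nonneg fun i _ => by positivity
    refine filter_subset_filter _ (powerset_mono.2 ?_)
    intro i hi
    obtain ⟨g1, g2⟩ := mem_sdiff.1 hi
    by_cases hiC : i ∈ C
    · have : i = n := by
        by_contra hne
        exact g2 (mem_erase.2 ⟨hne, hiC⟩)
      rw [this]
      exact mem_union_right _ hn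
    · exact mem_union_left _ (mem_sdiff.2 ⟨g1, hiC⟩)
  · rw [norm_mul]
    calc ‖φ n‖ * ‖G {n} - F {n}‖ ≤ ‖φ n‖ * ((K + 1) * M * ∑ p ∈ tops rk m, ‖φ p‖) :=
          mul_le_mul_of_nonneg_left hmain (norm_nonneg _)
      _ = (K + 1) * M * ∑ p ∈ tops rk (C.erase n), ‖φ n‖ * ‖φ p‖ := by
          rw [← mul_sum]; ring
      _ ≤ _ := by
          refine mul_le_mul_of_nonneg_left ?_ (mul_nonneg (by linarith) hM)
          exact single_le_sum (f := fun n => ∑ m ∈ tops rk (C.erase n), ‖φ n‖ * ‖φ m‖)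
            (fun n _ => sum_nonneg fun m _ => by positivity) hn

end first

end Pool.Agent.H39.Q1
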