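import Mathlib
import Pool.Agent.H75.Perc.Rect
import Pool.Agent.H75.TwoArm.Decay

set_option autoImplicit false
open Finset

/-! # Crossing lemma in a wedge

In the doubled grid (`2 v` for the vertices, `2 f - (1, 1)` for the faces, the labels in between): a path
`S₁` (steps of a king) from `r` to `s` and a path `S₂` (unit steps) from `p` to `q` meet if the
horizontal rays from `r` to the left and from `s` to the right avoid `S₂` and the vertical rays from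
`p` downwards and from `q` upwards avoid `S₁`. -/

namespace Pool.Agent.H39.Q1

open Pool.Agent.H75.Perc Pool.Agent.H75.TwoArm Pool.Agent.H75.TwoArm.DecayAux

section rays

variable {A : ℤ × ℤ → Prop}

lemma ray_right (n : ℕ) (a b : ℤ) (h : ∀ k : ℤ, a ≤ k → k ≤ a + n → A (k, b)) :
    Relation.ReflTransGen (fun u v : ℤ × ℤ => IsUnit4 (v - u) ∧ A v) (a, b) (a + n, b) := by
  induction n with
  | zero => simpa using Relation.ReflTransGen.refl
  | succ n ih =>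
    refine (ih fun k h1 h2 => h k h1 (by push_cast; omega)).tail ⟨?_, ?_⟩
    · left
      refine Prod.ext ?_ ?_
      · simp only [Prod.fst_sub]; push_cast; ring
      · simp
    · exact h _ (by push_cast; omega) (by push_cast; omega)

lemma ray_up (n : ℕ) (a b : ℤ) (h : ∀ k : ℤ, b ≤ k → k ≤ b + n → A (a, k)) :
    Relation.ReflTransGen (fun u v : ℤ × ℤ => IsUnit4 (v - u) ∧ A v) (a, b) (a, b + n) := by
  induction n with
  | zero => simpa using Relation.ReflTransGen.refl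
  | succ n ih =>
    refine (ih fun k h1 h2 => h k h1 (by push_cast; omega)).tail ⟨?_, ?_⟩
    · have e : ((a, b + ((n + 1 : ℕ) : ℤ)) : ℤ × ℤ) - (a, b + (n : ℤ)) = (0, 1) := by
        refine Prod.ext ?_ ?_
        · simp
        · simp only [Prod.snd_sub]; push_cast; ring
      rw [e]; unfold IsUnit4; simp
    · exact h _ (by push_cast; omega) (by push_cast; omega)

lemma ray_right' {a a' b : ℤ} (haa : a ≤ a') (h : ∀ k : ℤ, a ≤ k → k ≤ a' → A (k, b)) :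
    Relation.ReflTransGen (fun u v : ℤ × ℤ => IsUnit4 (v - u) ∧ A v) (a, b) (a', b) := by
  obtain ⟨n, hn⟩ := Int.le.dest haa
  rw [← hn]
  exact ray_right n a b fun k h1 h2 => h k h1 (by omega)

lemma ray_up' {a b b' : ℤ} (hbb : b ≤ b') (h : ∀ k : ℤ, b ≤ k → k ≤ b' → A (a, k)) :
    Relation.ReflTransGen (fun u v : ℤ × ℤ => IsUnit4 (v - u) ∧ A v) (a, b) (a, b') := by
  obtain ⟨n, hn⟩ := Int.le.dest hbb
  rw [← hn]
  exact ray_up n a b fun k h1 h2 => h k h1 (by omega)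

end rays

lemma path_bound (P : ℕ → ℤ × ℤ) (m : ℕ) : ∃ N : ℤ, 0 ≤ N ∧ ∀ i ≤ m,
    (-N ≤ (P i).1 ∧ (P i).1 ≤ N) ∧ (-N ≤ (P i).2 ∧ (P i).2 ≤ N) := by
  refine ⟨∑ i ∈ range (m + 1), (|(P i).1| + |(P i).2|), sum_nonneg fun _ _ => by positivity, ?_⟩
  intro i hi
  have h1 : |(P i).1| + |(P i).2| ≤ ∑ i ∈ range (m + 1), (|(P i).1| + |(P i).2|) :=
    single_le_sum (f := fun i => |(P i).1| + |(P i).2|) (fun _ _ => by positivity)
      (mem_range.2 (by omega))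
  have h2 := abs_nonneg (P i).1
  have h3 := abs_nonneg (P i).2
  exact ⟨abs_le.1 (by omega), abs_le.1 (by omega)⟩

lemma rtg_of_seq {r : ℤ × ℤ → ℤ × ℤ → Prop} {P : ℕ → ℤ × ℤ} {m : ℕ}
    (h : ∀ i < m, r (P i) (P (i + 1))) :
    ∀ i ≤ m, Relation.ReflTransGen (fun u v => r u v ∧ ∃ j ≤ m, P j = v) (P 0) (P i) := by
  intro i
  induction i with
  | zero => intro _; exact Relation.ReflTransGen.refl
  | succ i ih =>
    intro hi
    exact (ih (by omega)).tail ⟨h i (by omega), i + 1, hi, rfl⟩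

lemma rtg_mono {α : Type*} {r r' : α → α → Prop} (h : ∀ u v, r u v → r' u v) {a b : α}
    (hab : Relation.ReflTransGen r a b) : Relation.ReflTransGen r' a b := by
  induction hab with
  | refl => exact Relation.ReflTransGen.refl
  | tail _ hbc ih => exact ih.tail (h _ _ hbc)

/-- **Crossing lemma with rays.** -/
theorem wedge_cross {S1 S2 : ℤ × ℤ → Prop} {r s p q : ℤ × ℤ}
    (h1 : Relation.ReflTransGen (fun u v : ℤ × ℤ => King (v - u) ∧ S1 v) r s) (hr : S1 r)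
    (h2 : Relation.ReflTransGen (fun u v : ℤ × ℤ => IsUnit4 (v - u) ∧ S2 v) p q) (hp : S2 p)
    (hl : ∀ z, S2 z → r.1 + r.2 ≤ z.1 + z.2) (hrt : ∀ z, S2 z → s.2 - s.1 ≤ z.2 - z.1)
    (hd : ∀ z, S1 z → z.1 = p.1 → p.2 ≤ z.2) (hu : ∀ z, S1 z → z.1 = q.1 → z.2 ≤ q.2)
    (hrp : r.1 ≤ p.1) (hps : p.1 ≤ s.1) : ∃ z, S1 z ∧ S2 z := by
  obtain ⟨m, P, hP0, hPm, hPs⟩ := exists_seq h1
  obtain ⟨l, Q, hQ0, hQl, hQs⟩ := exists_seq h2
  have hS1 : ∀ i ≤ m, S1 (P i) := by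
    intro i hi
    rcases Nat.eq_zero_or_pos i with h | h
    · rw [h, hP0]; exact hr
    · have := (hPs (i - 1) (by omega)).2
      rwa [show i - 1 + 1 = i by omega] at this
  have hS2 : ∀ i ≤ l, S2 (Q i) := by
    intro i hi
    rcases Nat.eq_zero_or_pos i with h | h
    · rw [h, hQ0]; exact hp
    · have := (hQs (i - 1) (by omega)).2
      rwa [show i - 1 + 1 = i by omega] at this
  obtain ⟨N1, hN1, hb1⟩ := path_bound P m
  obtain ⟨N2, hN2, hb2⟩ := path_bound Q l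
  set N := N1 + N2 with hN
  set A : ℤ × ℤ → Prop := fun z => (∃ i ≤ m, P i = z) ∨ (z.2 = r.2 ∧ -N ≤ z.1 ∧ z.1 < r.1) ∨
    (z.2 = s.2 ∧ s.1 < z.1 ∧ z.1 ≤ N) with hA
  set B : ℤ × ℤ → Prop := fun z => (∃ i ≤ l, Q i = z) ∨ (z.1 = p.1 ∧ -N ≤ z.2 ∧ z.2 < p.2) ∨
    (z.1 = q.1 ∧ q.2 < z.2 ∧ z.2 ≤ N) with hB
  have br := hb1 0 (by omega)
  have bs := hb1 m le_rfl
  have bp := hb2 0 (by omega)
  have bq := hb2 l le_rfl
  rw [hP0] at br
  rw [hPm] at bs
  rw [hQ0] at bp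
  rw [hQl] at bq
  have hAP : Relation.ReflTransGen (fun u v : ℤ × ℤ => King (v - u) ∧ A v) r s := by
    have h3 := rtg_of_seq (r := fun u v => King (v - u)) (fun i hi => (hPs i hi).1) m le_rfl
    rw [hP0, hPm] at h3
    exact rtg_mono (fun u v h => ⟨h.1, Or.inl h.2⟩) h3
  have hBQ : Relation.ReflTransGen (fun u v : ℤ × ℤ => IsUnit4 (v - u) ∧ B v) p q := by
    have h3 := rtg_of_seq (r := fun u v => IsUnit4 (v - u)) (fun i hi => (hQs i hi).1) l le_rfl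
    rw [hQ0, hQl] at h3
    exact rtg_mono (fun u v h => ⟨h.1, Or.inl h.2⟩) h3
  have hAr : A r := Or.inl ⟨0, by omega, hP0⟩
  have hAs : A s := Or.inl ⟨m, le_rfl, hPm⟩
  have hBp : B p := Or.inl ⟨0, by omega, hQ0⟩
  have hBq : B q := Or.inl ⟨l, le_rfl, hQl⟩
  have hA1 : ∀ k : ℤ, -N ≤ k → k ≤ r.1 → A (k, r.2) := by
    intro k hk1 hk2
    rcases lt_or_eq_of_le hk2 with h | h
    · exact Or.inr (Or.inl ⟨rfl, hk1, h⟩)
    · rw [h]; exact hAr
  have hA2 : ∀ k : ℤ, s.1 ≤ k → k ≤ N → A (k, s.2) := by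
    intro k hk1 hk2
    rcases lt_or_eq_of_le hk1 with h | h
    · exact Or.inr (Or.inr ⟨rfl, h, hk2⟩)
    · rw [← h]; exact hAs
  have hB1 : ∀ k : ℤ, -N ≤ k → k ≤ p.2 → B (p.1, k) := by
    intro k hk1 hk2
    rcases lt_or_eq_of_le hk2 with h | h
    · exact Or.inr (Or.inl ⟨rfl, hk1, h⟩)
    · rw [h]; exact hBp
  have hB2 : ∀ k : ℤ, q.2 ≤ k → k ≤ N → B (q.1, k) := by
    intro k hk1 hk2
    rcases lt_or_eq_of_le hk1 with h | h
    · exact Or.inr (Or.inr ⟨rfl, h, hk2⟩)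
    · rw [← h]; exact hBq
  have hpA : Relation.ReflTransGen (fun u v : ℤ × ℤ => King (v - u) ∧ A v) (-N, r.2) (N, s.2) :=
    ((king_lift (ray_right' (by omega) hA1)).trans hAP).trans
      (king_lift (ray_right' (by omega) hA2))
  have hpB : Relation.ReflTransGen (fun u v : ℤ × ℤ => IsUnit4 (v - u) ∧ B v) (p.1, -N) (q.1, N) :=
    ((ray_up' (by omega) hB1).trans hBQ).trans (ray_up' (by omega) hB2)
  obtain ⟨z, hzA, hzB⟩ := cross_set (a := -N) (b := N) (c := -N) (d := N) hpA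
    (hA1 (-N) le_rfl (by omega)) hpB (hB1 (-N) le_rfl (by omega))
    (by
      rintro z (⟨i, hi, rfl⟩ | ⟨h3, h4, h5⟩ | ⟨h3, h4, h5⟩)
      · have := hb1 i hi; omega
      · omega
      · omega)
    (by
      rintro z (⟨i, hi, rfl⟩ | ⟨h3, h4, h5⟩ | ⟨h3, h4, h5⟩)
      · have := hb2 i hi; omega
      · omega
      · omega) rfl rfl rfl rfl
  have q1 := hl q (hQl ▸ hS2 l le_rfl)
  have q2 := hrt q (hQl ▸ hS2 l le_rfl)
  rcases hzA with ⟨i, hi, hz1⟩ | ⟨a1, a2, a3⟩ | ⟨a1, a2, a3⟩ <;>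
    rcases hzB with ⟨j, hj, hz2⟩ | ⟨b1, b2, b3⟩ | ⟨b1, b2, b3⟩
  · exact ⟨z, hz1 ▸ hS1 i hi, hz2 ▸ hS2 j hj⟩
  · have := hd z (hz1 ▸ hS1 i hi) b1; omega
  · have := hu z (hz1 ▸ hS1 i hi) b1; omega
  · have := hl z (hz2 ▸ hS2 j hj); omega
  · omega
  · omega
  · have := hrt z (hz2 ▸ hS2 j hj); omega
  · omega
  · omega

end Pool.Agent.H39.Q1
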