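import Mathlib
import Pool.Agent.H39.Q1.Wedge
import Pool.Agent.H39.Q1.Cut

set_option autoImplicit false
open Finset

/-! # Barriers at a corner

`nd c x` : the node `x` (vertex for `c = true`, face for `c = false`) in the doubled grid, `el c x y` : the
label of a step. A chart `(ε, x₀, y₀)` of the corner: `U`, `V` are twice the tile coordinates, the domain
is `U ≥ 0`, `V ≥ 0`, its left wall `U = 0`, its floor `V = 0`. -/

namespace Pool.Agent.H39.Q1

open Pool.Agent.H75.Perc Pool.Agent.H75.TwoArm Pool.Agent.H75.TwoArm.DecayAux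

/-- a node in the doubled grid -/
def nd (c : Bool) (x : ℤ × ℤ) : ℤ × ℤ := if c = true then (2 * x.1, 2 * x.2) else (2 * x.1 - 1, 2 * x.2 - 1)

/-- the label of a step -/
def el (c : Bool) (x y : ℤ × ℤ) : ℤ × ℤ := if c = true then x + y else x + y - (1, 1)

lemma nd_true (x : ℤ × ℤ) : nd true x = (2 * x.1, 2 * x.2) := rfl
lemma nd_false (x : ℤ × ℤ) : nd false x = (2 * x.1 - 1, 2 * x.2 - 1) := rfl
lemma el_true (x y : ℤ × ℤ) : el true x y = x + y := rfl
lemma el_false (x y : ℤ × ℤ) : el false x y = x + y - (1, 1) := rfl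

/-- nodes and labels of a cluster -/
def PS (c : Bool) (H : Finset (ℤ × ℤ)) (u z : ℤ × ℤ) : Prop :=
  (∃ x, Co H u x ∧ z = nd c x) ∨
    ∃ x y, Co H u x ∧ IsUnit4 (y - x) ∧ x + y ∈ H ∧ z = el c x y

variable {c c' : Bool} {H H' : Finset (ℤ × ℤ)} {u u' x y z : ℤ × ℤ}

lemma nd_el (h : IsUnit4 (y - x)) : IsUnit4 (el c x y - nd c x) ∧ IsUnit4 (nd c y - el c x y) := by
  unfold IsUnit4 at h ⊢
  rcases c with _ | _
  · rw [el_false, nd_false, nd_false]
    simp only [Prod.ext_iff, Prod.fst_sub, Prod.snd_sub, Prod.fst_add, Prod.snd_add] at h ⊢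
    omega
  · rw [el_true, nd_true, nd_true]
    simp only [Prod.ext_iff, Prod.fst_sub, Prod.snd_sub, Prod.fst_add, Prod.snd_add] at h ⊢
    omega

lemma nd_inj (h : nd c x = nd c y) : x = y := by
  rcases c with _ | _
  · rw [nd_false, nd_false] at h
    simp only [Prod.ext_iff] at h ⊢; omega
  · rw [nd_true, nd_true] at h
    simp only [Prod.ext_iff] at h ⊢; omega

lemma nd_even (c : Bool) (x : ℤ × ℤ) : ((nd c x).1 + (nd c x).2) % 2 = 0 := by
  rcases c with _ | _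
  · rw [nd_false]; simp only; omega
  · rw [nd_true]; simp only; omega

lemma el_odd (h : IsUnit4 (y - x)) : ((el c x y).1 + (el c x y).2) % 2 = 1 := by
  unfold IsUnit4 at h
  simp only [Prod.ext_iff, Prod.fst_sub, Prod.snd_sub] at h
  rcases c with _ | _
  · rw [el_false]; simp only [Prod.fst_sub, Prod.snd_sub, Prod.fst_add, Prod.snd_add]; omega
  · rw [el_true]; simp only [Prod.fst_add, Prod.snd_add]; omega

lemma nd_ne (h : c ≠ c') : nd c x ≠ nd c' y := by
  intro h1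
  rcases c with _ | _ <;> rcases c' with _ | _
  · exact h rfl
  · rw [nd_false, nd_true] at h1
    simp only [Prod.ext_iff] at h1; omega
  · rw [nd_false, nd_true] at h1
    simp only [Prod.ext_iff] at h1; omega
  · exact h rfl

lemma PS.self : PS c H u (nd c u) := Or.inl ⟨u, Co.refl _ _, rfl⟩

/-- a path in the doubled grid -/
lemma lift_PS (h : Co H u x) : Relation.ReflTransGen
    (fun a b : ℤ × ℤ => IsUnit4 (b - a) ∧ PS c H u b) (nd c u) (nd c x) := by
  induction h with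
  | refl => exact Relation.ReflTransGen.refl
  | @tail a b hab hbc ih =>
    have h1 := nd_el (c := c) hbc.1
    exact (ih.tail ⟨h1.1, Or.inr ⟨a, b, hab, hbc.1, hbc.2, rfl⟩⟩).tail
      ⟨h1.2, Or.inl ⟨b, Relation.ReflTransGen.tail hab hbc, rfl⟩⟩

lemma PS.congr (h : Co H u u') (hz : PS c H u' z) : PS c H u z := by
  rcases hz with ⟨x, h1, h2⟩ | ⟨x, y, h1, h2⟩
  · exact Or.inl ⟨x, h.trans h1, h2⟩
  · exact Or.inr ⟨x, y, h.trans h1, h2⟩

/-- the two ends of a label -/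
lemma el_ends {x' y' : ℤ × ℤ} (h : IsUnit4 (y - x)) (h' : IsUnit4 (y' - x'))
    (he : el c x y = el c x' y') : (x = x' ∧ y = y') ∨ (x = y' ∧ y = x') := by
  unfold IsUnit4 at h h'
  rcases c with _ | _
  · rw [el_false, el_false] at he
    simp only [Prod.ext_iff, Prod.fst_sub, Prod.snd_sub, Prod.fst_add, Prod.snd_add] at h h' he ⊢
    omega
  · rw [el_true, el_true] at he
    simp only [Prod.ext_iff, Prod.fst_sub, Prod.snd_sub, Prod.fst_add, Prod.snd_add] at h h' he ⊢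
    omega

/-- clusters of the same colour which meet in the doubled grid have a common node -/
lemma PS_meet (h : PS c H u z) (h' : PS c H' u' z) : ∃ x, Co H u x ∧ Co H' u' x := by
  rcases h with ⟨x, h1, h2⟩ | ⟨x, y, h1, h2, h3, h4⟩ <;>
    rcases h' with ⟨x', h1', h2'⟩ | ⟨x', y', h1', h2', h3', h4'⟩
  · exact ⟨x, h1, by rw [nd_inj (h2.symm.trans h2')]; exact h1'⟩
  · exfalso
    have e1 := nd_even c x
    have e2 := el_odd (c := c) h2'
    rw [← h2, h4'] at e1; omega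
  · exfalso
    have e1 := nd_even c x'
    have e2 := el_odd (c := c) h2
    rw [← h2', h4] at e1; omega
  · rcases el_ends h2 h2' (h4.symm.trans h4') with ⟨g1, g2⟩ | ⟨g1, g2⟩
    · exact ⟨x, h1, by rw [g1]; exact h1'⟩
    · exact ⟨x, h1, by rw [g1]; exact h1'.tail ⟨h2', h3'⟩⟩

/-- clusters of different colours do not meet if no label is passed by both -/
lemma PS_opp (hc : c ≠ c') (h : PS c H u z) (h' : PS c' H' u' z) :
    ∃ x y x' y', IsUnit4 (y - x) ∧ x + y ∈ H ∧ IsUnit4 (y' - x') ∧ x' + y' ∈ H' ∧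
      el c x y = el c' x' y' := by
  rcases h with ⟨x, h1, h2⟩ | ⟨x, y, h1, h2, h3, h4⟩ <;>
    rcases h' with ⟨x', h1', h2'⟩ | ⟨x', y', h1', h2', h3', h4'⟩
  · exact absurd (h2.symm.trans h2') (nd_ne hc)
  · exfalso
    have e1 := nd_even c x
    have e2 := el_odd (c := c') h2'
    rw [← h2, h4'] at e1; omega
  · exfalso
    have e1 := nd_even c' x'
    have e2 := el_odd (c := c) h2
    rw [← h2', h4] at e1; omega
  · exact ⟨x, y, x', y', h2, h3, h2', h3', h4.symm.trans h4'⟩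

/-! ### Charts -/

section chart

/-- horizontal coordinate -/
def cx (x0 : ℤ) (z : ℤ × ℤ) : ℤ := z.1 - x0

/-- vertical coordinate -/
def cy (ε y0 : ℤ) (z : ℤ × ℤ) : ℤ := ε * (z.2 - y0)

/-- twice the first tile coordinate -/
def cU (ε x0 y0 : ℤ) (z : ℤ × ℤ) : ℤ := cx x0 z + cy ε y0 z

/-- twice the second tile coordinate -/
def cV (ε x0 y0 : ℤ) (z : ℤ × ℤ) : ℤ := cy ε y0 z - cx x0 z

variable {ε x0 y0 h : ℤ} {S1 S2 : ℤ × ℤ → Prop} {r s p q : ℤ × ℤ}

lemma king_chart (hε : ε = 1 ∨ ε = -1) {a b : ℤ × ℤ} (hk : King (b - a)) :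
    King ((cx x0 b, cy ε y0 b) - (cx x0 a, cy ε y0 a)) := by
  unfold King cx cy at *
  simp only [Prod.fst_sub, Prod.snd_sub] at hk ⊢
  rcases hε with rfl | rfl <;> omega

lemma unit_chart (hε : ε = 1 ∨ ε = -1) {a b : ℤ × ℤ} (hk : IsUnit4 (b - a)) :
    IsUnit4 ((cx x0 b, cy ε y0 b) - (cx x0 a, cy ε y0 a)) := by
  unfold IsUnit4 cx cy at *
  simp only [Prod.ext_iff, Prod.fst_sub, Prod.snd_sub] at hk ⊢
  rcases hε with rfl | rfl <;> omega

lemma chart_inj (hε : ε = 1 ∨ ε = -1) {a b : ℤ × ℤ}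
    (h : ((cx x0 a, cy ε y0 a) : ℤ × ℤ) = (cx x0 b, cy ε y0 b)) : a = b := by
  unfold cx cy at h
  simp only [Prod.ext_iff] at h ⊢
  rcases hε with rfl | rfl <;> omega

lemma rtg_map {α β : Type*} {r : α → α → Prop} {r' : β → β → Prop} (f : α → β)
    (h : ∀ a b, r a b → r' (f a) (f b)) {a b : α} (hab : Relation.ReflTransGen r a b) :
    Relation.ReflTransGen r' (f a) (f b) := by
  induction hab with
  | refl => exact Relation.ReflTransGen.refl
  | tail _ hbc ih => exact ih.tail (h _ _ hbc)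

/-- **Barrier lemma at a corner.** `S₁` : barrier from `r` to `s`, `S₂` : path from the left wall point
`p` to `x`, then to `q`, which is outside. -/
theorem barrier (hε : ε = 1 ∨ ε = -1)
    (h1 : Relation.ReflTransGen (fun u v : ℤ × ℤ => King (v - u) ∧ S1 v) r s) (hr : S1 r)
    (h2 : Relation.ReflTransGen (fun u v : ℤ × ℤ => IsUnit4 (v - u) ∧ S2 v) p x) (hp : S2 p)
    (hq : IsUnit4 (q - x)) (hqU : cU ε x0 y0 r ≤ cU ε x0 y0 q) (hqV : cV ε x0 y0 s ≤ cV ε x0 y0 q)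
    (hqS : ¬ S1 q) (hqu : ∀ z, S1 z → cx x0 z = cx x0 q → cy ε y0 z ≤ cy ε y0 q)
    (hpd : ∀ z, S1 z → cx x0 z = cx x0 p → cy ε y0 p ≤ cy ε y0 z)
    (hl : ∀ z, S2 z → cU ε x0 y0 r ≤ cU ε x0 y0 z) (hrt : ∀ z, S2 z → cV ε x0 y0 s ≤ cV ε x0 y0 z)
    (hrp : cx x0 r ≤ cx x0 p) (hps : cx x0 p ≤ cx x0 s) : ∃ z, S1 z ∧ S2 z := by
  set ch : ℤ × ℤ → ℤ × ℤ := fun z => (cx x0 z, cy ε y0 z) with hch
  set T1 : ℤ × ℤ → Prop := fun w => ∃ z, S1 z ∧ ch z = w with hT1
  set T2 : ℤ × ℤ → Prop := fun w => ∃ z, (S2 z ∨ z = q) ∧ ch z = w with hT2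
  have hP1 : Relation.ReflTransGen (fun u v : ℤ × ℤ => King (v - u) ∧ T1 v) (ch r) (ch s) :=
    rtg_map ch (fun a b hab => ⟨king_chart hε hab.1, b, hab.2, rfl⟩) h1
  have hP2 : Relation.ReflTransGen (fun u v : ℤ × ℤ => IsUnit4 (v - u) ∧ T2 v) (ch p) (ch x) :=
    rtg_map ch (fun a b hab => ⟨unit_chart hε hab.1, b, Or.inl hab.2, rfl⟩) h2
  have hP3 := hP2.tail (c := ch q) ⟨unit_chart hε hq, q, Or.inr rfl, rfl⟩
  have key := wedge_cross hP1 ⟨r, hr, rfl⟩ hP3 ⟨p, Or.inl hp, rfl⟩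
    (by
      rintro w ⟨z, hz | hz, rfl⟩
      · exact hl z hz
      · subst hz
        change cU ε x0 y0 r ≤ cU ε x0 y0 z
        exact hqU)
    (by
      rintro w ⟨z, hz | hz, rfl⟩
      · exact hrt z hz
      · subst hz
        change cV ε x0 y0 s ≤ cV ε x0 y0 z
        exact hqV)
    (by
      rintro w ⟨z, hz, rfl⟩ hw
      exact hpd z hz hw)
    (by
      rintro w ⟨z, hz, rfl⟩ hw
      exact hqu z hz hw) hrp hps
  obtain ⟨w, ⟨z, hz, hzw⟩, z', hz', hzw'⟩ := key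
  have : z = z' := chart_inj hε (hzw.trans hzw'.symm)
  subst this
  rcases hz' with h3 | h3
  · exact ⟨z, hz, h3⟩
  · exact absurd (h3 ▸ hz) hqS

end chart

end Pool.Agent.H39.Q1
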