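import Mathlib
import Pool.Agent.H39.Q1.Hide
import Pool.Agent.H39.Q1.DTUC

set_option autoImplicit false
open Finset

/-! # The four hiding lemmas at a corner

`HS c Λ G` : graph of the colour `c` in `Λ` if the open labels are `G`. -/

namespace Pool.Agent.H39.Q1

open Pool.Agent.H75.Perc Pool.Agent.H75.TwoArm Pool.Agent.H75.TwoArm.DecayAux

/-- graph of the colour `c` in `Λ` -/
noncomputable def HS (c : Bool) (Λ G : Finset (ℤ × ℤ)) : Finset (ℤ × ℤ) :=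
  if c = true then G ∩ Λ else du Λ G

/-- the label `l` is passed by paths of the colour `c` -/
def ps (c : Bool) (G : Finset (ℤ × ℤ)) (l : ℤ × ℤ) : Prop := l ∈ G ↔ c = true

variable {c c' : Bool} {H H' Λ Λ' G G' L ω : Finset (ℤ × ℤ)} {u u' x y z a b : ℤ × ℤ}

lemma mem_HS : x + y ∈ HS c Λ G ↔ el c x y ∈ Λ ∧ ps c G (el c x y) := by
  unfold HS ps
  rcases c with _ | _
  · rw [if_neg Bool.false_ne_true, el_false]
    constructor
    · intro h
      obtain ⟨h1, h2⟩ := of_mem_du h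
      exact ⟨h1, by simp [h2]⟩
    · rintro ⟨h1, h2⟩
      exact mem_du_of h1 (fun h3 => Bool.false_ne_true (h2.1 h3))
  · rw [if_pos rfl, el_true, mem_inter]
    constructor
    · rintro ⟨h1, h2⟩; exact ⟨h2, by simp [h1]⟩
    · rintro ⟨h1, h2⟩; exact ⟨h2.2 rfl, h1⟩

lemma co_HS_mono (hΛ : Λ ⊆ Λ') (hG : ∀ l ∈ Λ, (l ∈ G ↔ l ∈ G')) (h : Co (HS c Λ G) a b) :
    Co (HS c Λ' G') a b := by
  induction h with
  | refl => exact Co.refl _ _
  | tail _ hbc ih =>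
    refine ih.tail ⟨hbc.1, ?_⟩
    obtain ⟨h1, h2⟩ := mem_HS.1 hbc.2
    refine mem_HS.2 ⟨hΛ h1, ?_⟩
    unfold ps at h2 ⊢
    rw [← hG _ h1]; exact h2

/-- a label is not passed by both colours -/
lemma not_both_ps (hc : c ≠ c') {l : ℤ × ℤ} (h : ps c G l) (h' : ps c' G' l) (hG : l ∈ G ↔ l ∈ G') :
    False := by
  unfold ps at h h'
  rcases c with _ | _ <;> rcases c' with _ | _ <;> simp_all

section chart

variable {ε x0 y0 h : ℤ}

lemma unit_UV (hε : ε = 1 ∨ ε = -1) {a b : ℤ × ℤ} (hab : IsUnit4 (b - a)) :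
    (cU ε x0 y0 b - cU ε x0 y0 a = 1 ∨ cU ε x0 y0 b - cU ε x0 y0 a = -1) ∧
    (cV ε x0 y0 b - cV ε x0 y0 a = 1 ∨ cV ε x0 y0 b - cV ε x0 y0 a = -1) := by
  unfold IsUnit4 at hab
  unfold cU cV cx cy
  simp only [Prod.ext_iff, Prod.fst_sub, Prod.snd_sub] at hab
  rcases hε with rfl | rfl <;> omega

/-- lower bounds for the points of a cluster -/
lemma PS_low (hε : ε = 1 ∨ ε = -1) {α β : ℤ}
    (hH : ∀ x y, IsUnit4 (y - x) → x + y ∈ H →
      α + 1 ≤ cU ε x0 y0 (el c x y) ∧ β + 1 ≤ cV ε x0 y0 (el c x y))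
    (hu : α ≤ cU ε x0 y0 (nd c u) ∧ β ≤ cV ε x0 y0 (nd c u)) (hz : PS c H u z) :
    α ≤ cU ε x0 y0 z ∧ β ≤ cV ε x0 y0 z := by
  have hnode : ∀ x, Co H u x → α ≤ cU ε x0 y0 (nd c x) ∧ β ≤ cV ε x0 y0 (nd c x) := by
    intro x hx
    rcases Relation.ReflTransGen.cases_tail hx with h1 | ⟨w, -, h1⟩
    · rw [h1]; exact hu
    · have h2 := hH w x h1.1 h1.2
      have h3 := unit_UV (x0 := x0) (y0 := y0) hε (nd_el (c := c) h1.1).2
      omega
  rcases hz with ⟨x, h1, rfl⟩ | ⟨x, y, -, h2, h3, rfl⟩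
  · exact hnode x h1
  · have := hH x y h2 h3; omega

/-- the zone of the barriers -/
def Zn (ε x0 y0 h Um Vm : ℤ) (z : ℤ × ℤ) : Prop :=
  (cU ε x0 y0 z ≤ Um ∧ cV ε x0 y0 z ≤ Vm) ∧ (cU ε x0 y0 z ≤ 2 * h ∨ cV ε x0 y0 z ≤ 2 * h)

/-- points outside -/
def FarP (ε x0 y0 h Um Vm : ℤ) (q : ℤ × ℤ) : Prop :=
  (2 * h < cU ε x0 y0 q ∧ 2 * h < cV ε x0 y0 q) ∨ Um < cU ε x0 y0 q ∨ Vm < cV ε x0 y0 q

variable {Um Vm : ℤ}

lemma far_zone {q z : ℤ × ℤ} (hq : FarP ε x0 y0 h Um Vm q) (hz : Zn ε x0 y0 h Um Vm z)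
    (hx : cx x0 z = cx x0 q) : cy ε y0 z ≤ cy ε y0 q := by
  unfold FarP cU cV at hq
  unfold Zn cU cV at hz
  omega

lemma far_not_zone {q : ℤ × ℤ} (hq : FarP ε x0 y0 h Um Vm q) : ¬ Zn ε x0 y0 h Um Vm q := by
  unfold FarP at hq
  unfold Zn
  omega

/-- upper bounds for the points of a cluster -/
lemma PS_up (hε : ε = 1 ∨ ε = -1)
    (hH : ∀ x y, IsUnit4 (y - x) → x + y ∈ H →
      (cU ε x0 y0 (el c x y) < Um ∧ cV ε x0 y0 (el c x y) < Vm) ∧
        (cU ε x0 y0 (el c x y) < 2 * h ∨ cV ε x0 y0 (el c x y) < 2 * h))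
    (hu : Zn ε x0 y0 h Um Vm (nd c u)) (hz : PS c H u z) : Zn ε x0 y0 h Um Vm z := by
  have hnode : ∀ x, Co H u x → Zn ε x0 y0 h Um Vm (nd c x) := by
    intro x hx
    rcases Relation.ReflTransGen.cases_tail hx with h1 | ⟨w, -, h1⟩
    · rw [h1]; exact hu
    · have h2 := hH w x h1.1 h1.2
      have h3 := unit_UV (x0 := x0) (y0 := y0) hε (nd_el (c := c) h1.1).2
      unfold Zn
      omega
  rcases hz with ⟨x, h1, rfl⟩ | ⟨x, y, -, h2, h3, rfl⟩
  · exact hnode x h1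
  · have := hH x y h2 h3
    unfold Zn
    omega

/-- the king neighbour of a node below it is no point of its colour -/
lemma king_notPS {k : ℤ × ℤ} (hk : (k.1 - (nd c u).1) % 2 = 1) (hk' : (k.1 + k.2) % 2 = 0) :
    ¬ PS c H x k := by
  rintro (⟨w, -, h1⟩ | ⟨w, v, -, h2, -, h1⟩)
  · rw [h1] at hk
    rcases c with _ | _
    · rw [nd_false, nd_false] at hk; simp only at hk; omega
    · rw [nd_true, nd_true] at hk; simp only at hk; omega
  · have := el_odd (c := c) h2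
    rw [← h1] at this; omega

/-- **(1)** same colour, both at the left wall: the path from `p` to the outside meets the barrier from
the higher left wall node `r` to the floor node `t` -/
theorem hide_LL (hε : ε = 1 ∨ ε = -1) (hh : 1 ≤ h) {p r t x q : ℤ × ℤ}
    (hH : ∀ x y, IsUnit4 (y - x) → x + y ∈ H →
      (1 ≤ cU ε x0 y0 (el c x y) ∧ 1 ≤ cV ε x0 y0 (el c x y)) ∧
      (cU ε x0 y0 (el c x y) < Um ∧ cV ε x0 y0 (el c x y) < Vm) ∧
        (cU ε x0 y0 (el c x y) < 2 * h ∨ cV ε x0 y0 (el c x y) < 2 * h))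
    (hH' : ∀ x y, IsUnit4 (y - x) → x + y ∈ H' →
      1 ≤ cU ε x0 y0 (el c x y) ∧ -1 ≤ cV ε x0 y0 (el c x y))
    (hUm : 0 ≤ Um)
    (hpU : cU ε x0 y0 (nd c p) = 0) (hpV : 1 ≤ cV ε x0 y0 (nd c p))
    (hrU : cU ε x0 y0 (nd c r) = 0) (hrV : cV ε x0 y0 (nd c p) < cV ε x0 y0 (nd c r))
    (hrm : cV ε x0 y0 (nd c r) ≤ Vm)
    (hrt : Co H r t) (ht : cV ε x0 y0 (nd c t) = 0) (hx : Co H' p x)
    (hq : IsUnit4 (q - nd c x)) (hq0 : 0 ≤ cU ε x0 y0 q ∧ -2 ≤ cV ε x0 y0 q)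
    (hqF : FarP ε x0 y0 h Um Vm q) :
    ∃ w, Co H r w ∧ Co H' p w := by
  set k : ℤ × ℤ := ((nd c t).1 + 1, (nd c t).2 - ε) with hk
  have hkU : cU ε x0 y0 k = cU ε x0 y0 (nd c t) := by
    rw [hk]; unfold cU cx cy; simp only; rcases hε with rfl | rfl <;> ring
  have hkV : cV ε x0 y0 k = cV ε x0 y0 (nd c t) - 2 := by
    rw [hk]; unfold cV cx cy; simp only; rcases hε with rfl | rfl <;> ring
  have hlow : ∀ z, PS c H r z → 0 ≤ cU ε x0 y0 z ∧ 0 ≤ cV ε x0 y0 z := fun z hz =>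
    PS_low hε (fun x y h1 h2 => by have := hH x y h1 h2; omega) ⟨by omega, by omega⟩ hz
  have hup : ∀ z, PS c H r z → Zn ε x0 y0 h Um Vm z := fun z hz =>
    PS_up hε (fun x y h1 h2 => (hH x y h1 h2).2) (by unfold Zn; omega) hz
  have hlow' : ∀ z, PS c H' p z → 0 ≤ cU ε x0 y0 z ∧ -2 ≤ cV ε x0 y0 z := fun z hz =>
    PS_low hε (fun x y h1 h2 => by have := hH' x y h1 h2; omega) ⟨by omega, by omega⟩ hz
  have ht2 := hlow (nd c t) (Or.inl ⟨t, hrt, rfl⟩)
  have ht3 := hup (nd c t) (Or.inl ⟨t, hrt, rfl⟩)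
  have hZ : ∀ z, (PS c H r z ∨ z = k) → Zn ε x0 y0 h Um Vm z := by
    rintro z (hz | rfl)
    · exact hup z hz
    · unfold Zn at ht3 ⊢; omega
  have key := barrier (S1 := fun z => PS c H r z ∨ z = k) (S2 := PS c H' p) (r := nd c r) (s := k)
    (p := nd c p) (x := nd c x) (q := q) hε
    ((rtg_mono (fun a b h1 => ⟨h1.1.king, Or.inl h1.2⟩) (lift_PS hrt)).tail
      ⟨by
        rw [hk]; unfold King
        simp only [Prod.fst_sub, Prod.snd_sub]
        rcases hε with rfl | rfl <;> omega, Or.inr rfl⟩)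
    (Or.inl PS.self) (lift_PS hx) PS.self hq (by omega) (by omega)
    (fun hz => far_not_zone hqF (hZ q hz)) (fun z hz h2 => far_zone hqF (hZ z hz) h2)
    (by
      rintro z (hz | rfl) h2
      · have := hlow z hz
        unfold cU at hpU this
        omega
      · exfalso
        unfold cU at hpU hkU ht2
        unfold cV at hpV hkV ht ht2
        omega)
    (fun z hz => by have := hlow' z hz; omega)
    (fun z hz => by have := hlow' z hz; omega)
    (by unfold cU at hpU hrU; unfold cV at hrV; omega)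
    (by unfold cU at hpU hkU ht2; unfold cV at hpV hkV ht ht2; omega)
  obtain ⟨z, hz1 | hz1, hz2⟩ := key
  · exact PS_meet hz1 hz2
  · exfalso
    subst hz1
    refine king_notPS (u := t) ?_ ?_ hz2
    · rw [hk]; simp
    · have := nd_even c t
      rw [hk]; simp only
      rcases hε with rfl | rfl <;> omega

/-- **(2)** other colour: the barrier goes from the higher left wall node `g` to the tied floor node `f`
(tie `e`, outer end `o`) -/
theorem hide_LF (hε : ε = 1 ∨ ε = -1) (hh : 1 ≤ h) (hc : c ≠ c') {p g f o e x q : ℤ × ℤ}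
    (hH : ∀ x y, IsUnit4 (y - x) → x + y ∈ H →
      (1 ≤ cU ε x0 y0 (el c' x y) ∧ 1 ≤ cV ε x0 y0 (el c' x y)) ∧
      (cU ε x0 y0 (el c' x y) < Um ∧ cV ε x0 y0 (el c' x y) < Vm) ∧
        (cU ε x0 y0 (el c' x y) < 2 * h ∨ cV ε x0 y0 (el c' x y) < 2 * h))
    (hH' : ∀ x y, IsUnit4 (y - x) → x + y ∈ H' →
      1 ≤ cU ε x0 y0 (el c x y) ∧ -1 ≤ cV ε x0 y0 (el c x y))
    (hne : ∀ x y x' y', IsUnit4 (y - x) → x + y ∈ H → IsUnit4 (y' - x') → x' + y' ∈ H' →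
      el c' x y ≠ el c x' y') (hVm : 0 ≤ Vm)
    (hpU : cU ε x0 y0 (nd c p) = 0) (hpV : 1 ≤ cV ε x0 y0 (nd c p))
    (hgU : cU ε x0 y0 (nd c' g) = 0) (hgV : cV ε x0 y0 (nd c p) < cV ε x0 y0 (nd c' g))
    (hgf : Co H g f) (hf : cV ε x0 y0 (nd c' f) = 0) (hfm : cU ε x0 y0 (nd c' f) ≤ Um)
    (hfo : IsUnit4 (o - f)) (he : e = el c' f o)
    (heV : cV ε x0 y0 e = -1) (hem : cU ε x0 y0 e ≤ Um)
    (hoV : cV ε x0 y0 (nd c' o) = -2) (hom : cU ε x0 y0 (nd c' o) ≤ Um)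
    (heH : ∀ x y, IsUnit4 (y - x) → x + y ∈ H' → el c x y ≠ e)
    (hx : Co H' p x)
    (hq : IsUnit4 (q - nd c x)) (hq0 : 0 ≤ cU ε x0 y0 q ∧ -2 ≤ cV ε x0 y0 q)
    (hqF : FarP ε x0 y0 h Um Vm q) :
    False := by
  have hlow : ∀ z, PS c' H g z → 0 ≤ cU ε x0 y0 z ∧ 0 ≤ cV ε x0 y0 z := fun z hz =>
    PS_low hε (fun x y h1 h2 => by have := hH x y h1 h2; omega) ⟨by omega, by omega⟩ hz
  have hup : ∀ z, PS c' H g z → Zn ε x0 y0 h Um Vm z := fun z hz =>
    PS_up hε (fun x y h1 h2 => (hH x y h1 h2).2) (u := f) (by unfold Zn; omega)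
      (PS.congr hgf.symm hz)
  have hlow' : ∀ z, PS c H' p z → 0 ≤ cU ε x0 y0 z ∧ -2 ≤ cV ε x0 y0 z := fun z hz =>
    PS_low hε (fun x y h1 h2 => by have := hH' x y h1 h2; omega) ⟨by omega, by omega⟩ hz
  have hf2 := hlow (nd c' f) (Or.inl ⟨f, hgf, rfl⟩)
  have s1 := nd_el (c := c') hfo
  rw [← he] at s1
  have u1 := unit_UV (x0 := x0) (y0 := y0) hε s1.1
  have u2 := unit_UV (x0 := x0) (y0 := y0) hε s1.2
  have hZ : ∀ z, (PS c' H g z ∨ z = e ∨ z = nd c' o) → Zn ε x0 y0 h Um Vm z := by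
    rintro z (hz | rfl | rfl)
    · exact hup z hz
    · unfold Zn; omega
    · unfold Zn; omega
  have key := barrier (S1 := fun z => PS c' H g z ∨ z = e ∨ z = nd c' o) (S2 := PS c H' p)
    (r := nd c' g) (s := nd c' o) (p := nd c p) (x := nd c x) (q := q) hε
    (((rtg_mono (fun a b h1 => ⟨h1.1.king, Or.inl h1.2⟩) (lift_PS hgf)).tail
      ⟨s1.1.king, Or.inr (Or.inl rfl)⟩).tail ⟨s1.2.king, Or.inr (Or.inr rfl)⟩)
    (Or.inl PS.self) (lift_PS hx) PS.self hq (by omega) (by omega)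
    (fun hz => far_not_zone hqF (hZ q hz)) (fun z hz h2 => far_zone hqF (hZ z hz) h2)
    (by
      rintro z (hz | rfl | rfl) h2
      · have := hlow z hz
        unfold cU at hpU this
        omega
      · exfalso
        unfold cU at hpU hf2 u1
        unfold cV at hpV hf hf2 heV u1
        omega
      · exfalso
        unfold cU at hpU hf2 u1 u2
        unfold cV at hpV hf hf2 heV hoV u1 u2
        omega)
    (fun z hz => by have := hlow' z hz; omega)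
    (fun z hz => by have := hlow' z hz; omega)
    (by unfold cU at hpU hgU; unfold cV at hgV; omega)
    (by
      unfold cU at hpU hf2 u1 u2
      unfold cV at hpV hf hf2 heV hoV u1 u2
      omega)
  obtain ⟨z, hz1 | rfl | rfl, hz2⟩ := key
  · obtain ⟨a, b, a', b', g1, g2, g3, g4, g5⟩ := PS_opp (Ne.symm hc) hz1 hz2
    exact hne a b a' b' g1 g2 g3 g4 g5
  · rcases hz2 with ⟨w, -, h1⟩ | ⟨w, v, -, h2, h3, h1⟩
    · have e1 := nd_even c w
      have e2 := el_odd (c := c') hfo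
      rw [← he, h1] at e2; omega
    · exact heH w v h2 h3 h1.symm
  · rcases hz2 with ⟨w, -, h1⟩ | ⟨w, v, -, h2, h3, h1⟩
    · exact nd_ne (Ne.symm hc) h1
    · have e1 := nd_even c' o
      have e2 := el_odd (c := c) h2
      rw [h1] at e1; omega

/-- **(3)** other colour: the barrier goes from the tied left wall node `r` (tie `e`, outer end `o`) to
the floor node `t` -/
theorem hide_FL (hε : ε = 1 ∨ ε = -1) (hh : 1 ≤ h) (hc : c ≠ c') {p r t o e x q : ℤ × ℤ}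
    (hH : ∀ x y, IsUnit4 (y - x) → x + y ∈ H →
      (1 ≤ cU ε x0 y0 (el c' x y) ∧ 1 ≤ cV ε x0 y0 (el c' x y)) ∧
      (cU ε x0 y0 (el c' x y) < Um ∧ cV ε x0 y0 (el c' x y) < Vm) ∧
        (cU ε x0 y0 (el c' x y) < 2 * h ∨ cV ε x0 y0 (el c' x y) < 2 * h))
    (hH' : ∀ x y, IsUnit4 (y - x) → x + y ∈ H' →
      -1 ≤ cU ε x0 y0 (el c x y) ∧ 1 ≤ cV ε x0 y0 (el c x y))
    (hne : ∀ x y x' y', IsUnit4 (y - x) → x + y ∈ H → IsUnit4 (y' - x') → x' + y' ∈ H' →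
      el c' x y ≠ el c x' y') (hUm : 0 ≤ Um)
    (hpU : cU ε x0 y0 (nd c p) = 0) (hpV : 1 ≤ cV ε x0 y0 (nd c p))
    (hrU : cU ε x0 y0 (nd c' r) = 0) (hrV : cV ε x0 y0 (nd c p) < cV ε x0 y0 (nd c' r))
    (hrm : cV ε x0 y0 (nd c' r) ≤ Vm)
    (hrt : Co H r t) (ht : cV ε x0 y0 (nd c' t) = 0) (hro : IsUnit4 (o - r)) (he : e = el c' r o)
    (heU : cU ε x0 y0 e = -1) (hem : cV ε x0 y0 e ≤ Vm)
    (hoU : cU ε x0 y0 (nd c' o) = -2) (hom : cV ε x0 y0 (nd c' o) ≤ Vm)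
    (heH : ∀ x y, IsUnit4 (y - x) → x + y ∈ H' → el c x y ≠ e)
    (hx : Co H' p x)
    (hq : IsUnit4 (q - nd c x)) (hq0 : -2 ≤ cU ε x0 y0 q ∧ 0 ≤ cV ε x0 y0 q)
    (hqF : FarP ε x0 y0 h Um Vm q) :
    False := by
  have hlow : ∀ z, PS c' H r z → 0 ≤ cU ε x0 y0 z ∧ 0 ≤ cV ε x0 y0 z := fun z hz =>
    PS_low hε (fun x y h1 h2 => by have := hH x y h1 h2; omega) ⟨by omega, by omega⟩ hz
  have hup : ∀ z, PS c' H r z → Zn ε x0 y0 h Um Vm z := fun z hz =>
    PS_up hε (fun x y h1 h2 => (hH x y h1 h2).2) (by unfold Zn; omega) hz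
  have hlow' : ∀ z, PS c H' p z → -2 ≤ cU ε x0 y0 z ∧ 0 ≤ cV ε x0 y0 z := fun z hz =>
    PS_low hε (fun x y h1 h2 => by have := hH' x y h1 h2; omega) ⟨by omega, by omega⟩ hz
  have ht2 := hlow (nd c' t) (Or.inl ⟨t, hrt, rfl⟩)
  have s1 := nd_el (c := c') hro
  rw [← he] at s1
  have s2 : IsUnit4 (nd c' r - e) := unit_symm s1.1
  have s3 : IsUnit4 (e - nd c' o) := unit_symm s1.2
  have u1 := unit_UV (x0 := x0) (y0 := y0) hε s1.1
  have u2 := unit_UV (x0 := x0) (y0 := y0) hε s1.2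
  have hp1 : Relation.ReflTransGen (fun u v : ℤ × ℤ => King (v - u) ∧
      (PS c' H r v ∨ v = e ∨ v = nd c' o)) (nd c' o) (nd c' r) :=
    (Relation.ReflTransGen.single (b := e) ⟨s3.king, Or.inr (Or.inl rfl)⟩).tail
      ⟨s2.king, Or.inl PS.self⟩
  have hZ : ∀ z, (PS c' H r z ∨ z = e ∨ z = nd c' o) → Zn ε x0 y0 h Um Vm z := by
    rintro z (hz | rfl | rfl)
    · exact hup z hz
    · unfold Zn; omega
    · unfold Zn; omega
  have key := barrier (S1 := fun z => PS c' H r z ∨ z = e ∨ z = nd c' o) (S2 := PS c H' p)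
    (r := nd c' o) (s := nd c' t) (p := nd c p) (x := nd c x) (q := q) hε
    (hp1.trans (rtg_mono (fun a b h1 => ⟨h1.1.king, Or.inl h1.2⟩) (lift_PS hrt)))
    (Or.inr (Or.inr rfl)) (lift_PS hx) PS.self hq (by omega) (by omega)
    (fun hz => far_not_zone hqF (hZ q hz)) (fun z hz h2 => far_zone hqF (hZ z hz) h2)
    (by
      rintro z (hz | rfl | rfl) h2
      · have := hlow z hz
        unfold cU at hpU this
        omega
      · exfalso
        unfold cU at hpU hrU heU u1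
        unfold cV at hrV u1
        omega
      · exfalso
        unfold cU at hpU hrU heU hoU u1 u2
        unfold cV at hrV u1 u2
        omega)
    (fun z hz => by have := hlow' z hz; omega)
    (fun z hz => by have := hlow' z hz; omega)
    (by
      unfold cU at hpU hrU heU hoU u1 u2
      unfold cV at hrV u1 u2
      omega)
    (by
      unfold cU at hpU ht2
      unfold cV at hpV ht ht2
      omega)
  obtain ⟨z, hz1 | rfl | rfl, hz2⟩ := key
  · obtain ⟨a, b, a', b', g1, g2, g3, g4, g5⟩ := PS_opp (Ne.symm hc) hz1 hz2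
    exact hne a b a' b' g1 g2 g3 g4 g5
  · rcases hz2 with ⟨w, -, h1⟩ | ⟨w, v, -, h2, h3, h1⟩
    · have e1 := nd_even c w
      have e2 := el_odd (c := c') hro
      rw [← he, h1] at e2; omega
    · exact heH w v h2 h3 h1.symm
  · rcases hz2 with ⟨w, -, h1⟩ | ⟨w, v, -, h2, h3, h1⟩
    · exact nd_ne (Ne.symm hc) h1
    · have e1 := nd_even c' o
      have e2 := el_odd (c := c) h2
      rw [h1] at e1; omega

/-- **(4)** same colour, both at the floor: the path from the left wall node `p` to the outside meets the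
barrier from the higher left wall node `g` to the floor node `f` -/
theorem hide_FF (hε : ε = 1 ∨ ε = -1) (hh : 1 ≤ h) {p g f x q : ℤ × ℤ}
    (hH : ∀ x y, IsUnit4 (y - x) → x + y ∈ H →
      (1 ≤ cU ε x0 y0 (el c x y) ∧ 1 ≤ cV ε x0 y0 (el c x y)) ∧
      (cU ε x0 y0 (el c x y) < Um ∧ cV ε x0 y0 (el c x y) < Vm) ∧
        (cU ε x0 y0 (el c x y) < 2 * h ∨ cV ε x0 y0 (el c x y) < 2 * h))
    (hH' : ∀ x y, IsUnit4 (y - x) → x + y ∈ H' →
      -1 ≤ cU ε x0 y0 (el c x y) ∧ 1 ≤ cV ε x0 y0 (el c x y)) (hVm : 0 ≤ Vm)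
    (hpU : cU ε x0 y0 (nd c p) = 0) (hpV : 1 ≤ cV ε x0 y0 (nd c p))
    (hgU : cU ε x0 y0 (nd c g) = 0) (hgV : cV ε x0 y0 (nd c p) < cV ε x0 y0 (nd c g))
    (hgf : Co H g f) (hf : cV ε x0 y0 (nd c f) = 0) (hfm : cU ε x0 y0 (nd c f) ≤ Um)
    (hx : Co H' p x)
    (hq : IsUnit4 (q - nd c x)) (hq0 : -2 ≤ cU ε x0 y0 q ∧ 0 ≤ cV ε x0 y0 q)
    (hqF : FarP ε x0 y0 h Um Vm q) :
    ∃ w, Co H g w ∧ Co H' p w := by
  set k : ℤ × ℤ := ((nd c g).1 - 1, (nd c g).2 - ε) with hk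
  have hkU : cU ε x0 y0 k = cU ε x0 y0 (nd c g) - 2 := by
    rw [hk]; unfold cU cx cy; simp only; rcases hε with rfl | rfl <;> ring
  have hkV : cV ε x0 y0 k = cV ε x0 y0 (nd c g) := by
    rw [hk]; unfold cV cx cy; simp only; rcases hε with rfl | rfl <;> ring
  have hlow : ∀ z, PS c H g z → 0 ≤ cU ε x0 y0 z ∧ 0 ≤ cV ε x0 y0 z := fun z hz =>
    PS_low hε (fun x y h1 h2 => by have := hH x y h1 h2; omega) ⟨by omega, by omega⟩ hz
  have hup : ∀ z, PS c H g z → Zn ε x0 y0 h Um Vm z := fun z hz =>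
    PS_up hε (fun x y h1 h2 => (hH x y h1 h2).2) (u := f)
      (by have := hlow (nd c f) (Or.inl ⟨f, hgf, rfl⟩); unfold Zn; omega)
      (PS.congr hgf.symm hz)
  have hlow' : ∀ z, PS c H' p z → -2 ≤ cU ε x0 y0 z ∧ 0 ≤ cV ε x0 y0 z := fun z hz =>
    PS_low hε (fun x y h1 h2 => by have := hH' x y h1 h2; omega) ⟨by omega, by omega⟩ hz
  have hf2 := hlow (nd c f) (Or.inl ⟨f, hgf, rfl⟩)
  have hg2 := hup (nd c g) PS.self
  have hkg : King (nd c g - k) := by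
    rw [hk]; unfold King
    simp only [Prod.fst_sub, Prod.snd_sub]
    rcases hε with rfl | rfl <;> omega
  have hp1 : Relation.ReflTransGen (fun u v : ℤ × ℤ => King (v - u) ∧
      (PS c H g v ∨ v = k)) k (nd c g) :=
    Relation.ReflTransGen.single ⟨hkg, Or.inl PS.self⟩
  have hZ : ∀ z, (PS c H g z ∨ z = k) → Zn ε x0 y0 h Um Vm z := by
    rintro z (hz | rfl)
    · exact hup z hz
    · unfold Zn at hg2 ⊢; omega
  have key := barrier (S1 := fun z => PS c H g z ∨ z = k) (S2 := PS c H' p) (r := k) (s := nd c f)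
    (p := nd c p) (x := nd c x) (q := q) hε
    (hp1.trans (rtg_mono (fun a b h1 => ⟨h1.1.king, Or.inl h1.2⟩) (lift_PS hgf)))
    (Or.inr rfl) (lift_PS hx) PS.self hq (by omega) (by omega)
    (fun hz => far_not_zone hqF (hZ q hz)) (fun z hz h2 => far_zone hqF (hZ z hz) h2)
    (by
      rintro z (hz | rfl) h2
      · have := hlow z hz
        unfold cU at hpU this
        omega
      · exfalso
        unfold cU at hpU hgU hkU
        unfold cV at hgV hkV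
        omega)
    (fun z hz => by have := hlow' z hz; omega)
    (fun z hz => by have := hlow' z hz; omega)
    (by unfold cU at hpU hgU hkU; unfold cV at hgV hkV; omega)
    (by unfold cU at hpU hf2; unfold cV at hpV hf hf2; omega)
  obtain ⟨z, hz1 | hz1, hz2⟩ := key
  · exact PS_meet hz1 hz2
  · exfalso
    subst hz1
    refine king_notPS (u := g) ?_ ?_ hz2
    · rw [hk]; simp only; omega
    · have := nd_even c g
      rw [hk]; simp only
      rcases hε with rfl | rfl <;> omega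

end chart

end Pool.Agent.H39.Q1
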