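import Mathlib
import Pool.Agent.H39.Q1.HideP
import Pool.Agent.H39.Q1.Chain
import Pool.Agent.H39.Q1.Multi

set_option autoImplicit false
open Finset

/-! # The hiding lemma for the classes at a marked corner with ties on both walls

`Λ i` : extended layer of the family `i` (the bulk labels `L` near the two walls and the labels in front
of the other wall). `iL` : family of the left wall, `iF` : family of the floor (opposite colours). -/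

namespace Pool.Agent.H39.Q1

open Pool.Agent.H75.Perc Pool.Agent.H75.TwoArm Pool.Agent.H75.Four Pool.Agent.H69.Q1
open Pool.Agent.Q1 Pool.Agent.H25.Q1.Add Pool.Agent.H99.NC Pool.Agent.H49.Perc
open Pool.Agent.H20.Q1 (Eh CS hf)

variable {ι : Type*} [DecidableEq ι]

/-- open labels other than the ties (and the wall, for open ties) of the family `i` -/
noncomputable def GS (W TT : Finset (ℤ × ℤ)) (fm : ℤ × ℤ → ι) (co : ι → Bool)
    (Wl : ι → Finset (ℤ × ℤ)) (i : ι) (P ω ω' : Finset (ℤ × ℤ)) : Finset (ℤ × ℤ) :=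
  (ω ∪ (ω' ∪ (opn TT fm co P \ TF TT fm i))) ∪ (if co i = true then W \ Wl i else W)

/-- possible exits for the colour of the family `i` -/
def av (Bb W TT : Finset (ℤ × ℤ)) (fm : ℤ × ℤ → ι) (co : ι → Bool)
    (Wl : ι → Finset (ℤ × ℤ)) (i : ι) (l : ℤ × ℤ) : Prop :=
  if co i = true then l ∈ Bb ∪ (TT \ TF TT fm i) ∪ (W \ Wl i)
  else l ∉ W ∪ (TF TT fm i ∪ Wl i)

/-- nodes of the layer `Λ` -/
def VN (c : Bool) (Λ T : Finset (ℤ × ℤ)) (b : ℤ × ℤ → ℤ × ℤ) (x : ℤ × ℤ) : Prop :=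
  (∃ e ∈ T, b e = x) ∨ ∃ z, IsUnit4 (z - x) ∧ el c x z ∈ Λ

variable {X : Env} {W Bb B TT Cs ω ω' θ P : Finset (ℤ × ℤ)}
  {fm : ℤ × ℤ → ι} {co : ι → Bool} {Wl La Λ : ι → Finset (ℤ × ℤ)}
  {b o : ℤ × ℤ → ℤ × ℤ} {a : ℤ × ℤ → ℂ} {s : ℤ × ℤ → ℂ} {e x y : ℤ × ℤ} {i : ι}

/-- the cluster of the tie `e` is confined to the layer `Λ` -/
def Conf (W TT : Finset (ℤ × ℤ)) (fm : ℤ × ℤ → ι) (co : ι → Bool) (Wl Λ : ι → Finset (ℤ × ℤ))
    (b : ℤ × ℤ → ℤ × ℤ) (i : ι) (P ω ω' : Finset (ℤ × ℤ)) (e : ℤ × ℤ) : Prop :=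
  ∀ x y, Co (HS (co i) (Λ i) (GS W TT fm co Wl i P ω ω')) (b e) x → IsUnit4 (y - x) →
    (if co i = true then el (co i) x y ∈ GS W TT fm co Wl i P ω ω'
      else el (co i) x y ∉ GS W TT fm co Wl i P ω ω' ∪ (TF TT fm i ∪ Wl i)) →
    el (co i) x y ∈ Λ i

/-- **One toggle**, general layers. -/
theorem Multi.toggleX (h : Multi X W Bb B TT fm co Wl La b o)
    (hc : ∀ c ∈ Cs, FarM X TT fm co Wl Λ b o c)
    (hΛ : co i = false → Disjoint (Λ i) (TF TT fm i)) (hω : ω ⊆ B) (_hP : P ⊆ TT) (he : e ∈ TT)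
    (hei : fm e = i) (heP : e ∉ P)
    (hcase : ∀ ω' ⊆ Bb \ B, Conf W TT fm co Wl Λ b i P ω ω' e ∨
      ∃ e' ∈ P, fm e' = i ∧ e' ∈ TT ∧
        Co (HS (co i) (Λ i) (GS W TT fm co Wl i P ω ω')) (b e) (b e')) :
    VM X Cs a Bb B TT fm co ω P = VM X Cs a Bb B TT fm co ω (insert e P) := by
  classical
  unfold VM
  refine Ec_congr fun ω' hω' => ?_
  unfold U
  refine sum_congr rfl fun c hcs => ?_
  congr 1
  set T := TF TT fm i with hT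
  have heT : e ∈ T := mem_TF.2 ⟨he, hei⟩
  set θ := ω' ∪ (opn TT fm co P \ T) with hθ
  have hω'B : ω' ⊆ Bb := hω'.trans sdiff_subset
  have hopT : opn TT fm co P \ T ⊆ TT \ T := fun l hl => by
    obtain ⟨h1, h2⟩ := mem_sdiff.1 hl
    exact mem_sdiff.2 ⟨(mem_opn.1 h1).1, h2⟩
  have hθ1 : θ ⊆ Bb ∪ (TT \ T) := union_subset_union hω'B hopT
  have hGo : ω ∪ θ ⊆ X.E \ T := by
    intro l hl
    rw [mem_sdiff]
    rcases mem_union.1 hl with h1 | h1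
    · refine ⟨h.bE (h.bB (hω h1)), fun h2 => ?_⟩
      exact disjoint_left.1 h.bT (h.bB (hω h1)) (mem_TF.1 h2).1
    · rcases mem_union.1 (hθ1 h1) with h3 | h3
      · exact ⟨h.bE h3, fun h2 => disjoint_left.1 h.bT h3 (mem_TF.1 h2).1⟩
      · exact ⟨h.tE (mem_sdiff.1 h3).1, (mem_sdiff.1 h3).2⟩
  have hPT : P ∩ T ⊆ T := inter_subset_right
  have hePT : e ∉ P ∩ T := fun h1 => heP (mem_inter.1 h1).1
  have hcs' := hcase ω' hω'
  rcases hco : co i with _ | _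
  · -- closed
    obtain ⟨N, hN⟩ := (hc c hcs).farC (i := i) hco (ω ∪ θ ∪ W)
    have key := incO_tie_closed (N := N) h.pl (h.tC i hco) hGo (hΛ hco) hN hPT heT hePT ?_
    · have e1 : ω ∪ ω' ∪ opn TT fm co P = ω ∪ θ ∪ (T \ (P ∩ T)) := by
        ext l
        simp only [hθ, mem_union, mem_sdiff, mem_inter, mem_opn]
        by_cases h1 : l ∈ T
        · have h2 := mem_TF.1 h1
          rw [h2.2, hco]
          have : ¬ (false = true) := Bool.false_ne_true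
          clear * - h1 h2 this
          tauto
        · clear * - h1
          tauto
      have e2 : ω ∪ ω' ∪ opn TT fm co (insert e P) = ω ∪ θ ∪ (T \ insert e (P ∩ T)) := by
        ext l
        simp only [hθ, mem_union, mem_sdiff, mem_inter, mem_opn, mem_insert]
        by_cases h1 : l ∈ T
        · have h2 := mem_TF.1 h1
          rw [h2.2, hco]
          have : ¬ (false = true) := Bool.false_ne_true
          clear * - h1 h2 this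
          tauto
        · have h2 : l ≠ e := fun h3 => h1 (h3 ▸ heT)
          clear * - h1 h2
          tauto
      rw [e1, e2]
      exact key
    · have hne : ¬ (false = true) := Bool.false_ne_true
      have eG : GS W TT fm co Wl i P ω ω' = ω ∪ θ ∪ W := by
        unfold GS; rw [hco, if_neg hne]
      rcases hcs' with h1 | ⟨e', h1, h2, h3, h4⟩
      · left; left
        intro x y h5 h6 h7
        unfold Conf at h1
        rw [hco, eG] at h1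
        refine h1 x y ?_ h6 ?_
        · unfold HS; rw [if_neg hne]; exact h5
        · rw [if_neg hne]; exact h7
      · right
        refine ⟨e', mem_inter.2 ⟨h1, mem_TF.2 ⟨h3, h2⟩⟩, ?_⟩
        rw [hco, eG] at h4
        unfold HS at h4; rw [if_neg hne] at h4
        exact h4
  · -- open
    have key := incO_tie_open h.pl (h.tO i hco) hGo ((hc c hcs).farO (i := i) hco _) hPT heT hePT ?_
    · have e1 : ω ∪ ω' ∪ opn TT fm co P = ω ∪ θ ∪ (P ∩ T) := by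
        ext l
        simp only [hθ, mem_union, mem_sdiff, mem_inter, mem_opn]
        by_cases h1 : l ∈ T
        · have h2 := mem_TF.1 h1
          rw [h2.2, hco]
          clear * - h1 h2
          tauto
        · clear * - h1
          tauto
      have e2 : ω ∪ ω' ∪ opn TT fm co (insert e P) = ω ∪ θ ∪ insert e (P ∩ T) := by
        ext l
        simp only [hθ, mem_union, mem_sdiff, mem_inter, mem_opn, mem_insert]
        by_cases h1 : l ∈ T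
        · have h2 := mem_TF.1 h1
          rw [h2.2, hco]
          clear * - h1 h2
          tauto
        · have h2 : l ≠ e := fun h3 => h1 (h3 ▸ heT)
          clear * - h1 h2
          tauto
      rw [e1, e2]
      exact key
    · have eG : GS W TT fm co Wl i P ω ω' = ω ∪ θ ∪ (W \ Wl i) := by
        unfold GS; rw [hco, if_pos rfl]
      rcases hcs' with h1 | ⟨e', h1, h2, h3, h4⟩
      · left; left
        intro x y h5 h6 h7
        unfold Conf at h1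
        rw [hco, eG] at h1
        refine h1 x y ?_ h6 ?_
        · unfold HS; rw [if_pos rfl]; exact h5
        · rw [if_pos rfl]; exact h7
      · right
        refine ⟨e', mem_inter.2 ⟨h1, mem_TF.2 ⟨h3, h2⟩⟩, ?_⟩
        rw [hco, eG] at h4
        unfold HS at h4; rw [if_pos rfl] at h4
        exact h4

/-- **Geometry at a marked corner with ties on both walls.** -/
structure Cnr (W Bb B TT : Finset (ℤ × ℤ)) (fm : ℤ × ℤ → ι) (co : ι → Bool)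
    (Wl La Λ : ι → Finset (ℤ × ℤ)) (b o : ℤ × ℤ → ℤ × ℤ) (L : Finset (ℤ × ℤ)) (iL iF : ι)
    (ε x0 y0 h Um Vm : ℤ) : Prop where
  hε : ε = 1 ∨ ε = -1
  hh : 1 ≤ h
  Um0 : 0 ≤ Um
  Vm0 : 0 ≤ Vm
  col : co iF = !(co iL)
  LB : L ⊆ B
  Lr : ∀ l ∈ L, (1 ≤ cU ε x0 y0 l ∧ 1 ≤ cV ε x0 y0 l) ∧
    (cU ε x0 y0 l < Um ∧ cV ε x0 y0 l < Vm) ∧ (cU ε x0 y0 l < 2 * h ∨ cV ε x0 y0 l < 2 * h)
  laL : La iL ⊆ L
  laF : La iF ⊆ L
  LΛL : L ⊆ Λ iL
  LΛF : L ⊆ Λ iF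
  ΛL : ∀ l ∈ Λ iL, 1 ≤ cU ε x0 y0 l ∧ -1 ≤ cV ε x0 y0 l
  ΛF : ∀ l ∈ Λ iF, -1 ≤ cU ε x0 y0 l ∧ 1 ≤ cV ε x0 y0 l
  dL : Disjoint (Λ iL) (TF TT fm iL)
  dF : Disjoint (Λ iF) (TF TT fm iF)
  tL : ∀ e ∈ TF TT fm iL, IsUnit4 (o e - b e) ∧ e = el (co iL) (b e) (o e) ∧
    cU ε x0 y0 (nd (co iL) (b e)) = 0 ∧ 1 ≤ cV ε x0 y0 (nd (co iL) (b e)) ∧
    cU ε x0 y0 e = -1 ∧ cU ε x0 y0 (nd (co iL) (o e)) = -2
  tLm : ∀ e ∈ TF TT fm iL, cV ε x0 y0 (nd (co iL) (b e)) ≤ Vm ∧ cV ε x0 y0 e ≤ Vm ∧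
    cV ε x0 y0 (nd (co iL) (o e)) ≤ Vm
  tF : ∀ f ∈ TF TT fm iF, IsUnit4 (o f - b f) ∧ f = el (co iF) (b f) (o f) ∧
    cV ε x0 y0 (nd (co iF) (b f)) = 0 ∧
    cV ε x0 y0 f = -1 ∧ cV ε x0 y0 (nd (co iF) (o f)) = -2
  tFm : ∀ f ∈ TF TT fm iF, cU ε x0 y0 (nd (co iF) (b f)) ≤ Um ∧ cU ε x0 y0 f ≤ Um ∧
    cU ε x0 y0 (nd (co iF) (o f)) ≤ Um
  exL : ∀ x y, IsUnit4 (y - x) → VN (co iL) (Λ iL) (TF TT fm iL) b x →
    av Bb W TT fm co Wl iL (el (co iL) x y) → el (co iL) x y ∈ Λ iL ∨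
      ∃ q, IsUnit4 (q - nd (co iL) x) ∧ (0 ≤ cU ε x0 y0 q ∧ -2 ≤ cV ε x0 y0 q) ∧
        FarP ε x0 y0 h Um Vm q
  exF : ∀ x y, IsUnit4 (y - x) → VN (co iF) (Λ iF) (TF TT fm iF) b x →
    av Bb W TT fm co Wl iF (el (co iF) x y) → el (co iF) x y ∈ Λ iF ∨
      ∃ q, IsUnit4 (q - nd (co iF) x) ∧ (-2 ≤ cU ε x0 y0 q ∧ 0 ≤ cV ε x0 y0 q) ∧
        FarP ε x0 y0 h Um Vm q

lemma VN_of_co {c : Bool} {H Λ T : Finset (ℤ × ℤ)} (he : e ∈ T)
    (hH : ∀ x y, IsUnit4 (y - x) → x + y ∈ H → el c x y ∈ Λ) (h : Co H (b e) x) :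
    VN c Λ T b x := by
  rcases Relation.ReflTransGen.cases_tail h with h1 | ⟨p, -, h1⟩
  · exact Or.inl ⟨e, he, h1.symm⟩
  · right
    refine ⟨p, unit_symm h1.1, ?_⟩
    have := hH p x h1.1 h1.2
    rcases c with _ | _
    · rw [el_false] at this ⊢; rw [add_comm x p]; exact this
    · rw [el_true] at this ⊢; rw [add_comm x p]; exact this

/-- the states of the labels of `B` -/
lemma Multi.GS_B (h : Multi X W Bb B TT fm co Wl La b o) (hω' : ω' ⊆ Bb \ B) {l : ℤ × ℤ}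
    (hl : l ∈ B) : l ∈ GS W TT fm co Wl i P ω ω' ↔ l ∈ ω := by
  have h1 : l ∉ ω' := fun h2 => (mem_sdiff.1 (hω' h2)).2 hl
  have h3 : l ∉ opn TT fm co P := fun h4 => disjoint_left.1 h.bT (h.bB hl) (mem_opn.1 h4).1
  have h5 : l ∉ W := fun h6 => disjoint_left.1 h.bW (h.bB hl) h6
  unfold GS
  split_ifs <;> simp only [mem_union, mem_sdiff] <;> tauto

/-- what is passed is available -/
lemma Multi.av_of (h : Multi X W Bb B TT fm co Wl La b o) (hω : ω ⊆ B) (hω' : ω' ⊆ Bb \ B)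
    {l : ℤ × ℤ} (hl : if co i = true then l ∈ GS W TT fm co Wl i P ω ω'
      else l ∉ GS W TT fm co Wl i P ω ω' ∪ (TF TT fm i ∪ Wl i)) :
    av Bb W TT fm co Wl i l := by
  unfold av
  unfold GS at hl
  split_ifs at hl ⊢ with hc
  · simp only [mem_union, mem_sdiff, mem_opn] at hl ⊢
    rcases hl with (h1 | h1 | h1) | h1
    · exact Or.inl (Or.inl (h.bB (hω h1)))
    · exact Or.inl (Or.inl (mem_sdiff.1 (hω' h1)).1)
    · exact Or.inl (Or.inr ⟨h1.1.1, h1.2⟩)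
    · exact Or.inr h1
  · simp only [mem_union, not_or] at hl ⊢
    exact ⟨hl.1.2, hl.2⟩

section corner

variable {L : Finset (ℤ × ℤ)} {iL iF : ι} {ε x0 y0 h Um Vm : ℤ} {e2 f t g : ℤ × ℤ}

lemma HS_el {c : Bool} {Λ G : Finset (ℤ × ℤ)} : ∀ x y, IsUnit4 (y - x) → x + y ∈ HS c Λ G →
    el c x y ∈ Λ := fun _ _ _ h => (mem_HS.1 h).1

/-- the graph of the bulk labels near the walls is part of the graph of the extended layer -/
lemma Cnr.mono (hM : Multi X W Bb B TT fm co Wl La b o)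
    (hC : Cnr W Bb B TT fm co Wl La Λ b o L iL iF ε x0 y0 h Um Vm) (hω' : ω' ⊆ Bb \ B)
    (hΛ : L ⊆ Λ i) {c : Bool} {p q : ℤ × ℤ} (hpq : Co (HS c L ω) p q) :
    Co (HS c (Λ i) (GS W TT fm co Wl i P ω ω')) p q :=
  co_HS_mono hΛ (fun _ hl => (hM.GS_B hω' (hC.LB hl)).symm) hpq

lemma Cnr.neq (hC : Cnr W Bb B TT fm co Wl La Λ b o L iL iF ε x0 y0 h Um Vm) : co iL ≠ co iF := by
  rw [hC.col]; cases co iL <;> simp

/-- labels of bulk barriers and of paths of the other colour differ -/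
lemma Cnr.opp (hM : Multi X W Bb B TT fm co Wl La b o)
    (hC : Cnr W Bb B TT fm co Wl La Λ b o L iL iF ε x0 y0 h Um Vm) (hω' : ω' ⊆ Bb \ B) {c c' : Bool}
    (hcc : c ≠ c') : ∀ x y x' y', IsUnit4 (y - x) → x + y ∈ HS c' L ω → IsUnit4 (y' - x') →
      x' + y' ∈ HS c (Λ i) (GS W TT fm co Wl i P ω ω') → el c' x y ≠ el c x' y' := by
  intro x y x' y' _ h1 _ h2 h3
  obtain ⟨g1, g2⟩ := mem_HS.1 h1
  obtain ⟨g3, g4⟩ := mem_HS.1 h2
  rw [← h3] at g4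
  exact not_both_ps (Ne.symm hcc) g2 g4 (hM.GS_B hω' (hC.LB g1)).symm

/-- a tied tie of the other family is not passed -/
lemma Multi.tied_not (hM : Multi X W Bb B TT fm co Wl La b o) {j : ι} (hij : co i ≠ co j)
    (hω : ω ⊆ B) (hω' : ω' ⊆ Bb \ B) (hf : f ∈ TT) (hfj : fm f = j) (hfP : f ∈ P) :
    ∀ x y, IsUnit4 (y - x) → x + y ∈ HS (co i) (Λ i) (GS W TT fm co Wl i P ω ω') →
      el (co i) x y ≠ f := by
  intro x y _ h1 h2
  obtain ⟨-, g2⟩ := mem_HS.1 h1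
  rw [h2] at g2
  have hfi : fm f ≠ i := fun h3 => hij (by rw [← hfj, h3])
  have hfB : f ∉ Bb := fun h3 => disjoint_left.1 hM.bT h3 hf
  have hfW : f ∉ W := by
    rcases hco : co j with _ | _
    · exact fun h3 => disjoint_left.1 (hM.tC j hco).disj (mem_TF.2 ⟨hf, hfj⟩) h3
    · exact fun h3 => disjoint_left.1 (hM.tO j hco).disj (mem_TF.2 ⟨hf, hfj⟩) h3
  have h3 : f ∉ ω := fun h4 => hfB (hM.bB (hω h4))
  have h4 : f ∉ ω' := fun h5 => hfB (mem_sdiff.1 (hω' h5)).1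
  have hfT : f ∉ TF TT fm i := fun h5 => hfi (mem_TF.1 h5).2
  have key : f ∈ GS W TT fm co Wl i P ω ω' ↔ co j = true := by
    unfold GS
    split_ifs <;> simp only [mem_union, mem_sdiff, mem_opn, hfj] <;> tauto
  unfold ps at g2
  rw [key] at g2
  rcases hi : co i with _ | _ <;> rcases hj : co j with _ | _
  · exact hij (hi.trans hj.symm)
  · rw [hi, hj] at g2; simp at g2
  · rw [hi, hj] at g2; simp at g2
  · exact hij (hi.trans hj.symm)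

lemma Cnr.H1 (hC : Cnr W Bb B TT fm co Wl La Λ b o L iL iF ε x0 y0 h Um Vm) {c : Bool} :
    ∀ x y, IsUnit4 (y - x) → x + y ∈ HS c L ω →
      (1 ≤ cU ε x0 y0 (el c x y) ∧ 1 ≤ cV ε x0 y0 (el c x y)) ∧
      (cU ε x0 y0 (el c x y) < Um ∧ cV ε x0 y0 (el c x y) < Vm) ∧
        (cU ε x0 y0 (el c x y) < 2 * h ∨ cV ε x0 y0 (el c x y) < 2 * h) :=
  fun _ _ _ h1 => hC.Lr _ (mem_HS.1 h1).1

/-- (1) -/
theorem Cnr.toggle_LL (hM : Multi X W Bb B TT fm co Wl La b o)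
    (hC : Cnr W Bb B TT fm co Wl La Λ b o L iL iF ε x0 y0 h Um Vm)
    (hc : ∀ c ∈ Cs, FarM X TT fm co Wl Λ b o c) (hω : ω ⊆ B) (hP : P ⊆ TT)
    (he : e ∈ TT) (hei : fm e = iL) (heP : e ∉ P) (he2 : e2 ∈ P) (he2i : fm e2 = iL)
    (hV : cV ε x0 y0 (nd (co iL) (b e)) < cV ε x0 y0 (nd (co iL) (b e2)))
    (ht : Co (HS (co iL) L ω) (b e2) t) (htV : cV ε x0 y0 (nd (co iL) t) = 0) :
    VM X Cs a Bb B TT fm co ω P = VM X Cs a Bb B TT fm co ω (insert e P) := by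
  refine hM.toggleX (i := iL) hc (fun _ => hC.dL) hω hP he hei heP fun ω' hω' => ?_
  by_contra hcon
  rw [not_or] at hcon
  obtain ⟨h1, h2⟩ := hcon
  have heT : e ∈ TF TT fm iL := mem_TF.2 ⟨he, hei⟩
  obtain ⟨t1, t2, t3, t4, -, -⟩ := hC.tL e heT
  obtain ⟨-, -, s3, s4, -, -⟩ := hC.tL e2 (mem_TF.2 ⟨hP he2, he2i⟩)
  obtain ⟨m1, -, -⟩ := hC.tLm e2 (mem_TF.2 ⟨hP he2, he2i⟩)
  unfold Conf at h1
  push Not at h1
  obtain ⟨x, y, h3, h4, h5, h6⟩ := h1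
  rcases hC.exL x y h4 (VN_of_co heT HS_el h3) (hM.av_of hω hω' h5) with h7 | ⟨q, h7, h8, h9⟩
  · exact h6 h7
  obtain ⟨w, g1, g2⟩ := hide_LL hC.hε hC.hh hC.H1 (fun x y _ h8 => hC.ΛL _ (mem_HS.1 h8).1)
    hC.Um0 t3 t4 s3 hV m1 ht htV h3 h7 h8 h9
  refine h2 ⟨e2, he2, he2i, hP he2, ?_⟩
  exact g2.trans (hC.mono hM hω' hC.LΛL g1).symm

/-- (2) -/
theorem Cnr.toggle_LF (hM : Multi X W Bb B TT fm co Wl La b o)
    (hC : Cnr W Bb B TT fm co Wl La Λ b o L iL iF ε x0 y0 h Um Vm)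
    (hc : ∀ c ∈ Cs, FarM X TT fm co Wl Λ b o c) (hω : ω ⊆ B) (hP : P ⊆ TT)
    (he : e ∈ TT) (hei : fm e = iL) (heP : e ∉ P) (hf : f ∈ P) (hfi : fm f = iF)
    (hg : Co (HS (co iF) L ω) (b f) g) (hgU : cU ε x0 y0 (nd (co iF) g) = 0)
    (hV : cV ε x0 y0 (nd (co iL) (b e)) < cV ε x0 y0 (nd (co iF) g)) :
    VM X Cs a Bb B TT fm co ω P = VM X Cs a Bb B TT fm co ω (insert e P) := by
  refine hM.toggleX (i := iL) hc (fun _ => hC.dL) hω hP he hei heP fun ω' hω' => ?_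
  left
  intro x y h3 h4 h5
  by_contra h6
  have heT : e ∈ TF TT fm iL := mem_TF.2 ⟨he, hei⟩
  obtain ⟨t1, t2, t3, t4, -, -⟩ := hC.tL e heT
  obtain ⟨r1, r2, r3, r4, r5⟩ := hC.tF f (mem_TF.2 ⟨hP hf, hfi⟩)
  obtain ⟨m1, m2, m3⟩ := hC.tFm f (mem_TF.2 ⟨hP hf, hfi⟩)
  rcases hC.exL x y h4 (VN_of_co heT HS_el h3) (hM.av_of hω hω' h5) with h7 | ⟨q, h7, h8, h9⟩
  · exact h6 h7
  exact hide_LF hC.hε hC.hh hC.neq hC.H1 (fun x y _ h8 => hC.ΛL _ (mem_HS.1 h8).1)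
    (hC.opp hM hω' hC.neq) hC.Vm0 t3 t4 hgU hV hg.symm r3 m1 r1 r2 r4 m2 r5 m3
    (hM.tied_not hC.neq hω hω' (hP hf) hfi hf) h3 h7 h8 h9

/-- (3) -/
theorem Cnr.toggle_FL (hM : Multi X W Bb B TT fm co Wl La b o)
    (hC : Cnr W Bb B TT fm co Wl La Λ b o L iL iF ε x0 y0 h Um Vm)
    (hc : ∀ c ∈ Cs, FarM X TT fm co Wl Λ b o c) (hω : ω ⊆ B) (hP : P ⊆ TT)
    (he : e ∈ TT) (hei : fm e = iF) (heP : e ∉ P) (he2 : e2 ∈ P) (he2i : fm e2 = iL)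
    (hg : Co (HS (co iF) L ω) (b e) g) (hgU : cU ε x0 y0 (nd (co iF) g) = 0)
    (hgV : 1 ≤ cV ε x0 y0 (nd (co iF) g))
    (hV : cV ε x0 y0 (nd (co iF) g) < cV ε x0 y0 (nd (co iL) (b e2)))
    (ht : Co (HS (co iL) L ω) (b e2) t) (htV : cV ε x0 y0 (nd (co iL) t) = 0) :
    VM X Cs a Bb B TT fm co ω P = VM X Cs a Bb B TT fm co ω (insert e P) := by
  refine hM.toggleX (i := iF) hc (fun _ => hC.dF) hω hP he hei heP fun ω' hω' => ?_
  left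
  intro x y h3 h4 h5
  by_contra h6
  have heT : e ∈ TF TT fm iF := mem_TF.2 ⟨he, hei⟩
  obtain ⟨s1, s2, s3, s4, s5, s6⟩ := hC.tL e2 (mem_TF.2 ⟨hP he2, he2i⟩)
  obtain ⟨m1, m2, m3⟩ := hC.tLm e2 (mem_TF.2 ⟨hP he2, he2i⟩)
  rcases hC.exF x y h4 (VN_of_co heT HS_el h3) (hM.av_of hω hω' h5) with h7 | ⟨q, h7, h8, h9⟩
  · exact h6 h7
  exact hide_FL hC.hε hC.hh (Ne.symm hC.neq) hC.H1 (fun x y _ h8 => hC.ΛF _ (mem_HS.1 h8).1)
    (hC.opp hM hω' (Ne.symm hC.neq)) hC.Um0 hgU hgV s3 hV m1 ht htV s1 s2 s5 m2 s6 m3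
    (hM.tied_not (Ne.symm hC.neq) hω hω' (hP he2) he2i he2)
    ((hC.mono hM hω' hC.LΛF hg).symm.trans h3) h7 h8 h9

/-- (4) -/
theorem Cnr.toggle_FF (hM : Multi X W Bb B TT fm co Wl La b o)
    (hC : Cnr W Bb B TT fm co Wl La Λ b o L iL iF ε x0 y0 h Um Vm)
    (hc : ∀ c ∈ Cs, FarM X TT fm co Wl Λ b o c) (hω : ω ⊆ B) (hP : P ⊆ TT)
    (he : e ∈ TT) (hei : fm e = iF) (heP : e ∉ P) (hf : f ∈ P) (hfi : fm f = iF)
    (hg : Co (HS (co iF) L ω) (b e) g) (hgU : cU ε x0 y0 (nd (co iF) g) = 0)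
    (hgV : 1 ≤ cV ε x0 y0 (nd (co iF) g))
    (ht : Co (HS (co iF) L ω) (b f) t) (htU : cU ε x0 y0 (nd (co iF) t) = 0)
    (hV : cV ε x0 y0 (nd (co iF) g) ≤ cV ε x0 y0 (nd (co iF) t)) :
    VM X Cs a Bb B TT fm co ω P = VM X Cs a Bb B TT fm co ω (insert e P) := by
  refine hM.toggleX (i := iF) hc (fun _ => hC.dF) hω hP he hei heP fun ω' hω' => ?_
  by_contra hcon
  rw [not_or] at hcon
  obtain ⟨h1, h2⟩ := hcon
  have heT : e ∈ TF TT fm iF := mem_TF.2 ⟨he, hei⟩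
  obtain ⟨r1, r2, r3, r4, r5⟩ := hC.tF f (mem_TF.2 ⟨hP hf, hfi⟩)
  obtain ⟨m1, -, -⟩ := hC.tFm f (mem_TF.2 ⟨hP hf, hfi⟩)
  have mo : ∀ {p q}, Co (HS (co iF) L ω) p q →
      Co (HS (co iF) (Λ iF) (GS W TT fm co Wl iF P ω ω')) p q := fun h8 =>
    hC.mono hM hω' hC.LΛF h8
  apply h2
  refine ⟨f, hf, hfi, hP hf, ?_⟩
  rcases eq_or_lt_of_le hV with h8 | h8
  · have : g = t := by
      refine nd_inj (c := co iF) (chart_inj (ε := ε) (x0 := x0) (y0 := y0) hC.hε ?_)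
      unfold cU at hgU htU
      unfold cV at h8
      refine Prod.ext ?_ ?_ <;> simp only <;> omega
    subst this
    exact mo (hg.trans ht.symm)
  · unfold Conf at h1
    push Not at h1
    obtain ⟨x, y, h3, h4, h5, h6⟩ := h1
    rcases hC.exF x y h4 (VN_of_co heT HS_el h3) (hM.av_of hω hω' h5) with h7 | ⟨q, h7, h9, h10⟩
    · exact absurd h7 h6
    obtain ⟨w, g1, g2⟩ := hide_FF hC.hε hC.hh hC.H1 (fun x y _ h8 => hC.ΛF _ (mem_HS.1 h8).1)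
      hC.Vm0 hgU hgV htU h8 ht.symm r3 m1 ((mo hg).symm.trans h3) h7 h9 h10
    exact (mo hg).trans (g2.trans ((mo g1).symm.trans (mo ht.symm)))

end corner

end Pool.Agent.H39.Q1
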