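import Pool.Agent.H39.Q1.ChainG
import Pool.Agent.H2.Q1.Surround

set_option autoImplicit false
open Finset

/-! # The surrounding property holds for every configuration (from `surround` of helper2) -/

namespace Pool.Agent.H39.Q1

open Pool.Agent.H75.Perc Pool.Agent.H75.TwoArm Pool.Agent.H75.Four Pool.Agent.H69.Q1

theorem surr_of {ε x0 y0 h : ℤ} (hε : ε = 1 ∨ ε = -1) {L : Finset (ℤ × ℤ)}
    (hL1 : ∀ l ∈ L, 1 ≤ cU ε x0 y0 l ∧ 1 ≤ cV ε x0 y0 l)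
    (hL2 : ∀ l : ℤ × ℤ, (l.1 + l.2) % 2 = 1 → 1 ≤ cU ε x0 y0 l → 1 ≤ cV ε x0 y0 l →
      cU ε x0 y0 l < 2 * h → cV ε x0 y0 l < 2 * h → l ∈ L) (ω : Finset (ℤ × ℤ)) :
    Surr ε x0 y0 h L ω :=
  fun _ _ hc _ _ h1 h2 h3 h4 h5 => Pool.Agent.H2.Q1.surround hε hc hL1 hL2 h1 h2 h3 h4 h5

end Pool.Agent.H39.Q1
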