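import Pool.Agent.H39.Q1.ChainG
import Pool.Agent.H39.Q1.SurrI

set_option autoImplicit false
open Finset

/-! # The second class of a chain is not small, or the first one comes near the corner

`rho` is a free scale, `1 <= rho <= h`. -/

namespace Pool.Agent.H39.Q1

open Pool.Agent.H75.Perc Pool.Agent.H75.TwoArm Pool.Agent.H75.Four Pool.Agent.H69.Q1
open Pool.Agent.Q1 Pool.Agent.H25.Q1.Add Pool.Agent.H99.NC Pool.Agent.H49.Perc
open Pool.Agent.H20.Q1 (Eh CS hf)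

variable {ι : Type*} [DecidableEq ι]
variable {X : Env} {W Bb B TT Cs ω ω' θ P k : Finset (ℤ × ℤ)}
  {fm : ℤ × ℤ → ι} {co : ι → Bool} {Wl La Λ : ι → Finset (ℤ × ℤ)}
  {b o : ℤ × ℤ → ℤ × ℤ} {a : ℤ × ℤ → ℂ} {s : ℤ × ℤ → ℂ} {e x y : ℤ × ℤ} {i : ι}
  {L : Finset (ℤ × ℤ)} {iL iF : ι} {ε x0 y0 h Um Vm ρ : ℤ}

/-- **A class of the chain has size at least `rho` or there is a higher class of the other family with
a tie at distance at most `2 rho` from the corner.** -/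
theorem CnrM.mac_or_rho (hρ : ρ ≤ h) (hM : Multi X W Bb B TT fm co Wl La b o)
    (hC : Cnr W Bb B TT fm co Wl La Λ b o L iL iF ε x0 y0 h Um Vm)
    (hD : CnrM W Bb TT fm co Wl La b L iL iF ε x0 y0 h)
    (hS : Surr ε x0 y0 ρ L ω) {k : Finset (ℤ × ℤ)}
    (hk : k ∈ CM W TT fm co Wl La b o L iL iF ε x0 y0 ω \
      Irr W TT fm co Wl La b o L iL iF ε x0 y0 ω) (he : e ∈ k) :
    Mac fm co La b ε x0 y0 ρ ω e ∨ ∃ k' ∈ CM W TT fm co Wl La b o L iL iF ε x0 y0 ω \
      Irr W TT fm co Wl La b o L iL iF ε x0 y0 ω,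
      rkC fm co b L iL iF ε x0 y0 ω k < rkC fm co b L iL iF ε x0 y0 ω k' ∧
        (∀ e' ∈ k', co (fm e') ≠ co (fm e)) ∧ ∃ e' ∈ k',
          (0 ≤ cU ε x0 y0 (nd (co (fm e')) (b e')) ∧ cU ε x0 y0 (nd (co (fm e')) (b e')) ≤ 2 * ρ) ∧
          0 ≤ cV ε x0 y0 (nd (co (fm e')) (b e')) ∧ cV ε x0 y0 (nd (co (fm e')) (b e')) ≤ 2 * ρ := by
  classical
  have hh := hC.hh
  obtain ⟨hkC, hkI⟩ := mem_sdiff.1 hk
  obtain ⟨hkJ, e1', he1', hc1'⟩ := mem_filter.1 hkC
  obtain ⟨e0, he0, rfl⟩ := mem_image.1 hkJ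
  obtain ⟨he0T, hf0⟩ := mem_filter.1 he0
  have heT : e ∈ TT := cls_sub he
  have hce : cls TT fm co La b ω e = cls TT fm co La b ω e0 := cls_eq_of he
  have hcr0 : crs fm co b L iL iF ε x0 y0 ω e0 := hC.crs_cls hM he1' hc1'
  have hcr : crs fm co b L iL iF ε x0 y0 ω e :=
    hC.crs_cls hM (by rw [hce]; exact self_cls he0T) hcr0
  -- a class of higher rank
  have hno : ∀ e' ∈ TT, crs fm co b L iL iF ε x0 y0 ω e' →
      rkC fm co b L iL iF ε x0 y0 ω (cls TT fm co La b ω e0) <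
        rkC fm co b L iL iF ε x0 y0 ω (cls TT fm co La b ω e') →
      cls TT fm co La b ω e' ∈ CM W TT fm co Wl La b o L iL iF ε x0 y0 ω \
        Irr W TT fm co Wl La b o L iL iF ε x0 y0 ω := by
    intro e' he' hcr' hlt
    have hne : cls TT fm co La b ω e0 ≠ cls TT fm co La b ω e' := fun h1 => by
      rw [h1] at hlt; exact lt_irrefl _ hlt
    by_cases hf' : fre W TT fm co Wl La b o ω e'
    · exact absurd (mem_filter.2 ⟨hkC, e', he', hcr', hf', hne, hlt.le⟩) hkI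
    · have hJ' : cls TT fm co La b ω e' ∈ JM W TT fm co Wl La b o ω :=
        mem_image_of_mem _ (mem_filter.2 ⟨he', hf'⟩)
      have hC' : cls TT fm co La b ω e' ∈ CM W TT fm co Wl La b o L iL iF ε x0 y0 ω :=
        mem_filter.2 ⟨hJ', e', self_cls he', hcr'⟩
      by_cases hI' : cls TT fm co La b ω e' ∈ Irr W TT fm co Wl La b o L iL iF ε x0 y0 ω
      · obtain ⟨-, e2, he2, hcr2, hf2, -, hr2⟩ := mem_filter.1 hI'
        have hlt2 := lt_of_lt_of_le hlt hr2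
        refine absurd (mem_filter.2 ⟨hkC, e2, he2, hcr2, hf2, fun h1 => ?_, hlt2.le⟩) hkI
        rw [h1] at hlt2; exact lt_irrefl _ hlt2
      · exact mem_sdiff.2 ⟨hC', hI'⟩
  rw [or_iff_not_imp_left]
  intro hcon
  -- the left wall node and the floor node of the class
  rcases hcr with ⟨hi, t, ht, htV⟩ | ⟨hi, g, hg, hgU, hgV⟩
  · -- left wall family
    have hL := hC.tL e (mem_TF.2 ⟨heT, hi⟩)
    unfold Mac at hcon
    rw [hi] at hcon
    push Not at hcon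
    have hLa : ∀ x, Co (HS (co iL) L ω) (b e) x → Co (HS (co iL) (La iL) ω) (b e) x := by
      intro x hx
      refine co_layer (f := cU ε x0 y0) (h := h) ?_ hD.laL ?_ hx
      · intro p q hpq
        have := unit_UV (x0 := x0) (y0 := y0) hC.hε hpq
        omega
      · intro x hx
        have h1 := (hcon x hx).1
        rw [abs_lt, hL.2.2.1] at h1
        omega
    have hcon : ∀ x, Co (HS (co iL) L ω) (b e) x → _ := fun x hx => hcon x (hLa x hx)
    have hb : 0 ≤ cU ε x0 y0 (nd (co iL) (b e)) ∧ 0 ≤ cV ε x0 y0 (nd (co iL) (b e)) := by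
      rw [hL.2.2.1]; exact ⟨le_rfl, by have := hL.2.2.2.1; omega⟩
    have hsm : ∀ x, Co (HS (co iL) L ω) (b e) x →
        cU ε x0 y0 (nd (co iL) x) < 2 * ρ ∧ cV ε x0 y0 (nd (co iL) x) < 2 * ρ := by
      intro x hx
      have h1 := hcon x hx
      have h2 := hcon t ht
      rw [abs_lt, abs_lt] at h1 h2
      rw [hL.2.2.1] at h1 h2
      rw [htV] at h2
      omega
    obtain ⟨g, f, g1, g2, g3, g4, -, g6, g7⟩ := hS (co iL) (co iF) hC.neq (b e) t hL.2.2.1 hb.2 ht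
      htV hsm
    have hg0 := hb.2
    have hgV : 1 ≤ cV ε x0 y0 (nd (co iF) g) := by
      have := g4 (b e) (Co.refl _ _) hL.2.2.1
      omega
    have hfb := hC.low (c := co iF) ⟨by omega, by omega⟩ g1
    obtain ⟨f', hf', hbf⟩ := hD.fullF f g3 hfb.1 (by omega)
    obtain ⟨hf'T, hf'i⟩ := mem_TF.1 hf'
    have hgf : Co (HS (co iF) L ω) (b f') g := by rw [hbf]; exact g1.symm
    have hcr' : crs fm co b L iL iF ε x0 y0 ω f' := Or.inr ⟨hf'i, g, hgf, g2, hgV⟩
    have hlt : rkC fm co b L iL iF ε x0 y0 ω (cls TT fm co La b ω e0) <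
        rkC fm co b L iL iF ε x0 y0 ω (cls TT fm co La b ω f') := by
      have hr2 := le_rkF (iL := iL) (L := L) (x0 := x0) (y0 := y0) (ω := ω) hC.hε (self_cls
        (fm := fm) (co := co) (La := La) (b := b) (ω := ω) hf'T) hf'i hgf g2 hgV
      refine lt_of_lt_of_le ?_ hr2
      have hn : (hts fm co b L iL iF ε x0 y0 ω (cls TT fm co La b ω e0)).Nonempty :=
        ⟨_, e, he, Or.inl ⟨hi, rfl⟩⟩
      obtain ⟨e3, h3, h4⟩ := rk_mem hC.hε hn
      have h3i : fm e3 = iL := by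
        rw [(mem_cls.1 h3).1.2, ← (mem_cls.1 he).1.2, hi]
      rcases h4 with ⟨-, h5⟩ | ⟨h5, -⟩
      · have hL3 := hC.tL e3 (mem_TF.2 ⟨cls_sub h3, h3i⟩)
        have hco3 : Co (HS (co iL) L ω) (b e) (b e3) := by
          have := hC.co_cls (ω := ω) (e := e) (e' := e3) (by rw [hce]; exact h3) (Or.inl hi)
          rwa [hi] at this
        rw [h5]
        exact g4 (b e3) hco3 hL3.2.2.1
      · exact absurd (h3i.symm.trans h5) fun h1 => hC.neq (by rw [h1])
    refine ⟨_, hno f' hf'T hcr' hlt, hlt, fun e' he' => ?_, f', self_cls hf'T, ?_⟩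
    · rw [(mem_cls.1 he').1.2, hf'i, hi]
      exact Ne.symm hC.neq
    · rw [hf'i, hbf, g3]
      exact ⟨⟨hfb.1, g7⟩, le_rfl, by omega⟩
  · -- floor family
    have hF := hC.tF e (mem_TF.2 ⟨heT, hi⟩)
    unfold Mac at hcon
    rw [hi] at hcon
    push Not at hcon
    have hLa : ∀ x, Co (HS (co iF) L ω) (b e) x → Co (HS (co iF) (La iF) ω) (b e) x := by
      intro x hx
      refine co_layer (f := cV ε x0 y0) (h := h) ?_ hD.laF ?_ hx
      · intro p q hpq
        have := unit_UV (x0 := x0) (y0 := y0) hC.hε hpq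
        omega
      · intro x hx
        have h1 := (hcon x hx).2
        rw [abs_lt, hF.2.2.1] at h1
        omega
    have hcon : ∀ x, Co (HS (co iF) L ω) (b e) x → _ := fun x hx => hcon x (hLa x hx)
    have hg0 : 0 ≤ cU ε x0 y0 (nd (co iF) g) ∧ 0 ≤ cV ε x0 y0 (nd (co iF) g) := by
      rw [hgU]; exact ⟨le_rfl, by omega⟩
    have hb := hC.low hg0 hg.symm
    have hsm : ∀ x, Co (HS (co iF) L ω) g x →
        cU ε x0 y0 (nd (co iF) x) < 2 * ρ ∧ cV ε x0 y0 (nd (co iF) x) < 2 * ρ := by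
      intro x hx
      have h1 := hcon x (hg.trans hx)
      have h2 := hcon g hg
      rw [abs_lt, abs_lt] at h1 h2
      rw [hgU] at h2
      rw [hF.2.2.1] at h1 h2
      omega
    obtain ⟨g', f', g1, g2, g3, g4, -, g6, g7⟩ := hS (co iF) (co iL) (Ne.symm hC.neq) g (b e) hgU
      hg0.2 hg.symm hF.2.2.1 hsm
    have hgV' : 1 ≤ cV ε x0 y0 (nd (co iL) g') := by
      have := g4 g (Co.refl _ _) hgU
      omega
    obtain ⟨e', he', hbe⟩ := hD.fullL g' g2 hgV' (by omega)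
    obtain ⟨he'T, he'i⟩ := mem_TF.1 he'
    have hcr' : crs fm co b L iL iF ε x0 y0 ω e' :=
      Or.inl ⟨he'i, f', by rw [hbe]; exact g1, g3⟩
    have hlt : rkC fm co b L iL iF ε x0 y0 ω (cls TT fm co La b ω e0) <
        rkC fm co b L iL iF ε x0 y0 ω (cls TT fm co La b ω e') := by
      have hr2 := le_rkL (iF := iF) (L := L) (x0 := x0) (y0 := y0) (ω := ω) (b := b) (co := co)
        hC.hε (self_cls (fm := fm) (co := co) (La := La) (b := b) (ω := ω) he'T) he'i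
      rw [hbe] at hr2
      refine lt_of_lt_of_le ?_ hr2
      have hn : (hts fm co b L iL iF ε x0 y0 ω (cls TT fm co La b ω e0)).Nonempty :=
        ⟨_, e, he, Or.inr ⟨hi, g, hg, hgU, hgV, rfl⟩⟩
      obtain ⟨e3, h3, h4⟩ := rk_mem hC.hε hn
      have h3i : fm e3 = iF := by
        rw [(mem_cls.1 h3).1.2, ← (mem_cls.1 he).1.2, hi]
      rcases h4 with ⟨h5, -⟩ | ⟨-, g3', k1, k2, k3, k4⟩
      · exact absurd (h3i.symm.trans h5) fun h1 => hC.neq (by rw [h1])
      · have hco3 : Co (HS (co iF) L ω) (b e) (b e3) := by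
          have := hC.co_cls (ω := ω) (e := e) (e' := e3) (by rw [hce]; exact h3) (Or.inr hi)
          rwa [hi] at this
        rw [k4]
        exact g4 g3' (hg.symm.trans (hco3.trans k1)) k2
    refine ⟨_, hno e' he'T hcr' hlt, hlt, fun e'' he'' => ?_, e', self_cls he'T, ?_⟩
    · rw [(mem_cls.1 he'').1.2, he'i, hi]
      exact hC.neq
    · rw [he'i, hbe, g2]
      exact ⟨⟨le_rfl, by omega⟩, by omega, g6⟩

/-- **(F)** the second class of the chain has size at least `rho`, or the first one has a tie at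
distance at most `2 rho` from the corner and is of the other family. -/
theorem CnrM.near_second (hρ : ρ ≤ h) (hM : Multi X W Bb B TT fm co Wl La b o)
    (hC : Cnr W Bb B TT fm co Wl La Λ b o L iL iF ε x0 y0 h Um Vm)
    (hD : CnrM W Bb TT fm co Wl La b L iL iF ε x0 y0 h)
    (hS : Surr ε x0 y0 ρ L ω) {n m : Finset (ℤ × ℤ)}
    (hm : m ∈ tops (rkC fm co b L iL iF ε x0 y0 ω)
      ((CM W TT fm co Wl La b o L iL iF ε x0 y0 ω \
        Irr W TT fm co Wl La b o L iL iF ε x0 y0 ω).erase n)) (he : e ∈ m) :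
    Mac fm co La b ε x0 y0 ρ ω e ∨ ((∀ e' ∈ n, co (fm e') ≠ co (fm e)) ∧ ∃ e' ∈ n,
      (0 ≤ cU ε x0 y0 (nd (co (fm e')) (b e')) ∧ cU ε x0 y0 (nd (co (fm e')) (b e')) ≤ 2 * ρ) ∧
      0 ≤ cV ε x0 y0 (nd (co (fm e')) (b e')) ∧ cV ε x0 y0 (nd (co (fm e')) (b e')) ≤ 2 * ρ) := by
  obtain ⟨hm1, hmax⟩ := mem_tops.1 hm
  obtain ⟨hmn, hm2⟩ := mem_erase.1 hm1
  rcases hD.mac_or_rho hρ hM hC hS hm2 he with h1 | ⟨k', h1, h2, h3, h4⟩
  · exact Or.inl h1
  · right
    by_cases hkn : k' = n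
    · rw [← hkn]; exact ⟨h3, h4⟩
    · have := hmax k' (mem_erase.2 ⟨hkn, h1⟩)
      omega

/-- the same for the first class: it has size at least `rho` for every `rho <= h` -/
theorem CnrM.mac_top_rho (hρ : ρ ≤ h) (hM : Multi X W Bb B TT fm co Wl La b o)
    (hC : Cnr W Bb B TT fm co Wl La Λ b o L iL iF ε x0 y0 h Um Vm)
    (hD : CnrM W Bb TT fm co Wl La b L iL iF ε x0 y0 h)
    (hS : Surr ε x0 y0 ρ L ω) {k : Finset (ℤ × ℤ)}
    (hk : k ∈ tops (rkC fm co b L iL iF ε x0 y0 ω) (CM W TT fm co Wl La b o L iL iF ε x0 y0 ω \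
      Irr W TT fm co Wl La b o L iL iF ε x0 y0 ω)) (he : e ∈ k) :
    Mac fm co La b ε x0 y0 ρ ω e := by
  obtain ⟨hk1, hmax⟩ := mem_tops.1 hk
  rcases hD.mac_or_rho hρ hM hC hS hk1 he with h1 | ⟨k', h1, h2, -⟩
  · exact h1
  · have := hmax k' h1
    omega

end Pool.Agent.H39.Q1
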