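import Mathlib
import Pool.Agent.H39.Q1.ChainM

set_option autoImplicit false
open Finset

/-! # First order expansion with the chain of a marked corner

`CM` : the classes which touch both walls of the corner, `rkC` : their rank (position on the left wall). -/

namespace Pool.Agent.H39.Q1

open Pool.Agent.H75.Perc Pool.Agent.H75.TwoArm Pool.Agent.H75.Four Pool.Agent.H69.Q1
open Pool.Agent.Q1 Pool.Agent.H25.Q1.Add Pool.Agent.H99.NC Pool.Agent.H49.Perc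
open Pool.Agent.H20.Q1 (Eh CS hf)

variable {ι : Type*} [DecidableEq ι]

/-- the cluster of the tie `e` touches the other wall -/
def crs (fm : ℤ × ℤ → ι) (co : ι → Bool) (b : ℤ × ℤ → ℤ × ℤ) (L : Finset (ℤ × ℤ)) (iL iF : ι)
    (ε x0 y0 : ℤ) (ω : Finset (ℤ × ℤ)) (e : ℤ × ℤ) : Prop :=
  (fm e = iL ∧ ∃ t, Co (HS (co iL) L ω) (b e) t ∧ cV ε x0 y0 (nd (co iL) t) = 0) ∨
    (fm e = iF ∧ ∃ g, Co (HS (co iF) L ω) (b e) g ∧ cU ε x0 y0 (nd (co iF) g) = 0 ∧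
      1 ≤ cV ε x0 y0 (nd (co iF) g))

open Classical in
/-- the classes which touch both walls -/
noncomputable def CM (W TT : Finset (ℤ × ℤ)) (fm : ℤ × ℤ → ι) (co : ι → Bool)
    (Wl La : ι → Finset (ℤ × ℤ)) (b o : ℤ × ℤ → ℤ × ℤ) (L : Finset (ℤ × ℤ)) (iL iF : ι)
    (ε x0 y0 : ℤ) (ω : Finset (ℤ × ℤ)) : Finset (Finset (ℤ × ℤ)) :=
  (JM W TT fm co Wl La b o ω).filter fun k => ∃ e ∈ k, crs fm co b L iL iF ε x0 y0 ω e

/-- heights on the left wall -/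
def hts (fm : ℤ × ℤ → ι) (co : ι → Bool) (b : ℤ × ℤ → ℤ × ℤ) (L : Finset (ℤ × ℤ)) (iL iF : ι)
    (ε x0 y0 : ℤ) (ω k : Finset (ℤ × ℤ)) : Set ℤ :=
  {v | ∃ e ∈ k, (fm e = iL ∧ v = cV ε x0 y0 (nd (co iL) (b e))) ∨
    (fm e = iF ∧ ∃ g, Co (HS (co iF) L ω) (b e) g ∧ cU ε x0 y0 (nd (co iF) g) = 0 ∧
      1 ≤ cV ε x0 y0 (nd (co iF) g) ∧ v = cV ε x0 y0 (nd (co iF) g))}

/-- rank of a class -/
noncomputable def rkC (fm : ℤ × ℤ → ι) (co : ι → Bool) (b : ℤ × ℤ → ℤ × ℤ)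
    (L : Finset (ℤ × ℤ)) (iL iF : ι) (ε x0 y0 : ℤ) (ω k : Finset (ℤ × ℤ)) : ℤ :=
  sSup (hts fm co b L iL iF ε x0 y0 ω k)

variable {X : Env} {W Bb B TT Cs ω ω' θ P k : Finset (ℤ × ℤ)}
  {fm : ℤ × ℤ → ι} {co : ι → Bool} {Wl La Λ : ι → Finset (ℤ × ℤ)}
  {b o : ℤ × ℤ → ℤ × ℤ} {a : ℤ × ℤ → ℂ} {s : ℤ × ℤ → ℂ} {e x y : ℤ × ℤ} {i : ι}
  {L : Finset (ℤ × ℤ)} {iL iF : ι} {ε x0 y0 h Um Vm : ℤ}

/-- the nodes of a cluster have bounded heights -/
lemma bdd_co (hε : ε = 1 ∨ ε = -1) (c : Bool) (u : ℤ × ℤ) :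
    ∃ N : ℤ, ∀ g, Co (HS c L ω) u g → cV ε x0 y0 (nd c g) ≤ N := by
  obtain ⟨N, hN⟩ : ∃ N : ℤ, ∀ l ∈ L, cV ε x0 y0 l ≤ N := by
    obtain ⟨N, hN⟩ := (L.image (cV ε x0 y0)).bddAbove
    exact ⟨N, fun l hl => hN (mem_coe.2 (mem_image_of_mem _ hl))⟩
  refine ⟨max (N + 1) (cV ε x0 y0 (nd c u)), fun g hg => ?_⟩
  rcases Relation.ReflTransGen.cases_tail hg with h1 | ⟨w, -, h1⟩
  · rw [h1]; exact le_max_right _ _
  · have h2 := hN _ (mem_HS.1 h1.2).1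
    have h3 := unit_UV (x0 := x0) (y0 := y0) hε (nd_el (c := c) h1.1).2
    refine le_trans ?_ (le_max_left _ _)
    omega

lemma bdd_hts (hε : ε = 1 ∨ ε = -1) :
    BddAbove (hts fm co b L iL iF ε x0 y0 ω k) := by
  classical
  induction k using Finset.induction_on with
  | empty =>
    refine ⟨0, ?_⟩
    rintro v ⟨e, he, -⟩
    exact absurd he (notMem_empty _)
  | insert e k hk ih =>
    obtain ⟨N1, h1⟩ := ih
    obtain ⟨N2, h2⟩ := bdd_co (L := L) (ω := ω) (x0 := x0) (y0 := y0) hε (co iF) (b e)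
    refine ⟨max N1 (max N2 (cV ε x0 y0 (nd (co iL) (b e)))), ?_⟩
    rintro v ⟨e', he', hv⟩
    rcases mem_insert.1 he' with rfl | h3
    · rcases hv with ⟨-, rfl⟩ | ⟨-, g, h4, -, -, rfl⟩
      · exact (le_max_right _ _).trans (le_max_right _ _)
      · exact (h2 g h4).trans ((le_max_left _ _).trans (le_max_right _ _))
    · exact (h1 ⟨e', h3, hv⟩).trans (le_max_left _ _)

lemma le_rkL (hε : ε = 1 ∨ ε = -1) (he : e ∈ k) (hi : fm e = iL) :
    cV ε x0 y0 (nd (co iL) (b e)) ≤ rkC fm co b L iL iF ε x0 y0 ω k :=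
  le_csSup (bdd_hts hε) ⟨e, he, Or.inl ⟨hi, rfl⟩⟩

lemma le_rkF (hε : ε = 1 ∨ ε = -1) {g : ℤ × ℤ} (he : e ∈ k) (hi : fm e = iF)
    (hg : Co (HS (co iF) L ω) (b e) g) (hgU : cU ε x0 y0 (nd (co iF) g) = 0)
    (hgV : 1 ≤ cV ε x0 y0 (nd (co iF) g)) :
    cV ε x0 y0 (nd (co iF) g) ≤ rkC fm co b L iL iF ε x0 y0 ω k :=
  le_csSup (bdd_hts hε) ⟨e, he, Or.inr ⟨hi, g, hg, hgU, hgV, rfl⟩⟩

lemma rk_mem (hε : ε = 1 ∨ ε = -1) (hn : (hts fm co b L iL iF ε x0 y0 ω k).Nonempty) :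
    rkC fm co b L iL iF ε x0 y0 ω k ∈ hts fm co b L iL iF ε x0 y0 ω k :=
  Int.csSup_mem hn (bdd_hts hε)

/-- members of a class are connected in `L` -/
lemma Cnr.co_cls
    (hC : Cnr W Bb B TT fm co Wl La Λ b o L iL iF ε x0 y0 h Um Vm) {e e' : ℤ × ℤ}
    (he' : e' ∈ cls TT fm co La b ω e) (hi : fm e = iL ∨ fm e = iF) :
    Co (HS (co (fm e)) L ω) (b e) (b e') := by
  obtain ⟨⟨-, -⟩, h3⟩ := mem_cls.1 he'
  have hla : La (fm e) ⊆ L := by
    rcases hi with h1 | h1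
    · rw [h1]; exact hC.laL
    · rw [h1]; exact hC.laF
  have : gr co La (fm e) ω = HS (co (fm e)) (La (fm e)) ω := rfl
  rw [this] at h3
  exact co_HS_mono hla (fun _ _ => Iff.rfl) h3

/-- if one tie of a class touches the other wall, all do -/
lemma Cnr.crs_cls (hM : Multi X W Bb B TT fm co Wl La b o)
    (hC : Cnr W Bb B TT fm co Wl La Λ b o L iL iF ε x0 y0 h Um Vm) {e e' : ℤ × ℤ}
    (he' : e' ∈ cls TT fm co La b ω e) (hc : crs fm co b L iL iF ε x0 y0 ω e') :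
    crs fm co b L iL iF ε x0 y0 ω e := by
  have h1 := (mem_cls.1 he').1.2
  rcases hc with ⟨h2, t, h3, h4⟩ | ⟨h2, g, h3, h4, h5⟩
  · have h6 := hC.co_cls he' (Or.inl (h1.symm.trans h2))
    rw [← h1, h2] at h6
    exact Or.inl ⟨h1.symm.trans h2, t, h6.trans h3, h4⟩
  · have h6 := hC.co_cls he' (Or.inr (h1.symm.trans h2))
    rw [← h1, h2] at h6
    exact Or.inr ⟨h1.symm.trans h2, g, h6.trans h3, h4, h5⟩

/-- nodes of different colours on the left wall line have different heights -/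
lemma Cnr.parity (hC : Cnr W Bb B TT fm co Wl La Λ b o L iL iF ε x0 y0 h Um Vm) {p g : ℤ × ℤ}
    (hp : cU ε x0 y0 (nd (co iL) p) = 0) (hg : cU ε x0 y0 (nd (co iF) g) = 0) :
    cV ε x0 y0 (nd (co iL) p) ≠ cV ε x0 y0 (nd (co iF) g) := by
  intro h1
  have h2 : nd (co iL) p = nd (co iF) g := by
    refine chart_inj (ε := ε) (x0 := x0) (y0 := y0) hC.hε ?_
    unfold cU at hp hg
    unfold cV at h1
    refine Prod.ext ?_ ?_ <;> simp only <;> omega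
  exact nd_ne hC.neq h2

/-- **One toggle of a tie of a lower class.** -/
theorem Cnr.toggle (hM : Multi X W Bb B TT fm co Wl La b o)
    (hC : Cnr W Bb B TT fm co Wl La Λ b o L iL iF ε x0 y0 h Um Vm)
    (hc : ∀ c ∈ Cs, FarM X TT fm co Wl Λ b o c) (hω : ω ⊆ B) (hP : P ⊆ TT) {e1 e2 : ℤ × ℤ}
    (he1 : e1 ∈ TT) (he2 : e2 ∈ TT) (hc1 : crs fm co b L iL iF ε x0 y0 ω e1)
    (hc2 : crs fm co b L iL iF ε x0 y0 ω e2)
    (hne : cls TT fm co La b ω e1 ≠ cls TT fm co La b ω e2)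
    (hrk : rkC fm co b L iL iF ε x0 y0 ω (cls TT fm co La b ω e1) ≤
      rkC fm co b L iL iF ε x0 y0 ω (cls TT fm co La b ω e2))
    (hP2 : cls TT fm co La b ω e2 ⊆ P) (he : e ∈ cls TT fm co La b ω e1) (heP : e ∉ P) :
    VM X Cs a Bb B TT fm co ω P = VM X Cs a Bb B TT fm co ω (insert e P) := by
  have heT : e ∈ TT := cls_sub he
  have hce : cls TT fm co La b ω e = cls TT fm co La b ω e1 := cls_eq_of he
  have he1e : e1 ∈ cls TT fm co La b ω e := by rw [hce]; exact self_cls he1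
  have hcr : crs fm co b L iL iF ε x0 y0 ω e := hC.crs_cls hM he1e hc1
  -- the top of the class of `e2`
  have hn2 : (hts fm co b L iL iF ε x0 y0 ω (cls TT fm co La b ω e2)).Nonempty := by
    rcases hc2 with ⟨h2, t, h3, h4⟩ | ⟨h2, g, h3, h4, h5⟩
    · exact ⟨_, e2, self_cls he2, Or.inl ⟨h2, rfl⟩⟩
    · exact ⟨_, e2, self_cls he2, Or.inr ⟨h2, g, h3, h4, h5, rfl⟩⟩
  obtain ⟨f, hf, hfv⟩ := rk_mem hC.hε hn2
  have hfP : f ∈ P := hP2 hf
  have hcf : cls TT fm co La b ω f = cls TT fm co La b ω e2 := cls_eq_of hf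
  have he2f : e2 ∈ cls TT fm co La b ω f := by rw [hcf]; exact self_cls he2
  have hcrf : crs fm co b L iL iF ε x0 y0 ω f := hC.crs_cls hM he2f hc2
  have hLF : iL ≠ iF := fun h1 => hC.neq (by rw [h1])
  rcases hcr with ⟨h2, t, h3, h4⟩ | ⟨h2, g, h3, h4, h5⟩
  · -- `e` at the left wall
    have hr1 := le_rkL (L := L) (iF := iF) (x0 := x0) (y0 := y0) (ω := ω) (b := b) (co := co)
      hC.hε he h2
    have hU := (hC.tL e (mem_TF.2 ⟨heT, h2⟩)).2.2.1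
    rcases hfv with ⟨g1, g2⟩ | ⟨g1, g, g3, g4, g5, g6⟩
    · -- `f` at the left wall
      have hU2 := (hC.tL f (mem_TF.2 ⟨cls_sub hf, g1⟩)).2.2.1
      rcases hcrf with ⟨-, t2, k3, k4⟩ | ⟨k2, -⟩
      · refine hC.toggle_LL hM hc hω hP heT h2 heP hfP g1 ?_ k3 k4
        refine lt_of_le_of_ne (by omega) fun h8 => hne ?_
        have h9 : b e = b f := by
          refine nd_inj (c := co iL) (chart_inj (ε := ε) (x0 := x0) (y0 := y0) hC.hε ?_)
          unfold cU at hU hU2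
          unfold cV at h8
          refine Prod.ext ?_ ?_ <;> simp only <;> omega
        have h10 : f ∈ cls TT fm co La b ω e :=
          mem_cls.2 ⟨⟨cls_sub hf, g1.trans h2.symm⟩, by rw [h9]; exact Co.refl _ _⟩
        rw [← hce, ← hcf, (cls_eq_of h10)]
      · exact absurd (g1.symm.trans k2) hLF
    · -- `f` at the floor
      refine hC.toggle_LF hM hc hω hP heT h2 heP hfP g1 g3 g4 ?_
      have := hC.parity hU g4
      omega
  · -- `e` at the floor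
    have hr1 := le_rkF (iL := iL) hC.hε he h2 h3 h4 h5
    rcases hfv with ⟨g1, g2⟩ | ⟨g1, g', g3, g4, g5, g6⟩
    · rcases hcrf with ⟨-, t2, k3, k4⟩ | ⟨k2, -⟩
      · have hU2 := (hC.tL f (mem_TF.2 ⟨cls_sub hf, g1⟩)).2.2.1
        refine hC.toggle_FL hM hc hω hP heT h2 heP hfP g1 h3 h4 h5 ?_ k3 k4
        have := hC.parity hU2 h4
        omega
      · exact absurd (g1.symm.trans k2) hLF
    · exact hC.toggle_FF hM hc hω hP heT h2 heP hfP g1 h3 h4 h5 g3 g4 (by omega)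

/-- toggling all ties of a lower class -/
theorem Cnr.toggle_set (hM : Multi X W Bb B TT fm co Wl La b o)
    (hC : Cnr W Bb B TT fm co Wl La Λ b o L iL iF ε x0 y0 h Um Vm)
    (hc : ∀ c ∈ Cs, FarM X TT fm co Wl Λ b o c) (hω : ω ⊆ B) (hP : P ⊆ TT) {e1 e2 : ℤ × ℤ}
    (he1 : e1 ∈ TT) (he2 : e2 ∈ TT) (hc1 : crs fm co b L iL iF ε x0 y0 ω e1)
    (hc2 : crs fm co b L iL iF ε x0 y0 ω e2)
    (hne : cls TT fm co La b ω e1 ≠ cls TT fm co La b ω e2)
    (hrk : rkC fm co b L iL iF ε x0 y0 ω (cls TT fm co La b ω e1) ≤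
      rkC fm co b L iL iF ε x0 y0 ω (cls TT fm co La b ω e2))
    (hP2 : cls TT fm co La b ω e2 ⊆ P) :
    ∀ S ⊆ cls TT fm co La b ω e1, Disjoint S P →
      VM X Cs a Bb B TT fm co ω (S ∪ P) = VM X Cs a Bb B TT fm co ω P := by
  intro S
  induction S using Finset.induction_on with
  | empty => intro _ _; rw [empty_union]
  | insert x S hx ih =>
    intro hS hd
    have h1 : S ⊆ cls TT fm co La b ω e1 := (subset_insert _ _).trans hS
    have h2 : x ∈ cls TT fm co La b ω e1 := hS (mem_insert_self _ _)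
    rw [insert_union, ← ih h1 (hd.mono_left (subset_insert _ _))]
    symm
    refine hC.toggle hM hc hω (union_subset (h1.trans cls_sub) hP) he1 he2 hc1 hc2 hne hrk
      (hP2.trans subset_union_right) h2 ?_
    rw [mem_union, not_or]
    exact ⟨hx, disjoint_left.1 hd (mem_insert_self _ _)⟩

/-- **Hiding lemma for classes.** -/
theorem Cnr.sh (hM : Multi X W Bb B TT fm co Wl La b o)
    (hC : Cnr W Bb B TT fm co Wl La Λ b o L iL iF ε x0 y0 h Um Vm)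
    (hc : ∀ c ∈ Cs, FarM X TT fm co Wl Λ b o c) (hω : ω ⊆ B)
    {A : Finset (Finset (ℤ × ℤ))} {i j : Finset (ℤ × ℤ)}
    (hi : i ∈ CM W TT fm co Wl La b o L iL iF ε x0 y0 ω)
    (hj : j ∈ CM W TT fm co Wl La b o L iL iF ε x0 y0 ω) (hjA : j ∉ A) (hij : i ≠ j)
    (hrk : rkC fm co b L iL iF ε x0 y0 ω i ≤ rkC fm co b L iL iF ε x0 y0 ω j) :
    VM X Cs a Bb B TT fm co ω (unc TT fm co La b ω (insert i A)) =
      VM X Cs a Bb B TT fm co ω (unc TT fm co La b ω A) := by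
  classical
  obtain ⟨hi1, e1', he1', hc1'⟩ := mem_filter.1 hi
  obtain ⟨hj1, e2', he2', hc2'⟩ := mem_filter.1 hj
  obtain ⟨e1, he1, rfl⟩ := mem_image.1 hi1
  obtain ⟨e2, he2, rfl⟩ := mem_image.1 hj1
  have he1T := (mem_filter.1 he1).1
  have he2T := (mem_filter.1 he2).1
  have hc1 := hC.crs_cls hM he1' hc1'
  have hc2 := hC.crs_cls hM he2' hc2'
  set P := unc TT fm co La b ω (insert (cls TT fm co La b ω e1) A) with hP
  have hPT : P ⊆ TT := filter_subset _ _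
  have hP2 : cls TT fm co La b ω e2 ⊆ P := by
    intro e he
    rw [hP]
    unfold unc
    rw [mem_filter, mem_insert, not_or, cls_eq_of he]
    exact ⟨cls_sub he, Ne.symm hij, hjA⟩
  have key := hC.toggle_set (a := a) hM hc hω hPT he1T he2T hc1 hc2 hij hrk hP2
    ((cls TT fm co La b ω e1) \ P ∩ unc TT fm co La b ω A)
    (inter_subset_left.trans sdiff_subset)
    (disjoint_left.2 fun l h1 h2 => (mem_sdiff.1 (mem_inter.1 h1).1).2 h2)
  rw [← key]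
  congr 1
  ext l
  rw [mem_union, mem_inter, mem_sdiff, hP]
  unfold unc
  simp only [mem_filter, mem_insert, not_or]
  constructor
  · rintro (⟨-, h1⟩ | ⟨h1, h2, h3⟩)
    · exact h1
    · exact ⟨h1, h3⟩
  · rintro ⟨h1, h2⟩
    by_cases h3 : cls TT fm co La b ω l = cls TT fm co La b ω e1
    · left
      refine ⟨⟨?_, fun h4 => h4.2.1 h3⟩, h1, h2⟩
      rw [← h3]; exact self_cls h1
    · right; exact ⟨h1, h3, h2⟩

/-- **First order expansion with a marked corner with ties on both walls.** -/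
theorem Multi.first2 (hM : Multi X W Bb B TT fm co Wl La b o) {rk : ℤ × ℤ → ℤ}
    (hC : Cnr W Bb B TT fm co Wl La Λ b o L iL iF ε x0 y0 h Um Vm)
    (hc : ∀ c ∈ Cs, FarM X TT fm co Wl La b o c) (hc' : ∀ c ∈ Cs, FarM X TT fm co Wl Λ b o c)
    (hrk : ∀ e ∈ TT, ∀ e' ∈ TT, rk e = rk e' → e = e') {M K : ℝ} (hK : 1 ≤ K)
    (hs1 : ∀ e ∈ TT, ‖s e‖ ≤ 1) (hs2 : ∀ e ∈ TT, ‖1 - s e‖ ≤ K * (1 - ‖s e‖))
    (hM' : ∀ ω ⊆ B, ∀ P ⊆ TT, ‖VM X Cs a Bb B TT fm co ω P‖ ≤ M) :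
    ‖Tot X Cs a Bb TT fm co s - Eh Bb (fun ω => U X Cs a (ω ∪ opn TT fm co TT)) -
      ∑ e ∈ TT, Eh B (fun ω => FT (TF TT fm (fm e)) b rk s e (SM TT fm co La b e ω) *
        DM X Cs a Bb B TT fm co La b e ω)‖ ≤
      Ex hf B (fun ω => chErr (fun k => ∏ e ∈ k, s e) (rkC fm co b L iL iF ε x0 y0 ω)
        (JM W TT fm co Wl La b o ω) (CM W TT fm co Wl La b o L iL iF ε x0 y0 ω) M K) := by
  classical
  set V : Finset (ℤ × ℤ) → Finset (Finset (ℤ × ℤ)) → ℂ :=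
    fun ω A => VM X Cs a Bb B TT fm co ω (unc TT fm co La b ω A) with hV
  have e1 : Tot X Cs a Bb TT fm co s = Eh B (fun ω =>
      cE (fun k => ∏ e ∈ k, s e) (JM W TT fm co Wl La b o ω) (V ω)) := by
    unfold Tot
    refine (Ec_split _ hM.bB _).trans (Ec_congr fun ω hω => ?_)
    rw [hV]
    simp only
    rw [← hM.classes hc hω]
    exact Ec_swap (fun _ => (1 / 2 : ℂ)) (fun e => 1 - s e) (Bb \ B) TT
      (fun ω' P => U X Cs a (ω ∪ ω' ∪ opn TT fm co P))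
  have e2 : Eh Bb (fun ω => U X Cs a (ω ∪ opn TT fm co TT)) = Eh B (fun ω => V ω ∅) := by
    refine (Ec_split _ hM.bB _).trans (Ec_congr fun ω hω => ?_)
    rw [hV]
    simp only
    rw [unc_empty]
    rfl
  have e3 : (∑ e ∈ TT, Eh B (fun ω => FT (TF TT fm (fm e)) b rk s e
        (SM TT fm co La b e ω) * DM X Cs a Bb B TT fm co La b e ω)) =
      Eh B (fun ω => ∑ k ∈ JM W TT fm co Wl La b o ω, (∏ e ∈ k, s e) *
        (V ω {k} - V ω ∅)) := by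
    symm
    refine (Ec_congr fun ω hω => hM.sum_first (s := s) (a := a) hc hω hrk).trans ?_
    exact Ec_sum _ _ _ _
  rw [e1, e2, e3]
  rw [← Ec_sub, ← Ec_sub]
  refine Ec_half_norm fun ω hω => ?_
  have hcT : ∀ k ∈ CM W TT fm co Wl La b o L iL iF ε x0 y0 ω, k ⊆ TT := by
    intro k hk
    obtain ⟨h1, -⟩ := mem_filter.1 hk
    obtain ⟨e, -, rfl⟩ := mem_image.1 h1
    exact cls_sub
  refine first_chain (J := JM W TT fm co Wl La b o ω) (F := V ω) (filter_subset _ _) hK ?_ ?_ ?_ ?_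
  · intro k hk
    exact (stolz_prod (K := K) (fun e he => hs1 e (hcT k hk he))
      (fun e he => hs2 e (hcT k hk he))).1
  · intro k hk
    exact (stolz_prod (K := K) (fun e he => hs1 e (hcT k hk he))
      (fun e he => hs2 e (hcT k hk he))).2
  · intro A _
    exact hM' ω hω _ (filter_subset _ _)
  · intro A _ i hi j hj _ hjA hij hr
    exact hC.sh hM hc' hω hi hj hjA hij hr

end Pool.Agent.H39.Q1
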