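import Mathlib
import Pool.Agent.H39.Q1.ChainF

set_option autoImplicit false
open Finset

/-! # Chains below permanently tied classes, macroscopic classes

A class below a permanently tied class which touches both walls has no influence (`Irr`). The top of
the remaining chain is macroscopic (`macro`), if `Surr` : a cluster which touches both walls and stays in
the box `U, V < 2h` is surrounded by a path of the other colour. -/

namespace Pool.Agent.H39.Q1

open Pool.Agent.H75.Perc Pool.Agent.H75.TwoArm Pool.Agent.H75.Four Pool.Agent.H69.Q1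
open Pool.Agent.Q1 Pool.Agent.H25.Q1.Add Pool.Agent.H99.NC Pool.Agent.H49.Perc
open Pool.Agent.H20.Q1 (Eh CS hf)

section abstract

variable {ι : Type*} [DecidableEq ι] {φ : ι → ℂ} {rk : ι → ℤ} {F : Finset ι → ℂ} {M K : ℝ}

/-- **First order expansion with a chain and irrelevant elements.** -/
theorem first_chain' {J C I : Finset ι} (hC : C ⊆ J) (hI : I ⊆ J) (hK : 1 ≤ K)
    (h1 : ∀ i ∈ C, ‖φ i‖ ≤ 1) (h2 : ∀ i ∈ C, ‖1 - φ i‖ ≤ K * (1 - ‖φ i‖))
    (hF : ∀ A ⊆ J, ‖F A‖ ≤ M)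
    (sh : ∀ A ⊆ J, ∀ i ∈ C, ∀ j ∈ C, i ∉ A → j ∉ A → i ≠ j → rk i ≤ rk j →
      F (insert i A) = F A)
    (irr : ∀ A ⊆ J, ∀ i ∈ I, i ∉ A → F (insert i A) = F A) :
    ‖cE φ J F - F ∅ - ∑ i ∈ J, φ i * (F {i} - F ∅)‖ ≤ chErr φ rk (J \ I) (C \ I) M K := by
  have e1 : J = (J \ I) ∪ I := (sdiff_union_of_subset hI).symm
  have hd : Disjoint (J \ I) I := sdiff_disjoint
  have hconst : ∀ A ⊆ J \ I, ∀ B ⊆ I, F (A ∪ B) = F A := by
    intro A hA B
    induction B using Finset.induction_on with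
    | empty => intro _; rw [union_empty]
    | insert x B hx ih =>
      intro hB
      have h3 : B ⊆ I := (subset_insert _ _).trans hB
      have h4 : x ∈ I := hB (mem_insert_self _ _)
      rw [union_insert, irr (A ∪ B) (union_subset (hA.trans sdiff_subset) (h3.trans hI)) x h4,
        ih h3]
      rw [mem_union, not_or]
      exact ⟨fun h5 => (mem_sdiff.1 (hA h5)).2 h4, hx⟩
  have e2 : cE φ J F = cE φ (J \ I) F := by
    have h3 : cE φ J F = cE φ ((J \ I) ∪ I) F := by rw [← e1]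
    rw [h3, cE_union hd]
    refine cE_congr' fun A hA => ?_
    rw [cE_congr' (F' := fun _ => F A) (fun B hB => hconst A hA B hB), cE_const]
  have e3 : ∑ i ∈ J, φ i * (F {i} - F ∅) = ∑ i ∈ J \ I, φ i * (F {i} - F ∅) := by
    symm
    refine sum_subset sdiff_subset fun i hi hi' => ?_
    have h3 : i ∈ I := by
      by_contra h4
      exact hi' (mem_sdiff.2 ⟨hi, h4⟩)
    have h4 := irr ∅ (empty_subset _) i h3 (notMem_empty _)
    have e4 : ({i} : Finset ι) = insert i ∅ := rfl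
    rw [e4, h4, sub_self, mul_zero]
  rw [e2, e3]
  refine first_chain (sdiff_subset_sdiff hC (Subset.refl _)) hK (fun i hi => h1 i (mem_sdiff.1 hi).1)
    (fun i hi => h2 i (mem_sdiff.1 hi).1) (fun A hA => hF A (hA.trans sdiff_subset)) ?_
  intro A hA i hi j hj hiA hjA hij hr
  exact sh A (hA.trans sdiff_subset) i (mem_sdiff.1 hi).1 j (mem_sdiff.1 hj).1 hiA hjA hij hr

end abstract

variable {ι : Type*} [DecidableEq ι]

open Classical in
/-- classes of the chain which are below a permanently tied class -/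
noncomputable def Irr (W TT : Finset (ℤ × ℤ)) (fm : ℤ × ℤ → ι) (co : ι → Bool)
    (Wl La : ι → Finset (ℤ × ℤ)) (b o : ℤ × ℤ → ℤ × ℤ) (L : Finset (ℤ × ℤ)) (iL iF : ι)
    (ε x0 y0 : ℤ) (ω : Finset (ℤ × ℤ)) : Finset (Finset (ℤ × ℤ)) :=
  (CM W TT fm co Wl La b o L iL iF ε x0 y0 ω).filter fun k => ∃ e ∈ TT,
    crs fm co b L iL iF ε x0 y0 ω e ∧ fre W TT fm co Wl La b o ω e ∧
      k ≠ cls TT fm co La b ω e ∧
      rkC fm co b L iL iF ε x0 y0 ω k ≤ rkC fm co b L iL iF ε x0 y0 ω (cls TT fm co La b ω e)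

variable {X : Env} {W Bb B TT Cs ω ω' θ P k : Finset (ℤ × ℤ)}
  {fm : ℤ × ℤ → ι} {co : ι → Bool} {Wl La Λ : ι → Finset (ℤ × ℤ)}
  {b o : ℤ × ℤ → ℤ × ℤ} {a : ℤ × ℤ → ℂ} {s : ℤ × ℤ → ℂ} {e x y : ℤ × ℤ} {i : ι}
  {L : Finset (ℤ × ℤ)} {iL iF : ι} {ε x0 y0 h Um Vm : ℤ}

/-- a tie of the class of a free tie is free -/
lemma Multi.fre_cls (h : Multi X W Bb B TT fm co Wl La b o) (he : e ∈ TT) {e1 : ℤ × ℤ}
    (hf : fre W TT fm co Wl La b o ω e) (h1 : e1 ∈ cls TT fm co La b ω e) :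
    fre W TT fm co Wl La b o ω e1 := by
  obtain ⟨⟨h2, h3⟩, h4⟩ := mem_cls.1 h1
  have he1F : e1 ∈ TF TT fm (fm e) := mem_TF.2 ⟨h2, h3⟩
  have heF : e ∈ TF TT fm (fm e) := mem_TF.2 ⟨he, rfl⟩
  unfold fre at hf ⊢
  rw [h3]
  unfold gr at h4
  split_ifs at hf h4 ⊢ with hco
  · have h4' : Co ((ω ∪ (W \ Wl (fm e))) ∩ La (fm e)) (b e) (b e1) := by rw [h.capO']; exact h4
    rcases hf with h5 | h5
    · left
      intro x y h6 h7 h8
      refine h5 x y (Co.trans ?_ h6) h7 h8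
      rw [h.capO2]; exact h4
    · right
      have h6 : Co ((ω ∪ (W \ Wl (fm e))) ∩ La (fm e) ∪ Wl (fm e)) (o e1) (o e) :=
        ((h.tO _ hco).conn e1 he1F e heF).mono subset_union_right
      exact (h6.trans h5).trans (h4'.mono subset_union_left)
  · have hco' : co (fm e) = false := by simpa using hco
    have h4' : Co (du (La (fm e)) (ω ∪ W)) (b e) (b e1) := by rw [h.duC']; exact h4
    rcases hf with h5 | h5
    · left
      intro x y h6 h7 h8
      exact h5 x y (h4'.trans h6) h7 h8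
    · right
      have h6 : Co (du (La (fm e)) (ω ∪ W) ∪ du (Wl (fm e)) ∅) (o e1) (o e) :=
        ((h.tC _ hco').conn e1 he1F e heF).mono subset_union_right
      exact (h6.trans h5).trans (h4'.mono subset_union_left)

/-- the ties of a free class may be tied -/
lemma Multi.toggle_free (h : Multi X W Bb B TT fm co Wl La b o)
    (hc : ∀ c ∈ Cs, FarM X TT fm co Wl La b o c) (hω : ω ⊆ B) {e2 : ℤ × ℤ} (he2 : e2 ∈ TT)
    (hf : fre W TT fm co Wl La b o ω e2) (hP : P ⊆ TT) :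
    ∀ S ⊆ cls TT fm co La b ω e2,
      VM X Cs a Bb B TT fm co ω (S ∪ P) = VM X Cs a Bb B TT fm co ω P := by
  intro S
  induction S using Finset.induction_on with
  | empty => intro _; rw [empty_union]
  | insert x S hx ih =>
    intro hS
    have h1 : S ⊆ cls TT fm co La b ω e2 := (subset_insert _ _).trans hS
    have h2 : x ∈ cls TT fm co La b ω e2 := hS (mem_insert_self _ _)
    rw [insert_union, ← ih h1]
    by_cases hxP : x ∈ S ∪ P
    · rw [insert_eq_of_mem hxP]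
    · symm
      exact h.toggle hc hω (union_subset (h1.trans cls_sub) hP) (cls_sub h2) hxP
        (Or.inl (h.fre_cls he2 hf h2))

/-- **A class below a permanently tied class has no influence.** -/
theorem Cnr.irr (hM : Multi X W Bb B TT fm co Wl La b o)
    (hC : Cnr W Bb B TT fm co Wl La Λ b o L iL iF ε x0 y0 h Um Vm)
    (hc : ∀ c ∈ Cs, FarM X TT fm co Wl La b o c) (hc' : ∀ c ∈ Cs, FarM X TT fm co Wl Λ b o c)
    (hω : ω ⊆ B) {A : Finset (Finset (ℤ × ℤ))} {i : Finset (ℤ × ℤ)}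
    (hi : i ∈ Irr W TT fm co Wl La b o L iL iF ε x0 y0 ω) :
    VM X Cs a Bb B TT fm co ω (unc TT fm co La b ω (insert i A)) =
      VM X Cs a Bb B TT fm co ω (unc TT fm co La b ω A) := by
  classical
  obtain ⟨hi0, e2, he2T, hc2, hf2, hij, hrk⟩ := mem_filter.1 hi
  obtain ⟨hi1, e1', he1', hc1'⟩ := mem_filter.1 hi0
  obtain ⟨e1, he1, rfl⟩ := mem_image.1 hi1
  have he1T := (mem_filter.1 he1).1
  have hc1 := hC.crs_cls hM he1' hc1'
  have hd : Disjoint (cls TT fm co La b ω e1) (cls TT fm co La b ω e2) := by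
    rw [disjoint_left]
    intro l h1 h2
    exact hij ((cls_eq_of h1).symm.trans (cls_eq_of h2))
  set P := unc TT fm co La b ω (insert (cls TT fm co La b ω e1) A) with hP
  have hPT : P ⊆ TT := filter_subset _ _
  set S := (cls TT fm co La b ω e1) \ P ∩ unc TT fm co La b ω A with hS
  have hSP : S ∪ P = unc TT fm co La b ω A := by
    ext l
    rw [hS, mem_union, mem_inter, mem_sdiff, hP]
    unfold unc
    simp only [mem_filter, mem_insert, not_or]
    constructor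
    · rintro (⟨-, h1⟩ | ⟨h1, h2, h3⟩)
      · exact h1
      · exact ⟨h1, h3⟩
    · rintro ⟨h1, h2⟩
      by_cases h3 : cls TT fm co La b ω l = cls TT fm co La b ω e1
      · left
        refine ⟨⟨?_, fun h4 => h4.2.1 h3⟩, h1, h2⟩
        rw [← h3]; exact self_cls h1
      · right; exact ⟨h1, h3, h2⟩
  have key := hC.toggle_set (a := a) hM hc' hω (P := cls TT fm co La b ω e2 ∪ P)
    (union_subset cls_sub hPT) he1T he2T hc1 hc2 hij hrk subset_union_left S
    (inter_subset_left.trans sdiff_subset)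
    (disjoint_left.2 fun l h1 h2 => by
      have h3 := mem_sdiff.1 (mem_inter.1 h1).1
      rcases mem_union.1 h2 with h4 | h4
      · exact disjoint_left.1 hd h3.1 h4
      · exact h3.2 h4)
  have k1 := hM.toggle_free (a := a) hc hω he2T hf2 (P := P) hPT _ (Subset.refl _)
  have k2 := hM.toggle_free (a := a) hc hω he2T hf2 (P := S ∪ P)
    (by rw [hSP]; exact filter_subset _ _) _ (Subset.refl _)
  rw [← hSP, ← k2, ← k1, ← key, union_left_comm]

/-- **First order expansion with a marked corner**, the classes below permanently tied ones removed. -/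
theorem Multi.first3 (hM : Multi X W Bb B TT fm co Wl La b o) {rk : ℤ × ℤ → ℤ}
    (hC : Cnr W Bb B TT fm co Wl La Λ b o L iL iF ε x0 y0 h Um Vm)
    (hc : ∀ c ∈ Cs, FarM X TT fm co Wl La b o c) (hc' : ∀ c ∈ Cs, FarM X TT fm co Wl Λ b o c)
    (hrk : ∀ e ∈ TT, ∀ e' ∈ TT, rk e = rk e' → e = e') {M K : ℝ} (hK : 1 ≤ K)
    (hs1 : ∀ e ∈ TT, ‖s e‖ ≤ 1) (hs2 : ∀ e ∈ TT, ‖1 - s e‖ ≤ K * (1 - ‖s e‖))
    (hM' : ∀ ω ⊆ B, ∀ P ⊆ TT, ‖VM X Cs a Bb B TT fm co ω P‖ ≤ M) :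
    ‖Tot X Cs a Bb TT fm co s - Eh Bb (fun ω => U X Cs a (ω ∪ opn TT fm co TT)) -
      ∑ e ∈ TT, Eh B (fun ω => FT (TF TT fm (fm e)) b rk s e (SM TT fm co La b e ω) *
        DM X Cs a Bb B TT fm co La b e ω)‖ ≤
      Ex hf B (fun ω => chErr (fun k => ∏ e ∈ k, s e) (rkC fm co b L iL iF ε x0 y0 ω)
        (JM W TT fm co Wl La b o ω \ Irr W TT fm co Wl La b o L iL iF ε x0 y0 ω)
        (CM W TT fm co Wl La b o L iL iF ε x0 y0 ω \
          Irr W TT fm co Wl La b o L iL iF ε x0 y0 ω) M K) := by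
  classical
  set V : Finset (ℤ × ℤ) → Finset (Finset (ℤ × ℤ)) → ℂ :=
    fun ω A => VM X Cs a Bb B TT fm co ω (unc TT fm co La b ω A) with hV
  have e1 : Tot X Cs a Bb TT fm co s = Eh B (fun ω =>
      cE (fun k => ∏ e ∈ k, s e) (JM W TT fm co Wl La b o ω) (V ω)) := by
    unfold Tot
    refine (Ec_split _ hM.bB _).trans (Ec_congr fun ω hω => ?_)
    rw [hV]
    simp only
    rw [← hM.classes hc hω]
    exact Ec_swap (fun _ => (1 / 2 : ℂ)) (fun e => 1 - s e) (Bb \ B) TT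
      (fun ω' P => U X Cs a (ω ∪ ω' ∪ opn TT fm co P))
  have e2 : Eh Bb (fun ω => U X Cs a (ω ∪ opn TT fm co TT)) = Eh B (fun ω => V ω ∅) := by
    refine (Ec_split _ hM.bB _).trans (Ec_congr fun ω hω => ?_)
    rw [hV]
    simp only
    rw [unc_empty]
    rfl
  have e3 : (∑ e ∈ TT, Eh B (fun ω => FT (TF TT fm (fm e)) b rk s e
        (SM TT fm co La b e ω) * DM X Cs a Bb B TT fm co La b e ω)) =
      Eh B (fun ω => ∑ k ∈ JM W TT fm co Wl La b o ω, (∏ e ∈ k, s e) *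
        (V ω {k} - V ω ∅)) := by
    symm
    refine (Ec_congr fun ω hω => hM.sum_first (s := s) (a := a) hc hω hrk).trans ?_
    exact Ec_sum _ _ _ _
  rw [e1, e2, e3]
  rw [← Ec_sub, ← Ec_sub]
  refine Ec_half_norm fun ω hω => ?_
  have hcT : ∀ k ∈ CM W TT fm co Wl La b o L iL iF ε x0 y0 ω, k ⊆ TT := by
    intro k hk
    obtain ⟨h1, -⟩ := mem_filter.1 hk
    obtain ⟨e, -, rfl⟩ := mem_image.1 h1
    exact cls_sub
  refine first_chain' (J := JM W TT fm co Wl La b o ω) (F := V ω)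
    (C := CM W TT fm co Wl La b o L iL iF ε x0 y0 ω) (filter_subset _ _)
    ((filter_subset _ _).trans (filter_subset _ _)) hK ?_ ?_ ?_ ?_ ?_
  · intro k hk
    exact (stolz_prod (K := K) (fun e he => hs1 e (hcT k hk he))
      (fun e he => hs2 e (hcT k hk he))).1
  · intro k hk
    exact (stolz_prod (K := K) (fun e he => hs1 e (hcT k hk he))
      (fun e he => hs2 e (hcT k hk he))).2
  · intro A _
    exact hM' ω hω _ (filter_subset _ _)
  · intro A _ i hi j hj _ hjA hij hr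
    exact hC.sh hM hc' hω hi hj hjA hij hr
  · intro A _ i hi _
    exact hC.irr hM hc hc' hω hi

/-! ### Macroscopic classes -/

/-- a cluster which touches both walls and stays in the box `U, V < 2h` is surrounded by a path of the
other colour -/
def Surr (ε x0 y0 h : ℤ) (L ω : Finset (ℤ × ℤ)) : Prop :=
  ∀ c c' : Bool, c ≠ c' → ∀ u t : ℤ × ℤ, cU ε x0 y0 (nd c u) = 0 → 0 ≤ cV ε x0 y0 (nd c u) →
    Co (HS c L ω) u t → cV ε x0 y0 (nd c t) = 0 →
    (∀ x, Co (HS c L ω) u x → cU ε x0 y0 (nd c x) < 2 * h ∧ cV ε x0 y0 (nd c x) < 2 * h) →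
    ∃ g f, Co (HS c' L ω) g f ∧ cU ε x0 y0 (nd c' g) = 0 ∧ cV ε x0 y0 (nd c' f) = 0 ∧
      (∀ x, Co (HS c L ω) u x → cU ε x0 y0 (nd c x) = 0 →
        cV ε x0 y0 (nd c x) < cV ε x0 y0 (nd c' g)) ∧
      (∀ x, Co (HS c L ω) u x → cV ε x0 y0 (nd c x) = 0 →
        cU ε x0 y0 (nd c x) < cU ε x0 y0 (nd c' f)) ∧
      cV ε x0 y0 (nd c' g) ≤ 2 * h ∧ cU ε x0 y0 (nd c' f) ≤ 2 * h

/-- every wall node near the corner has a tie, exits of the small layers -/
structure CnrM (W Bb TT : Finset (ℤ × ℤ)) (fm : ℤ × ℤ → ι) (co : ι → Bool)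
    (Wl La : ι → Finset (ℤ × ℤ)) (b : ℤ × ℤ → ℤ × ℤ) (L : Finset (ℤ × ℤ)) (iL iF : ι)
    (ε x0 y0 h : ℤ) : Prop where
  laL : ∀ l ∈ L, cU ε x0 y0 l < 2 * h → l ∈ La iL
  laF : ∀ l ∈ L, cV ε x0 y0 l < 2 * h → l ∈ La iF
  fullL : ∀ x, cU ε x0 y0 (nd (co iL) x) = 0 → 1 ≤ cV ε x0 y0 (nd (co iL) x) →
    cV ε x0 y0 (nd (co iL) x) ≤ 2 * h → ∃ e ∈ TF TT fm iL, b e = x
  fullF : ∀ x, cV ε x0 y0 (nd (co iF) x) = 0 → 0 ≤ cU ε x0 y0 (nd (co iF) x) →
    cU ε x0 y0 (nd (co iF) x) ≤ 2 * h → ∃ f ∈ TF TT fm iF, b f = x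
  exL : ∀ x y, IsUnit4 (y - x) → VN (co iL) (La iL) (TF TT fm iL) b x →
    av Bb W TT fm co Wl iL (el (co iL) x y) → el (co iL) x y ∈ La iL ∨
      2 * h ≤ cU ε x0 y0 (nd (co iL) x) ∨ cV ε x0 y0 (nd (co iL) x) = 0
  exF : ∀ x y, IsUnit4 (y - x) → VN (co iF) (La iF) (TF TT fm iF) b x →
    av Bb W TT fm co Wl iF (el (co iF) x y) → el (co iF) x y ∈ La iF ∨
      2 * h ≤ cV ε x0 y0 (nd (co iF) x) ∨
        (cU ε x0 y0 (nd (co iF) x) = 0 ∧ 1 ≤ cV ε x0 y0 (nd (co iF) x))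

/-- the cluster of the tie `e` in its layer is macroscopic -/
def Mac (fm : ℤ × ℤ → ι) (co : ι → Bool) (La : ι → Finset (ℤ × ℤ)) (b : ℤ × ℤ → ℤ × ℤ)
    (ε x0 y0 h : ℤ) (ω : Finset (ℤ × ℤ)) (e : ℤ × ℤ) : Prop :=
  ∃ x, Co (HS (co (fm e)) (La (fm e)) ω) (b e) x ∧
    (h ≤ |cU ε x0 y0 (nd (co (fm e)) x) - cU ε x0 y0 (nd (co (fm e)) (b e))| ∨
      h ≤ |cV ε x0 y0 (nd (co (fm e)) x) - cV ε x0 y0 (nd (co (fm e)) (b e))|)

/-- a class which is not free has an exit -/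
lemma Multi.exit_of_not_fre (h : Multi X W Bb B TT fm co Wl La b o) (hω : ω ⊆ B)
    (hf : ¬ fre W TT fm co Wl La b o ω e) :
    ∃ x y, Co (HS (co (fm e)) (La (fm e)) ω) (b e) x ∧ IsUnit4 (y - x) ∧
      av Bb W TT fm co Wl (fm e) (el (co (fm e)) x y) ∧ el (co (fm e)) x y ∉ La (fm e) := by
  unfold fre at hf
  rcases hco : co (fm e) with _ | _
  · rw [hco, if_neg Bool.false_ne_true] at hf
    unfold FreeC SmallC at hf
    rw [not_or] at hf
    have h1 := hf.1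
    push Not at h1
    obtain ⟨x, y, h2, h3, h4, h5⟩ := h1
    rw [h.duC'] at h2
    refine ⟨x, y, ?_, h3, ?_, h5⟩
    · unfold HS; rw [if_neg Bool.false_ne_true]; exact h2
    · unfold av
      rw [hco, if_neg Bool.false_ne_true, el_false]
      intro h6
      apply h4
      simp only [mem_union] at h6 ⊢
      tauto
  · rw [hco, if_pos rfl] at hf
    rw [not_or] at hf
    have h1 := hf.1
    unfold SmallO at h1
    push Not at h1
    obtain ⟨x, y, h2, h3, h4, h5⟩ := h1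
    rw [h.capO2] at h2
    refine ⟨x, y, ?_, h3, ?_, h5⟩
    · unfold HS; rw [if_pos rfl]; exact h2
    · unfold av
      rw [hco, if_pos rfl, el_true]
      rcases mem_union.1 h4 with h6 | h6
      · exact mem_union_left _ (mem_union_left _ (h.bB (hω h6)))
      · rcases mem_union.1 h6 with h6 | h6
        · exact mem_union_right _ h6
        · exact mem_union_left _ (mem_union_right _ h6)

/-- classes which are not free and not in the chain are macroscopic -/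
theorem CnrM.mac_sdiff (hM : Multi X W Bb B TT fm co Wl La b o)
    (hC : Cnr W Bb B TT fm co Wl La Λ b o L iL iF ε x0 y0 h Um Vm)
    (hD : CnrM W Bb TT fm co Wl La b L iL iF ε x0 y0 h) (hω : ω ⊆ B)
    (hfam : ∀ e ∈ TT, fm e = iL ∨ fm e = iF)
    {k : Finset (ℤ × ℤ)} (hk : k ∈ JM W TT fm co Wl La b o ω)
    (hk' : k ∉ CM W TT fm co Wl La b o L iL iF ε x0 y0 ω) (he : e ∈ k) :
    Mac fm co La b ε x0 y0 h ω e := by
  classical
  have hh := hC.hh
  obtain ⟨e0, he0, rfl⟩ := mem_image.1 hk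
  obtain ⟨he0T, hf0⟩ := mem_filter.1 he0
  have heT : e ∈ TT := cls_sub he
  have hf : ¬ fre W TT fm co Wl La b o ω e := by
    intro h1
    refine hf0 (hM.fre_cls heT h1 ?_)
    rw [cls_eq_of he]
    exact self_cls he0T
  have hcr : ¬ crs fm co b L iL iF ε x0 y0 ω e := by
    intro h1
    refine hk' (mem_filter.2 ⟨hk, e, he, h1⟩)
  obtain ⟨x, y, h2, h3, h4, h5⟩ := hM.exit_of_not_fre hω hf
  have hVN : VN (co (fm e)) (La (fm e)) (TF TT fm (fm e)) b x :=
    VN_of_co (mem_TF.2 ⟨heT, rfl⟩) HS_el h2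
  rcases hfam e heT with hi | hi
  · rw [hi] at h2 h4 h5 hVN
    have h2' : Co (HS (co iL) L ω) (b e) x := co_HS_mono hC.laL (fun _ _ => Iff.rfl) h2
    have hU := (hC.tL e (mem_TF.2 ⟨heT, hi⟩)).2.2.1
    rcases hD.exL x y h3 hVN h4 with h6 | h6 | h6
    · exact absurd h6 h5
    · refine ⟨x, by rw [hi]; exact h2, Or.inl ?_⟩
      rw [hi]
      rw [hU, sub_zero, abs_of_nonneg (by omega)]
      omega
    · exact absurd (Or.inl ⟨hi, x, h2', h6⟩) hcr
  · rw [hi] at h2 h4 h5 hVN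
    have h2' : Co (HS (co iF) L ω) (b e) x := co_HS_mono hC.laF (fun _ _ => Iff.rfl) h2
    have hV := (hC.tF e (mem_TF.2 ⟨heT, hi⟩)).2.2.1
    rcases hD.exF x y h3 hVN h4 with h6 | h6 | ⟨h6, h7⟩
    · exact absurd h6 h5
    · refine ⟨x, by rw [hi]; exact h2, Or.inr ?_⟩
      rw [hi]
      rw [hV, sub_zero, abs_of_nonneg (by omega)]
      omega
    · exact absurd (Or.inr ⟨hi, x, h2', h6, h7⟩) hcr

/-- the bounds of the nodes of a cluster which starts at a wall -/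
lemma Cnr.low (hC : Cnr W Bb B TT fm co Wl La Λ b o L iL iF ε x0 y0 h Um Vm) {c : Bool}
    {u x : ℤ × ℤ} (hu : 0 ≤ cU ε x0 y0 (nd c u) ∧ 0 ≤ cV ε x0 y0 (nd c u))
    (hx : Co (HS c L ω) u x) : 0 ≤ cU ε x0 y0 (nd c x) ∧ 0 ≤ cV ε x0 y0 (nd c x) :=
  PS_low hC.hε (fun x y h1 h2 => by have := hC.H1 x y h1 h2; omega) hu (Or.inl ⟨x, hx, rfl⟩)

/-- a cluster of a layer which stays near its wall is a cluster of `L` -/
lemma co_layer {c : Bool} {Λ' : Finset (ℤ × ℤ)} {u : ℤ × ℤ}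
    {f : ℤ × ℤ → ℤ} (hf : ∀ a b : ℤ × ℤ, IsUnit4 (b - a) → f b ≤ f a + 1)
    (hΛ : ∀ l ∈ L, f l < 2 * h → l ∈ Λ')
    (hb : ∀ x, Co (HS c Λ' ω) u x → f (nd c x) + 1 < 2 * h) (hx : Co (HS c L ω) u x) :
    Co (HS c Λ' ω) u x := by
  induction hx with
  | refl => exact Co.refl _ _
  | @tail p q _ hpq ih =>
    obtain ⟨h1, h2⟩ := mem_HS.1 hpq.2
    refine ih.tail ⟨hpq.1, mem_HS.2 ⟨hΛ _ h1 ?_, h2⟩⟩
    have h3 := hb p ih
    have h4 := hf _ _ (nd_el (c := c) hpq.1).1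
    omega

/-- **A class of the chain is macroscopic or there is a higher class of the other family.** -/
theorem CnrM.mac_or (hM : Multi X W Bb B TT fm co Wl La b o)
    (hC : Cnr W Bb B TT fm co Wl La Λ b o L iL iF ε x0 y0 h Um Vm)
    (hD : CnrM W Bb TT fm co Wl La b L iL iF ε x0 y0 h)
    (hS : Surr ε x0 y0 h L ω) {k : Finset (ℤ × ℤ)}
    (hk : k ∈ CM W TT fm co Wl La b o L iL iF ε x0 y0 ω \
      Irr W TT fm co Wl La b o L iL iF ε x0 y0 ω) (he : e ∈ k) :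
    Mac fm co La b ε x0 y0 h ω e ∨ ∃ k' ∈ CM W TT fm co Wl La b o L iL iF ε x0 y0 ω \
      Irr W TT fm co Wl La b o L iL iF ε x0 y0 ω,
      rkC fm co b L iL iF ε x0 y0 ω k < rkC fm co b L iL iF ε x0 y0 ω k' ∧
        ∀ e' ∈ k', co (fm e') ≠ co (fm e) := by
  classical
  have hh := hC.hh
  obtain ⟨hkC, hkI⟩ := mem_sdiff.1 hk
  obtain ⟨hkJ, e1', he1', hc1'⟩ := mem_filter.1 hkC
  obtain ⟨e0, he0, rfl⟩ := mem_image.1 hkJ
  obtain ⟨he0T, hf0⟩ := mem_filter.1 he0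
  have heT : e ∈ TT := cls_sub he
  have hce : cls TT fm co La b ω e = cls TT fm co La b ω e0 := cls_eq_of he
  have hcr0 : crs fm co b L iL iF ε x0 y0 ω e0 := hC.crs_cls hM he1' hc1'
  have hcr : crs fm co b L iL iF ε x0 y0 ω e :=
    hC.crs_cls hM (by rw [hce]; exact self_cls he0T) hcr0
  -- a class of higher rank
  have hno : ∀ e' ∈ TT, crs fm co b L iL iF ε x0 y0 ω e' →
      rkC fm co b L iL iF ε x0 y0 ω (cls TT fm co La b ω e0) <
        rkC fm co b L iL iF ε x0 y0 ω (cls TT fm co La b ω e') →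
      cls TT fm co La b ω e' ∈ CM W TT fm co Wl La b o L iL iF ε x0 y0 ω \
        Irr W TT fm co Wl La b o L iL iF ε x0 y0 ω := by
    intro e' he' hcr' hlt
    have hne : cls TT fm co La b ω e0 ≠ cls TT fm co La b ω e' := fun h1 => by
      rw [h1] at hlt; exact lt_irrefl _ hlt
    by_cases hf' : fre W TT fm co Wl La b o ω e'
    · exact absurd (mem_filter.2 ⟨hkC, e', he', hcr', hf', hne, hlt.le⟩) hkI
    · have hJ' : cls TT fm co La b ω e' ∈ JM W TT fm co Wl La b o ω :=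
        mem_image_of_mem _ (mem_filter.2 ⟨he', hf'⟩)
      have hC' : cls TT fm co La b ω e' ∈ CM W TT fm co Wl La b o L iL iF ε x0 y0 ω :=
        mem_filter.2 ⟨hJ', e', self_cls he', hcr'⟩
      by_cases hI' : cls TT fm co La b ω e' ∈ Irr W TT fm co Wl La b o L iL iF ε x0 y0 ω
      · obtain ⟨-, e2, he2, hcr2, hf2, -, hr2⟩ := mem_filter.1 hI'
        have hlt2 := lt_of_lt_of_le hlt hr2
        refine absurd (mem_filter.2 ⟨hkC, e2, he2, hcr2, hf2, fun h1 => ?_, hlt2.le⟩) hkI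
        rw [h1] at hlt2; exact lt_irrefl _ hlt2
      · exact mem_sdiff.2 ⟨hC', hI'⟩
  rw [or_iff_not_imp_left]
  intro hcon
  -- the left wall node and the floor node of the class
  rcases hcr with ⟨hi, t, ht, htV⟩ | ⟨hi, g, hg, hgU, hgV⟩
  · -- left wall family
    have hL := hC.tL e (mem_TF.2 ⟨heT, hi⟩)
    unfold Mac at hcon
    rw [hi] at hcon
    push Not at hcon
    have hLa : ∀ x, Co (HS (co iL) L ω) (b e) x → Co (HS (co iL) (La iL) ω) (b e) x := by
      intro x hx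
      refine co_layer (f := cU ε x0 y0) (h := h) ?_ hD.laL ?_ hx
      · intro p q hpq
        have := unit_UV (x0 := x0) (y0 := y0) hC.hε hpq
        omega
      · intro x hx
        have h1 := (hcon x hx).1
        rw [abs_lt, hL.2.2.1] at h1
        omega
    have hcon : ∀ x, Co (HS (co iL) L ω) (b e) x → _ := fun x hx => hcon x (hLa x hx)
    have hb : 0 ≤ cU ε x0 y0 (nd (co iL) (b e)) ∧ 0 ≤ cV ε x0 y0 (nd (co iL) (b e)) := by
      rw [hL.2.2.1]; exact ⟨le_rfl, by have := hL.2.2.2.1; omega⟩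
    have hsm : ∀ x, Co (HS (co iL) L ω) (b e) x →
        cU ε x0 y0 (nd (co iL) x) < 2 * h ∧ cV ε x0 y0 (nd (co iL) x) < 2 * h := by
      intro x hx
      have h1 := hcon x hx
      have h2 := hcon t ht
      rw [abs_lt, abs_lt] at h1 h2
      rw [hL.2.2.1] at h1 h2
      rw [htV] at h2
      omega
    obtain ⟨g, f, g1, g2, g3, g4, -, g6, g7⟩ := hS (co iL) (co iF) hC.neq (b e) t hL.2.2.1 hb.2 ht
      htV hsm
    have hg0 := hb.2
    have hgV : 1 ≤ cV ε x0 y0 (nd (co iF) g) := by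
      have := g4 (b e) (Co.refl _ _) hL.2.2.1
      omega
    have hfb := hC.low (c := co iF) ⟨by omega, by omega⟩ g1
    obtain ⟨f', hf', hbf⟩ := hD.fullF f g3 hfb.1 g7
    obtain ⟨hf'T, hf'i⟩ := mem_TF.1 hf'
    have hgf : Co (HS (co iF) L ω) (b f') g := by rw [hbf]; exact g1.symm
    have hcr' : crs fm co b L iL iF ε x0 y0 ω f' := Or.inr ⟨hf'i, g, hgf, g2, hgV⟩
    have hlt : rkC fm co b L iL iF ε x0 y0 ω (cls TT fm co La b ω e0) <
        rkC fm co b L iL iF ε x0 y0 ω (cls TT fm co La b ω f') := by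
      have hr2 := le_rkF (iL := iL) (L := L) (x0 := x0) (y0 := y0) (ω := ω) hC.hε (self_cls
        (fm := fm) (co := co) (La := La) (b := b) (ω := ω) hf'T) hf'i hgf g2 hgV
      refine lt_of_lt_of_le ?_ hr2
      have hn : (hts fm co b L iL iF ε x0 y0 ω (cls TT fm co La b ω e0)).Nonempty :=
        ⟨_, e, he, Or.inl ⟨hi, rfl⟩⟩
      obtain ⟨e3, h3, h4⟩ := rk_mem hC.hε hn
      have h3i : fm e3 = iL := by
        rw [(mem_cls.1 h3).1.2, ← (mem_cls.1 he).1.2, hi]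
      rcases h4 with ⟨-, h5⟩ | ⟨h5, -⟩
      · have hL3 := hC.tL e3 (mem_TF.2 ⟨cls_sub h3, h3i⟩)
        have hco3 : Co (HS (co iL) L ω) (b e) (b e3) := by
          have := hC.co_cls (ω := ω) (e := e) (e' := e3) (by rw [hce]; exact h3) (Or.inl hi)
          rwa [hi] at this
        rw [h5]
        exact g4 (b e3) hco3 hL3.2.2.1
      · exact absurd (h3i.symm.trans h5) fun h1 => hC.neq (by rw [h1])
    refine ⟨_, hno f' hf'T hcr' hlt, hlt, fun e' he' => ?_⟩
    rw [(mem_cls.1 he').1.2, hf'i, hi]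
    exact Ne.symm hC.neq
  · -- floor family
    have hF := hC.tF e (mem_TF.2 ⟨heT, hi⟩)
    unfold Mac at hcon
    rw [hi] at hcon
    push Not at hcon
    have hLa : ∀ x, Co (HS (co iF) L ω) (b e) x → Co (HS (co iF) (La iF) ω) (b e) x := by
      intro x hx
      refine co_layer (f := cV ε x0 y0) (h := h) ?_ hD.laF ?_ hx
      · intro p q hpq
        have := unit_UV (x0 := x0) (y0 := y0) hC.hε hpq
        omega
      · intro x hx
        have h1 := (hcon x hx).2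
        rw [abs_lt, hF.2.2.1] at h1
        omega
    have hcon : ∀ x, Co (HS (co iF) L ω) (b e) x → _ := fun x hx => hcon x (hLa x hx)
    have hg0 : 0 ≤ cU ε x0 y0 (nd (co iF) g) ∧ 0 ≤ cV ε x0 y0 (nd (co iF) g) := by
      rw [hgU]; exact ⟨le_rfl, by omega⟩
    have hb := hC.low hg0 hg.symm
    have hsm : ∀ x, Co (HS (co iF) L ω) g x →
        cU ε x0 y0 (nd (co iF) x) < 2 * h ∧ cV ε x0 y0 (nd (co iF) x) < 2 * h := by
      intro x hx
      have h1 := hcon x (hg.trans hx)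
      have h2 := hcon g hg
      rw [abs_lt, abs_lt] at h1 h2
      rw [hgU] at h2
      rw [hF.2.2.1] at h1 h2
      omega
    obtain ⟨g', f', g1, g2, g3, g4, -, g6, g7⟩ := hS (co iF) (co iL) (Ne.symm hC.neq) g (b e) hgU
      hg0.2 hg.symm hF.2.2.1 hsm
    have hgV' : 1 ≤ cV ε x0 y0 (nd (co iL) g') := by
      have := g4 g (Co.refl _ _) hgU
      omega
    obtain ⟨e', he', hbe⟩ := hD.fullL g' g2 hgV' g6
    obtain ⟨he'T, he'i⟩ := mem_TF.1 he'
    have hcr' : crs fm co b L iL iF ε x0 y0 ω e' :=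
      Or.inl ⟨he'i, f', by rw [hbe]; exact g1, g3⟩
    have hlt : rkC fm co b L iL iF ε x0 y0 ω (cls TT fm co La b ω e0) <
        rkC fm co b L iL iF ε x0 y0 ω (cls TT fm co La b ω e') := by
      have hr2 := le_rkL (iF := iF) (L := L) (x0 := x0) (y0 := y0) (ω := ω) (b := b) (co := co)
        hC.hε (self_cls (fm := fm) (co := co) (La := La) (b := b) (ω := ω) he'T) he'i
      rw [hbe] at hr2
      refine lt_of_lt_of_le ?_ hr2
      have hn : (hts fm co b L iL iF ε x0 y0 ω (cls TT fm co La b ω e0)).Nonempty :=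
        ⟨_, e, he, Or.inr ⟨hi, g, hg, hgU, hgV, rfl⟩⟩
      obtain ⟨e3, h3, h4⟩ := rk_mem hC.hε hn
      have h3i : fm e3 = iF := by
        rw [(mem_cls.1 h3).1.2, ← (mem_cls.1 he).1.2, hi]
      rcases h4 with ⟨h5, -⟩ | ⟨-, g3', k1, k2, k3, k4⟩
      · exact absurd (h3i.symm.trans h5) fun h1 => hC.neq (by rw [h1])
      · have hco3 : Co (HS (co iF) L ω) (b e) (b e3) := by
          have := hC.co_cls (ω := ω) (e := e) (e' := e3) (by rw [hce]; exact h3) (Or.inr hi)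
          rwa [hi] at this
        rw [k4]
        exact g4 g3' (hg.symm.trans (hco3.trans k1)) k2
    refine ⟨_, hno e' he'T hcr' hlt, hlt, fun e'' he'' => ?_⟩
    rw [(mem_cls.1 he'').1.2, he'i, hi]
    exact hC.neq

/-- **The top of the chain is macroscopic.** -/
theorem CnrM.mac_top (hM : Multi X W Bb B TT fm co Wl La b o)
    (hC : Cnr W Bb B TT fm co Wl La Λ b o L iL iF ε x0 y0 h Um Vm)
    (hD : CnrM W Bb TT fm co Wl La b L iL iF ε x0 y0 h)
    (hS : Surr ε x0 y0 h L ω) {k : Finset (ℤ × ℤ)}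
    (hk : k ∈ tops (rkC fm co b L iL iF ε x0 y0 ω) (CM W TT fm co Wl La b o L iL iF ε x0 y0 ω \
      Irr W TT fm co Wl La b o L iL iF ε x0 y0 ω)) (he : e ∈ k) :
    Mac fm co La b ε x0 y0 h ω e := by
  obtain ⟨hk1, hmax⟩ := mem_tops.1 hk
  rcases hD.mac_or hM hC hS hk1 he with h1 | ⟨k', h1, h2, -⟩
  · exact h1
  · have := hmax k' h1
    omega

/-- the second class of the chain is macroscopic or directly below a class of the other family -/
theorem CnrM.mac_second (hM : Multi X W Bb B TT fm co Wl La b o)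
    (hC : Cnr W Bb B TT fm co Wl La Λ b o L iL iF ε x0 y0 h Um Vm)
    (hD : CnrM W Bb TT fm co Wl La b L iL iF ε x0 y0 h)
    (hS : Surr ε x0 y0 h L ω) {n m : Finset (ℤ × ℤ)}
    (hm : m ∈ tops (rkC fm co b L iL iF ε x0 y0 ω)
      ((CM W TT fm co Wl La b o L iL iF ε x0 y0 ω \
        Irr W TT fm co Wl La b o L iL iF ε x0 y0 ω).erase n)) (he : e ∈ m) :
    Mac fm co La b ε x0 y0 h ω e ∨ ∀ e' ∈ n, co (fm e') ≠ co (fm e) := by
  obtain ⟨hm1, hmax⟩ := mem_tops.1 hm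
  obtain ⟨hmn, hm2⟩ := mem_erase.1 hm1
  rcases hD.mac_or hM hC hS hm2 he with h1 | ⟨k', h1, h2, h3⟩
  · exact Or.inl h1
  · right
    by_cases hkn : k' = n
    · rw [← hkn]; exact h3
    · have := hmax k' (mem_erase.2 ⟨hkn, h1⟩)
      omega

/-- all classes in the error term are macroscopic -/
theorem CnrM.mac (hM : Multi X W Bb B TT fm co Wl La b o)
    (hC : Cnr W Bb B TT fm co Wl La Λ b o L iL iF ε x0 y0 h Um Vm)
    (hD : CnrM W Bb TT fm co Wl La b L iL iF ε x0 y0 h) (hω : ω ⊆ B)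
    (hfam : ∀ e ∈ TT, fm e = iL ∨ fm e = iF)
    (hS : Surr ε x0 y0 h L ω) {k : Finset (ℤ × ℤ)}
    (hk : k ∈ ((JM W TT fm co Wl La b o ω \ Irr W TT fm co Wl La b o L iL iF ε x0 y0 ω) \
        (CM W TT fm co Wl La b o L iL iF ε x0 y0 ω \
          Irr W TT fm co Wl La b o L iL iF ε x0 y0 ω)) ∪
      tops (rkC fm co b L iL iF ε x0 y0 ω) (CM W TT fm co Wl La b o L iL iF ε x0 y0 ω \
      Irr W TT fm co Wl La b o L iL iF ε x0 y0 ω)) (he : e ∈ k) :
    Mac fm co La b ε x0 y0 h ω e := by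
  rcases mem_union.1 hk with h1 | h1
  · obtain ⟨h2, h3⟩ := mem_sdiff.1 h1
    obtain ⟨h4, h5⟩ := mem_sdiff.1 h2
    exact hD.mac_sdiff hM hC hω hfam h4 (fun h6 => h3 (mem_sdiff.2 ⟨h6, h5⟩)) he
  · exact hD.mac_top hM hC hS h1 he

end Pool.Agent.H39.Q1
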